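import Mathlib
import Pool.Agent.TH940.YM.Tor2
import Pool.Agent.Y274.YMWalk

/-!
# Summation by parts with the lazy random walk
-/

open Filter
open scoped Topology
open Pool.Agent.W793.SCH (pk)
open Pool.Agent.TH940.YM (dF dB)

namespace Pool.Agent.Y16.YM

set_option linter.unusedSectionVars false
set_option linter.unusedVariables false
set_option maxHeartbeats 400000

noncomputable section

variable {d : ℕ}

/-- functions on the lattice -/
abbrev Fz' (d : ℕ) := (Fin d → ℤ) → ℝ

/-- forward difference -/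
def nb (i : Fin d) (g : Fz' d) : Fz' d := fun z => g (z + Pi.single i 1) - g z

/-- backward difference -/
def ns (i : Fin d) (g : Fz' d) : Fz' d := fun z => g z - g (z - Pi.single i 1)

/-- the adjoint of the forward difference -/
def na (i : Fin d) (g : Fz' d) : Fz' d := fun z => g (z - Pi.single i 1) - g z

/-- the Laplacian -/
def lap' (g : Fz' d) : Fz' d := fun z =>
  ∑ i, (g (z + Pi.single i 1) + g (z - Pi.single i 1) - 2 * g z)

/-- finite support -/
def FS (h : Fz' d) : Prop := (Function.support h).Finite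

/-- the pairing -/
def pa (h g : Fz' d) : ℝ := ∑' z, h z * g z

lemma FS.mul {h : Fz' d} (hh : FS h) (g : Fz' d) : Summable fun z => h z * g z := by
  refine summable_of_hasFiniteSupport (hh.subset fun z hz => ?_)
  rw [Function.mem_support] at hz ⊢
  exact left_ne_zero_of_mul hz

lemma FS.shift {h : Fz' d} (hh : FS h) (v : Fin d → ℤ) : FS fun z => h (z + v) := by
  have : Function.support (fun z => h (z + v)) = (Equiv.addRight v) ⁻¹' Function.support h := rfl
  unfold FS
  rw [this]
  exact hh.preimage (Equiv.injective _).injOn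

lemma FS.shift' {h : Fz' d} (hh : FS h) (v : Fin d → ℤ) : FS fun z => h (z - v) := by
  simpa only [sub_eq_add_neg] using hh.shift (-v)

lemma FS.add {h g : Fz' d} (hh : FS h) (hg : FS g) : FS fun z => h z + g z :=
  (hh.union hg).subset (Function.support_add h g)

lemma FS.sub {h g : Fz' d} (hh : FS h) (hg : FS g) : FS fun z => h z - g z :=
  (hh.union hg).subset (Function.support_sub h g)

lemma FS.smul {h : Fz' d} (hh : FS h) (c : ℝ) : FS fun z => c * h z :=
  hh.subset fun z hz => by
    rw [Function.mem_support] at hz ⊢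
    exact right_ne_zero_of_mul hz

lemma FS.sum {ι : Type*} (s : Finset ι) {h : ι → Fz' d} (hh : ∀ i ∈ s, FS (h i)) :
    FS fun z => ∑ i ∈ s, h i z := by
  classical
  induction s using Finset.induction_on with
  | empty =>
    simp only [Finset.sum_empty]
    unfold FS
    simp [Function.support]
  | insert a s ha ih =>
    simp only [Finset.sum_insert ha]
    exact (hh a (Finset.mem_insert_self _ _)).add
      (ih fun i hi => hh i (Finset.mem_insert_of_mem hi))

lemma FS.na {h : Fz' d} (hh : FS h) (i : Fin d) : FS (na i h) := (hh.shift' _).sub hh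

lemma pa_add {h : Fz' d} (hh : FS h) (g g' : Fz' d) :
    pa h (fun z => g z + g' z) = pa h g + pa h g' := by
  unfold pa
  rw [← (hh.mul g).tsum_add (hh.mul g')]
  exact tsum_congr fun z => by ring

lemma pa_sub {h : Fz' d} (hh : FS h) (g g' : Fz' d) :
    pa h (fun z => g z - g' z) = pa h g - pa h g' := by
  unfold pa
  rw [← (hh.mul g).tsum_sub (hh.mul g')]
  exact tsum_congr fun z => by ring

lemma pa_smul (h : Fz' d) (c : ℝ) (g : Fz' d) : pa h (fun z => c * g z) = c * pa h g := by
  unfold pa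
  rw [← tsum_mul_left]
  exact tsum_congr fun z => by ring

lemma pa_sum {h : Fz' d} (hh : FS h) {ι : Type*} (s : Finset ι) (g : ι → Fz' d) :
    pa h (fun z => ∑ i ∈ s, g i z) = ∑ i ∈ s, pa h (g i) := by
  unfold pa
  rw [← Summable.tsum_finsetSum fun i _ => hh.mul (g i)]
  exact tsum_congr fun z => by rw [Finset.mul_sum]

lemma pa_shift (h g : Fz' d) (v : Fin d → ℤ) :
    pa h (fun z => g (z + v)) = pa (fun z => h (z - v)) g := by
  unfold pa
  rw [← (Equiv.addRight v).tsum_eq fun z => h (z - v) * g z]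
  refine tsum_congr fun z => ?_
  simp only [Equiv.coe_addRight]
  rw [add_sub_cancel_right]

lemma pa_nb {h : Fz' d} (hh : FS h) (i : Fin d) (g : Fz' d) : pa h (nb i g) = pa (na i h) g := by
  unfold nb
  rw [pa_sub hh, pa_shift]
  unfold na pa
  rw [← ((hh.shift' _).mul g).tsum_sub (hh.mul g)]
  exact tsum_congr fun z => by ring

lemma ns_eq (i : Fin d) (g : Fz' d) : ns i g = nb i fun z => g (z - Pi.single i 1) := by
  funext z
  unfold ns nb
  beta_reduce
  rw [add_sub_cancel_right]

lemma FS.dB {h : Fz' d} (hh : FS h) (J : List (Fin d)) : FS (dB J h) := by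
  induction J with
  | nil => exact hh
  | cons i J ih => exact ih.na i

lemma dB_cons (i : Fin d) (J : List (Fin d)) (h : Fz' d) : dB (i :: J) h = na i (dB J h) := rfl

lemma dF_cons (i : Fin d) (J : List (Fin d)) (g : Fz' d) : dF (i :: J) g = nb i (dF J g) := rfl

lemma dF_nb (J : List (Fin d)) (i : Fin d) (g : Fz' d) : dF J (nb i g) = nb i (dF J g) := by
  induction J with
  | nil => rfl
  | cons j J ih =>
    rw [dF_cons, dF_cons, ih]
    funext z
    unfold nb
    rw [add_right_comm z]
    ring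

lemma pa_dF {h : Fz' d} (hh : FS h) (J : List (Fin d)) (g : Fz' d) :
    pa (dB J h) g = pa h (dF J g) := by
  induction J generalizing g with
  | nil => rfl
  | cons i J ih => rw [dB_cons, ← pa_nb (hh.dB J), ih, dF_nb, dF_cons]

lemma fs_pk (t : ℕ) : FS (pk d t) := by
  induction t with
  | zero =>
    refine (Set.finite_singleton (0 : Fin d → ℤ)).subset fun z hz => ?_
    rw [Function.mem_support] at hz
    by_contra hc
    exact hz (if_neg hc)
  | succ t ih =>
    have h1 : FS fun z => 1 / 2 * pk d t z + 1 / (4 * d : ℝ) *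
        ∑ i, (pk d t (z + Pi.single i 1) + pk d t (z - Pi.single i 1)) :=
      (ih.smul _).add ((FS.sum _ fun i _ => (ih.shift _).add (ih.shift' _)).smul _)
    exact h1

lemma pk_step (hd : 1 ≤ d) (t : ℕ) (z : Fin d → ℤ) :
    pk d (t + 1) z = pk d t z + 1 / (4 * d : ℝ) * lap' (pk d t) z := by
  have h0 : (d : ℝ) ≠ 0 := by exact_mod_cast (by omega : d ≠ 0)
  show 1 / 2 * pk d t z + 1 / (4 * d : ℝ) *
        ∑ i, (pk d t (z + Pi.single i 1) + pk d t (z - Pi.single i 1)) = _
  unfold lap'
  rw [Finset.sum_sub_distrib, Finset.sum_const, Finset.card_univ, Fintype.card_fin, nsmul_eq_mul]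
  field_simp
  ring

lemma pa_lap {h : Fz' d} (hh : FS h) (g : Fz' d) : pa (lap' h) g = pa h (lap' g) := by
  unfold lap'
  rw [pa_sum hh]
  have h1 : ∀ i, pa h (fun z => g (z + Pi.single i 1) + g (z - Pi.single i 1) - 2 * g z) =
      pa (fun z => h (z + Pi.single i 1) + h (z - Pi.single i 1) - 2 * h z) g := by
    intro i
    have e0 := pa_sub hh (fun z => g (z + Pi.single i 1) + g (z - Pi.single i 1))
      (fun z => 2 * g z)
    beta_reduce at e0
    rw [e0, pa_add hh, pa_smul, pa_shift]
    have e1 : pa h (fun z => g (z - Pi.single i 1)) = pa (fun z => h (z + Pi.single i 1)) g := by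
      have := pa_shift h g (-Pi.single i 1)
      simpa only [sub_neg_eq_add, ← sub_eq_add_neg] using this
    rw [e1]
    unfold pa
    rw [← tsum_mul_left, ← ((hh.shift' _).mul g).tsum_add ((hh.shift _).mul g),
      ← (((hh.shift' _).mul g).add ((hh.shift _).mul g)).tsum_sub ((hh.mul g).mul_left 2)]
    exact tsum_congr fun z => by ring
  rw [Finset.sum_congr rfl fun i _ => h1 i]
  unfold pa
  rw [← Summable.tsum_finsetSum fun i _ => FS.mul (((hh.shift _).add (hh.shift' _)).sub
    (hh.smul 2)) g]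
  exact tsum_congr fun z => by rw [Finset.sum_mul]

/-- the pairing with the walk -/
def WJ (J : List (Fin d)) (t : ℕ) (g : Fz' d) : ℝ := pa (dB J (pk d t)) g

lemma WJ_nb (J : List (Fin d)) (t : ℕ) (i : Fin d) (g : Fz' d) :
    WJ J t (nb i g) = WJ (i :: J) t g := pa_nb ((fs_pk t).dB J) i g

lemma WJ_ns (J : List (Fin d)) (t : ℕ) (i : Fin d) (g : Fz' d) :
    WJ J t (ns i g) = WJ (i :: J) t fun z => g (z - Pi.single i 1) := by
  rw [ns_eq, WJ_nb]

lemma dF_lap (J : List (Fin d)) (g : Fz' d) : dF J (lap' g) = lap' (dF J g) := by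
  induction J with
  | nil => rfl
  | cons j J ih =>
    rw [dF_cons, ih, dF_cons]
    funext z
    unfold nb lap'
    rw [← Finset.sum_sub_distrib]
    refine Finset.sum_congr rfl fun i _ => ?_
    beta_reduce
    rw [add_right_comm z, sub_add_eq_add_sub z]
    ring

lemma WJ_step (hd : 1 ≤ d) (J : List (Fin d)) (t : ℕ) (g : Fz' d) :
    WJ J (t + 1) g = WJ J t g + 1 / (4 * d : ℝ) * WJ J t (lap' g) := by
  unfold WJ
  rw [pa_dF (fs_pk _), pa_dF (fs_pk _), pa_dF (fs_pk _), dF_lap, ← pa_lap (fs_pk t)]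
  unfold pa
  rw [← tsum_mul_left, ← ((fs_pk t).mul _).tsum_add]
  · exact tsum_congr fun z => by rw [pk_step hd]; ring
  · have h1 : FS (lap' (pk d t)) := FS.sum _ fun i _ =>
      (((fs_pk t).shift _).add ((fs_pk t).shift' _)).sub ((fs_pk t).smul 2)
    exact (h1.mul _).mul_left _

lemma WJ_zero (J : List (Fin d)) (g : Fz' d) : WJ J 0 g = dF J g 0 := by
  unfold WJ
  rw [pa_dF (fs_pk _)]
  unfold pa
  rw [tsum_eq_single 0]
  · show (if (0 : Fin d → ℤ) = 0 then (1:ℝ) else 0) * _ = _
    rw [if_pos rfl, one_mul]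
  · intro z hz
    show (if z = 0 then (1:ℝ) else 0) * _ = _
    rw [if_neg hz, zero_mul]

/-- the telescoping identity -/
theorem WJ_tele (hd : 1 ≤ d) (J : List (Fin d)) (T : ℕ) (g : Fz' d) :
    dF J g 0 = WJ J T g - 1 / (4 * d : ℝ) * ∑ t ∈ Finset.range T, WJ J t (lap' g) := by
  induction T with
  | zero => rw [WJ_zero]; simp
  | succ T ih =>
    rw [Finset.sum_range_succ, WJ_step hd, ih]; ring

/-! ### the size of the kernels -/

lemma pk_walk (t : ℕ) : pk d t = Pool.Agent.Y274.YMWalk.walk d t := by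
  induction t with
  | zero => funext z; rfl
  | succ t ih =>
    funext z
    show 1 / 2 * pk d t z + 1 / (4 * d : ℝ) *
        ∑ i, (pk d t (z + Pi.single i 1) + pk d t (z - Pi.single i 1)) = _
    rw [ih]; rfl

lemma dF_walk (J : List (Fin d)) (g : Fz' d) : dF J g = Pool.Agent.Y274.YMWalk.fdiff J g := by
  induction J with
  | nil => rfl
  | cons j J ih =>
    funext z
    show dF J g (z + Pi.single j 1) - dF J g z = _
    rw [ih]; rfl

lemma pk_even (t : ℕ) (z : Fin d → ℤ) : pk d t (-z) = pk d t z := by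
  induction t generalizing z with
  | zero =>
    show (if -z = 0 then (1:ℝ) else 0) = if z = 0 then 1 else 0
    simp only [neg_eq_zero]
  | succ t ih =>
    show 1 / 2 * pk d t (-z) + 1 / (4 * d : ℝ) *
        ∑ i, (pk d t (-z + Pi.single i 1) + pk d t (-z - Pi.single i 1)) =
        1 / 2 * pk d t z + 1 / (4 * d : ℝ) *
        ∑ i, (pk d t (z + Pi.single i 1) + pk d t (z - Pi.single i 1))
    rw [ih]
    congr 2
    refine Finset.sum_congr rfl fun i _ => ?_
    rw [← ih (z + Pi.single i 1), ← ih (z - Pi.single i 1), neg_add', neg_sub,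
      sub_eq_add_neg (Pi.single i 1 : Fin d → ℤ) z, add_comm (Pi.single i 1 : Fin d → ℤ) (-z)]
    ring

lemma dB_refl {h : Fz' d} (hh : ∀ z, h (-z) = h z) (J : List (Fin d)) (z : Fin d → ℤ) :
    dB J h z = dF J h (-z) := by
  induction J generalizing z with
  | nil => exact (hh z).symm
  | cons i J ih =>
    show dB J h (z - Pi.single i 1) - dB J h z = dF J h (-z + Pi.single i 1) - dF J h (-z)
    rw [ih, ih, neg_sub, sub_eq_add_neg, add_comm]
    ring_nf

/-- the length of a lattice vector -/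
def ll (z : Fin d → ℤ) : ℝ := ∑ i, |(z i : ℝ)|

lemma ll_nonneg (z : Fin d → ℤ) : 0 ≤ ll z := Finset.sum_nonneg fun _ _ => abs_nonneg _

lemma ll_neg (z : Fin d → ℤ) : ll (-z) = ll z := by
  unfold ll
  refine Finset.sum_congr rfl fun i _ => ?_
  rw [Pi.neg_apply, Int.cast_neg, abs_neg]

/-- the weighted mass of the kernel -/
def KK (J : List (Fin d)) (s t : ℕ) : ℝ := ∑' z, |dB J (pk d t) z| * (ll z + 2) ^ s

lemma FS.abs {h : Fz' d} (hh : FS h) : FS fun z => |h z| :=
  hh.subset fun z hz => by
    rw [Function.mem_support] at hz ⊢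
    exact fun h0 => hz (by rw [h0, abs_zero])

lemma WJ_le (J : List (Fin d)) (s t : ℕ) {M : ℝ} {g : Fz' d}
    (hg : ∀ z, |g z| ≤ M * (ll z + 2) ^ s) : |WJ J t g| ≤ M * KK J s t := by
  have hF := (fs_pk (d := d) t).dB J
  unfold WJ pa KK
  have h1 : Summable fun z => ‖dB J (pk d t) z * g z‖ := (hF.mul g).norm
  have h2 : Summable fun z => M * (|dB J (pk d t) z| * (ll z + 2) ^ s) :=
    (hF.abs.mul fun z => (ll z + 2) ^ s).mul_left M
  rw [← Real.norm_eq_abs, ← tsum_mul_left]
  refine (norm_tsum_le_tsum_norm h1).trans (h1.tsum_le_tsum (fun z => ?_) h2)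
  rw [norm_mul, Real.norm_eq_abs, Real.norm_eq_abs]
  calc |dB J (pk d t) z| * |g z| ≤ |dB J (pk d t) z| * (M * (ll z + 2) ^ s) :=
        mul_le_mul_of_nonneg_left (hg z) (abs_nonneg _)
    _ = _ := by ring

lemma KK_nonneg (J : List (Fin d)) (s t : ℕ) : 0 ≤ KK J s t :=
  tsum_nonneg fun z => mul_nonneg (abs_nonneg _) (by have := ll_nonneg z; positivity)

end

end Pool.Agent.Y16.YM
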