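import Mathlib
import Pool.Agent.Y16.YM.Ker

/-!
# The limit of the differences of a two form with given differential and divergence
-/

open Filter
open scoped Topology
open Pool.Agent.W793.SCH (pk)
open Pool.Agent.TH940.YM (dF dB)

namespace Pool.Agent.Y16.YM

set_option linter.unusedSectionVars false
set_option linter.unusedVariables false
set_option maxHeartbeats 400000

noncomputable section

variable {d : ℕ}

lemma pow_split {l : ℝ} (hl : 0 ≤ l) (s : ℕ) : (l + 2) ^ s ≤ 2 ^ s * (l ^ s + 2 ^ s) := by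
  rcases le_total l 2 with h | h
  · calc (l + 2) ^ s ≤ (2 * 2) ^ s := pow_le_pow_left₀ (by linarith) (by linarith) s
      _ = 2 ^ s * 2 ^ s := by rw [mul_pow]
      _ ≤ _ := mul_le_mul_of_nonneg_left (by have := pow_nonneg hl s; linarith) (by positivity)
  · calc (l + 2) ^ s ≤ (2 * l) ^ s := pow_le_pow_left₀ (by linarith) (by linarith) s
      _ = 2 ^ s * l ^ s := by rw [mul_pow]
      _ ≤ _ := mul_le_mul_of_nonneg_left (by
          have : (0:ℝ) ≤ 2 ^ s := by positivity
          linarith) (by positivity)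

lemma mass_bd (hd : 1 ≤ d) (J : List (Fin d)) (s : ℕ) : ∃ C : ℝ, 0 < C ∧ ∀ t : ℕ, 1 ≤ t →
    ∑' z, |dB J (pk d t) z| * ll z ^ s ≤ C * (Real.sqrt t ^ s / Real.sqrt t ^ J.length) := by
  obtain ⟨C, hC, h⟩ := Pool.Agent.Y274.YMWalk.walk_l1 d hd J s
  refine ⟨C, hC, fun t ht => ?_⟩
  have ht0 : (0:ℝ) < Real.sqrt t := Real.sqrt_pos.2 (by exact_mod_cast ht)
  have e1 : ∑' z, |dB J (pk d t) z| * ll z ^ s = ∑' z, |dF J (pk d t) z| * ll z ^ s := by
    rw [← (Equiv.neg (Fin d → ℤ)).tsum_eq]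
    refine tsum_congr fun z => ?_
    simp only [Equiv.neg_apply]
    rw [dB_refl (pk_even t), neg_neg, ll_neg]
  rw [e1]
  refine Real.tsum_le_of_sum_le (fun z => mul_nonneg (abs_nonneg _)
    (pow_nonneg (ll_nonneg z) _)) fun A => ?_
  have h1 := h t A ht
  rw [← pk_walk, ← dF_walk] at h1
  rw [← mul_div_assoc, le_div_iff₀ (by positivity), mul_comm]
  exact h1

lemma KK_bd (hd : 1 ≤ d) (J : List (Fin d)) (s : ℕ) : ∃ C : ℝ, 0 < C ∧ ∀ t : ℕ, 1 ≤ t →
    KK J s t ≤ C * (Real.sqrt t ^ s / Real.sqrt t ^ J.length) := by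
  obtain ⟨C0, hC0, h0⟩ := mass_bd hd J 0
  obtain ⟨C1, hC1, h1⟩ := mass_bd hd J s
  refine ⟨2 ^ s * (C1 + 2 ^ s * C0), by positivity, fun t ht => ?_⟩
  have ht1 : (1:ℝ) ≤ Real.sqrt t := Real.one_le_sqrt.2 (by exact_mod_cast ht)
  have ht0 : (0:ℝ) < Real.sqrt t := by linarith
  have hF := (fs_pk (d := d) t).dB J
  have s1 : Summable fun z => |dB J (pk d t) z| * (ll z + 2) ^ s := hF.abs.mul _
  have s2 : Summable fun z => |dB J (pk d t) z| * ll z ^ s := hF.abs.mul _
  have s3 : Summable fun z => |dB J (pk d t) z| * ll z ^ 0 := hF.abs.mul fun z => ll z ^ 0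
  have s4 : Summable fun z => 2 ^ s * (|dB J (pk d t) z| * ll z ^ s +
      2 ^ s * (|dB J (pk d t) z| * ll z ^ 0)) := (s2.add (s3.mul_left _)).mul_left _
  have k1 : KK J s t ≤ ∑' z, 2 ^ s * (|dB J (pk d t) z| * ll z ^ s +
      2 ^ s * (|dB J (pk d t) z| * ll z ^ 0)) := by
    unfold KK
    refine s1.tsum_le_tsum (fun z => ?_) s4
    have h2 := pow_split (ll_nonneg z) s
    calc _ ≤ |dB J (pk d t) z| * (2 ^ s * (ll z ^ s + 2 ^ s)) :=
          mul_le_mul_of_nonneg_left h2 (abs_nonneg _)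
      _ = _ := by rw [pow_zero]; ring
  rw [tsum_mul_left, s2.tsum_add (s3.mul_left _), tsum_mul_left] at k1
  refine k1.trans ?_
  have h2 := h0 t ht
  have h3 := h1 t ht
  rw [pow_zero] at h2
  have h4 : C0 * (1 / Real.sqrt t ^ J.length) ≤ C0 * (Real.sqrt t ^ s / Real.sqrt t ^ J.length) := by
    refine mul_le_mul_of_nonneg_left (div_le_div_of_nonneg_right (one_le_pow₀ ht1)
      (by positivity)) hC0.le
  calc _ ≤ 2 ^ s * (C1 * (Real.sqrt t ^ s / Real.sqrt t ^ J.length) +
        2 ^ s * (C0 * (Real.sqrt t ^ s / Real.sqrt t ^ J.length))) := by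
        refine mul_le_mul_of_nonneg_left (add_le_add h3 ?_) (by positivity)
        refine mul_le_mul_of_nonneg_left ?_ (by positivity)
        simp only [pow_zero] at h2 ⊢
        exact h2.trans h4
    _ = _ := by ring

lemma KK_bd3 (hd : 1 ≤ d) (J : List (Fin d)) (s : ℕ) (hJ : s + 3 ≤ J.length) :
    ∃ C : ℝ, 0 < C ∧ ∀ t : ℕ, 1 ≤ t → KK J s t ≤ C / Real.sqrt t ^ 3 := by
  obtain ⟨C, hC, h⟩ := KK_bd hd J s
  refine ⟨C, hC, fun t ht => (h t ht).trans ?_⟩
  have ht1 : (1:ℝ) ≤ Real.sqrt t := Real.one_le_sqrt.2 (by exact_mod_cast ht)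
  have ht0 : (0:ℝ) < Real.sqrt t := by linarith
  rw [div_eq_mul_one_div C]
  refine mul_le_mul_of_nonneg_left ?_ hC.le
  rw [div_le_div_iff₀ (by positivity) (by positivity), one_mul, ← pow_add]
  exact pow_le_pow_right₀ ht1 hJ

lemma summable_sqrt3 : Summable fun t : ℕ => 1 / Real.sqrt t ^ 3 := by
  have h := Real.summable_one_div_nat_rpow (p := 3 / 2)
  have h1 : Summable fun t : ℕ => 1 / (t : ℝ) ^ (3 / 2 : ℝ) := h.2 (by norm_num)
  refine h1.congr fun t => ?_
  congr 1
  rw [Real.sqrt_eq_rpow, ← Real.rpow_natCast, ← Real.rpow_mul (Nat.cast_nonneg _)]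
  norm_num

lemma KK_summable (hd : 1 ≤ d) (J : List (Fin d)) (s : ℕ) (hJ : s + 3 ≤ J.length) :
    Summable fun t => KK J s t := by
  obtain ⟨C, hC, h⟩ := KK_bd3 hd J s hJ
  rw [← summable_nat_add_iff 1]
  have h1 : Summable fun t : ℕ => C * (1 / Real.sqrt ((t + 1 : ℕ) : ℝ) ^ 3) :=
    ((summable_nat_add_iff 1).2 summable_sqrt3).mul_left C
  refine Summable.of_nonneg_of_le (fun t => KK_nonneg _ _ _) (fun t => ?_) h1
  have := h (t + 1) (by omega)
  rw [mul_one_div]
  exact this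

/-! ### forms -/

/-- the differential of a two form -/
def dT (w : Fin d → Fin d → Fz' d) (i j k : Fin d) : Fz' d := fun z =>
  nb i (w j k) z + nb j (w k i) z + nb k (w i j) z

/-- the divergence of a two form -/
def dvg (w : Fin d → Fin d → Fz' d) (k : Fin d) : Fz' d := fun z => ∑ i, ns i (w i k) z

/-- the Laplacian of a two form in terms of its differential and divergence -/
def Lf (w : Fin d → Fin d → Fz' d) (s : Fin d → Fz' d) (j k : Fin d) : Fz' d := fun z =>
  (∑ i, ns i (dT w i j k) z) + nb j (s k) z - nb k (s j) z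

lemma hodge {w : Fin d → Fin d → Fz' d} (hw : ∀ j k z, w k j z = -w j k z) (j k : Fin d)
    (z : Fin d → ℤ) : lap' (w j k) z = Lf w (dvg w) j k z := by
  unfold Lf dvg lap' dT
  have e1 : nb j (fun z => ∑ i, ns i (w i k) z) z = ∑ i, nb j (ns i (w i k)) z := by
    unfold nb; rw [Finset.sum_sub_distrib]
  have e2 : nb k (fun z => ∑ i, ns i (w i j) z) z = ∑ i, nb k (ns i (w i j)) z := by
    unfold nb; rw [Finset.sum_sub_distrib]
  rw [e1, e2, ← Finset.sum_add_distrib, ← Finset.sum_sub_distrib]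
  refine Finset.sum_congr rfl fun i _ => ?_
  unfold ns nb
  beta_reduce
  rw [hw k i, hw k i, hw k i, hw k i]
  have a1 : z - Pi.single i 1 + Pi.single i 1 = z := sub_add_cancel _ _
  have a2 : z + Pi.single i 1 - Pi.single i 1 = z := add_sub_cancel_right _ _
  have a3 : ∀ v : Fin d → ℤ, z + v - Pi.single i 1 = z - Pi.single i 1 + v := fun v => by abel
  rw [a1, a3 (Pi.single j 1), a3 (Pi.single k 1), hw i k, hw i k, hw i k, hw i k]
  ring

lemma dT_exact (w : Fin d → Fin d → Fz' d) (a : Fin d → Fz' d) {v : Fin d → Fin d → Fz' d}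
    (h : ∀ j k z, v j k z = w j k z + (nb j (a k) z - nb k (a j) z)) (i j k : Fin d)
    (z : Fin d → ℤ) : dT v i j k z = dT w i j k z := by
  unfold dT nb
  simp only [h]
  unfold nb
  have a1 : z + Pi.single j 1 + Pi.single i 1 = z + Pi.single i 1 + Pi.single j 1 := by abel
  have a2 : z + Pi.single k 1 + Pi.single i 1 = z + Pi.single i 1 + Pi.single k 1 := by abel
  have a3 : z + Pi.single k 1 + Pi.single j 1 = z + Pi.single j 1 + Pi.single k 1 := by abel
  rw [a1, a2, a3]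
  ring

lemma ll_add (z : Fin d → ℤ) (i : Fin d) : ll (z + Pi.single i 1) ≤ ll z + 1 := by
  unfold ll
  have h : ∀ j, |((z + Pi.single i 1 : Fin d → ℤ) j : ℝ)| ≤ |(z j : ℝ)| +
      (if j = i then 1 else 0) := by
    intro j
    rw [Pi.add_apply]
    push_cast
    by_cases hj : j = i
    · subst hj
      rw [Pi.single_eq_same, if_pos rfl]
      refine (abs_add_le _ _).trans ?_
      simp
    · rw [Pi.single_eq_of_ne hj, if_neg hj]; simp
  calc _ ≤ ∑ j, (|(z j : ℝ)| + (if j = i then 1 else 0)) := Finset.sum_le_sum fun j _ => h j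
    _ = _ := by rw [Finset.sum_add_distrib]; simp

lemma ll_sub (z : Fin d → ℤ) (i : Fin d) : ll (z - Pi.single i 1) ≤ ll z + 1 := by
  have h := ll_add (-z) i
  have e : z - Pi.single i 1 = -(-z + Pi.single i 1) := by abel
  rw [e, ll_neg]
  rw [ll_neg] at h
  exact h

lemma pk_supp (t : ℕ) (z : Fin d → ℤ) (h : (t : ℝ) < ll z) : pk d t z = 0 := by
  induction t generalizing z with
  | zero =>
    show (if z = 0 then (1:ℝ) else 0) = 0
    rw [if_neg]
    rintro rfl
    simp [ll] at h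
  | succ t ih =>
    show 1 / 2 * pk d t z + 1 / (4 * d : ℝ) *
        ∑ i, (pk d t (z + Pi.single i 1) + pk d t (z - Pi.single i 1)) = 0
    push_cast at h
    rw [ih z (by linarith)]
    have e : ∑ i, (pk d t (z + Pi.single i 1) + pk d t (z - Pi.single i 1)) = 0 := by
      refine Finset.sum_eq_zero fun i _ => ?_
      have h1 := ll_sub (z + Pi.single i 1) i
      rw [add_sub_cancel_right] at h1
      have h2 := ll_add (z - Pi.single i 1) i
      rw [sub_add_cancel] at h2
      rw [ih _ (by linarith), ih _ (by linarith), add_zero]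
    rw [e]; ring

lemma dB_supp (J : List (Fin d)) (t : ℕ) (z : Fin d → ℤ) (h : (t : ℝ) + J.length < ll z) :
    dB J (pk d t) z = 0 := by
  induction J generalizing z with
  | nil => exact pk_supp t z (by simpa using h)
  | cons i J ih =>
    rw [List.length_cons] at h
    push_cast at h
    have h2 := ll_add (z - Pi.single i 1) i
    rw [sub_add_cancel] at h2
    show dB J (pk d t) (z - Pi.single i 1) - dB J (pk d t) z = 0
    rw [ih _ (by linarith), ih _ (by linarith), sub_zero]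

lemma WJ_congr (J : List (Fin d)) (t : ℕ) {g g' : Fz' d}
    (h : ∀ z, ll z ≤ t + J.length → g z = g' z) : WJ J t g = WJ J t g' := by
  unfold WJ pa
  refine tsum_congr fun z => ?_
  rcases le_or_gt (ll z) (t + J.length) with h1 | h1
  · rw [h z h1]
  · rw [dB_supp J t z h1, zero_mul, zero_mul]

lemma WJ_tendsto {X : Type*} {F : Filter X} (J : List (Fin d)) (t : ℕ) {g : X → Fz' d}
    {g' : Fz' d} (h : ∀ z, Tendsto (fun x => g x z) F (𝓝 (g' z))) :
    Tendsto (fun x => WJ J t (g x)) F (𝓝 (WJ J t g')) := by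
  obtain ⟨S, hS⟩ : ∃ S : Finset (Fin d → ℤ), ∀ z ∉ S, dB J (pk d t) z = 0 := by
    refine ⟨((fs_pk (d := d) t).dB J).toFinset, fun z hz => ?_⟩
    rw [Set.Finite.mem_toFinset, Function.mem_support, not_not] at hz
    exact hz
  have e : ∀ g : Fz' d, WJ J t g = ∑ z ∈ S, dB J (pk d t) z * g z := fun g =>
    tsum_eq_sum fun z hz => by rw [hS z hz, zero_mul]
  simp only [e]
  exact tendsto_finsetSum _ fun z _ => (h z).const_mul _

/-- the expansion of the pairing -/
lemma WJ_Lf (J : List (Fin d)) (t : ℕ) (w : Fin d → Fin d → Fz' d) (s : Fin d → Fz' d)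
    (j k : Fin d) : WJ J t (Lf w s j k) =
      (∑ i, (WJ (i :: i :: J) t (fun z => w j k (z - Pi.single i 1)) +
        WJ (j :: i :: J) t (fun z => w k i (z - Pi.single i 1)) +
        WJ (k :: i :: J) t (fun z => w i j (z - Pi.single i 1)))) +
      WJ (j :: J) t (s k) - WJ (k :: J) t (s j) := by
  have hF := (fs_pk (d := d) t).dB J
  have e0 : Lf w s j k = fun z => ((∑ i, ns i (dT w i j k) z) + nb j (s k) z) - nb k (s j) z := rfl
  have e1 : WJ J t (Lf w s j k) = (∑ i, WJ J t (ns i (dT w i j k))) + WJ J t (nb j (s k)) -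
      WJ J t (nb k (s j)) := by
    rw [e0]
    unfold WJ
    have a1 := pa_sub hF (fun z => (∑ i, ns i (dT w i j k) z) + nb j (s k) z) (nb k (s j))
    have a2 := pa_add hF (fun z => ∑ i, ns i (dT w i j k) z) (nb j (s k))
    have a3 := pa_sum hF Finset.univ (fun i => ns i (dT w i j k))
    beta_reduce at a1 a2 a3
    rw [a1, a2, a3]
  rw [e1, WJ_nb, WJ_nb]
  congr 2
  refine Finset.sum_congr rfl fun i _ => ?_
  rw [WJ_ns]
  have hF' := (fs_pk (d := d) t).dB (i :: J)
  have e2 : (fun z => dT w i j k (z - Pi.single i 1)) = fun z =>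
      (nb i (fun z => w j k (z - Pi.single i 1)) z + nb j (fun z => w k i (z - Pi.single i 1)) z) +
        nb k (fun z => w i j (z - Pi.single i 1)) z := by
    funext z
    unfold dT nb
    beta_reduce
    have a3 : ∀ v : Fin d → ℤ, z + v - Pi.single i 1 = z - Pi.single i 1 + v := fun v => by abel
    rw [a3, a3, a3]
  rw [e2]
  have a1 := pa_add hF' (fun z => nb i (fun z => w j k (z - Pi.single i 1)) z +
    nb j (fun z => w k i (z - Pi.single i 1)) z) (nb k (fun z => w i j (z - Pi.single i 1)))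
  have a2 := pa_add hF' (nb i (fun z => w j k (z - Pi.single i 1)))
    (nb j (fun z => w k i (z - Pi.single i 1)))
  beta_reduce at a1 a2
  unfold WJ
  rw [a1, a2]
  have b1 := WJ_nb (i :: J) t i (fun z => w j k (z - Pi.single i 1))
  have b2 := WJ_nb (i :: J) t j (fun z => w k i (z - Pi.single i 1))
  have b3 := WJ_nb (i :: J) t k (fun z => w i j (z - Pi.single i 1))
  unfold WJ at b1 b2 b3
  rw [b1, b2, b3]

/-- the size of the pairing -/
def BB (J : List (Fin d)) (j k : Fin d) (t : ℕ) : ℝ :=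
  (∑ i, (KK (i :: i :: J) 2 t + KK (j :: i :: J) 2 t + KK (k :: i :: J) 2 t)) +
    KK (j :: J) 1 t + KK (k :: J) 1 t

lemma BB_summable (hd : 1 ≤ d) {J : List (Fin d)} (hJ : 3 ≤ J.length) (j k : Fin d) :
    Summable fun t => BB J j k t := by
  unfold BB
  have h2 : ∀ a b : Fin d, Summable fun t => KK (a :: b :: J) 2 t := fun a b =>
    KK_summable hd _ _ (by simp only [List.length_cons]; omega)
  have h1 : ∀ a : Fin d, Summable fun t => KK (a :: J) 1 t := fun a =>
    KK_summable hd _ _ (by simp only [List.length_cons]; omega)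
  exact ((summable_sum fun i _ => ((h2 i i).add (h2 j i)).add (h2 k i)).add (h1 j)).add (h1 k)

lemma WJ_Lf_le (J : List (Fin d)) (t : ℕ) {w : Fin d → Fin d → Fz' d} {s : Fin d → Fz' d}
    {M : ℝ} (hM : 0 ≤ M) (hw : ∀ j k z, |w j k z| ≤ M * (ll z + 1) ^ 2)
    (hs : ∀ k z, |s k z| ≤ M * (ll z + 1)) (j k : Fin d) :
    |WJ J t (Lf w s j k)| ≤ M * BB J j k t := by
  rw [WJ_Lf]
  have h2 : ∀ (a b i j k : Fin d), |WJ (a :: b :: J) t (fun z => w j k (z - Pi.single i 1))| ≤
      M * KK (a :: b :: J) 2 t := by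
    intro a b i j k
    refine WJ_le _ 2 t fun z => (hw j k _).trans ?_
    refine mul_le_mul_of_nonneg_left (pow_le_pow_left₀ ?_ ?_ 2) hM
    · have := ll_nonneg (z - Pi.single i 1); linarith
    · have := ll_sub z i; linarith
  have h1 : ∀ a k : Fin d, |WJ (a :: J) t (s k)| ≤ M * KK (a :: J) 1 t := by
    intro a k
    refine WJ_le _ 1 t fun z => (hs k _).trans ?_
    rw [pow_one]
    exact mul_le_mul_of_nonneg_left (by linarith) hM
  have e : M * BB J j k t = (∑ i, (M * KK (i :: i :: J) 2 t + M * KK (j :: i :: J) 2 t +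
      M * KK (k :: i :: J) 2 t)) + M * KK (j :: J) 1 t + M * KK (k :: J) 1 t := by
    unfold BB
    rw [mul_add, mul_add, Finset.mul_sum]
    congr 2
    exact Finset.sum_congr rfl fun i _ => by ring
  rw [e]
  refine (abs_sub _ _).trans (add_le_add ((abs_add_le _ _).trans (add_le_add
    ((Finset.abs_sum_le_sum_abs _ _).trans (Finset.sum_le_sum fun i _ => ?_)) (h1 j k))) (h1 k j))
  exact (abs_add_le _ _).trans (add_le_add ((abs_add_le _ _).trans
    (add_le_add (h2 i i i j k) (h2 j i i k i))) (h2 k i i i j))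

lemma Lf_tendsto {X : Type*} {F : Filter X} {w : X → Fin d → Fin d → Fz' d}
    {s : X → Fin d → Fz' d} {w' : Fin d → Fin d → Fz' d} {s' : Fin d → Fz' d}
    (hw : ∀ j k z, Tendsto (fun x => w x j k z) F (𝓝 (w' j k z)))
    (hs : ∀ k z, Tendsto (fun x => s x k z) F (𝓝 (s' k z))) (j k : Fin d) (z : Fin d → ℤ) :
    Tendsto (fun x => Lf (w x) (s x) j k z) F (𝓝 (Lf w' s' j k z)) := by
  have hnb : ∀ (g : X → Fz' d) (g' : Fz' d), (∀ z, Tendsto (fun x => g x z) F (𝓝 (g' z))) →
      ∀ i z, Tendsto (fun x => nb i (g x) z) F (𝓝 (nb i g' z)) := fun g g' h i z =>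
    (h _).sub (h _)
  have hns : ∀ (g : X → Fz' d) (g' : Fz' d), (∀ z, Tendsto (fun x => g x z) F (𝓝 (g' z))) →
      ∀ i z, Tendsto (fun x => ns i (g x) z) F (𝓝 (ns i g' z)) := fun g g' h i z =>
    (h _).sub (h _)
  unfold Lf
  refine ((tendsto_finsetSum _ fun i _ => hns (fun x => dT (w x) i j k) (dT w' i j k)
    (fun z => ?_) i z).add (hnb (fun x => s x k) (s' k) (hs k) j z)).sub
    (hnb (fun x => s x j) (s' j) (hs j) k z)
  unfold dT
  exact ((hnb (fun x => w x j k) _ (hw j k) i z).add (hnb (fun x => w x k i) _ (hw k i) j z)).add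
    (hnb (fun x => w x i j) _ (hw i j) k z)

/-- **The limit.** -/
theorem ker_main {X : Type*} {F : Filter X} (hd : 1 ≤ d) (J : List (Fin d)) (hJ : 3 ≤ J.length)
    (τ Ω : X → Fin d → Fin d → Fz' d) (A σ : X → Fin d → Fz' d) (Ω' : Fin d → Fin d → Fz' d)
    (σ' : Fin d → Fz' d) (T : X → ℕ) (B : X → ℝ) (M : ℝ) (hM : 0 ≤ M)
    (h1 : ∀ x j k z, τ x j k z = Ω x j k z + (nb j (A x k) z - nb k (A x j) z))
    (h2 : ∀ x j k z, τ x k j z = -τ x j k z)
    (h3 : ∀ᶠ x in F, ∀ k z, ll z ≤ T x + J.length + 1 → dvg (τ x) k z = σ x k z)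
    (h4 : ∀ᶠ x in F, ∀ j k z, |Ω x j k z| ≤ M * (ll z + 1) ^ 2)
    (h5 : ∀ᶠ x in F, ∀ k z, |σ x k z| ≤ M * (ll z + 1))
    (h6 : ∀ᶠ x in F, ∀ j k z, |τ x j k z| ≤ B x)
    (h7 : Tendsto T F atTop) (h8 : Tendsto (fun x => B x / Real.sqrt (T x) ^ 3) F (𝓝 0))
    (h9 : ∀ j k z, Tendsto (fun x => Ω x j k z) F (𝓝 (Ω' j k z)))
    (h10 : ∀ k z, Tendsto (fun x => σ x k z) F (𝓝 (σ' k z))) (j k : Fin d) :
    Tendsto (fun x => dF J (τ x j k) 0) F
      (𝓝 (-(1 / (4 * d : ℝ) * ∑' t, WJ J t (Lf Ω' σ' j k)))) := by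
  -- the sum over the times
  have hsum : Tendsto (fun x => ∑' t, if t < T x then WJ J t (Lf (Ω x) (σ x) j k) else 0) F
      (𝓝 (∑' t, WJ J t (Lf Ω' σ' j k))) := by
    refine tendsto_tsum_of_dominated_convergence (bound := fun t => M * BB J j k t)
      ((BB_summable hd hJ j k).mul_left M) (fun t => ?_) ?_
    · refine (WJ_tendsto J t (Lf_tendsto h9 h10 j k)).congr' ?_
      filter_upwards [h7.eventually (eventually_gt_atTop t)] with x hx
      rw [if_pos hx]
    · filter_upwards [h4, h5] with x hx4 hx5 t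
      rw [Real.norm_eq_abs]
      have hle := WJ_Lf_le J t hM hx4 hx5 j k
      split_ifs
      · exact hle
      · rw [abs_zero]; exact (abs_nonneg _).trans hle
  -- the boundary term
  have hbd : Tendsto (fun x => WJ J (T x) (τ x j k)) F (𝓝 0) := by
    obtain ⟨C, hC, hK⟩ := KK_bd3 hd J 0 (by omega)
    have hlim := h8.const_mul C
    rw [mul_zero] at hlim
    refine squeeze_zero_norm' ?_ hlim
    filter_upwards [h6, h7.eventually (eventually_ge_atTop 1)] with x hx6 hx7
    rw [Real.norm_eq_abs]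
    have hB : 0 ≤ B x := (abs_nonneg _).trans (hx6 j k 0)
    refine (WJ_le J 0 (T x) (M := B x) fun z => by rw [pow_zero, mul_one]; exact hx6 j k z).trans ?_
    calc B x * KK J 0 (T x) ≤ B x * (C / Real.sqrt (T x) ^ 3) :=
          mul_le_mul_of_nonneg_left (hK _ hx7) hB
      _ = _ := by ring
  have hfin := hbd.sub (hsum.const_mul (1 / (4 * d : ℝ)))
  rw [zero_sub] at hfin
  refine hfin.congr' ?_
  filter_upwards [h3] with x hx3
  rw [WJ_tele hd J (T x) (τ x j k)]
  congr 2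
  rw [tsum_eq_sum (s := Finset.range (T x)) fun t ht => if_neg (by
    rw [Finset.mem_range] at ht; exact ht)]
  refine Finset.sum_congr rfl fun t ht => ?_
  rw [Finset.mem_range] at ht
  rw [if_pos ht]
  refine WJ_congr J t fun z hz => ?_
  have htT : (t : ℝ) ≤ T x := by exact_mod_cast ht.le
  rw [hodge (h2 x)]
  unfold Lf
  have e1 : ∀ i, ns i (dT (τ x) i j k) z = ns i (dT (Ω x) i j k) z := by
    intro i
    unfold ns
    rw [dT_exact (Ω x) (A x) (h1 x), dT_exact (Ω x) (A x) (h1 x)]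
  have e2 : ∀ a b : Fin d, nb a (dvg (τ x) b) z = nb a (σ x b) z := by
    intro a b
    unfold nb
    have := ll_add z a
    rw [hx3 b z (by linarith), hx3 b _ (by linarith)]
  simp only [e1, e2]

end

end Pool.Agent.Y16.YM
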