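import Mathlib
import Pool.Agent.W793.YM.Dev

/-!
# Products of group elements to second order
-/

open MeasureTheory Matrix
open scoped Matrix.Norms.Frobenius
open Pool.Agent.H906R3.YM Pool.Agent.W793.YM

namespace Pool.Agent.Y16.YM

set_option linter.unusedSectionVars false
set_option linter.unusedVariables false

noncomputable section

variable {G : Type*} [Group G] [TopologicalSpace G] [IsTopologicalGroup G] [CompactSpace G]
  [SecondCountableTopology G] [MeasurableSpace G] [BorelSpace G] {N n : ℕ} (L : LD G N n)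

/-- the components of a group element -/
def cc (c : Fin n) (g : G) : ℝ := ip (L.X c) (L.rho g)

/-- the structure constants `Re tr (X_c* X_a X_b)` -/
def hh (c a b : Fin n) : ℝ := ip (L.X c) (L.X a * L.X b)

/-- the quadratic form of the structure constants -/
def qd (A B : Fin n → ℝ) (c : Fin n) : ℝ := ∑ a, ∑ b, hh L c a b * (A a * B b)

/-- the group is tangent to its Lie algebra -/
def Tg (C : ℝ) : Prop := 0 ≤ C ∧ ∀ g, ‖L.rho g - 1 - ∑ a, cc L a g • L.X a‖ ≤ C * dv L g ^ 2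

variable {L}

lemma cc_fi (c : Fin n) (g : G) : cc L c g = -fi L c g := by
  unfold cc fi
  rw [trX_apply, ip_apply, skew, neg_mul, trace_neg, Complex.neg_re]

lemma cc_cont (c : Fin n) : Continuous (cc L c) := (ip (L.X c)).continuous.comp L.cont

lemma cc_le (c : Fin n) (g : G) : |cc L c g| ≤ dv L g := by
  rw [cc_fi, abs_neg]; exact fi_le c g

lemma cc_inv (c : Fin n) (g : G) : cc L c g⁻¹ = -cc L c g := by
  rw [cc_fi, cc_fi, fi_inv]

lemma cc_one (c : Fin n) : cc L c 1 = 0 := by rw [cc_fi, fi_one, neg_zero]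

lemma ip_X_one (c : Fin n) : ip (L.X c) 1 = 0 := by
  have := cc_one (L := L) c
  unfold cc at this
  rwa [map_one] at this

lemma cc_sub (c : Fin n) (g : G) : cc L c g = ip (L.X c) (L.rho g - 1) := by
  rw [map_sub, ip_X_one, sub_zero]; rfl

lemma ip_le (c : Fin n) (M : Mat N) : |ip (L.X c) M| ≤ ‖M‖ := by
  refine (abs_ip_le _ _).trans ?_
  rw [norm_X, one_mul]

lemma hh_cyc (c a b : Fin n) : hh L c a b = hh L a b c := by
  unfold hh
  rw [ip_apply, ip_apply, skew, skew, neg_mul, neg_mul, trace_neg, trace_neg, Complex.neg_re,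
    Complex.neg_re, trace_mul_comm, Matrix.mul_assoc]

lemma hh_swap (c a b : Fin n) : hh L c a b = -hh L c b a := by
  have h1 : trace ((L.X c)ᴴ * (L.X a * L.X b)) =
      star (trace ((L.X b)ᴴ * (L.X a)ᴴ * L.X c)) := by
    rw [← trace_conjTranspose]
    congr 1
    simp only [conjTranspose_mul, conjTranspose_conjTranspose]
  unfold hh
  rw [ip_apply, ip_apply, h1, skew, skew, neg_mul_neg, skew, neg_mul, trace_neg, Complex.neg_re,
    neg_neg, trace_mul_comm]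
  simp

lemma hh_swap' (c a b : Fin n) : hh L c a b = -hh L a c b := by
  rw [hh_cyc c a b, hh_swap]

lemma hh_le (c a b : Fin n) : |hh L c a b| ≤ 1 := by
  unfold hh
  refine (ip_le c _).trans ((norm_mul_le _ _).trans ?_)
  rw [norm_X, norm_X, one_mul]

lemma qd_le {A B : Fin n → ℝ} {s t : ℝ} (hA : ∀ a, |A a| ≤ s) (hB : ∀ b, |B b| ≤ t)
    (c : Fin n) : |qd L A B c| ≤ n ^ 2 * (s * t) := by
  have ht : ∀ a b, |hh L c a b * (A a * B b)| ≤ s * t := by
    intro a b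
    have hs0 : 0 ≤ s := (abs_nonneg _).trans (hA a)
    rw [abs_mul, abs_mul]
    calc |hh L c a b| * (|A a| * |B b|) ≤ 1 * (s * t) :=
          mul_le_mul (hh_le _ _ _) (mul_le_mul (hA a) (hB b) (abs_nonneg _) hs0) (by positivity)
            zero_le_one
      _ = s * t := one_mul _
  unfold qd
  refine (Finset.abs_sum_le_sum_abs _ _).trans ?_
  calc ∑ a, |∑ b, hh L c a b * (A a * B b)| ≤ ∑ a : Fin n, ∑ b : Fin n, s * t :=
        Finset.sum_le_sum fun a _ => (Finset.abs_sum_le_sum_abs _ _).trans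
          (Finset.sum_le_sum fun b _ => ht a b)
    _ = _ := by
        simp only [Finset.sum_const, Finset.card_univ, Fintype.card_fin, nsmul_eq_mul]; ring

lemma qd_swap (A B : Fin n → ℝ) (c : Fin n) : qd L A B c = -qd L B A c := by
  unfold qd
  rw [Finset.sum_comm, ← Finset.sum_neg_distrib]
  refine Finset.sum_congr rfl fun b _ => ?_
  rw [← Finset.sum_neg_distrib]
  refine Finset.sum_congr rfl fun a _ => ?_
  rw [hh_swap]; ring

lemma qd_add_left (A A' B : Fin n → ℝ) (c : Fin n) :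
    qd L (fun a => A a + A' a) B c = qd L A B c + qd L A' B c := by
  unfold qd
  rw [← Finset.sum_add_distrib]
  refine Finset.sum_congr rfl fun a _ => ?_
  rw [← Finset.sum_add_distrib]
  exact Finset.sum_congr rfl fun b _ => by ring

lemma qd_smul_left (r : ℝ) (A B : Fin n → ℝ) (c : Fin n) :
    qd L (fun a => r * A a) B c = r * qd L A B c := by
  unfold qd
  rw [Finset.mul_sum]
  refine Finset.sum_congr rfl fun a _ => ?_
  rw [Finset.mul_sum]
  exact Finset.sum_congr rfl fun b _ => by ring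

lemma qd_neg_left (A B : Fin n → ℝ) (c : Fin n) :
    qd L (fun a => -A a) B c = -qd L A B c := by
  have := qd_smul_left (L := L) (-1) A B c
  simpa using this

lemma qd_neg_right (A B : Fin n → ℝ) (c : Fin n) :
    qd L A (fun a => -B a) c = -qd L A B c := by
  rw [qd_swap, qd_neg_left, qd_swap B A]; ring

lemma qd_smul_right (r : ℝ) (A B : Fin n → ℝ) (c : Fin n) :
    qd L A (fun a => r * B a) c = r * qd L A B c := by
  rw [qd_swap, qd_smul_left, qd_swap B A]; ring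

lemma qd_add_right (A B B' : Fin n → ℝ) (c : Fin n) :
    qd L A (fun a => B a + B' a) c = qd L A B c + qd L A B' c := by
  rw [qd_swap, qd_add_left, qd_swap B A, qd_swap B' A]; ring

lemma qd_sub_left (A A' B : Fin n → ℝ) (c : Fin n) :
    qd L (fun a => A a - A' a) B c = qd L A B c - qd L A' B c := by
  have h : (fun a => A a - A' a) = fun a => A a + (-A' a) := by funext a; ring
  rw [h, qd_add_left, qd_neg_left]; ring

lemma ip_sum2 (A B : Fin n → ℝ) (c : Fin n) :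
    ip (L.X c) ((∑ a, A a • L.X a) * ∑ b, B b • L.X b) = qd L A B c := by
  unfold qd hh
  rw [Finset.sum_mul, map_sum]
  refine Finset.sum_congr rfl fun a _ => ?_
  rw [Finset.mul_sum, map_sum]
  refine Finset.sum_congr rfl fun b _ => ?_
  rw [smul_mul_smul_comm, map_smul, smul_eq_mul]; ring

lemma norm_sumX {A : Fin n → ℝ} {s : ℝ} (hA : ∀ a, |A a| ≤ s) :
    ‖∑ a, A a • L.X a‖ ≤ n * s := by
  refine (norm_sum_le _ _).trans ?_
  calc ∑ a, ‖A a • L.X a‖ ≤ ∑ _a : Fin n, s := by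
        refine Finset.sum_le_sum fun a _ => ?_
        rw [norm_smul, norm_X, mul_one, Real.norm_eq_abs]
        exact hA a
    _ = _ := by simp

lemma cc_mul (c : Fin n) (g h : G) : cc L c (g * h) = cc L c g + cc L c h +
    ip (L.X c) ((L.rho g - 1) * (L.rho h - 1)) := by
  have e1 : (L.rho g - 1) * (L.rho h - 1) = L.rho (g * h) - L.rho g - L.rho h + 1 := by
    rw [map_mul]; noncomm_ring
  rw [e1, map_add, map_sub, map_sub, ip_X_one]
  unfold cc
  ring

/-- a product of two deviations -/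
lemma quad_app {C : ℝ} (hT : Tg L C) (c : Fin n) (g h : G) :
    |ip (L.X c) ((L.rho g - 1) * (L.rho h - 1)) - qd L (fun a => cc L a g) (fun a => cc L a h) c| ≤
      (n + 1) * C * (dv L g * dv L h * (dv L g + dv L h)) := by
  obtain ⟨hC, hT⟩ := hT
  obtain ⟨A, hA⟩ : ∃ A : Mat N, A = ∑ a, cc L a g • L.X a := ⟨_, rfl⟩
  obtain ⟨B, hB⟩ : ∃ B : Mat N, B = ∑ a, cc L a h • L.X a := ⟨_, rfl⟩
  have h1 : ‖L.rho g - 1 - A‖ ≤ C * dv L g ^ 2 := by rw [hA]; exact hT g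
  have h2 : ‖L.rho h - 1 - B‖ ≤ C * dv L h ^ 2 := by rw [hB]; exact hT h
  have h3 : ‖A‖ ≤ n * dv L g := by rw [hA]; exact norm_sumX fun a => cc_le a g
  have e : (L.rho g - 1) * (L.rho h - 1) = A * B + ((L.rho g - 1 - A) * (L.rho h - 1) +
      A * (L.rho h - 1 - B)) := by noncomm_ring
  rw [e, map_add, hA, hB, ip_sum2, add_sub_cancel_left, ← hA, ← hB]
  refine (ip_le c _).trans ((norm_add_le _ _).trans ?_)
  have hg := dv_nonneg (L := L) g
  have hh' := dv_nonneg (L := L) h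
  have b1 : ‖(L.rho g - 1 - A) * (L.rho h - 1)‖ ≤ C * dv L g ^ 2 * dv L h :=
    (norm_mul_le _ _).trans (mul_le_mul h1 le_rfl (norm_nonneg _) (by positivity))
  have b2 : ‖A * (L.rho h - 1 - B)‖ ≤ n * dv L g * (C * dv L h ^ 2) :=
    (norm_mul_le _ _).trans (mul_le_mul h3 h2 (norm_nonneg _) (by positivity))
  have hn : (0 : ℝ) ≤ n := Nat.cast_nonneg _
  have p1 : 0 ≤ n * C * (dv L g ^ 2 * dv L h) := by positivity
  have p2 : 0 ≤ C * (dv L g * dv L h ^ 2) := by positivity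
  nlinarith

/-- the products of the components around a plaquette -/
def w4 (L : LD G N n) (A1 A2 A3 A4 : Fin n → ℝ) (c : Fin n) : ℝ :=
  qd L A1 A2 c - qd L A1 A3 c - qd L A1 A4 c - qd L A2 A3 c - qd L A2 A4 c + qd L A3 A4 c

lemma norm3 (x y z : Mat N) {s : ℝ} (hs : 0 ≤ s) (hx : ‖x‖ ≤ s) (hy : ‖y‖ ≤ s) (hz : ‖z‖ ≤ s) :
    ‖x * y * z‖ ≤ s ^ 3 := by
  refine (norm_mul_le _ _).trans ?_
  have h1 : ‖x * y‖ ≤ s * s := (norm_mul_le _ _).trans (mul_le_mul hx hy (norm_nonneg _) hs)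
  calc ‖x * y‖ * ‖z‖ ≤ (s * s) * s := mul_le_mul h1 hz (norm_nonneg _) (by positivity)
    _ = s ^ 3 := by ring

/-- one plaquette to second order -/
theorem plq2 {C : ℝ} (hT : Tg L C) (c : Fin n) {g1 g2 g3 g4 : G} {s : ℝ} (h1 : dv L g1 ≤ s)
    (h2 : dv L g2 ≤ s) (h3 : dv L g3 ≤ s) (h4 : dv L g4 ≤ s) :
    |cc L c (g1 * g2 * g3⁻¹ * g4⁻¹) - (cc L c g1 + cc L c g2 - cc L c g3 - cc L c g4) -
      w4 L (fun a => cc L a g1) (fun a => cc L a g2) (fun a => cc L a g3) (fun a => cc L a g4) c| ≤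
      (4 + 12 * ((n + 1) * C)) * s ^ 3 := by
  have hs : 0 ≤ s := (dv_nonneg _).trans h1
  have hC := hT.1
  obtain ⟨x1, hx1⟩ : ∃ x, x = L.rho g1 - 1 := ⟨_, rfl⟩
  obtain ⟨x2, hx2⟩ : ∃ x, x = L.rho g2 - 1 := ⟨_, rfl⟩
  obtain ⟨x3, hx3⟩ : ∃ x, x = L.rho g3⁻¹ - 1 := ⟨_, rfl⟩
  obtain ⟨x4, hx4⟩ : ∃ x, x = L.rho g4⁻¹ - 1 := ⟨_, rfl⟩
  have n1 : ‖x1‖ ≤ s := by rw [hx1]; exact h1
  have n2 : ‖x2‖ ≤ s := by rw [hx2]; exact h2
  have n3 : ‖x3‖ ≤ s := by
    rw [hx3]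
    have : dv L g3⁻¹ ≤ s := by rw [dv_inv]; exact h3
    exact this
  have n4 : ‖x4‖ ≤ s := by
    rw [hx4]
    have : dv L g4⁻¹ ≤ s := by rw [dv_inv]; exact h4
    exact this
  have e : L.rho (g1 * g2 * g3⁻¹ * g4⁻¹) = 1 + x1 + x2 + x3 + x4 +
      (x1 * x2 + x1 * x3 + x1 * x4 + x2 * x3 + x2 * x4 + x3 * x4) +
      (x1 * x2 * x3 * L.rho g4⁻¹ + x1 * x2 * x4 + x1 * x3 * x4 + x2 * x3 * x4) := by
    have e1 : L.rho g1 = 1 + x1 := by rw [hx1]; abel
    have e2 : L.rho g2 = 1 + x2 := by rw [hx2]; abel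
    have e3 : L.rho g3⁻¹ = 1 + x3 := by rw [hx3]; abel
    have e4 : L.rho g4⁻¹ = 1 + x4 := by rw [hx4]; abel
    rw [map_mul, map_mul, map_mul, e1, e2, e3, e4]
    noncomm_ring
  have c1 : cc L c g1 = ip (L.X c) x1 := by rw [hx1]; exact cc_sub c g1
  have c2 : cc L c g2 = ip (L.X c) x2 := by rw [hx2]; exact cc_sub c g2
  have c3 : -cc L c g3 = ip (L.X c) x3 := by rw [hx3, ← cc_inv]; exact cc_sub c _
  have c4 : -cc L c g4 = ip (L.X c) x4 := by rw [hx4, ← cc_inv]; exact cc_sub c _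
  have hcc : cc L c (g1 * g2 * g3⁻¹ * g4⁻¹) = cc L c g1 + cc L c g2 - cc L c g3 - cc L c g4 +
      (ip (L.X c) (x1 * x2) + ip (L.X c) (x1 * x3) + ip (L.X c) (x1 * x4) +
        ip (L.X c) (x2 * x3) + ip (L.X c) (x2 * x4) + ip (L.X c) (x3 * x4)) +
      ip (L.X c) (x1 * x2 * x3 * L.rho g4⁻¹ + x1 * x2 * x4 + x1 * x3 * x4 + x2 * x3 * x4) := by
    have : cc L c (g1 * g2 * g3⁻¹ * g4⁻¹) = ip (L.X c) (L.rho (g1 * g2 * g3⁻¹ * g4⁻¹)) := rfl
    rw [this, e, map_add, map_add, map_add, map_add, map_add, map_add, ip_X_one, ← c1, ← c2, ← c3,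
      ← c4]
    simp only [map_add]
    ring
  have q : ∀ g h : G, dv L g ≤ s → dv L h ≤ s →
      |ip (L.X c) ((L.rho g - 1) * (L.rho h - 1)) -
        qd L (fun a => cc L a g) (fun a => cc L a h) c| ≤ (n + 1) * C * (2 * s ^ 3) := by
    intro g h hg hh'
    refine (quad_app hT c g h).trans ?_
    have hg0 := dv_nonneg (L := L) g
    have hh0 := dv_nonneg (L := L) h
    refine mul_le_mul_of_nonneg_left ?_ (by positivity)
    calc dv L g * dv L h * (dv L g + dv L h) ≤ s * s * (s + s) := by gcongr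
      _ = _ := by ring
  have i3 : dv L g3⁻¹ ≤ s := by rw [dv_inv]; exact h3
  have i4 : dv L g4⁻¹ ≤ s := by rw [dv_inv]; exact h4
  have q12 := q g1 g2 h1 h2
  have q13 := q g1 g3⁻¹ h1 i3
  have q14 := q g1 g4⁻¹ h1 i4
  have q23 := q g2 g3⁻¹ h2 i3
  have q24 := q g2 g4⁻¹ h2 i4
  have q34 := q g3⁻¹ g4⁻¹ i3 i4
  simp only [cc_inv, qd_neg_right, qd_neg_left, neg_neg, ← hx1, ← hx2, ← hx3, ← hx4] at q12 q13 q14 q23 q24 q34
  have t : |ip (L.X c) (x1 * x2 * x3 * L.rho g4⁻¹ + x1 * x2 * x4 + x1 * x3 * x4 +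
      x2 * x3 * x4)| ≤ 4 * s ^ 3 := by
    refine (ip_le c _).trans ?_
    have t1 : ‖x1 * x2 * x3 * L.rho g4⁻¹‖ ≤ s ^ 3 := by
      rw [norm_rmul]; exact norm3 _ _ _ hs n1 n2 n3
    have t2 := norm3 x1 x2 x4 hs n1 n2 n4
    have t3 := norm3 x1 x3 x4 hs n1 n3 n4
    have t4 := norm3 x2 x3 x4 hs n2 n3 n4
    have a1 := norm_add_le (x1 * x2 * x3 * L.rho g4⁻¹ + x1 * x2 * x4 + x1 * x3 * x4) (x2 * x3 * x4)
    have a2 := norm_add_le (x1 * x2 * x3 * L.rho g4⁻¹ + x1 * x2 * x4) (x1 * x3 * x4)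
    have a3 := norm_add_le (x1 * x2 * x3 * L.rho g4⁻¹) (x1 * x2 * x4)
    linarith
  rw [hcc]
  unfold w4
  obtain ⟨K, hK⟩ : ∃ K, K = (n + 1) * C * (2 * s ^ 3) := ⟨_, rfl⟩
  rw [← hK] at q12 q13 q14 q23 q24 q34
  have hfin : (4 + 12 * ((n + 1) * C)) * s ^ 3 = 4 * s ^ 3 + 6 * K := by rw [hK]; ring
  rw [hfin]
  rw [abs_le] at *
  constructor <;> linarith [q12.1, q12.2, q13.1, q13.2, q14.1, q14.2, q23.1, q23.2, q24.1, q24.2,
    q34.1, q34.2, t.1, t.2]

/-- one plaquette to first order -/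
lemma plq1 (c : Fin n) {g1 g2 g3 g4 : G} {s : ℝ} (h1 : dv L g1 ≤ s) (h2 : dv L g2 ≤ s)
    (h3 : dv L g3 ≤ s) (h4 : dv L g4 ≤ s) :
    |cc L c (g1 * g2 * g3⁻¹ * g4⁻¹) - (cc L c g1 + cc L c g2 - cc L c g3 - cc L c g4)| ≤
      6 * s ^ 2 := by
  have h := fi_plq (L := L) c h1 h2 h3 h4
  simp only [cc_fi]
  rw [← abs_neg]
  refine le_trans (le_of_eq ?_) h
  congr 1; ring

/-- conjugation to second order -/
theorem conj2 {C : ℝ} (hT : Tg L C) (c : Fin n) (h g : G) :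
    |cc L c (h * g * h⁻¹) - cc L c g - 2 * qd L (fun a => cc L a h) (fun a => cc L a g) c| ≤
      (1 + 2 * ((n + 1) * C)) * (dv L h * dv L g * (dv L h + dv L g)) := by
  have hC := hT.1
  have e1 : L.rho (h * g * h⁻¹) = L.rho g + ((L.rho h - 1) * (L.rho g - 1) +
      (L.rho g - 1) * (L.rho h⁻¹ - 1)) + (L.rho h - 1) * (L.rho g - 1) * (L.rho h⁻¹ - 1) := by
    have e2 : L.rho h * L.rho h⁻¹ = 1 := by rw [← map_mul, mul_inv_cancel, map_one]
    have e3 : L.rho g + ((L.rho h - 1) * (L.rho g - 1) +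
      (L.rho g - 1) * (L.rho h⁻¹ - 1)) + (L.rho h - 1) * (L.rho g - 1) * (L.rho h⁻¹ - 1) =
      L.rho h * L.rho g * L.rho h⁻¹ - L.rho h * L.rho h⁻¹ + 1 := by noncomm_ring
    rw [e3, e2, sub_add_cancel, map_mul, map_mul]
  have e2 : cc L c (h * g * h⁻¹) = cc L c g + (ip (L.X c) ((L.rho h - 1) * (L.rho g - 1)) +
      ip (L.X c) ((L.rho g - 1) * (L.rho h⁻¹ - 1))) +
      ip (L.X c) ((L.rho h - 1) * (L.rho g - 1) * (L.rho h⁻¹ - 1)) := by
    have : cc L c (h * g * h⁻¹) = ip (L.X c) (L.rho (h * g * h⁻¹)) := rfl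
    rw [this, e1, map_add, map_add, map_add]
    rfl
  have q1 := quad_app hT c h g
  have q2 := quad_app hT c g h⁻¹
  simp only [cc_inv, dv_inv, qd_neg_right] at q2
  rw [qd_swap (fun a => cc L a g)] at q2
  have q3 : |ip (L.X c) ((L.rho h - 1) * (L.rho g - 1) * (L.rho h⁻¹ - 1))| ≤
      dv L h * dv L g * dv L h := by
    refine (ip_le c _).trans ((norm_mul_le _ _).trans ?_)
    have : ‖L.rho h⁻¹ - 1‖ = dv L h := dv_inv h
    rw [this]
    exact mul_le_mul_of_nonneg_right (norm_mul_le _ _) (dv_nonneg _)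
  have hg0 := dv_nonneg (L := L) g
  have hh0 := dv_nonneg (L := L) h
  have p : dv L h * dv L g * dv L h ≤ dv L h * dv L g * (dv L h + dv L g) :=
    mul_le_mul_of_nonneg_left (by linarith) (by positivity)
  have p2 : dv L g * dv L h * (dv L g + dv L h) = dv L h * dv L g * (dv L h + dv L g) := by ring
  rw [p2] at q2
  rw [e2]
  obtain ⟨K, hK⟩ : ∃ K, K = dv L h * dv L g * (dv L h + dv L g) := ⟨_, rfl⟩
  rw [← hK] at q1 q2 p ⊢
  rw [abs_le] at *
  constructor <;> linarith [q1.1, q1.2, q2.1, q2.2, q3.1, q3.2]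

lemma conj1 (c : Fin n) (h g : G) : |cc L c (h * g * h⁻¹) - cc L c g| ≤ 2 * dv L h * dv L g := by
  have := fi_conj (L := L) c h g
  rw [cc_fi, cc_fi, ← abs_neg]
  refine le_trans (le_of_eq ?_) this
  congr 1; ring

/-- the total square of the structure constants -/
def cG (L : LD G N n) : ℝ := ∑ c, ∑ a, ∑ b, hh L c a b ^ 2

end

end Pool.Agent.Y16.YM
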