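import Mathlib

/-!
# The comb on the whole lattice `ℤ^d`
-/

namespace Pool.Agent.Y16.YM

set_option linter.unusedSectionVars false
set_option linter.unusedVariables false

noncomputable section

/-- points of `ℤ^d` -/
abbrev Zp (d : ℕ) := Fin d → ℤ

section signed

variable {G : Type*} [Group G]

/-- the product of `f 0, ..., f (k-1)` -/
def sgP (f : ℤ → G) : ℕ → G
  | 0 => 1
  | k + 1 => sgP f k * f k

/-- the product of the inverses of `f (-1), ..., f (-k)` -/
def sgN (f : ℤ → G) : ℕ → G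
  | 0 => 1
  | k + 1 => sgN f k * (f (-((k : ℤ) + 1)))⁻¹

/-- the ordered product from `0` to `m` -/
def sg (f : ℤ → G) (m : ℤ) : G := if 0 ≤ m then sgP f m.toNat else sgN f (-m).toNat

lemma sg_zero (f : ℤ → G) : sg f 0 = 1 := by simp [sg, sgP]

lemma sg_succ (f : ℤ → G) (m : ℤ) : sg f (m + 1) = sg f m * f m := by
  rcases lt_trichotomy m (-1) with h | h | h
  · obtain ⟨k, hk⟩ : ∃ k : ℕ, m = -((k : ℤ) + 2) := ⟨(-m - 2).toNat, by omega⟩
    subst hk
    have h1 : ¬ (0 : ℤ) ≤ -((k : ℤ) + 2) + 1 := by omega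
    have h2 : ¬ (0 : ℤ) ≤ -((k : ℤ) + 2) := by omega
    unfold sg
    rw [if_neg h1, if_neg h2]
    have h3 : (-(-((k : ℤ) + 2) + 1)).toNat = k + 1 := by omega
    have h4 : (-(-((k : ℤ) + 2))).toNat = (k + 1) + 1 := by omega
    rw [h3, h4]
    show sgN f (k + 1) = sgN f (k + 1) * (f (-(((k + 1 : ℕ) : ℤ) + 1)))⁻¹ * f (-((k : ℤ) + 2))
    have h5 : -(((k + 1 : ℕ) : ℤ) + 1) = -((k : ℤ) + 2) := by push_cast; ring
    rw [h5, inv_mul_cancel_right]
  · subst h
    have h1 : ¬ (0 : ℤ) ≤ -1 := by omega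
    unfold sg
    rw [if_pos (by norm_num), if_neg h1]
    show sgP f 0 = sgN f 1 * f (-1)
    show (1 : G) = 1 * (f (-(((0 : ℕ) : ℤ) + 1)))⁻¹ * f (-1)
    simp
  · obtain ⟨k, hk⟩ : ∃ k : ℕ, m = k := ⟨m.toNat, by omega⟩
    subst hk
    unfold sg
    rw [if_pos (by omega), if_pos (by omega)]
    have h3 : ((k : ℤ) + 1).toNat = k + 1 := by omega
    have h4 : (k : ℤ).toNat = k := by omega
    rw [h3, h4]
    rfl

lemma sgP_congr {f g : ℤ → G} {k : ℕ} (h : ∀ s : ℤ, 0 ≤ s → s < k → f s = g s) :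
    sgP f k = sgP g k := by
  induction k with
  | zero => rfl
  | succ k ih =>
    show sgP f k * f k = sgP g k * g k
    rw [ih fun s h1 h2 => h s h1 (by push_cast; omega), h k (by omega) (by push_cast; omega)]

lemma sgN_congr {f g : ℤ → G} {k : ℕ} (h : ∀ s : ℤ, -k ≤ s → s < 0 → f s = g s) :
    sgN f k = sgN g k := by
  induction k with
  | zero => rfl
  | succ k ih =>
    show sgN f k * (f (-((k : ℤ) + 1)))⁻¹ = sgN g k * (g (-((k : ℤ) + 1)))⁻¹
    rw [ih fun s h1 h2 => h s (by push_cast; omega) h2, h _ (by push_cast; omega) (by omega)]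

lemma sg_congr {f g : ℤ → G} {m : ℤ}
    (h : ∀ s : ℤ, (0 ≤ s ∧ s < m) ∨ (m ≤ s ∧ s < 0) → f s = g s) : sg f m = sg g m := by
  unfold sg
  split_ifs with h0
  · exact sgP_congr fun s h1 h2 => h s (Or.inl ⟨h1, by omega⟩)
  · exact sgN_congr fun s h1 h2 => h s (Or.inr ⟨by omega, h2⟩)

end signed

section comb

variable {G : Type*} [Group G] {d : ℕ}

/-- the first `k` coordinates -/
def trn (x : Zp d) (k : ℕ) : Zp d := fun j => if (j : ℕ) < k then x j else 0

/-- the transport from `0` along the comb, the first `k` directions -/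
def Qz (u : Zp d → Fin d → G) (x : Zp d) : ℕ → G
  | 0 => 1
  | k + 1 => Qz u x k * (if h : k < d then
      sg (fun m => u (Function.update (trn x k) ⟨k, h⟩ m) ⟨k, h⟩) (x ⟨k, h⟩) else 1)

lemma Qz_succ (u : Zp d → Fin d → G) (x : Zp d) (k : ℕ) :
    Qz u x (k + 1) = Qz u x k * (if h : k < d then
      sg (fun m => u (Function.update (trn x k) ⟨k, h⟩ m) ⟨k, h⟩) (x ⟨k, h⟩) else 1) := rfl

/-- the transport from `0` to `x` along the comb -/
def Pz (u : Zp d → Fin d → G) (x : Zp d) : G := Qz u x d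

lemma trn_congr {x y : Zp d} {k : ℕ} (h : ∀ j : Fin d, (j : ℕ) < k → x j = y j) :
    trn x k = trn y k := by
  funext j
  unfold trn
  split_ifs with hj
  · exact h j hj
  · rfl

lemma Qz_congr {u : Zp d → Fin d → G} {x y : Zp d} {k : ℕ}
    (h : ∀ j : Fin d, (j : ℕ) < k → x j = y j) : Qz u x k = Qz u y k := by
  induction k with
  | zero => rfl
  | succ k ih =>
    rw [Qz_succ, Qz_succ, ih fun j hj => h j (by omega)]
    congr 1
    split_ifs with hk
    · rw [trn_congr fun j hj => h j (by omega), h ⟨k, hk⟩ (by simp)]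
    · rfl

lemma Qz_tail {u : Zp d → Fin d → G} {x : Zp d} {k : ℕ}
    (h : ∀ j : Fin d, k ≤ (j : ℕ) → x j = 0) (m : ℕ) : Qz u x (k + m) = Qz u x k := by
  induction m with
  | zero => rfl
  | succ m ih =>
    have e : k + (m + 1) = (k + m) + 1 := by ring
    rw [e, Qz_succ, ih]
    split_ifs with hk
    · rw [h ⟨k + m, hk⟩ (by simp), sg_zero, mul_one]
    · rw [mul_one]

lemma Pz_tail {u : Zp d → Fin d → G} {x : Zp d} {k : ℕ} (hk : k ≤ d)
    (h : ∀ j : Fin d, k ≤ (j : ℕ) → x j = 0) : Pz u x = Qz u x k := by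
  unfold Pz
  obtain ⟨m, rfl⟩ := Nat.exists_eq_add_of_le hk
  exact Qz_tail h m

/-- unit vectors -/
abbrev ez (j : Fin d) : Zp d := Pi.single j 1

lemma ez_same (j : Fin d) : ez j j = (1 : ℤ) := by simp

lemma ez_ne {j k : Fin d} (h : k ≠ j) : ez j k = (0 : ℤ) := by simp [h]

/-- the comb is a tree -/
lemma Pz_tree (u : Zp d → Fin d → G) (x : Zp d) (j : Fin d) (h : ∀ k, j < k → x k = 0) :
    Pz u (x + ez j) = Pz u x * u x j := by
  have hj := j.2
  have h1 : ∀ k : Fin d, (j : ℕ) + 1 ≤ (k : ℕ) → x k = 0 := fun k hk => h k (by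
    rw [Fin.lt_def]; omega)
  have h2 : ∀ k : Fin d, (j : ℕ) + 1 ≤ (k : ℕ) → (x + ez j) k = 0 := fun k hk => by
    have hne : k ≠ j := by rintro rfl; omega
    rw [Pi.add_apply, h1 k hk, ez_ne hne, add_zero]
  rw [Pz_tail (k := (j : ℕ) + 1) (by omega) h1, Pz_tail (k := (j : ℕ) + 1) (by omega) h2]
  have h3 : ∀ k : Fin d, (k : ℕ) < j → (x + ez j) k = x k := fun k hk => by
    have hne : k ≠ j := by rintro rfl; omega
    rw [Pi.add_apply, ez_ne hne, add_zero]
  rw [Qz_succ, Qz_succ, dif_pos hj, dif_pos hj, Qz_congr h3, trn_congr h3]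
  have h4 : (x + ez j) ⟨(j : ℕ), hj⟩ = x j + 1 := by
    rw [Pi.add_apply]; simp
  rw [h4, sg_succ, mul_assoc]
  congr 3
  · funext k
    by_cases hk : k = j
    · subst hk; simp
    · rw [Function.update_of_ne hk]
      unfold trn
      split_ifs with hlt
      · rfl
      · exact (h k (by
          rw [Fin.lt_def]
          have : (k : ℕ) ≠ j := fun h' => hk (Fin.ext h')
          omega)).symm

lemma Pz_zero (u : Zp d → Fin d → G) : Pz u 0 = 1 := by
  rw [Pz_tail (x := (0 : Zp d)) (k := 0) (Nat.zero_le _) fun j _ => rfl]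
  rfl

/-- the links of the path to `x` -/
def OnP (x z : Zp d) (k : Fin d) : Prop :=
  (∀ j, j < k → z j = x j) ∧ (∀ j, k < j → z j = 0) ∧
    ((0 ≤ z k ∧ z k < x k) ∨ (x k ≤ z k ∧ z k < 0))

lemma Pz_congr {u u' : Zp d → Fin d → G} {x : Zp d} (h : ∀ z k, OnP x z k → u z k = u' z k) :
    Pz u x = Pz u' x := by
  have key : ∀ k, Qz u x k = Qz u' x k := by
    intro k
    induction k with
    | zero => rfl
    | succ k ih =>
      rw [Qz_succ, Qz_succ, ih]
      congr 1
      split_ifs with hk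
      · refine sg_congr fun s hs => h _ _ ⟨fun j hj => ?_, fun j hj => ?_, ?_⟩
        · rw [Function.update_of_ne hj.ne]
          unfold trn
          rw [if_pos (by rw [Fin.lt_def] at hj; exact hj)]
        · rw [Function.update_of_ne hj.ne']
          unfold trn
          rw [if_neg (by rw [Fin.lt_def] at hj; simp only at hj; omega)]
        · rw [Function.update_self]
          exact hs
      · rfl
  exact key d

/-! ### induction along the comb -/

/-- the length of the path -/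
def l1 (x : Zp d) : ℕ := ∑ i, (x i).natAbs

lemma l1_zero {x : Zp d} (h : l1 x = 0) : x = 0 := by
  funext i
  have h1 : (x i).natAbs ≤ l1 x :=
    Finset.single_le_sum (f := fun i => (x i).natAbs) (fun _ _ => Nat.zero_le _)
      (Finset.mem_univ i)
  rw [h] at h1
  simpa using h1

lemma l1_sum_ne (x y : Zp d) (j : Fin d) (h : ∀ i, i ≠ j → y i = x i) :
    (l1 y : ℤ) - (y j).natAbs = l1 x - (x j).natAbs := by
  unfold l1
  rw [← Finset.sum_erase_add _ _ (Finset.mem_univ j), ← Finset.sum_erase_add (s := Finset.univ)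
    (f := fun i => (x i).natAbs) (Finset.mem_univ j)]
  push_cast
  have : ∑ i ∈ Finset.univ.erase j, |y i| = ∑ i ∈ Finset.univ.erase j, |x i| :=
    Finset.sum_congr rfl fun i hi => by rw [h i (Finset.ne_of_mem_erase hi)]
  rw [this]; ring

lemma l1_add (x : Zp d) (j : Fin d) (h : 0 ≤ x j) : l1 (x + ez j) = l1 x + 1 := by
  have h1 := l1_sum_ne x (x + ez j) j fun i hi => by rw [Pi.add_apply, ez_ne hi, add_zero]
  have h2 : (x + ez j) j = x j + 1 := by rw [Pi.add_apply, ez_same]
  rw [h2] at h1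
  omega

lemma l1_sub (x : Zp d) (j : Fin d) (h : x j ≤ 0) : l1 (x - ez j) = l1 x + 1 := by
  have h1 := l1_sum_ne x (x - ez j) j fun i hi => by rw [Pi.sub_apply, ez_ne hi, sub_zero]
  have h2 : (x - ez j) j = x j - 1 := by rw [Pi.sub_apply, ez_same]
  rw [h2] at h1
  omega

theorem comb_ind {C : Zp d → Prop} (h0 : C 0)
    (hp : ∀ x j, (∀ k, j < k → x k = 0) → 0 ≤ x j → C x → C (x + ez j))
    (hn : ∀ x j, (∀ k, j < k → x k = 0) → x j ≤ 0 → C x → C (x - ez j)) : ∀ x, C x := by
  intro x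
  induction hq : l1 x generalizing x with
  | zero => rw [l1_zero hq]; exact h0
  | succ q ih =>
    have hne : (Finset.univ.filter fun i => x i ≠ 0).Nonempty := by
      by_contra hc
      rw [Finset.not_nonempty_iff_eq_empty, Finset.filter_eq_empty_iff] at hc
      have : x = 0 := by
        funext i
        have := hc (Finset.mem_univ i)
        simpa using this
      rw [this] at hq
      simp [l1] at hq
    obtain ⟨j, hj⟩ : ∃ j, j = (Finset.univ.filter fun i => x i ≠ 0).max' hne := ⟨_, rfl⟩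
    have hj1 : x j ≠ 0 := by
      have := Finset.max'_mem _ hne
      rw [← hj] at this
      exact (Finset.mem_filter.1 this).2
    have hj2 : ∀ k, j < k → x k = 0 := by
      intro k hk
      by_contra hc
      have := Finset.le_max' (Finset.univ.filter fun i => x i ≠ 0) k
        (Finset.mem_filter.2 ⟨Finset.mem_univ _, hc⟩)
      rw [← hj] at this
      exact absurd hk (not_lt.2 this)
    rcases lt_or_gt_of_ne hj1 with h | h
    · have e : x = (x + ez j) - ez j := by abel
      have h3 : ∀ k, j < k → (x + ez j) k = 0 := fun k hk => by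
        rw [Pi.add_apply, hj2 k hk, ez_ne hk.ne', add_zero]
      have h4 : (x + ez j) j ≤ 0 := by rw [Pi.add_apply, ez_same]; omega
      have h5 := l1_sub (x + ez j) j h4
      rw [← e, hq] at h5
      rw [e]
      exact hn _ _ h3 h4 (ih _ (by omega))
    · have e : x = (x - ez j) + ez j := by abel
      have h3 : ∀ k, j < k → (x - ez j) k = 0 := fun k hk => by
        rw [Pi.sub_apply, hj2 k hk, ez_ne hk.ne', sub_zero]
      have h4 : 0 ≤ (x - ez j) j := by rw [Pi.sub_apply, ez_same]; omega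
      have h5 := l1_add (x - ez j) j h4
      rw [← e, hq] at h5
      rw [e]
      exact hp _ _ h3 h4 (ih _ (by omega))

/-! ### links and plaquettes in the comb gauge -/

/-- the plaquette -/
def plz (u : Zp d → Fin d → G) (x : Zp d) (i j : Fin d) : G :=
  u x i * u (x + ez i) j * (u (x + ez j) i)⁻¹ * (u x j)⁻¹

/-- the link in the comb gauge -/
def Vz (u : Zp d → Fin d → G) (x : Zp d) (i : Fin d) : G :=
  Pz u x * u x i * (Pz u (x + ez i))⁻¹

/-- the plaquette in the comb gauge -/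
def Gz (u : Zp d → Fin d → G) (x : Zp d) (i j : Fin d) : G :=
  Pz u x * plz u x i j * (Pz u x)⁻¹

lemma Gz_eq (u : Zp d → Fin d → G) (x : Zp d) (i j : Fin d) :
    Gz u x i j = Vz u x i * Vz u (x + ez i) j * (Vz u (x + ez j) i)⁻¹ * (Vz u x j)⁻¹ := by
  unfold Gz Vz plz
  rw [add_right_comm x (ez j) (ez i)]
  group

lemma plz_swap (u : Zp d → Fin d → G) (x : Zp d) (i j : Fin d) :
    plz u x j i = (plz u x i j)⁻¹ := by
  unfold plz; group

lemma Gz_swap (u : Zp d → Fin d → G) (x : Zp d) (i j : Fin d) :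
    Gz u x j i = (Gz u x i j)⁻¹ := by
  unfold Gz; rw [plz_swap]; group

lemma Gz_self (u : Zp d → Fin d → G) (x : Zp d) (i : Fin d) : Gz u x i i = 1 := by
  unfold Gz plz; group

lemma Vz_tree (u : Zp d → Fin d → G) (x : Zp d) (i : Fin d) (h : ∀ k, i < k → x k = 0) :
    Vz u x i = 1 := by
  unfold Vz
  rw [Pz_tree u x i h, mul_inv_cancel]

lemma Vz_step (u : Zp d → Fin d → G) (x : Zp d) {i j : Fin d} (hij : i < j)
    (h : ∀ k, j < k → x k = 0) : Vz u (x + ez j) i = Gz u x j i * Vz u x i := by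
  have h1 : ∀ k, j < k → (x + ez i) k = 0 := fun k hk => by
    rw [Pi.add_apply, h k hk, ez_ne (hij.trans hk).ne', add_zero]
  have e1 := Pz_tree u x j h
  have e2 := Pz_tree u (x + ez i) j h1
  unfold Gz Vz plz
  rw [add_right_comm x (ez j) (ez i), e1, e2]
  group

/-! ### the strips -/

/-- the point of the path at height `s` in direction `j` -/
def cut (x : Zp d) (j : Fin d) (s : ℤ) : Zp d := fun k => if k < j then x k else if k = j then s else 0

/-- the sum over the strip between the paths to `x` and to `x + e_i` -/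
def pot (g : Fin d → Fin d → Zp d → ℝ) (i : Fin d) (x : Zp d) : ℝ :=
  ∑ j, if i < j then (∑ s ∈ Finset.Ico 0 (x j), g j i (cut x j s)) -
    ∑ s ∈ Finset.Ico (x j) 0, g j i (cut x j s) else 0

/-- the sum of the absolute values -/
def poa (g : Fin d → Fin d → Zp d → ℝ) (i : Fin d) (x : Zp d) : ℝ :=
  ∑ j, if i < j then (∑ s ∈ Finset.Ico 0 (x j), g j i (cut x j s)) +
    ∑ s ∈ Finset.Ico (x j) 0, g j i (cut x j s) else 0

lemma cut_congr {x y : Zp d} {j : Fin d} (h : ∀ k, k < j → x k = y k) (s : ℤ) :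
    cut x j s = cut y j s := by
  funext k
  unfold cut
  split_ifs with h1
  · exact h k h1
  · rfl
  · rfl

lemma cut_self {x : Zp d} {j : Fin d} (h : ∀ k, j < k → x k = 0) : cut x j (x j) = x := by
  funext k
  unfold cut
  split_ifs with h1 h2
  · rfl
  · rw [h2]
  · exact (h k (lt_of_le_of_ne (not_lt.1 h1) (Ne.symm h2))).symm

lemma ico_add {m : ℤ} (f : ℤ → ℝ) : (∑ s ∈ Finset.Ico 0 (m + 1), f s) -
    ∑ s ∈ Finset.Ico (m + 1) 0, f s =
    (∑ s ∈ Finset.Ico 0 m, f s) - (∑ s ∈ Finset.Ico m 0, f s) + f m := by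
  rcases lt_or_ge m 0 with h | h
  · have h1 : Finset.Ico 0 m = ∅ := Finset.Ico_eq_empty (by omega)
    have h2 : Finset.Ico 0 (m + 1) = ∅ := Finset.Ico_eq_empty (by omega)
    have h3 : Finset.Ico m 0 = insert m (Finset.Ico (m + 1) 0) := by
      ext s; simp only [Finset.mem_Ico, Finset.mem_insert]; omega
    rw [h1, h2, h3, Finset.sum_insert (by simp)]
    simp
  · have h1 : Finset.Ico m 0 = ∅ := Finset.Ico_eq_empty (by omega)
    have h2 : Finset.Ico (m + 1) 0 = ∅ := Finset.Ico_eq_empty (by omega)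
    have h3 : Finset.Ico 0 (m + 1) = insert m (Finset.Ico 0 m) := by
      ext s; simp only [Finset.mem_Ico, Finset.mem_insert]; omega
    rw [h1, h2, h3, Finset.sum_insert (by simp)]
    simp only [Finset.sum_empty, sub_zero]
    ring

lemma pot_tree (g : Fin d → Fin d → Zp d → ℝ) {i : Fin d} {x : Zp d} (h : ∀ k, i < k → x k = 0) :
    pot g i x = 0 := by
  unfold pot
  refine Finset.sum_eq_zero fun j _ => ?_
  split_ifs with hj
  · rw [h j hj]; simp
  · rfl

lemma poa_tree (g : Fin d → Fin d → Zp d → ℝ) {i : Fin d} {x : Zp d} (h : ∀ k, i < k → x k = 0) :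
    poa g i x = 0 := by
  unfold poa
  refine Finset.sum_eq_zero fun j _ => ?_
  split_ifs with hj
  · rw [h j hj]; simp
  · rfl

lemma pot_step (g : Fin d → Fin d → Zp d → ℝ) {i j : Fin d} (hij : i < j) {x : Zp d}
    (h : ∀ k, j < k → x k = 0) : pot g i (x + ez j) = pot g i x + g j i x := by
  unfold pot
  rw [← Finset.sum_erase_add _ _ (Finset.mem_univ j), ← Finset.sum_erase_add (s := Finset.univ)
    (f := fun j => if i < j then (∑ s ∈ Finset.Ico 0 (x j), g j i (cut x j s)) -
    ∑ s ∈ Finset.Ico (x j) 0, g j i (cut x j s) else 0) (Finset.mem_univ j), if_pos hij, if_pos hij]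
  have e1 : (x + ez j) j = x j + 1 := by rw [Pi.add_apply, ez_same]
  have e2 : ∀ s, cut (x + ez j) j s = cut x j s := fun s => cut_congr (fun k hk => by
    rw [Pi.add_apply, ez_ne hk.ne, add_zero]) s
  simp only [e1, e2]
  rw [ico_add (fun s => g j i (cut x j s)), cut_self h]
  have e3 : ∑ k ∈ Finset.univ.erase j, (if i < k then
      (∑ s ∈ Finset.Ico 0 ((x + ez j) k), g k i (cut (x + ez j) k s)) -
      ∑ s ∈ Finset.Ico ((x + ez j) k) 0, g k i (cut (x + ez j) k s) else 0) =
      ∑ k ∈ Finset.univ.erase j, (if i < k then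
      (∑ s ∈ Finset.Ico 0 (x k), g k i (cut x k s)) -
      ∑ s ∈ Finset.Ico (x k) 0, g k i (cut x k s) else 0) := by
    refine Finset.sum_congr rfl fun k hk => ?_
    have hkj : k ≠ j := Finset.ne_of_mem_erase hk
    have e4 : (x + ez j) k = x k := by rw [Pi.add_apply, ez_ne hkj, add_zero]
    rw [e4]
    rcases lt_or_gt_of_ne hkj with h1 | h1
    · have e5 : ∀ s, cut (x + ez j) k s = cut x k s := fun s => cut_congr (fun k' hk' => by
        rw [Pi.add_apply, ez_ne (hk'.trans h1).ne, add_zero]) s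
      simp only [e5]
    · rw [h k h1]; simp
  rw [e3]; ring

lemma poa_stepp {g : Fin d → Fin d → Zp d → ℝ} {i j : Fin d} (hij : i < j) {x : Zp d}
    (h : ∀ k, j < k → x k = 0) (h0 : 0 ≤ x j) : poa g i (x + ez j) = poa g i x + g j i x := by
  unfold poa
  rw [← Finset.sum_erase_add _ _ (Finset.mem_univ j), ← Finset.sum_erase_add (s := Finset.univ)
    (f := fun j => if i < j then (∑ s ∈ Finset.Ico 0 (x j), g j i (cut x j s)) +
    ∑ s ∈ Finset.Ico (x j) 0, g j i (cut x j s) else 0) (Finset.mem_univ j), if_pos hij, if_pos hij]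
  have e1 : (x + ez j) j = x j + 1 := by rw [Pi.add_apply, ez_same]
  have e2 : ∀ s, cut (x + ez j) j s = cut x j s := fun s => cut_congr (fun k hk => by
    rw [Pi.add_apply, ez_ne hk.ne, add_zero]) s
  simp only [e1, e2]
  have h1 : Finset.Ico (x j) 0 = ∅ := Finset.Ico_eq_empty (by omega)
  have h2 : Finset.Ico (x j + 1) 0 = ∅ := Finset.Ico_eq_empty (by omega)
  have h3 : Finset.Ico 0 (x j + 1) = insert (x j) (Finset.Ico 0 (x j)) := by
    ext s; simp only [Finset.mem_Ico, Finset.mem_insert]; omega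
  rw [h1, h2, h3, Finset.sum_insert (by simp), cut_self h]
  have e3 : ∑ k ∈ Finset.univ.erase j, (if i < k then
      (∑ s ∈ Finset.Ico 0 ((x + ez j) k), g k i (cut (x + ez j) k s)) +
      ∑ s ∈ Finset.Ico ((x + ez j) k) 0, g k i (cut (x + ez j) k s) else 0) =
      ∑ k ∈ Finset.univ.erase j, (if i < k then
      (∑ s ∈ Finset.Ico 0 (x k), g k i (cut x k s)) +
      ∑ s ∈ Finset.Ico (x k) 0, g k i (cut x k s) else 0) := by
    refine Finset.sum_congr rfl fun k hk => ?_
    have hkj : k ≠ j := Finset.ne_of_mem_erase hk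
    have e4 : (x + ez j) k = x k := by rw [Pi.add_apply, ez_ne hkj, add_zero]
    rw [e4]
    rcases lt_or_gt_of_ne hkj with h1 | h1
    · have e5 : ∀ s, cut (x + ez j) k s = cut x k s := fun s => cut_congr (fun k' hk' => by
        rw [Pi.add_apply, ez_ne (hk'.trans h1).ne, add_zero]) s
      simp only [e5]
    · rw [h k h1]; simp
  rw [e3]; simp only [Finset.sum_empty]; ring

lemma poa_stepn {g : Fin d → Fin d → Zp d → ℝ} {i j : Fin d} (hij : i < j) {x : Zp d}
    (h : ∀ k, j < k → x k = 0) (h0 : x j ≤ 0) :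
    poa g i (x - ez j) = poa g i x + g j i (x - ez j) := by
  have ht : ∀ k, j < k → (x - ez j) k = 0 := fun k hk => by
    rw [Pi.sub_apply, h k hk, ez_ne hk.ne', sub_zero]
  unfold poa
  rw [← Finset.sum_erase_add _ _ (Finset.mem_univ j), ← Finset.sum_erase_add (s := Finset.univ)
    (f := fun j => if i < j then (∑ s ∈ Finset.Ico 0 (x j), g j i (cut x j s)) +
    ∑ s ∈ Finset.Ico (x j) 0, g j i (cut x j s) else 0) (Finset.mem_univ j), if_pos hij, if_pos hij]
  have e1 : (x - ez j) j = x j - 1 := by rw [Pi.sub_apply, ez_same]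
  have e2 : ∀ s, cut (x - ez j) j s = cut x j s := fun s => cut_congr (fun k hk => by
    rw [Pi.sub_apply, ez_ne hk.ne, sub_zero]) s
  have e6 : cut x j (x j - 1) = x - ez j := by rw [← e2, ← e1, cut_self ht]
  simp only [e1, e2]
  have h1 : Finset.Ico 0 (x j) = ∅ := Finset.Ico_eq_empty (by omega)
  have h2 : Finset.Ico 0 (x j - 1) = ∅ := Finset.Ico_eq_empty (by omega)
  have h3 : Finset.Ico (x j - 1) 0 = insert (x j - 1) (Finset.Ico (x j) 0) := by
    ext s; simp only [Finset.mem_Ico, Finset.mem_insert]; omega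
  rw [h1, h2, h3, Finset.sum_insert (by simp), e6]
  have e3 : ∑ k ∈ Finset.univ.erase j, (if i < k then
      (∑ s ∈ Finset.Ico 0 ((x - ez j) k), g k i (cut (x - ez j) k s)) +
      ∑ s ∈ Finset.Ico ((x - ez j) k) 0, g k i (cut (x - ez j) k s) else 0) =
      ∑ k ∈ Finset.univ.erase j, (if i < k then
      (∑ s ∈ Finset.Ico 0 (x k), g k i (cut x k s)) +
      ∑ s ∈ Finset.Ico (x k) 0, g k i (cut x k s) else 0) := by
    refine Finset.sum_congr rfl fun k hk => ?_
    have hkj : k ≠ j := Finset.ne_of_mem_erase hk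
    have e4 : (x - ez j) k = x k := by rw [Pi.sub_apply, ez_ne hkj, sub_zero]
    rw [e4]
    rcases lt_or_gt_of_ne hkj with h1 | h1
    · have e5 : ∀ s, cut (x - ez j) k s = cut x k s := fun s => cut_congr (fun k' hk' => by
        rw [Pi.sub_apply, ez_ne (hk'.trans h1).ne, sub_zero]) s
      simp only [e5]
    · rw [h k h1]; simp
  rw [e3]; simp only [Finset.sum_empty]; ring

/-- the number of plaquettes of the strip -/
lemma poa_one_le (i : Fin d) (x : Zp d) : poa (fun _ _ _ => 1) i x ≤ l1 x := by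
  unfold poa l1
  push_cast
  refine Finset.sum_le_sum fun j _ => ?_
  split_ifs
  · simp only [Finset.sum_const, nsmul_eq_mul, mul_one, Int.card_Ico]
    have : ((x j - 0).toNat : ℝ) + ((0 - x j).toNat : ℝ) = ((x j).natAbs : ℝ) := by
      have h : (x j - 0).toNat + (0 - x j).toNat = (x j).natAbs := by omega
      exact_mod_cast h
    rw [this]
  · positivity

end comb

end

end Pool.Agent.Y16.YM
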