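import Mathlib
import Pool.Agent.Y16.YM.Lat
import Pool.Agent.Y16.YM.Alg

/-!
# Links in the comb gauge in terms of the plaquettes
-/

open MeasureTheory Matrix
open scoped Matrix.Norms.Frobenius
open Pool.Agent.H906R3.YM Pool.Agent.W793.YM

namespace Pool.Agent.Y16.YM

set_option linter.unusedSectionVars false
set_option linter.unusedVariables false

noncomputable section

section sums

variable {d : ℕ}

/-- the strip between the paths to `x` and to `x + e_i` -/
def stp (i : Fin d) (x : Zp d) : Finset ((_ : Fin d) × ℤ) :=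
  Finset.univ.sigma fun j => if i < j then Finset.Ico 0 (x j) ∪ Finset.Ico (x j) 0 else ∅

lemma ico_disj (m : ℤ) : Disjoint (Finset.Ico 0 m) (Finset.Ico m 0) := by
  rw [Finset.disjoint_left]
  intro s h1 h2
  simp only [Finset.mem_Ico] at h1 h2
  omega

lemma poa_eq (g : Fin d → Fin d → Zp d → ℝ) (i : Fin d) (x : Zp d) :
    poa g i x = ∑ q ∈ stp i x, g q.1 i (cut x q.1 q.2) := by
  unfold poa stp
  rw [Finset.sum_sigma]
  refine Finset.sum_congr rfl fun j _ => ?_
  split_ifs with h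
  · rw [Finset.sum_union (ico_disj _)]
  · simp

lemma pot_eq (g : Fin d → Fin d → Zp d → ℝ) (i : Fin d) (x : Zp d) :
    pot g i x = ∑ q ∈ stp i x, (if 0 ≤ q.2 then 1 else -1) * g q.1 i (cut x q.1 q.2) := by
  unfold pot stp
  rw [Finset.sum_sigma]
  refine Finset.sum_congr rfl fun j _ => ?_
  split_ifs with h
  · rw [Finset.sum_union (ico_disj _), sub_eq_add_neg, ← Finset.sum_neg_distrib]
    congr 1
    · refine Finset.sum_congr rfl fun s hs => ?_
      rw [if_pos (Finset.mem_Ico.1 hs).1, one_mul]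
    · refine Finset.sum_congr rfl fun s hs => ?_
      have h2 : ¬ (0 : ℤ) ≤ s := by have := (Finset.mem_Ico.1 hs).2; omega
      rw [if_neg h2]
      ring
  · simp

lemma stp_card (i : Fin d) (x : Zp d) : ((stp i x).card : ℝ) ≤ l1 x := by
  have h := poa_one_le i x
  rw [poa_eq] at h
  simpa using h

/-- the points of the strip -/
lemma stp_l1 {i : Fin d} {x : Zp d} {q : (_ : Fin d) × ℤ} (hq : q ∈ stp i x) :
    i < q.1 ∧ l1 (cut x q.1 q.2) ≤ l1 x := by
  unfold stp at hq
  rw [Finset.mem_sigma] at hq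
  obtain ⟨-, hq⟩ := hq
  have hi : i < q.1 := by
    by_contra hc
    rw [if_neg hc] at hq
    exact absurd hq (Finset.notMem_empty _)
  refine ⟨hi, ?_⟩
  rw [if_pos hi, Finset.mem_union, Finset.mem_Ico, Finset.mem_Ico] at hq
  unfold l1
  refine Finset.sum_le_sum fun k _ => ?_
  unfold cut
  split_ifs with h1 h2
  · exact le_rfl
  · rw [h2]; omega
  · simp

lemma stp_cut {i : Fin d} {x : Zp d} {q : (_ : Fin d) × ℤ} (hq : q ∈ stp i x) (k : Fin d) :
    |cut x q.1 q.2 k| ≤ |x k| := by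
  unfold stp at hq
  rw [Finset.mem_sigma] at hq
  obtain ⟨-, hq⟩ := hq
  have hi : i < q.1 := by
    by_contra hc
    rw [if_neg hc] at hq
    exact absurd hq (Finset.notMem_empty _)
  rw [if_pos hi, Finset.mem_union, Finset.mem_Ico, Finset.mem_Ico] at hq
  unfold cut
  split_ifs with h1 h2
  · exact le_rfl
  · rw [h2]
    rcases hq with h | h
    · rw [abs_of_nonneg h.1, abs_of_nonneg (by omega)]; omega
    · rw [abs_of_neg h.2, abs_of_neg (by omega)]; omega
  · simp

lemma poa_nonneg {g : Fin d → Fin d → Zp d → ℝ} (hg : ∀ i j x, 0 ≤ g i j x) (i : Fin d)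
    (x : Zp d) : 0 ≤ poa g i x := by
  rw [poa_eq]
  exact Finset.sum_nonneg fun q _ => hg _ _ _

lemma poa_pow {g : Fin d → Fin d → Zp d → ℝ} (hg : ∀ i j x, 0 ≤ g i j x) (i : Fin d)
    (x : Zp d) (k : ℕ) : poa g i x ^ (k + 1) ≤
      (l1 x : ℝ) ^ k * poa (fun i j x => g i j x ^ (k + 1)) i x := by
  rw [poa_eq, poa_eq]
  have h1 := pow_sum_le_card_mul_sum_pow (s := stp i x)
    (f := fun q => g q.1 i (cut x q.1 q.2)) (fun q _ => hg _ _ _) k
  refine h1.trans (mul_le_mul_of_nonneg_right ?_ (Finset.sum_nonneg fun q _ => by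
    have := hg q.1 i (cut x q.1 q.2); positivity))
  exact pow_le_pow_left₀ (Nat.cast_nonneg _) (stp_card i x) _

lemma poa_le {g : Fin d → Fin d → Zp d → ℝ} {s : ℝ} (hs : 0 ≤ s) (i : Fin d)
    (x : Zp d) (h : ∀ j z, i < j → l1 z ≤ l1 x → g j i z ≤ s) : poa g i x ≤ l1 x * s := by
  rw [poa_eq]
  calc _ ≤ ∑ q ∈ stp i x, s := Finset.sum_le_sum fun q hq => h _ _ (stp_l1 hq).1 (stp_l1 hq).2
    _ = (stp i x).card * s := by rw [Finset.sum_const, nsmul_eq_mul]
    _ ≤ _ := mul_le_mul_of_nonneg_right (stp_card i x) hs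

lemma pot_le {g : Fin d → Fin d → Zp d → ℝ} {s : ℝ} (hs : 0 ≤ s) (i : Fin d)
    (x : Zp d) (h : ∀ j z, i < j → l1 z ≤ l1 x → |g j i z| ≤ s) : |pot g i x| ≤ l1 x * s := by
  rw [pot_eq]
  calc _ ≤ ∑ q ∈ stp i x, |(if 0 ≤ q.2 then (1:ℝ) else -1) * g q.1 i (cut x q.1 q.2)| :=
        Finset.abs_sum_le_sum_abs _ _
    _ ≤ ∑ q ∈ stp i x, s := Finset.sum_le_sum fun q hq => by
        rw [abs_mul]
        have h1 : |(if 0 ≤ q.2 then (1:ℝ) else -1)| = 1 := by split_ifs <;> simp
        rw [h1, one_mul]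
        exact h _ _ (stp_l1 hq).1 (stp_l1 hq).2
    _ = (stp i x).card * s := by rw [Finset.sum_const, nsmul_eq_mul]
    _ ≤ _ := mul_le_mul_of_nonneg_right (stp_card i x) hs

end sums

variable {G : Type*} [Group G] [TopologicalSpace G] [IsTopologicalGroup G] [CompactSpace G]
  [SecondCountableTopology G] [MeasurableSpace G] [BorelSpace G] {N n : ℕ} {L : LD G N n} {d : ℕ}

/-- the deviations of the plaquettes -/
def dg (L : LD G N n) (u : Zp d → Fin d → G) (j i : Fin d) (x : Zp d) : ℝ := dv L (Gz u x j i)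

/-- the components of the plaquettes -/
def cg (L : LD G N n) (u : Zp d → Fin d → G) (c : Fin n) (j i : Fin d) (x : Zp d) : ℝ :=
  cc L c (Gz u x j i)

lemma dg_nonneg (u : Zp d → Fin d → G) (j i : Fin d) (x : Zp d) : 0 ≤ dg L u j i x :=
  dv_nonneg _

lemma dg_eq (u : Zp d → Fin d → G) (j i : Fin d) (x : Zp d) : dg L u j i x = dv L (plz u x j i) :=
  dv_conj _ _

lemma comb_step {C : Zp d → Fin d → Prop} (h0 : ∀ x i, (∀ k, i < k → x k = 0) → C x i)
    (hp : ∀ x i j, i < j → (∀ k, j < k → x k = 0) → 0 ≤ x j → C x i → C (x + ez j) i)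
    (hn : ∀ x i j, i < j → (∀ k, j < k → x k = 0) → x j ≤ 0 → C x i → C (x - ez j) i) :
    ∀ x i, C x i := by
  intro x i
  refine comb_ind (C := fun x => C x i) (h0 _ _ fun k _ => rfl) (fun x j hx h1 h2 => ?_)
    (fun x j hx h1 h2 => ?_) x
  · by_cases hij : i < j
    · exact hp x i j hij hx h1 h2
    · refine h0 _ _ fun k hk => ?_
      have hjk : j < k := lt_of_le_of_lt (not_lt.1 hij) hk
      rw [Pi.add_apply, hx k hjk, ez_ne hjk.ne', add_zero]
  · by_cases hij : i < j
    · exact hn x i j hij hx h1 h2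
    · refine h0 _ _ fun k hk => ?_
      have hjk : j < k := lt_of_le_of_lt (not_lt.1 hij) hk
      rw [Pi.sub_apply, hx k hjk, ez_ne hjk.ne', sub_zero]

lemma tail_sub {x : Zp d} {j : Fin d} (h : ∀ k, j < k → x k = 0) :
    ∀ k, j < k → (x - ez j) k = 0 := fun k hk => by
  rw [Pi.sub_apply, h k hk, ez_ne hk.ne', sub_zero]

lemma Vz_stepn (u : Zp d → Fin d → G) (x : Zp d) {i j : Fin d} (hij : i < j)
    (h : ∀ k, j < k → x k = 0) : Vz u (x - ez j) i = (Gz u (x - ez j) j i)⁻¹ * Vz u x i := by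
  have h1 := Vz_step u (x - ez j) hij (tail_sub h)
  rw [sub_add_cancel] at h1
  rw [h1, inv_mul_cancel_left]

/-- the deviation of a link -/
theorem dv_Vz (u : Zp d → Fin d → G) : ∀ x i, dv L (Vz u x i) ≤ poa (dg L u) i x := by
  refine comb_step (fun x i h => ?_) (fun x i j hij h h0 ih => ?_) (fun x i j hij h h0 ih => ?_)
  · rw [Vz_tree u x i h, dv_one, poa_tree _ h]
  · rw [Vz_step u x hij h, poa_stepp hij h h0]
    refine (dv_mul _ _).trans ?_
    have : dv L (Gz u x j i) = dg L u j i x := rfl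
    linarith
  · rw [Vz_stepn u x hij h, poa_stepn hij h h0]
    refine (dv_mul _ _).trans ?_
    rw [dv_inv]
    have : dv L (Gz u (x - ez j) j i) = dg L u j i (x - ez j) := rfl
    linarith

lemma cc_mul_le (c : Fin n) (g h : G) :
    |cc L c (g * h) - cc L c g - cc L c h| ≤ dv L g * dv L h := by
  have := fi_mul (L := L) c g h
  rw [cc_fi, cc_fi, cc_fi, ← abs_neg]
  refine le_trans (le_of_eq ?_) this
  congr 1; ring

/-- the components of a link -/
theorem cc_Vz (u : Zp d → Fin d → G) (c : Fin n) : ∀ x i,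
    |cc L c (Vz u x i) - pot (cg L u c) i x| ≤ poa (dg L u) i x ^ 2 := by
  refine comb_step (fun x i h => ?_) (fun x i j hij h h0 ih => ?_) (fun x i j hij h h0 ih => ?_)
  · rw [Vz_tree u x i h, cc_one, poa_tree _ h, pot_tree _ h]
    simp
  · have h1 := cc_mul_le (L := L) c (Gz u x j i) (Vz u x i)
    have h2 := dv_Vz (L := L) u x i
    have h3 := dg_nonneg (L := L) u j i x
    have h4 := dv_nonneg (L := L) (Vz u x i)
    have h5 : dv L (Gz u x j i) = dg L u j i x := rfl
    have h6 : cc L c (Gz u x j i) = cg L u c j i x := rfl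
    rw [← Vz_step u x hij h, h5, h6] at h1
    rw [poa_stepp hij h h0, pot_step _ hij h]
    have h7 : dg L u j i x * dv L (Vz u x i) ≤ dg L u j i x * poa (dg L u) i x :=
      mul_le_mul_of_nonneg_left h2 h3
    have h8 : 0 ≤ poa (dg L u) i x := h4.trans h2
    have h9 : 0 ≤ dg L u j i x * poa (dg L u) i x := mul_nonneg h3 h8
    have h10 := sq_nonneg (dg L u j i x)
    rw [abs_le] at *
    constructor <;> nlinarith [ih.1, ih.2, h1.1, h1.2]
  · have h1 := cc_mul_le (L := L) c (Gz u (x - ez j) j i)⁻¹ (Vz u x i)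
    have h2 := dv_Vz (L := L) u x i
    have h3 := dg_nonneg (L := L) u j i (x - ez j)
    have h4 := dv_nonneg (L := L) (Vz u x i)
    have h5 : dv L (Gz u (x - ez j) j i) = dg L u j i (x - ez j) := rfl
    have h6 : cc L c (Gz u (x - ez j) j i) = cg L u c j i (x - ez j) := rfl
    rw [← Vz_stepn u x hij h, dv_inv, h5, cc_inv, h6] at h1
    have h11 := pot_step (cg L u c) hij (tail_sub h)
    rw [sub_add_cancel] at h11
    rw [poa_stepn hij h h0]
    have h12 : pot (cg L u c) i (x - ez j) = pot (cg L u c) i x - cg L u c j i (x - ez j) := by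
      rw [h11]; ring
    rw [h12]
    have h7 : dg L u j i (x - ez j) * dv L (Vz u x i) ≤ dg L u j i (x - ez j) *
      poa (dg L u) i x := mul_le_mul_of_nonneg_left h2 h3
    have h8 : 0 ≤ poa (dg L u) i x := h4.trans h2
    have h9 : 0 ≤ dg L u j i (x - ez j) * poa (dg L u) i x := mul_nonneg h3 h8
    have h10 := sq_nonneg (dg L u j i (x - ez j))
    rw [abs_le] at *
    constructor <;> nlinarith [ih.1, ih.2, h1.1, h1.2]

/-- comparison of the comb transport with another frame -/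
theorem dv_frame (u : Zp d → Fin d → G) (R : Zp d → G) {s : ℝ} (hs : 0 ≤ s) {m : ℕ}
    (h : ∀ z, l1 z ≤ m → ∀ j, l1 (z + ez j) ≤ m → dv L (R z * u z j * (R (z + ez j))⁻¹) ≤ s) :
    ∀ x, l1 x ≤ m → dv L (R 0 * Pz u x * (R x)⁻¹) ≤ l1 x * s := by
  refine comb_ind (fun _ => ?_) (fun x j hx h0 ih hm => ?_) (fun x j hx h0 ih hm => ?_)
  · rw [Pz_zero, mul_one, mul_inv_cancel, dv_one]
    positivity
  · have e1 : R 0 * Pz u (x + ez j) * (R (x + ez j))⁻¹ = (R 0 * Pz u x * (R x)⁻¹) *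
        (R x * u x j * (R (x + ez j))⁻¹) := by
      rw [Pz_tree u x j hx]; group
    have e2 := l1_add x j h0
    rw [e1, e2]
    refine (dv_mul _ _).trans ?_
    push_cast
    have h1 := ih (by omega)
    have h2 := h x (by omega) j hm
    linarith
  · have h3 := Pz_tree u (x - ez j) j (tail_sub hx)
    rw [sub_add_cancel] at h3
    have e1 : R 0 * Pz u (x - ez j) * (R (x - ez j))⁻¹ = (R 0 * Pz u x * (R x)⁻¹) *
        (R (x - ez j) * u (x - ez j) j * (R x)⁻¹)⁻¹ := by
      rw [h3]; group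
    have e2 := l1_sub x j h0
    rw [e1, e2]
    refine (dv_mul _ _).trans ?_
    rw [dv_inv]
    push_cast
    have h1 := ih (by omega)
    have h2 := h (x - ez j) hm j (by rw [sub_add_cancel]; omega)
    rw [sub_add_cancel] at h2
    linarith

end

end Pool.Agent.Y16.YM
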