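import Mathlib
import Pool.Agent.Y16.YM.Comb
import Pool.Agent.W793.YM.Char

/-!
# Flows of one link and the integration by parts
-/

open MeasureTheory Matrix
open scoped Matrix.Norms.Frobenius
open Pool.Agent.H906R3.YM Pool.Agent.W793.YM

namespace Pool.Agent.Y16.YM

set_option linter.unusedSectionVars false
set_option linter.unusedVariables false

noncomputable section

variable {G : Type*} [Group G] [TopologicalSpace G] [IsTopologicalGroup G] [CompactSpace G]
  [SecondCountableTopology G] [MeasurableSpace G] [BorelSpace G] (μ : Measure G)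
  [IsProbabilityMeasure μ] [μ.IsMulLeftInvariant] [μ.IsMulRightInvariant] [μ.IsInvInvariant]
  {N n : ℕ} {L : LD G N n}

section flow

variable {E : Type*} [Fintype E] [DecidableEq E]

/-- the flow of the link `e` in the frame `P` -/
def fl (L : LD G N n) (e : E) (P : (E → G) → G) (α : Fin n) (t : ℝ) (U : E → G) : E → G :=
  Function.update U e ((P U)⁻¹ * L.ex α t * P U * U e)

/-- the frame does not see the link, at least on one side -/
def Fr (e : E) (P : (E → G) → G) : Prop :=
  Continuous P ∧ (Dep (fun e' => ¬(e' = e)) P ∨ Dep (fun e' => ¬(e' = e)) fun U => P U * U e)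

variable {e : E} {P : (E → G) → G}

lemma fl_same (α : Fin n) (t : ℝ) (U : E → G) :
    fl L e P α t U e = (P U)⁻¹ * L.ex α t * P U * U e := by
  unfold fl; rw [Function.update_self]

lemma fl_ne (α : Fin n) (t : ℝ) (U : E → G) {e' : E} (h : e' ≠ e) : fl L e P α t U e' = U e' := by
  unfold fl; rw [Function.update_of_ne h]

lemma fl_zero (α : Fin n) (U : E → G) : fl L e P α 0 U = U := by
  unfold fl
  rw [L.ex_zero, mul_one, inv_mul_cancel, one_mul, Function.update_eq_self]

lemma fl_add (hP : Fr e P) (α : Fin n) (s t : ℝ) (U : E → G) :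
    fl L e P α (s + t) U = fl L e P α s (fl L e P α t U) := by
  funext e'
  by_cases h : e' = e
  · subst h
    rw [fl_same, fl_same, fl_same, L.ex_add]
    rcases hP.2 with h1 | h1
    · have h2 : P (fl L e' P α t U) = P U := h1 _ _ fun e'' he => fl_ne α t U he
      rw [h2]; group
    · have h2 : P (fl L e' P α t U) * (fl L e' P α t U e') = P U * U e' :=
        h1 _ _ fun e'' he => fl_ne α t U he
      rw [fl_same] at h2
      have h3 : P (fl L e' P α t U) = P U * U e' * ((P U)⁻¹ * L.ex α t * P U * U e')⁻¹ := by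
        rw [← h2]; group
      have h4 : L.ex α s * L.ex α t = L.ex α t * L.ex α s := by
        rw [← L.ex_add, ← L.ex_add, add_comm]
      rw [h3, h4]; group
  · rw [fl_ne α _ _ h, fl_ne α _ _ h, fl_ne α _ _ h]

lemma fl_cont (hP : Continuous P) (α : Fin n) (t : ℝ) : Continuous (fl L e P α t) := by
  refine continuous_pi fun e' => ?_
  by_cases h : e' = e
  · subst h
    simp only [fl_same]
    exact ((hP.inv.mul continuous_const).mul hP).mul (continuous_apply _)
  · simp only [fl_ne α t _ h]
    exact continuous_apply _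

lemma fl_int (hP : Fr e P) (α : Fin n) (t : ℝ) {F : (E → G) → ℝ} (hF : Continuous F) :
    ∫ U, F (fl L e P α t U) ∂(ME μ E) = ∫ U, F U ∂(ME μ E) := by
  rcases hP.2 with h1 | h1
  · have h2 := integral_skew μ (fun e' => e' = e) hF
      (a := fun _ U => (P U)⁻¹ * L.ex α t * P U) (b := fun _ _ => 1)
      (fun _ => (hP.1.inv.mul continuous_const).mul hP.1) (fun _ => continuous_const)
      (fun _ U U' h => by simp only; rw [h1 U U' h]) (fun _ U U' h => rfl)
    rw [← h2]
    refine integral_congr_ae (Filter.Eventually.of_forall fun U => ?_)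
    simp only
    congr 1
    funext e'
    by_cases h : e' = e
    · subst h; rw [fl_same, if_pos rfl, mul_one]
    · rw [fl_ne _ _ _ h, if_neg h]
  · have hc : Continuous fun U : E → G => P U * U e := hP.1.mul (continuous_apply _)
    have h2 := integral_skew μ (fun e' => e' = e) hF (a := fun _ _ => 1)
      (b := fun _ U => (P U * U e)⁻¹ * L.ex α t * (P U * U e))
      (fun _ => continuous_const) (fun _ => (hc.inv.mul continuous_const).mul hc)
      (fun _ U U' h => rfl) (fun _ U U' h => by
        have h3 : P U * U e = P U' * U' e := h1 U U' h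
        simp only
        rw [h3])
    rw [← h2]
    refine integral_congr_ae (Filter.Eventually.of_forall fun U => ?_)
    simp only
    congr 1
    funext e'
    by_cases h : e' = e
    · subst h; rw [fl_same, if_pos rfl]; group
    · rw [fl_ne _ _ _ h, if_neg h]

/-- the integral of a derivative vanishes -/
theorem int_der (hP : Fr e P) (α : Fin n) {F F' : (E → G) → ℝ} (hF : Continuous F)
    (hF' : Continuous F') (hd : ∀ U, HasDerivAt (fun t => F (fl L e P α t U)) (F' U) 0) :
    ∫ U, F' U ∂(ME μ E) = 0 := by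
  obtain ⟨C, hC⟩ : ∃ C, ∀ U, |F' U| ≤ C := by
    obtain ⟨C, hC⟩ := (isCompact_range hF'.abs).bddAbove
    exact ⟨C, fun U => hC ⟨U, rfl⟩⟩
  have hder := hasDerivAt_integral_of_dominated_loc_of_deriv_le (μ := ME μ E)
    (F := fun t U => F (fl L e P α t U))
    (F' := fun t U => F' (fl L e P α t U)) (x₀ := (0 : ℝ)) (s := Set.univ)
    (bound := fun _ => C) Filter.univ_mem
    (Filter.Eventually.of_forall fun t =>
      (hF.comp (fl_cont hP.1 α t)).aestronglyMeasurable)
    (integrable_cont μ (hF.comp (fl_cont hP.1 α 0)))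
    ((hF'.comp (fl_cont hP.1 α 0)).aestronglyMeasurable)
    (Filter.Eventually.of_forall fun U t _ => hC _) (integrable_const _)
    (Filter.Eventually.of_forall fun U s _ => by
      have h2 : (fun t => F (fl L e P α t U)) =
          (fun t => F (fl L e P α t (fl L e P α s U))) ∘ fun t => t - s := by
        funext t
        simp only [Function.comp]
        rw [← fl_add hP, sub_add_cancel]
      rw [h2]
      have h3 : HasDerivAt (fun t : ℝ => t - s) 1 s := by
        simpa using (hasDerivAt_id s).sub_const s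
      have h4 := HasDerivAt.comp_of_eq s (hd (fl L e P α s U)) h3 (by simp)
      simpa using h4)
  have h1 := hder.2.deriv
  have h2 : (fun t => ∫ U, F (fl L e P α t U) ∂(ME μ E)) =
      fun _ => ∫ U, F U ∂(ME μ E) := funext fun t => fl_int μ hP α t hF
  rw [h2, deriv_const] at h1
  simpa [fl_zero] using h1.symm

variable (L) in
/-- the infinitesimal flow in the frame `P` -/
def Yf (α : Fin n) (p : G) : Mat N := L.rho p⁻¹ * L.X α * L.rho p

lemma der_ex (α : Fin n) (p g : G) :
    HasDerivAt (fun t => L.rho (p⁻¹ * L.ex α t * p * g)) (Yf L α p * L.rho g) 0 := by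
  have h1 := (((L.deriv_ex α).const_mul (L.rho p⁻¹)).mul_const (L.rho p)).mul_const (L.rho g)
  have h2 : (fun t => L.rho (p⁻¹ * L.ex α t * p * g)) =
      fun t => L.rho p⁻¹ * L.rho (L.ex α t) * L.rho p * L.rho g := by
    funext t; rw [map_mul, map_mul, map_mul]
  rw [h2]
  exact h1

/-- the indicator of the link -/
def dl (e e' : E) : ℝ := if e' = e then 1 else 0

lemma der_link (α : Fin n) (U : E → G) (e' : E) :
    HasDerivAt (fun t => L.rho (fl L e P α t U e'))
      (dl e e' • (Yf L α (P U) * L.rho (U e'))) 0 := by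
  unfold dl
  by_cases h : e' = e
  · subst h
    simp only [fl_same, if_true, one_smul]
    exact der_ex α _ _
  · simp only [fl_ne _ _ _ h, if_neg h, zero_smul]
    exact hasDerivAt_const _ _

lemma Yf_skew (α : Fin n) (p : G) : (Yf L α p)ᴴ = -Yf L α p := by
  unfold Yf
  rw [conjTranspose_mul, conjTranspose_mul, skew, L.rho_inv, conjTranspose_conjTranspose, neg_mul,
    mul_neg, Matrix.mul_assoc]

lemma der_inv (α : Fin n) (U : E → G) (e' : E) :
    HasDerivAt (fun t => L.rho (fl L e P α t U e')⁻¹)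
      (-(dl e e' • (L.rho (U e')⁻¹ * Yf L α (P U)))) 0 := by
  have h1 := der_link (L := L) (e := e) (P := P) α U e'
  have h2 : HasDerivAt (fun t => (L.rho (fl L e P α t U e'))ᴴ)
      ((dl e e' • (Yf L α (P U) * L.rho (U e')))ᴴ) 0 :=
    (ctL N).hasFDerivAt.comp_hasDerivAt (0 : ℝ) h1
  have h3 : (dl e e' • (Yf L α (P U) * L.rho (U e')))ᴴ =
      -(dl e e' • (L.rho (U e')⁻¹ * Yf L α (P U))) := by
    rw [conjTranspose_smul, conjTranspose_mul, Yf_skew, L.rho_inv, mul_neg, smul_neg]
    simp
  rw [h3] at h2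
  simpa only [L.rho_inv] using h2

end flow

section torus

variable {d l : ℕ} [NeZero l] {e : Ed d l} {P : (Ed d l → G) → G}

/-- the derivative of a plaquette -/
def Dpl (L : LD G N n) (e : Ed d l) (α : Fin n) (p : G) (U : Ed d l → G) (y : St d l) (i j : Fin d) :
    Mat N :=
  dl e (y, i) • (Yf L α p * L.rho (plqT U y i j)) +
  dl e (y + eT i, j) • (L.rho (U (y, i)) * Yf L α p * L.rho ((U (y, i))⁻¹ * plqT U y i j)) -
  dl e (y + eT j, i) • (L.rho (plqT U y i j * U (y, j)) * Yf L α p * L.rho (U (y, j))⁻¹) -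
  dl e (y, j) • (L.rho (plqT U y i j) * Yf L α p)

lemma der_plq (α : Fin n) (U : Ed d l → G) (y : St d l) (i j : Fin d) :
    HasDerivAt (fun t => L.rho (plqT (fl L e P α t U) y i j)) (Dpl L e α (P U) U y i j) 0 := by
  have h1 := der_link (L := L) (e := e) (P := P) α U (y, i)
  have h2 := der_link (L := L) (e := e) (P := P) α U (y + eT i, j)
  have h3 := der_inv (L := L) (e := e) (P := P) α U (y + eT j, i)
  have h4 := der_inv (L := L) (e := e) (P := P) α U (y, j)
  have h5 := ((h1.mul h2).mul h3).mul h4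
  have e1 : (fun t => L.rho (plqT (fl L e P α t U) y i j)) =
      (((fun t => L.rho (fl L e P α t U (y, i))) * fun t => L.rho (fl L e P α t U (y + eT i, j))) *
        fun t => L.rho (fl L e P α t U (y + eT j, i))⁻¹) *
        fun t => L.rho (fl L e P α t U (y, j))⁻¹ := by
    funext t
    unfold plqT
    simp only [map_mul, Pi.mul_apply]
  rw [e1]
  refine h5.congr_deriv ?_
  simp only [Pi.mul_apply, fl_zero]
  unfold Dpl plqT
  obtain ⟨g1, hg1⟩ : ∃ g, g = U (y, i) := ⟨_, rfl⟩
  obtain ⟨g2, hg2⟩ : ∃ g, g = U (y + eT i, j) := ⟨_, rfl⟩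
  obtain ⟨g3, hg3⟩ : ∃ g, g = U (y + eT j, i) := ⟨_, rfl⟩
  obtain ⟨g4, hg4⟩ : ∃ g, g = U (y, j) := ⟨_, rfl⟩
  simp only [← hg1, ← hg2, ← hg3, ← hg4]
  have a1 : g1⁻¹ * (g1 * g2 * g3⁻¹ * g4⁻¹) = g2 * g3⁻¹ * g4⁻¹ := by group
  have a2 : g1 * g2 * g3⁻¹ * g4⁻¹ * g4 = g1 * g2 * g3⁻¹ := by group
  rw [a1, a2]
  simp only [map_mul, smul_mul_assoc, mul_smul_comm, mul_neg, neg_mul, add_mul, smul_add, smul_neg,
    mul_assoc]
  abel

end torus

end

end Pool.Agent.Y16.YM
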