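import Mathlib
import Pool.Agent.Y16.YM.Flow
import Pool.Agent.W793.YM.Rebase

/-!
# The Schwinger-Dyson equations in the comb gauge
-/

open MeasureTheory Matrix
open scoped Matrix.Norms.Frobenius
open Pool.Agent.H906R3.YM Pool.Agent.W793.YM

namespace Pool.Agent.Y16.YM

set_option linter.unusedSectionVars false
set_option linter.unusedVariables false

noncomputable section

section cont

variable {G : Type*} [Group G] [TopologicalSpace G] [IsTopologicalGroup G] {d : ℕ}

lemma app_cont (x : Zp d) (i : Fin d) : Continuous fun u : Zp d → Fin d → G => u x i :=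
  (continuous_apply i).comp (continuous_apply x)

lemma sg_cont {X : Type*} [TopologicalSpace X] {f : X → ℤ → G} (hf : ∀ s, Continuous fun x => f x s)
    (m : ℤ) : Continuous fun x => sg (f x) m := by
  have h1 : ∀ k : ℕ, Continuous fun x => sgP (f x) k := by
    intro k
    induction k with
    | zero => exact continuous_const
    | succ k ih => exact ih.mul (hf _)
  have h2 : ∀ k : ℕ, Continuous fun x => sgN (f x) k := by
    intro k
    induction k with
    | zero => exact continuous_const
    | succ k ih => exact ih.mul (hf _).inv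
  unfold sg
  split_ifs
  · exact h1 _
  · exact h2 _

lemma Pz_cont (x : Zp d) : Continuous fun u : Zp d → Fin d → G => Pz u x := by
  have h : ∀ k, Continuous fun u : Zp d → Fin d → G => Qz u x k := by
    intro k
    induction k with
    | zero => exact continuous_const
    | succ k ih =>
      by_cases hk : k < d
      · simp only [Qz_succ, dif_pos hk]
        exact ih.mul (sg_cont (fun s => app_cont _ _) _)
      · simp only [Qz_succ, dif_neg hk]
        exact ih.mul continuous_const
  exact h d

lemma plz_cont (x : Zp d) (i j : Fin d) : Continuous fun u : Zp d → Fin d → G => plz u x i j :=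
  (((app_cont _ _).mul (app_cont _ _)).mul (app_cont _ _).inv).mul (app_cont _ _).inv

lemma Gz_cont (x : Zp d) (i j : Fin d) : Continuous fun u : Zp d → Fin d → G => Gz u x i j :=
  ((Pz_cont _).mul (plz_cont _ _ _)).mul (Pz_cont _).inv

lemma Vz_cont (x : Zp d) (i : Fin d) : Continuous fun u : Zp d → Fin d → G => Vz u x i :=
  ((Pz_cont _).mul (app_cont _ _)).mul (Pz_cont _).inv

end cont

section per

variable {G : Type*} {d l : ℕ}

/-- the periodic extension -/
def uz (U : Ed d l → G) : Zp d → Fin d → G := fun x i => U (zt l x, i)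

lemma uz_cont [TopologicalSpace G] : Continuous (uz : (Ed d l → G) → Zp d → Fin d → G) :=
  continuous_pi fun _ => continuous_pi fun _ => continuous_apply _

lemma zt_inj {x y : Zp d} (h : zt l x = zt l y) (hb : ∀ i, |x i - y i| < l) : x = y := by
  funext i
  have h1 : ((x i : ℤ) : ZMod l) = ((y i : ℤ) : ZMod l) := congrFun h i
  rw [ZMod.intCast_eq_intCast_iff_dvd_sub] at h1
  have h2 := Int.eq_zero_of_abs_lt_dvd h1 (by rw [abs_sub_comm]; exact hb i)
  omega

variable [Group G]

lemma plqT_uz (U : Ed d l → G) (x : Zp d) (i j : Fin d) :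
    plqT U (zt l x) i j = plz (uz U) x i j := by
  unfold plqT plz uz
  rw [zt_add, zt_add]

end per

variable {G : Type*} [Group G] [TopologicalSpace G] [IsTopologicalGroup G] [CompactSpace G]
  [SecondCountableTopology G] [MeasurableSpace G] [BorelSpace G] (μ : Measure G)
  [IsProbabilityMeasure μ] [μ.IsMulLeftInvariant] [μ.IsMulRightInvariant] [μ.IsInvInvariant]
  {N n : ℕ} {L : LD G N n} {d l : ℕ} [NeZero l]

/-- the comb transport is an admissible frame -/
lemma fr_Pz {x : Zp d} (hx : ∀ i, 2 * (|x i| + 1) < l) (k : Fin d) :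
    Fr ((zt l x, k) : Ed d l) (fun U : Ed d l → G => Pz (uz U) x) := by
  refine ⟨(Pz_cont x).comp uz_cont, ?_⟩
  by_cases hc : x k < 0 ∧ ∀ j, k < j → x j = 0
  · right
    have e1 : (fun U : Ed d l → G => Pz (uz U) x * U (zt l x, k)) =
        fun U => Pz (uz U) (x + ez k) := by
      funext U
      rw [Pz_tree _ _ _ hc.2]; rfl
    rw [e1]
    intro U U' h
    refine Pz_congr fun z k' hz => h _ fun he => ?_
    obtain ⟨h1, h2⟩ := Prod.ext_iff.1 he
    simp only at h1 h2
    subst h2
    have h3 : z = x := zt_inj h1 fun i => by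
      have hxi := hx i
      rcases lt_trichotomy i k' with hi | hi | hi
      · have := hz.1 i hi
        rw [Pi.add_apply, ez_ne hi.ne, add_zero] at this
        rw [this, sub_self, abs_zero]
        have := abs_nonneg (x i)
        omega
      · subst hi
        have := hz.2.2
        rw [Pi.add_apply, ez_same] at this
        rw [abs_lt] at *
        have h5 := neg_abs_le (x i)
        have h6 := le_abs_self (x i)
        constructor <;> omega
      · have h4 := hz.2.1 i hi
        rw [h4, hc.2 i hi, sub_self, abs_zero]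
        have := abs_nonneg (x i)
        omega
    subst h3
    have := hz.2.2
    rw [Pi.add_apply, ez_same] at this
    omega
  · left
    intro U U' h
    refine Pz_congr fun z k' hz => h _ fun he => ?_
    obtain ⟨h1, h2⟩ := Prod.ext_iff.1 he
    simp only at h1 h2
    subst h2
    have h3 : z = x := zt_inj h1 fun i => by
      have hxi := hx i
      have h5 := neg_abs_le (x i)
      have h6 := le_abs_self (x i)
      have h7 := abs_nonneg (x i)
      rw [abs_lt]
      rcases lt_trichotomy i k' with hi | hi | hi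
      · have := hz.1 i hi
        omega
      · subst hi
        have := hz.2.2
        omega
      · have h4 := hz.2.1 i hi
        omega
    subst h3
    exact hc ⟨by have := hz.2.2; omega, hz.2.1⟩

/-- the current -/
def DS (L : LD G N n) (u : Zp d → Fin d → G) (α : Fin n) (x : Zp d) (k : Fin d) : ℝ :=
  ∑ j, (cc L α (Gz u x k j) - cc L α ((Vz u (x - ez j) j)⁻¹ * Gz u (x - ez j) k j *
    Vz u (x - ez j) j))

lemma ip_one_swap (A B : Mat N) : ip 1 (A * B) = ip 1 (B * A) := by
  rw [ip_apply, ip_apply, conjTranspose_one, one_mul, one_mul, trace_mul_comm]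

lemma ip_one_Yf (α : Fin n) (p g : G) : ip 1 (Yf L α p * L.rho g) = -cc L α (p * g * p⁻¹) := by
  have h1 : ip 1 (Yf L α p * L.rho g) = ip 1 (L.X α * L.rho (p * g * p⁻¹)) := by
    unfold Yf
    rw [mul_assoc, mul_assoc, ip_one_swap]
    simp only [map_mul, mul_assoc]
  rw [h1]
  unfold cc
  rw [ip_apply, ip_apply, conjTranspose_one, one_mul, skew, neg_mul, trace_neg, Complex.neg_re,
    neg_neg]

lemma der_act_plq {x : Zp d} {k : Fin d} (α : Fin n) (p : G) (U : Ed d l → G) (y : St d l)
    {j : Fin d} (hj : j ≠ k) : -ip 1 (Dpl L ((zt l x, k) : Ed d l) α p U y k j) =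
      dl ((zt l x, k) : Ed d l) (y, k) * cc L α (p * plqT U y k j * p⁻¹) -
      dl ((zt l x, k) : Ed d l) (y + eT j, k) *
        cc L α (p * ((U (y, j))⁻¹ * plqT U y k j * U (y, j)) * p⁻¹) := by
  have h1 : ∀ z : St d l, dl ((zt l x, k) : Ed d l) (z, j) = 0 := fun z => by
    unfold dl
    rw [if_neg fun h => hj (congrArg Prod.snd h)]
  unfold Dpl
  rw [h1, h1, zero_smul, zero_smul, add_zero, sub_zero, map_sub, map_smul, map_smul, ip_one_Yf]
  have h2 : ip 1 (L.rho (plqT U y k j * U (y, j)) * Yf L α p * L.rho (U (y, j))⁻¹) =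
      -cc L α (p * ((U (y, j))⁻¹ * plqT U y k j * U (y, j)) * p⁻¹) := by
    rw [← ip_one_Yf, mul_assoc, ip_one_swap, mul_assoc, ← map_mul]
    congr 3
    group
  rw [h2, smul_eq_mul, smul_eq_mul]
  ring

lemma sum_dl {x : St d l} {k : Fin d} (f : St d l → ℝ) (j : Fin d) :
    ∑ y, dl ((x, k) : Ed d l) (y + eT j, k) * f y = f (x - eT j) := by
  rw [Finset.sum_eq_single (x - eT j)]
  · unfold dl
    rw [if_pos (by rw [sub_add_cancel]), one_mul]
  · intro y _ hy
    unfold dl
    rw [if_neg (fun h => hy (eq_sub_of_add_eq (Prod.ext_iff.1 h).1)), zero_mul]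
  · intro h; exact absurd (Finset.mem_univ _) h

lemma sum_dl0 {x : St d l} {k : Fin d} (f : St d l → ℝ) :
    ∑ y, dl ((x, k) : Ed d l) (y, k) * f y = f x := by
  rw [Finset.sum_eq_single x]
  · unfold dl
    rw [if_pos rfl, one_mul]
  · intro y _ hy
    unfold dl
    rw [if_neg (fun h => hy ((Prod.ext_iff.1 h).1)), zero_mul]
  · intro h; exact absurd (Finset.mem_univ _) h

lemma zt_sub' (x : Zp d) (j : Fin d) : zt l x - eT j = zt l (x - ez j) := by
  rw [← zt_sub x j, add_sub_cancel_right]

/-- the derivative of the action -/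
theorem der_act {x : Zp d} {k : Fin d} (α : Fin n) (U : Ed d l → G) :
    HasDerivAt (fun t => act L (fl L ((zt l x, k) : Ed d l) (fun U => Pz (uz U) x) α t U))
      (DS L (uz U) α x k) 0 := by
  obtain ⟨e, he⟩ : ∃ e : Ed d l, e = (zt l x, k) := ⟨_, rfl⟩
  obtain ⟨P, hP⟩ : ∃ P : (Ed d l → G) → G, P = fun U => Pz (uz U) x := ⟨_, rfl⟩
  rw [← he, ← hP]
  have hA : ∀ t y, aA L k (fl L e P α t U) y = aA L k U y := by
    intro t y
    unfold aA
    refine Finset.sum_congr rfl fun i _ => Finset.sum_congr rfl fun j _ => ?_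
    split_ifs with h
    · have h1 : ∀ z, fl L e P α t U (z, i) = U (z, i) := fun z => fl_ne α t U (by
        rw [he]; exact fun h' => h.2.1 (congrArg Prod.snd h'))
      have h2 : ∀ z, fl L e P α t U (z, j) = U (z, j) := fun z => fl_ne α t U (by
        rw [he]; exact fun h' => h.2.2 (congrArg Prod.snd h'))
      unfold plqT
      rw [h1, h1, h2, h2]
    · rfl
  have hB : ∀ y, HasDerivAt (fun t => aB L k (fl L e P α t U) y)
      (∑ j, if j ≠ k then -ip 1 (Dpl L e α (P U) U y k j) else 0) 0 := by
    intro y
    unfold aB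
    refine HasDerivAt.fun_sum fun j _ => ?_
    by_cases h : j ≠ k
    · simp only [if_pos h]
      have h1 := der_plq (L := L) (e := e) (P := P) α U y k j
      have h2 : HasDerivAt (fun t => ip 1 (1 - L.rho (plqT (fl L e P α t U) y k j)))
          (ip 1 (0 - Dpl L e α (P U) U y k j)) 0 :=
        (ip 1).hasFDerivAt.comp_hasDerivAt (0 : ℝ) ((hasDerivAt_const _ _).sub h1)
      rw [zero_sub, map_neg] at h2
      have h3 : (fun t => we L (plqT (fl L e P α t U) y k j)) =
          fun t => ip 1 (1 - L.rho (plqT (fl L e P α t U) y k j)) := by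
        funext t
        unfold we
        rw [ip_apply, conjTranspose_one, one_mul]
      rw [h3]; exact h2
    · simp only [if_neg h]
      exact hasDerivAt_const _ _
  have h1 : (fun t => act L (fl L e P α t U)) =
      fun t => ∑ y, aA L k U y + ∑ y, aB L k (fl L e P α t U) y := by
    funext t
    rw [act_eq k]
    simp only [hA]
  rw [h1]
  have h2 : HasDerivAt (fun t => ∑ y, aA L k U y + ∑ y, aB L k (fl L e P α t U) y)
      (0 + ∑ y, ∑ j, if j ≠ k then -ip 1 (Dpl L e α (P U) U y k j) else 0) 0 :=
    (hasDerivAt_const _ _).add (HasDerivAt.fun_sum fun y _ => hB y)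
  refine h2.congr_deriv ?_
  rw [zero_add, Finset.sum_comm]
  unfold DS
  refine Finset.sum_congr rfl fun j _ => ?_
  by_cases h : j ≠ k
  · simp only [if_pos h]
    rw [he]
    simp only [der_act_plq α (P U) U _ h]
    rw [Finset.sum_sub_distrib, sum_dl0 (fun y => cc L α (P U * plqT U y k j * (P U)⁻¹)),
      sum_dl (fun y => cc L α (P U * ((U (y, j))⁻¹ * plqT U y k j * U (y, j)) * (P U)⁻¹)),
      zt_sub', plqT_uz, plqT_uz, hP]
    congr 2
    have h3 : U (zt l (x - ez j), j) = uz U (x - ez j) j := rfl
    rw [h3]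
    unfold Gz Vz
    rw [sub_add_cancel]
    group
  · simp only [if_neg h]
    push Not at h
    subst h
    rw [Gz_self, Gz_self, mul_one, inv_mul_cancel, sub_self]
    simp

end

end Pool.Agent.Y16.YM
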