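import Mathlib
import Pool.Agent.Y16.YM.SD

/-!
# The Schwinger-Dyson equations for the product of two field strengths
-/

open MeasureTheory Matrix
open scoped Matrix.Norms.Frobenius
open Pool.Agent.H906R3.YM Pool.Agent.W793.YM

namespace Pool.Agent.Y16.YM

set_option linter.unusedSectionVars false
set_option linter.unusedVariables false

noncomputable section

variable {G : Type*} [Group G] [TopologicalSpace G] [IsTopologicalGroup G] [CompactSpace G]
  [SecondCountableTopology G] [MeasurableSpace G] [BorelSpace G] (μ : Measure G)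
  [IsProbabilityMeasure μ] [μ.IsMulLeftInvariant] [μ.IsMulRightInvariant] [μ.IsInvInvariant]
  {N n : ℕ} {L : LD G N n} {d l : ℕ} [NeZero l]

/-- the links of the plaquette at `0` with positive orientation -/
def sp (q : Fin d × Fin d) (x : Zp d) (k : Fin d) : ℝ :=
  (if x = 0 ∧ k = q.1 then 1 else 0) + (if x = ez q.1 ∧ k = q.2 then 1 else 0)

/-- the links of the plaquette at `0` with negative orientation -/
def sm (q : Fin d × Fin d) (x : Zp d) (k : Fin d) : ℝ :=
  (if x = ez q.2 ∧ k = q.1 then 1 else 0) + (if x = 0 ∧ k = q.2 then 1 else 0)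

/-- the field strength at `0` -/
def F0 (L : LD G N n) (q : Fin d × Fin d) (u : Zp d → Fin d → G) (β : Fin n) : ℝ :=
  cc L β (Gz u 0 q.1 q.2)

/-- the observable -/
def Ph (L : LD G N n) (q r : Fin d × Fin d) (u : Zp d → Fin d → G) (α : Fin n) : ℝ :=
  qd L (F0 L q u) (F0 L r u) α

/-- the derivative of the field strength at `0` -/
def kd (L : LD G N n) (q : Fin d × Fin d) (x : Zp d) (k : Fin d) (u : Zp d → Fin d → G)
    (α β : Fin n) : ℝ :=
  sp q x k * ip (L.X β) (L.X α * L.rho (Gz u 0 q.1 q.2)) -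
    sm q x k * ip (L.X β) (L.rho (Gz u 0 q.1 q.2) * L.X α)

/-- the derivative of the observable -/
def kap (L : LD G N n) (q r : Fin d × Fin d) (x : Zp d) (k : Fin d) (u : Zp d → Fin d → G) : ℝ :=
  ∑ α, (qd L (kd L q x k u α) (F0 L r u) α + qd L (F0 L q u) (kd L r x k u α) α)

lemma Gz_zero (u : Zp d → Fin d → G) (i j : Fin d) : Gz u 0 i j = plz u 0 i j := by
  unfold Gz; rw [Pz_zero, one_mul, inv_one, mul_one]

lemma zt_zero : zt l (0 : Zp d) = 0 := by
  funext i; simp [zt]

lemma ez_abs (i j : Fin d) : |(ez i : Zp d) j| ≤ 1 := by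
  by_cases h : j = i
  · subst h; simp
  · rw [ez_ne h]; simp

lemma near_small {x : Zp d} (hx : ∀ i, 2 * (|x i| + 1) < l) {w : Zp d} (hw : ∀ i, |w i| ≤ 1)
    (h : zt l w = zt l x) : x = w := by
  refine (zt_inj h fun i => ?_).symm
  have h1 := hx i
  have h2 := hw i
  have h3 : |w i - x i| ≤ |w i| + |x i| := abs_sub _ _
  have h4 := abs_nonneg (x i)
  omega

lemma dl_zt {x : Zp d} (hx : ∀ i, 2 * (|x i| + 1) < l) {w : Zp d} (hw : ∀ i, |w i| ≤ 1)
    (k j : Fin d) : dl ((zt l x, k) : Ed d l) (zt l w, j) = if x = w ∧ k = j then 1 else 0 := by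
  unfold dl
  by_cases h : x = w ∧ k = j
  · rw [if_pos h, h.1, h.2, if_pos rfl]
  · rw [if_neg h, if_neg fun h' => h ⟨near_small hx hw (Prod.ext_iff.1 h').1,
      (Prod.ext_iff.1 h').2.symm⟩]

lemma Pz_ez (u : Zp d → Fin d → G) (i : Fin d) : Pz u (ez i) = u 0 i := by
  have h := Pz_tree u 0 i fun k _ => rfl
  rw [zero_add, Pz_zero, one_mul] at h
  exact h

lemma Yf_one (α : Fin n) : Yf L α 1 = L.X α := by
  unfold Yf; rw [inv_one, map_one, one_mul, mul_one]

lemma rho_cancel (g : G) : L.rho g * L.rho g⁻¹ = 1 := by rw [← map_mul, mul_inv_cancel, map_one]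

lemma rho_cancel' (g : G) : L.rho g⁻¹ * L.rho g = 1 := by rw [← map_mul, inv_mul_cancel, map_one]

/-- the derivative of a plaquette at `0` -/
lemma Dpl_zero {x : Zp d} (hx : ∀ i, 2 * (|x i| + 1) < l) (k : Fin d) (α : Fin n)
    (U : Ed d l → G) (q : Fin d × Fin d) :
    Dpl L ((zt l x, k) : Ed d l) α (Pz (uz U) x) U 0 q.1 q.2 =
      sp q x k • (L.X α * L.rho (Gz (uz U) 0 q.1 q.2)) -
        sm q x k • (L.rho (Gz (uz U) 0 q.1 q.2) * L.X α) := by
  obtain ⟨u, hu⟩ : ∃ u, u = uz U := ⟨_, rfl⟩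
  obtain ⟨W, hW⟩ : ∃ W, W = Gz (uz U) 0 q.1 q.2 := ⟨_, rfl⟩
  have hW' : plqT U 0 q.1 q.2 = W := by
    rw [hW, Gz_zero, ← plqT_uz, zt_zero]
  have z0 : (0 : St d l) = zt l (0 : Zp d) := zt_zero.symm
  have z1 : ∀ i, (eT i : St d l) = zt l (ez i : Zp d) := fun i => by
    have h := zt_add (l := l) (0 : Zp d) i
    rw [zero_add, zt_zero, zero_add] at h
    exact h.symm
  have e0 : ∀ i, U (0, i) = uz U 0 i := fun i => by unfold uz; rw [zt_zero]
  unfold Dpl
  rw [hW', zero_add, zero_add, ← hW, e0, e0]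
  have d1 := dl_zt (l := l) hx (w := 0) (fun i => by simp) k q.1
  have d2 := dl_zt (l := l) hx (w := ez q.1) (ez_abs _) k q.2
  have d3 := dl_zt (l := l) hx (w := ez q.2) (ez_abs _) k q.1
  have d4 := dl_zt (l := l) hx (w := 0) (fun i => by simp) k q.2
  rw [zt_zero] at d1 d4
  rw [z1, z1, d1, d2, d3, d4]
  have t1 : (if x = 0 ∧ k = q.1 then (1:ℝ) else 0) • (Yf L α (Pz (uz U) x) * L.rho W) =
      (if x = 0 ∧ k = q.1 then (1:ℝ) else 0) • (L.X α * L.rho W) := by
    split_ifs with h
    · rw [h.1, Pz_zero, Yf_one]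
    · rw [zero_smul, zero_smul]
  have t2 : (if x = ez q.1 ∧ k = q.2 then (1:ℝ) else 0) •
      (L.rho (uz U 0 q.1) * Yf L α (Pz (uz U) x) * L.rho ((uz U 0 q.1)⁻¹ * W)) =
      (if x = ez q.1 ∧ k = q.2 then (1:ℝ) else 0) • (L.X α * L.rho W) := by
    split_ifs with h
    · rw [h.1, Pz_ez]
      congr 1
      unfold Yf
      rw [map_mul]
      calc _ = (L.rho (uz U 0 q.1) * L.rho (uz U 0 q.1)⁻¹) * L.X α *
            (L.rho (uz U 0 q.1) * L.rho (uz U 0 q.1)⁻¹) * L.rho W := by noncomm_ring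
        _ = _ := by rw [rho_cancel, one_mul, mul_one]
    · rw [zero_smul, zero_smul]
  have t3 : (if x = ez q.2 ∧ k = q.1 then (1:ℝ) else 0) •
      (L.rho (W * uz U 0 q.2) * Yf L α (Pz (uz U) x) * L.rho (uz U 0 q.2)⁻¹) =
      (if x = ez q.2 ∧ k = q.1 then (1:ℝ) else 0) • (L.rho W * L.X α) := by
    split_ifs with h
    · rw [h.1, Pz_ez]
      congr 1
      unfold Yf
      rw [map_mul]
      calc _ = L.rho W * (L.rho (uz U 0 q.2) * L.rho (uz U 0 q.2)⁻¹) * L.X α *
            (L.rho (uz U 0 q.2) * L.rho (uz U 0 q.2)⁻¹) := by noncomm_ring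
        _ = _ := by rw [rho_cancel, mul_one, mul_one]
    · rw [zero_smul, zero_smul]
  have t4 : (if x = 0 ∧ k = q.2 then (1:ℝ) else 0) • (L.rho W * Yf L α (Pz (uz U) x)) =
      (if x = 0 ∧ k = q.2 then (1:ℝ) else 0) • (L.rho W * L.X α) := by
    split_ifs with h
    · rw [h.1, Pz_zero, Yf_one]
    · rw [zero_smul, zero_smul]
  rw [t1, t2, t3, t4]
  unfold sp sm
  rw [add_smul, add_smul]
  abel

/-- the derivative of the field strength at `0` -/
lemma der_F0 {x : Zp d} (hx : ∀ i, 2 * (|x i| + 1) < l) (k : Fin d) (α β : Fin n)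
    (U : Ed d l → G) (q : Fin d × Fin d) :
    HasDerivAt (fun t => F0 L q (uz (fl L ((zt l x, k) : Ed d l) (fun U => Pz (uz U) x) α t U)) β)
      (kd L q x k (uz U) α β) 0 := by
  have h1 := der_plq (L := L) (e := ((zt l x, k) : Ed d l)) (P := fun U => Pz (uz U) x) α U 0
    q.1 q.2
  have h2 : HasDerivAt (fun t => ip (L.X β) (L.rho (plqT (fl L ((zt l x, k) : Ed d l)
      (fun U => Pz (uz U) x) α t U) 0 q.1 q.2)))
      (ip (L.X β) (Dpl L ((zt l x, k) : Ed d l) α (Pz (uz U) x) U 0 q.1 q.2)) 0 :=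
    (ip (L.X β)).hasFDerivAt.comp_hasDerivAt (0 : ℝ) h1
  rw [Dpl_zero hx, map_sub, map_smul, map_smul, smul_eq_mul, smul_eq_mul] at h2
  have h3 : (fun t => F0 L q (uz (fl L ((zt l x, k) : Ed d l) (fun U => Pz (uz U) x) α t U)) β) =
      (fun t => ip (L.X β) (L.rho (plqT (fl L ((zt l x, k) : Ed d l)
      (fun U => Pz (uz U) x) α t U) 0 q.1 q.2))) := by
    funext t
    unfold F0 cc
    rw [Gz_zero, ← plqT_uz, zt_zero]
  rw [h3]
  exact h2

/-- the derivative of the observable -/
lemma der_Ph {x : Zp d} (hx : ∀ i, 2 * (|x i| + 1) < l) (k : Fin d) (α : Fin n)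
    (U : Ed d l → G) (q r : Fin d × Fin d) :
    HasDerivAt (fun t => Ph L q r (uz (fl L ((zt l x, k) : Ed d l)
      (fun U => Pz (uz U) x) α t U)) α)
      (qd L (kd L q x k (uz U) α) (F0 L r (uz U)) α +
        qd L (F0 L q (uz U)) (kd L r x k (uz U) α) α) 0 := by
  have h0 : fl L ((zt l x, k) : Ed d l) (fun U => Pz (uz U) x) α 0 U = U := fl_zero α U
  unfold Ph qd
  rw [← Finset.sum_add_distrib]
  refine HasDerivAt.fun_sum fun a _ => ?_
  rw [← Finset.sum_add_distrib]
  refine HasDerivAt.fun_sum fun b _ => ?_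
  have h1 := der_F0 (L := L) hx k α a U q
  have h2 := der_F0 (L := L) hx k α b U r
  have h3 := (h1.mul h2).const_mul (hh L α a b)
  simp only [h0] at h3
  refine h3.congr_deriv ?_
  ring

section contin

lemma F0_cont (q : Fin d × Fin d) (β : Fin n) :
    Continuous fun u : Zp d → Fin d → G => F0 L q u β := (cc_cont β).comp (Gz_cont _ _ _)

lemma qd_cont {X : Type*} [TopologicalSpace X] {A B : X → Fin n → ℝ}
    (hA : ∀ a, Continuous fun x => A x a) (hB : ∀ a, Continuous fun x => B x a) (c : Fin n) :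
    Continuous fun x => qd L (A x) (B x) c := by
  unfold qd
  exact continuous_finsetSum _ fun a _ => continuous_finsetSum _ fun b _ =>
    continuous_const.mul ((hA a).mul (hB b))

lemma Ph_cont (q r : Fin d × Fin d) (α : Fin n) :
    Continuous fun u : Zp d → Fin d → G => Ph L q r u α :=
  qd_cont (fun a => F0_cont q a) (fun a => F0_cont r a) α

lemma kd_cont (q : Fin d × Fin d) (x : Zp d) (k : Fin d) (α β : Fin n) :
    Continuous fun u : Zp d → Fin d → G => kd L q x k u α β := by
  unfold kd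
  have h1 : Continuous fun u : Zp d → Fin d → G => L.rho (Gz u 0 q.1 q.2) :=
    L.cont.comp (Gz_cont _ _ _)
  exact (continuous_const.mul ((ip (L.X β)).continuous.comp (continuous_const.mul h1))).sub
    (continuous_const.mul ((ip (L.X β)).continuous.comp (h1.mul continuous_const)))

lemma kap_cont (q r : Fin d × Fin d) (x : Zp d) (k : Fin d) :
    Continuous fun u : Zp d → Fin d → G => kap L q r x k u := by
  unfold kap
  exact continuous_finsetSum _ fun α _ =>
    (qd_cont (fun a => kd_cont q x k α a) (fun a => F0_cont r a) α).add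
      (qd_cont (fun a => F0_cont q a) (fun a => kd_cont r x k α a) α)

lemma DS_cont (α : Fin n) (x : Zp d) (k : Fin d) :
    Continuous fun u : Zp d → Fin d → G => DS L u α x k := by
  unfold DS
  exact continuous_finsetSum _ fun j _ => ((cc_cont α).comp (Gz_cont _ _ _)).sub
    ((cc_cont α).comp (((Vz_cont _ _).inv.mul (Gz_cont _ _ _)).mul (Vz_cont _ _)))

end contin

/-- **The Schwinger-Dyson equation.** -/
theorem sd_eq {x : Zp d} (hx : ∀ i, 2 * (|x i| + 1) < l) (k : Fin d) (q r : Fin d × Fin d)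
    (β : ℝ) : EX μ L β (fun U : Ed d l → G => kap L q r x k (uz U)) =
      β * EX μ L β (fun U : Ed d l → G => ∑ α, DS L (uz U) α x k * Ph L q r (uz U) α) := by
  have key : ∀ α : Fin n, Zt μ L β (fun U : Ed d l → G =>
      qd L (kd L q x k (uz U) α) (F0 L r (uz U)) α +
        qd L (F0 L q (uz U)) (kd L r x k (uz U) α) α) =
      β * Zt μ L β (fun U : Ed d l → G => DS L (uz U) α x k * Ph L q r (uz U) α) := by
    intro α
    obtain ⟨D, hD⟩ : ∃ D : (Ed d l → G) → ℝ, D = fun U =>
      qd L (kd L q x k (uz U) α) (F0 L r (uz U)) α +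
        qd L (F0 L q (uz U)) (kd L r x k (uz U) α) α := ⟨_, rfl⟩
    have hDU : ∀ U, D U = qd L (kd L q x k (uz U) α) (F0 L r (uz U)) α +
        qd L (F0 L q (uz U)) (kd L r x k (uz U) α) α := fun U => by rw [hD]
    have cD : Continuous D := by
      rw [hD]
      exact ((qd_cont (fun a => kd_cont q x k α a) (fun a => F0_cont r a) α).add
        (qd_cont (fun a => F0_cont q a) (fun a => kd_cont r x k α a) α)).comp uz_cont
    have cP : Continuous fun U : Ed d l → G => Ph L q r (uz U) α := (Ph_cont q r α).comp uz_cont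
    have cS : Continuous fun U : Ed d l → G => DS L (uz U) α x k := (DS_cont α x k).comp uz_cont
    have cw := wt_contT (L := L) (d := d) (l := l) β
    have h1 := int_der μ (L := L) (fr_Pz (G := G) hx k) α
      (F := fun U : Ed d l → G => Ph L q r (uz U) α * Real.exp (-(β * act L U)))
      (F' := fun U => D U * Real.exp (-(β * act L U)) -
        β * (DS L (uz U) α x k * Ph L q r (uz U) α * Real.exp (-(β * act L U))))
      (cP.mul cw) ((cD.mul cw).sub (continuous_const.mul ((cS.mul cP).mul cw))) (fun U => by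
        have h0 : fl L ((zt l x, k) : Ed d l) (fun U => Pz (uz U) x) α 0 U = U := fl_zero α U
        have a1 := der_Ph (L := L) hx k α U q r
        have a2 := ((der_act (L := L) (x := x) (k := k) α U).const_mul β).neg.exp
        have a3 := a1.mul a2
        simp only [Pi.neg_apply, h0] at a3
        refine a3.congr_deriv ?_
        rw [hDU]; ring)
    have i1 : Integrable (fun U : Ed d l → G => D U * Real.exp (-(β * act L U)))
        (ME μ (Ed d l)) := integrable_cont μ (cD.mul cw)
    have i2 : Integrable (fun U : Ed d l → G => β * (DS L (uz U) α x k * Ph L q r (uz U) α *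
        Real.exp (-(β * act L U)))) (ME μ (Ed d l)) :=
      integrable_cont μ (continuous_const.mul ((cS.mul cP).mul cw))
    rw [integral_sub i1 i2, integral_const_mul] at h1
    unfold Zt
    simp only [← hDU]
    linarith
  have c1 : ∀ α : Fin n, Continuous fun U : Ed d l → G =>
      qd L (kd L q x k (uz U) α) (F0 L r (uz U)) α +
        qd L (F0 L q (uz U)) (kd L r x k (uz U) α) α := fun α =>
    ((qd_cont (fun a => kd_cont q x k α a) (fun a => F0_cont r a) α).add
        (qd_cont (fun a => F0_cont q a) (fun a => kd_cont r x k α a) α)).comp uz_cont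
  have c2 : ∀ α : Fin n, Continuous fun U : Ed d l → G => DS L (uz U) α x k * Ph L q r (uz U) α :=
    fun α => ((DS_cont α x k).mul (Ph_cont q r α)).comp uz_cont
  unfold kap
  rw [EX_sum μ _ fun α _ => c1 α, EX_sum μ _ fun α _ => c2 α, Finset.mul_sum]
  refine Finset.sum_congr rfl fun α _ => ?_
  unfold EX
  rw [key α, mul_div_assoc]

end

end Pool.Agent.Y16.YM
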