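import Mathlib
import Pool.Agent.Y16.YM.SD2
import Pool.Agent.TH940.YM.Mom

/-!
# Expectations of functions of configurations on `ℤ^d`
-/

open MeasureTheory Matrix Filter
open scoped Matrix.Norms.Frobenius Topology
open Pool.Agent.H906R3.YM Pool.Agent.W793.YM

namespace Pool.Agent.Y16.YM

set_option linter.unusedSectionVars false
set_option linter.unusedVariables false

noncomputable section

/-- the parameters `b → ∞`, `b ^ 4 ≤ 2 m` -/
def FB : Filter (ℝ × ℕ) :=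
  Filter.comap Prod.fst Filter.atTop ⊓ Filter.principal {x | x.1 ^ 4 ≤ 2 * ((x.2 : ℝ) + 1)}

lemma FB_ev {P : ℝ × ℕ → Prop} : (∀ᶠ x in FB, P x) ↔
    ∃ b₀ : ℝ, ∀ b ≥ b₀, ∀ k : ℕ, b ^ 4 ≤ 2 * ((k : ℝ) + 1) → P (b, k) := by
  unfold FB
  rw [Filter.eventually_inf_principal, Filter.eventually_comap, Filter.eventually_atTop]
  constructor
  · rintro ⟨b₀, h⟩
    exact ⟨b₀, fun b hb k hk => h b hb (b, k) rfl hk⟩
  · rintro ⟨b₀, h⟩
    refine ⟨b₀, fun b hb x hx hk => ?_⟩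
    obtain ⟨b', k⟩ := x
    simp only at hx
    subst hx
    exact h b' hb k hk

lemma FB_fst : Tendsto Prod.fst FB atTop := by
  unfold FB
  exact (tendsto_comap).mono_left inf_le_left

lemma FB_le : ∀ᶠ x in FB, x.1 ^ 4 ≤ 2 * ((x.2 : ℝ) + 1) := by
  rw [FB_ev]
  exact ⟨0, fun b _ k hk => hk⟩

lemma FB_ge (b : ℝ) : ∀ᶠ x in FB, b ≤ x.1 := FB_fst.eventually (eventually_ge_atTop b)

instance FB_neBot : FB.NeBot := by
  rw [Filter.neBot_iff]
  intro h
  have h1 : ∀ᶠ x in FB, False := by rw [h]; exact Filter.eventually_bot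
  rw [FB_ev] at h1
  obtain ⟨b₀, h1⟩ := h1
  obtain ⟨k, hk⟩ := exists_nat_ge (b₀ ^ 4)
  exact h1 b₀ le_rfl k (by linarith [show (0:ℝ) ≤ k from Nat.cast_nonneg _])

/-- the parameter `a` of the moment theorem -/
def aof (e : ℕ) (b : ℝ) : ℕ := ⌊b ^ ((1 : ℝ) / e)⌋₊

lemma aof_spec {e : ℕ} (he : 1 ≤ e) {b : ℝ} (hb : 1 ≤ b) :
    1 ≤ aof e b ∧ (aof e b : ℝ) ^ e ≤ b ∧ b ≤ (2 * (aof e b : ℝ)) ^ e := by
  have he' : (e : ℝ) ≠ 0 := by exact_mod_cast (by omega : e ≠ 0)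
  obtain ⟨r, hr⟩ : ∃ r : ℝ, r = b ^ ((1 : ℝ) / e) := ⟨_, rfl⟩
  have hr1 : 1 ≤ r := by
    rw [hr]; exact Real.one_le_rpow hb (by positivity)
  have hre : r ^ e = b := by
    rw [hr, ← Real.rpow_natCast, ← Real.rpow_mul (by linarith)]
    rw [one_div, inv_mul_cancel₀ he', Real.rpow_one]
  have ha : aof e b = ⌊r⌋₊ := by rw [hr]; rfl
  rw [ha]
  have h1 : 1 ≤ ⌊r⌋₊ := Nat.one_le_floor_iff r |>.2 hr1
  have h2 : (⌊r⌋₊ : ℝ) ≤ r := Nat.floor_le (by linarith)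
  have h3 : r < ⌊r⌋₊ + 1 := Nat.lt_floor_add_one r
  have h4 : (1 : ℝ) ≤ ⌊r⌋₊ := by exact_mod_cast h1
  refine ⟨h1, ?_, ?_⟩
  · calc (⌊r⌋₊ : ℝ) ^ e ≤ r ^ e := pow_le_pow_left₀ (by positivity) h2 e
      _ = b := hre
  · calc b = r ^ e := hre.symm
      _ ≤ _ := pow_le_pow_left₀ (by linarith) (by linarith) e

lemma aof_tendsto {e : ℕ} (he : 1 ≤ e) : Tendsto (aof e) atTop atTop := by
  unfold aof
  refine tendsto_nat_floor_atTop.comp ?_
  exact tendsto_rpow_atTop (by positivity)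

variable {G : Type} [Group G] [TopologicalSpace G] [IsTopologicalGroup G] [CompactSpace G]
  [SecondCountableTopology G] [MeasurableSpace G] [BorelSpace G] (μ : Measure G)
  [IsProbabilityMeasure μ] [μ.IsMulLeftInvariant] [μ.IsMulRightInvariant] [μ.IsInvInvariant]
  {N n : ℕ} {L : LD G N n} {d : ℕ}

variable (L) in
/-- the expectation of a function of a configuration on `ℤ^d` -/
def ee (x : ℝ × ℕ) (F : (Zp d → Fin d → G) → ℝ) : ℝ :=
  EX μ L (x.1 ^ 4) (fun U : Ed d (2 * (x.2 + 1)) → G => F (uz U))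

variable {x : ℝ × ℕ} {F H : (Zp d → Fin d → G) → ℝ}

lemma ee_mono (hF : Continuous F) (hH : Continuous H) (h : ∀ u, F u ≤ H u) :
    ee μ L x F ≤ ee μ L x H := EX_mono μ (hF.comp uz_cont) (hH.comp uz_cont) fun U => h _

lemma ee_add (hF : Continuous F) (hH : Continuous H) :
    ee μ L x (fun u => F u + H u) = ee μ L x F + ee μ L x H :=
  EX_add μ (hF.comp uz_cont) (hH.comp uz_cont)

lemma ee_sub (hF : Continuous F) (hH : Continuous H) :
    ee μ L x (fun u => F u - H u) = ee μ L x F - ee μ L x H :=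
  EX_sub μ (hF.comp uz_cont) (hH.comp uz_cont)

lemma ee_smul (c : ℝ) (F : (Zp d → Fin d → G) → ℝ) :
    ee μ L x (fun u => c * F u) = c * ee μ L x F := EX_smul μ c _

lemma ee_neg (F : (Zp d → Fin d → G) → ℝ) : ee μ L x (fun u => -F u) = -ee μ L x F := EX_neg μ _

lemma ee_const (c : ℝ) : ee μ L x (fun _ : Zp d → Fin d → G => c) = c := EX_const μ c

lemma ee_nonneg (h : ∀ u, 0 ≤ F u) : 0 ≤ ee μ L x F := EX_nonneg μ fun U => h _

lemma ee_sum {ι : Type*} (s : Finset ι) {F : ι → (Zp d → Fin d → G) → ℝ}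
    (hF : ∀ i, Continuous (F i)) :
    ee μ L x (fun u => ∑ i ∈ s, F i u) = ∑ i ∈ s, ee μ L x (F i) :=
  EX_sum μ s fun i _ => (hF i).comp uz_cont

lemma ee_abs (hF : Continuous F) : |ee μ L x F| ≤ ee μ L x (fun u => |F u|) :=
  EX_abs μ (hF.comp uz_cont)

lemma ee_abs_le (hF : Continuous F) (hH : Continuous H) (h : ∀ u, |F u| ≤ H u) :
    |ee μ L x F| ≤ ee μ L x H := (ee_abs μ hF).trans (ee_mono μ hF.abs hH h)

lemma ee_close (hF : Continuous F) (hH : Continuous H) {R : (Zp d → Fin d → G) → ℝ}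
    (hR : Continuous R) (h : ∀ u, |F u - H u| ≤ R u) :
    |ee μ L x F - ee μ L x H| ≤ ee μ L x R := by
  rw [← ee_sub μ hF hH]
  exact ee_abs_le μ (hF.sub hH) hR h

lemma zt_plus {l : ℕ} (y z : Zp d) : zt l (y + z) = zt l y + zt l z := by
  funext i; simp [zt]

lemma uz_tr {l : ℕ} (z : Zp d) (U : Ed d l → G) :
    uz (tr (zt l z) U) = fun y => uz U (y + z) := by
  funext y i
  unfold uz tr
  simp only
  rw [zt_plus]

lemma ee_tr (z : Zp d) (F : (Zp d → Fin d → G) → ℝ) :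
    ee μ L x (fun u => F fun y => u (y + z)) = ee μ L x F := by
  unfold ee
  rw [← EX_tr μ (zt _ z) (fun U : Ed d (2 * (x.2 + 1)) → G => F (uz U))]
  simp only [uz_tr]

lemma plz_tr (u : Zp d → Fin d → G) (z y : Zp d) (i j : Fin d) :
    plz (fun y => u (y + z)) y i j = plz u (y + z) i j := by
  unfold plz
  simp only
  rw [add_right_comm y (ez i) z, add_right_comm y (ez j) z]

end

end Pool.Agent.Y16.YM
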