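import Mathlib
import Pool.Agent.Y16.YM.Exp

/-!
# Moments of the plaquettes
-/

open MeasureTheory Matrix Filter
open scoped Matrix.Norms.Frobenius Topology
open Pool.Agent.H906R3.YM Pool.Agent.W793.YM Pool.Agent.TH940.YM
open Pool.Agent.W793.SCH (haf Near pk gK DD mx el TK S_B1 S_B2 S_TR S_W1 S_HAF green plaq_moment2)

namespace Pool.Agent.Y16.YM

set_option linter.unusedSectionVars false
set_option linter.unusedVariables false

noncomputable section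

variable {G : Type} [Group G] [TopologicalSpace G] [IsTopologicalGroup G] [CompactSpace G]
  [SecondCountableTopology G] [MeasurableSpace G] [BorelSpace G] (μ : Measure G)
  [IsProbabilityMeasure μ] [μ.IsMulLeftInvariant] [μ.IsMulRightInvariant] [μ.IsInvInvariant]
  {N n : ℕ} {L : LD G N n} {d : ℕ}

/-- the exponent -/
def ex (d κ₀ : ℕ) : ℕ := 4 * κ₀ * (2 * d + 3) + κ₀

/-- the size of the box -/
def Kb (d κ₀ : ℕ) (b : ℝ) : ℕ := (3 * aof (ex d κ₀) b) ^ (4 * κ₀)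

/-- the base point -/
def bs (d κ₀ : ℕ) (b : ℝ) : Zp d := fun _ => (Kb d κ₀ b : ℤ) + 2 + aof (ex d κ₀) b

lemma params {κ₀ : ℕ} (hκ : 1 ≤ κ₀) (R : ℕ) : ∀ᶠ z in FB, 1 ≤ z.1 ∧ 12 ≤ aof (ex d κ₀) z.1 ∧
    R ≤ aof (ex d κ₀) z.1 ∧ ((aof (ex d κ₀) z.1 : ℕ) : ℝ) ^ (ex d κ₀) ≤ z.1 ∧
    z.1 ≤ (2 * ((aof (ex d κ₀) z.1 : ℕ) : ℝ)) ^ (ex d κ₀) ∧
    2 * Kb d κ₀ z.1 ≤ z.2 + 1 := by
  have he : 1 ≤ ex d κ₀ := by unfold ex; omega
  have h1 := (aof_tendsto he).comp FB_fst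
  filter_upwards [h1.eventually (eventually_ge_atTop 12), h1.eventually (eventually_ge_atTop R),
    FB_ge 1, FB_le] with z h2 h3 h4 h5
  simp only [Function.comp] at h2 h3
  obtain ⟨h6, h7, h8⟩ := aof_spec he h4
  refine ⟨h4, h2, h3, h7, h8, ?_⟩
  obtain ⟨a, ha⟩ : ∃ a, a = aof (ex d κ₀) z.1 := ⟨_, rfl⟩
  unfold Kb
  rw [← ha] at h2 h3 h6 h7 h8 ⊢
  have e1 : 4 * (3 * a) ^ (4 * κ₀) ≤ a ^ (4 * ex d κ₀) := by
    calc 4 * (3 * a) ^ (4 * κ₀) ≤ 4 ^ (4 * κ₀) * (3 * a) ^ (4 * κ₀) :=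
          Nat.mul_le_mul_right _ (by
            calc 4 = 4 ^ 1 := rfl
              _ ≤ 4 ^ (4 * κ₀) := Nat.pow_le_pow_right (by norm_num) (by omega))
      _ = (12 * a) ^ (4 * κ₀) := by rw [← mul_pow]; congr 1; ring
      _ ≤ (a * a) ^ (4 * κ₀) := Nat.pow_le_pow_left (Nat.mul_le_mul_right _ h2) _
      _ = a ^ (8 * κ₀) := by rw [← pow_two, ← pow_mul]; congr 1; ring
      _ ≤ a ^ (4 * ex d κ₀) := Nat.pow_le_pow_right (by omega) (by
          unfold ex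
          have : 8 * κ₀ ≤ 4 * (4 * κ₀ * 3) := by omega
          have h9 : 4 * κ₀ * 3 ≤ 4 * κ₀ * (2 * d + 3) := Nat.mul_le_mul_left _ (by omega)
          omega)
  have e2 : ((4 * (3 * a) ^ (4 * κ₀) : ℕ) : ℝ) ≤ 2 * ((z.2 : ℝ) + 1) := by
    calc ((4 * (3 * a) ^ (4 * κ₀) : ℕ) : ℝ) ≤ ((a ^ (4 * ex d κ₀) : ℕ) : ℝ) := by exact_mod_cast e1
      _ = ((a : ℝ) ^ ex d κ₀) ^ 4 := by push_cast; rw [← pow_mul]; congr 1; ring
      _ ≤ z.1 ^ 4 := pow_le_pow_left₀ (by positivity) h7 4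
      _ ≤ _ := h5
  have e3 : 4 * (3 * a) ^ (4 * κ₀) ≤ 2 * (z.2 + 1) := by exact_mod_cast e2
  omega

lemma Kb_ge {κ₀ : ℕ} (hκ : 1 ≤ κ₀) (b : ℝ) (ha : 12 ≤ aof (ex d κ₀) b) :
    3 * aof (ex d κ₀) b < Kb d κ₀ b := by
  unfold Kb
  obtain ⟨a, haa⟩ : ∃ a, a = aof (ex d κ₀) b := ⟨_, rfl⟩
  rw [← haa] at ha ⊢
  calc 3 * a < (3 * a) ^ 2 := by nlinarith
    _ ≤ (3 * a) ^ (4 * κ₀) := Nat.pow_le_pow_right (by omega) (by omega)

/-- the plaquette in the corner frame -/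
def Gc {l : ℕ} [NeZero l] (U : Ed d l → G) (y : St d l) (i j : Fin d) : G :=
  Pc U y * plqT U y i j * (Pc U y)⁻¹

lemma Gc_cont {l : ℕ} [NeZero l] (y : St d l) (i j : Fin d) :
    Continuous fun U : Ed d l → G => Gc U y i j := by
  have hP : Continuous fun U : Ed d l → G => Pc U y := by
    unfold Pc
    exact fr_cont _
  exact (hP.mul (plqT_cont _ _ _)).mul hP.inv

lemma PG_nil {l : ℕ} [NeZero l] {ι : Type} (b : ℝ) (p : ι → Fin d × Fin d) (y : ι → St d l)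
    (c : ι → Fin n) (u : ι) (U : Ed d l → G) :
    PG L b (fun _ => []) p y c u U = b ^ 2 * cc L (c u) (Gc U (y u) (p u).1 (p u).2) := by
  unfold PG Gc
  rw [bD_nil, cc_fi]
  unfold Fz
  ring

/-- a product of components in the corner frame -/
def P4 (L : LD G N n) (κ₀ : ℕ) (z : ℝ × ℕ) (x : Fin 4 → Zp d) (p : Fin 4 → Fin d × Fin d)
    (c : Fin 4 → Fin n) (l : List (Fin 4)) (U : Ed d (2 * (z.2 + 1)) → G) : ℝ :=
  (l.map fun u => z.1 ^ 2 * cc L (c u) (Gc U (zt _ (bs d κ₀ z.1 + x u)) (p u).1 (p u).2)).prod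

lemma fourL (hd : 3 ≤ d) (hB : S_B2) (hT : S_TR) (hW : S_W1) (hH : S_HAF) :
    ∃ (κ₀ : ℕ) (C B : ℝ), 1 ≤ κ₀ ∧ 0 < C ∧ 0 < B ∧ ∀ R : ℕ, ∀ᶠ z in FB,
      ∀ x : Fin 4 → Zp d, (∀ u i, |x u i| ≤ R) → ∀ p : Fin 4 → Fin d × Fin d,
      (∀ u, (p u).1 ≠ (p u).2) → ∀ (c : Fin 4 → Fin n) (l : List (Fin 4)), l.Nodup →
        |EX μ L (z.1 ^ 4) (P4 L κ₀ z x p c l) -
          haf (AC (green d) (fun _ => []) p x c) l| ≤ C / aof (ex d κ₀) z.1 ∧
        |haf (AC (green d) (fun _ => []) p x c) l| ≤ B := by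
  obtain ⟨κ₀, C, CT, hκ, hC, hCT, hg, h⟩ := mom_cov μ (L := L) hd hB hT hW hH
    (ι := Fin 4) (fun _ => ([] : List (Fin d))) 1
  obtain ⟨hhaf, -⟩ := hH
  have hJ0 := cJ_nonneg (fun _ : Fin 4 => ([] : List (Fin d)))
  obtain ⟨B₁, hB₁⟩ : ∃ B₁, B₁ = 1 + cJ (fun _ : Fin 4 => ([] : List (Fin d))) * CT := ⟨_, rfl⟩
  have hB0 : 0 ≤ cJ (fun _ : Fin 4 => ([] : List (Fin d))) * CT := by positivity
  have hB1 : 1 ≤ B₁ := by rw [hB₁]; linarith
  refine ⟨κ₀, C, 24 * B₁ ^ 4, hκ, hC, by positivity, fun R => ?_⟩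
  filter_upwards [params (d := d) hκ R] with z hz x hx p hp c l hl
  obtain ⟨hz1, h12, hR, hab, hba, hm⟩ := hz
  have hK := Kb_ge (d := d) hκ z.1 h12
  constructor
  · have h1 := h (aof (ex d κ₀) z.1) (by omega) (fun _ => by simp) z.1 hab hba (z.2 + 1) (by
      unfold Kb at hm; exact hm) p hp (fun u => bs d κ₀ z.1 + x u) (fun u i => by
        have h2 := hx u i
        rw [abs_le] at h2
        have h3 : ((3 * aof (ex d κ₀) z.1) ^ (4 * κ₀) : ℕ) = Kb d κ₀ z.1 := rfl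
        rw [h3, Pi.add_apply]
        unfold bs
        constructor <;> omega) (fun u v i => by
        have h2 := hx u i
        have h3 := hx v i
        rw [Pi.add_apply, Pi.add_apply, add_sub_add_left_eq_sub]
        rw [abs_le] at *
        constructor <;> omega) c l hl
    rw [pow_one] at h1
    have e1 : (fun U : Ed d (2 * (z.2 + 1)) → G => (l.map fun u =>
        PG L z.1 (fun _ => []) p (fun u => zt _ (bs d κ₀ z.1 + x u)) c u U).prod) =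
        P4 L κ₀ z x p c l := by
      funext U
      unfold P4
      congr 1
      exact List.map_congr_left fun u _ => PG_nil _ _ _ _ _ _
    have e2 : AC (green d) (fun _ => []) p (fun u => bs d κ₀ z.1 + x u) c =
        AC (green d) (fun _ => []) p x c := by
      funext u v
      unfold AC
      rw [add_sub_add_left_eq_sub]
    rw [e1, e2] at h1
    exact h1
  · have h1 := hhaf (Fin 4) (AC (green d) (fun _ => []) p x c) B₁ l
      hB1 (fun u v => (AC_le hCT.le hg _ p x c u v).trans (by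
        rw [hB₁]; linarith))
    refine h1.trans ?_
    have h2 : l.length ≤ 4 := by
      have := hl.length_le_card
      simpa using this
    have h3 : (l.length.factorial : ℝ) ≤ 24 := by
      have : l.length.factorial ≤ Nat.factorial 4 := Nat.factorial_le h2
      exact_mod_cast this
    exact mul_le_mul h3 (pow_le_pow_right₀ hB1 h2) (by positivity) (by norm_num)

end

end Pool.Agent.Y16.YM
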