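import Mathlib
import Pool.Agent.Y16.YM.Mom

/-!
# Sharp fourth moments of the plaquettes
-/

open MeasureTheory Matrix Filter
open scoped Matrix.Norms.Frobenius Topology
open Pool.Agent.H906R3.YM Pool.Agent.W793.YM Pool.Agent.TH940.YM
open Pool.Agent.W793.SCH (haf Near pk gK DD mx el TK S_B1 S_B2 S_TR S_W1 S_HAF green plaq_moment2)

namespace Pool.Agent.Y16.YM

set_option linter.unusedSectionVars false
set_option linter.unusedVariables false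

noncomputable section

variable {G : Type} [Group G] [TopologicalSpace G] [IsTopologicalGroup G] [CompactSpace G]
  [SecondCountableTopology G] [MeasurableSpace G] [BorelSpace G] (μ : Measure G)
  [IsProbabilityMeasure μ] [μ.IsMulLeftInvariant] [μ.IsMulRightInvariant] [μ.IsInvInvariant]
  {N n : ℕ} {L : LD G N n} {d : ℕ}

/-- the scaled deviation of a plaquette -/
def bd (L : LD G N n) (b : ℝ) (u : Zp d → Fin d → G) (j i : Fin d) (y : Zp d) : ℝ :=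
  b ^ 2 * dv L (plz u y j i)

lemma bd_nonneg (b : ℝ) (u : Zp d → Fin d → G) (j i : Fin d) (y : Zp d) :
    0 ≤ bd L b u j i y := mul_nonneg (sq_nonneg _) (dv_nonneg _)

lemma bd_cont (b : ℝ) (j i : Fin d) (y : Zp d) :
    Continuous fun u : Zp d → Fin d → G => bd L b u j i y :=
  continuous_const.mul (dv_cont.comp (plz_cont _ _ _))

lemma plz_self (u : Zp d → Fin d → G) (y : Zp d) (i : Fin d) : plz u y i i = 1 := by
  unfold plz; group

lemma bd_self (b : ℝ) (u : Zp d → Fin d → G) (i : Fin d) (y : Zp d) : bd L b u i i y = 0 := by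
  unfold bd; rw [plz_self, dv_one, mul_zero]

lemma bd_dg (b : ℝ) (u : Zp d → Fin d → G) (j i : Fin d) (y : Zp d) :
    bd L b u j i y = b ^ 2 * dg L u j i y := by unfold bd; rw [dg_eq]

lemma FB_two : ∀ᶠ z in FB, 1 ≤ z.1 ∧ 1 ≤ z.2 := by
  filter_upwards [FB_ge 2, FB_le] with z h1 h2
  refine ⟨by linarith, ?_⟩
  have h3 : (2:ℝ) ^ 4 ≤ z.1 ^ 4 := pow_le_pow_left₀ (by norm_num) h1 4
  have h4 : (7:ℝ) ≤ z.2 := by norm_num at h3; linarith
  have h5 : (1:ℝ) ≤ (z.2 : ℝ) := by linarith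
  exact_mod_cast h5

theorem mom_hi (r : ℕ) : ∃ C : ℝ, 0 < C ∧ ∀ z : ℝ × ℕ, 1 ≤ z.1 → 1 ≤ z.2 →
    ∀ (j i : Fin d) (y : Zp d),
      ee μ L z (fun u => bd L z.1 u j i y ^ (2 * (r + 1))) ≤ C * z.1 := by
  obtain ⟨C, hC, h⟩ := dv_mom μ (L := L) (r + 1) 1
  refine ⟨C, hC, fun z hz1 hz2 j i y => ?_⟩
  by_cases hij : j = i
  · subst hij
    simp only [bd_self]
    rw [zero_pow (by omega), ee_const]
    positivity
  · have h1 := h z.1 hz1 z.1 hz1 (by rw [pow_one]; linarith) d (z.2 + 1) (by omega)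
      (zt _ y) j i hij
    refine le_trans (le_of_eq ?_) h1
    unfold ee bd
    congr 1
    funext U
    rw [plqT_uz]

/-- moving a plaquette to the base point -/
lemma ee_base (κ₀ : ℕ) (z : ℝ × ℕ) (j i : Fin d) (y : Zp d) (f : ℝ → ℝ) :
    ee μ L z (fun u => f (bd L z.1 u j i y)) =
      EX μ L (z.1 ^ 4) (fun U : Ed d (2 * (z.2 + 1)) → G =>
        f (z.1 ^ 2 * dv L (Gc U (zt _ (bs d κ₀ z.1)) j i))) := by
  rw [← ee_tr μ (bs d κ₀ z.1 - y) (fun u => f (bd L z.1 u j i y))]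
  unfold ee bd
  congr 1
  funext U
  show f (z.1 ^ 2 * dv L (plz (fun w => uz U (w + (bs d κ₀ z.1 - y))) y j i)) = _
  rw [plz_tr, add_sub_cancel]
  unfold Gc
  rw [dv_conj, plqT_uz]

lemma dv_le_cc {CT : ℝ} (hTg : Tg L CT) (g : G) :
    dv L g ≤ (∑ c, |cc L c g|) + CT * dv L g ^ 2 := by
  have h1 := hTg.2 g
  have h2 : L.rho g - 1 = (∑ a, cc L a g • L.X a) + (L.rho g - 1 - ∑ a, cc L a g • L.X a) := by
    abel
  have h3 : dv L g ≤ ‖∑ a, cc L a g • L.X a‖ + ‖L.rho g - 1 - ∑ a, cc L a g • L.X a‖ := by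
    unfold dv
    conv_lhs => rw [h2]
    exact norm_add_le _ _
  have h4 : ‖∑ a, cc L a g • L.X a‖ ≤ ∑ c, |cc L c g| := by
    refine (norm_sum_le _ _).trans (Finset.sum_le_sum fun c _ => ?_)
    rw [norm_smul, norm_X, mul_one, Real.norm_eq_abs]
  linarith

theorem mom4 (hd : 3 ≤ d) (hB : S_B2) (hT : S_TR) (hW : S_W1) (hH : S_HAF) {CT : ℝ}
    (hTg : Tg L CT) : ∃ C : ℝ, 1 ≤ C ∧ ∀ᶠ z in FB, ∀ (j i : Fin d) (y : Zp d),
      ee μ L z (fun u => bd L z.1 u j i y ^ 4) ≤ C := by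
  obtain ⟨κ₀, C4, B, hκ, hC4, hB', h4⟩ := fourL μ (L := L) hd hB hT hW hH
  obtain ⟨C8, hC8, h8⟩ := mom_hi μ (L := L) (d := d) 3
  have hCT := hTg.1
  refine ⟨1 + 8 * (n ^ 3 * (n * (C4 + B)) + CT ^ 4 * C8), by
    have : (0:ℝ) ≤ 8 * (n ^ 3 * (n * (C4 + B)) + CT ^ 4 * C8) := by positivity
    linarith, ?_⟩
  filter_upwards [h4 0, FB_two, params (d := d) hκ 0] with z h4 hz2 hz j i y
  obtain ⟨hz1, h12, -, hab, hba, hm⟩ := hz
  by_cases hij : j = i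
  · subst hij
    simp only [bd_self]
    rw [zero_pow (by omega), ee_const]
    have : (0:ℝ) ≤ 8 * (n ^ 3 * (n * (C4 + B)) + CT ^ 4 * C8) := by positivity
    linarith
  have hz0 : 0 < z.1 := by linarith
  have hc4 : ∀ c : Fin n, EX μ L (z.1 ^ 4) (fun U : Ed d (2 * (z.2 + 1)) → G =>
      (z.1 ^ 2 * cc L c (Gc U (zt _ (bs d κ₀ z.1)) j i)) ^ 4) ≤ C4 + B := by
    intro c
    obtain ⟨h5, h6⟩ := h4 (fun _ => 0) (fun _ _ => by simp) (fun _ => (j, i)) (fun _ => hij)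
      (fun _ => c) (List.finRange 4) (List.nodup_finRange 4)
    have e1 : (fun U : Ed d (2 * (z.2 + 1)) → G =>
        (z.1 ^ 2 * cc L c (Gc U (zt _ (bs d κ₀ z.1)) j i)) ^ 4) =
        P4 L κ₀ z (fun _ => 0) (fun _ => (j, i)) (fun _ => c) (List.finRange 4) := by
      funext U
      unfold P4
      simp only [add_zero, List.map_const', List.prod_replicate, List.length_finRange]
    rw [e1]
    have h7 : C4 / (aof (ex d κ₀) z.1 : ℝ) ≤ C4 := by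
      refine div_le_self hC4.le ?_
      have : 1 ≤ aof (ex d κ₀) z.1 := by omega
      exact_mod_cast this
    rw [abs_le] at h5 h6
    linarith [h5.2, h6.2]
  have e2 := ee_base μ (L := L) κ₀ z j i y (fun t => t ^ 4)
  have e3 := ee_base μ (L := L) κ₀ z j i y (fun t => t ^ 8)
  have h9 := h8 z hz2.1 hz2.2 j i y
  have e4 : 2 * (3 + 1) = 8 := rfl
  rw [e4, e3] at h9
  rw [e2]
  have cG : Continuous fun U : Ed d (2 * (z.2 + 1)) → G => Gc U (zt _ (bs d κ₀ z.1)) j i :=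
    Gc_cont _ _ _
  have cdv : Continuous fun U : Ed d (2 * (z.2 + 1)) → G =>
      z.1 ^ 2 * dv L (Gc U (zt _ (bs d κ₀ z.1)) j i) := continuous_const.mul (dv_cont.comp cG)
  have ccc : ∀ c, Continuous fun U : Ed d (2 * (z.2 + 1)) → G =>
      z.1 ^ 2 * cc L c (Gc U (zt _ (bs d κ₀ z.1)) j i) := fun c =>
    continuous_const.mul ((cc_cont c).comp cG)
  have key : ∀ U : Ed d (2 * (z.2 + 1)) → G,
      (z.1 ^ 2 * dv L (Gc U (zt _ (bs d κ₀ z.1)) j i)) ^ 4 ≤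
        8 * (n ^ 3 * (∑ c, (z.1 ^ 2 * cc L c (Gc U (zt _ (bs d κ₀ z.1)) j i)) ^ 4) +
          CT ^ 4 / z.1 ^ 8 * (z.1 ^ 2 * dv L (Gc U (zt _ (bs d κ₀ z.1)) j i)) ^ 8) := by
    intro U
    obtain ⟨g, hg⟩ : ∃ g, g = Gc U (zt _ (bs d κ₀ z.1)) j i := ⟨_, rfl⟩
    rw [← hg]
    have k1 := dv_le_cc hTg g
    have k0 := dv_nonneg (L := L) g
    obtain ⟨A, hA⟩ : ∃ A, A = ∑ c, |z.1 ^ 2 * cc L c g| := ⟨_, rfl⟩
    obtain ⟨D, hD⟩ : ∃ D, D = z.1 ^ 2 * (CT * dv L g ^ 2) := ⟨_, rfl⟩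
    have hA0 : 0 ≤ A := by rw [hA]; positivity
    have hD0 : 0 ≤ D := by rw [hD]; positivity
    have k2 : z.1 ^ 2 * dv L g ≤ A + D := by
      have : A = z.1 ^ 2 * ∑ c, |cc L c g| := by
        rw [hA, Finset.mul_sum]
        refine Finset.sum_congr rfl fun c _ => ?_
        rw [abs_mul, abs_of_nonneg (sq_nonneg z.1)]
      rw [this, hD, ← mul_add]
      exact mul_le_mul_of_nonneg_left k1 (sq_nonneg _)
    have k3 : (z.1 ^ 2 * dv L g) ^ 4 ≤ (A + D) ^ 4 := pow_le_pow_left₀ (by positivity) k2 4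
    have k4 : (A + D) ^ 4 ≤ 8 * (A ^ 4 + D ^ 4) := by
      nlinarith [sq_nonneg (A - D), sq_nonneg (A ^ 2 - D ^ 2), sq_nonneg (A + D),
        mul_nonneg hA0 hD0, sq_nonneg (A * (A - D)), sq_nonneg (D * (A - D))]
    have k5 : A ^ 4 ≤ n ^ 3 * ∑ c, (z.1 ^ 2 * cc L c g) ^ 4 := by
      rw [hA]
      have := pow_sum_le_card_mul_sum_pow (s := (Finset.univ : Finset (Fin n)))
        (f := fun c => |z.1 ^ 2 * cc L c g|) (fun c _ => abs_nonneg _) 3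
      simp only [Finset.card_univ, Fintype.card_fin] at this
      refine this.trans (le_of_eq ?_)
      congr 1
      refine Finset.sum_congr rfl fun c _ => ?_
      exact (even_two_mul 2).pow_abs _
    have k6 : D ^ 4 = CT ^ 4 / z.1 ^ 8 * (z.1 ^ 2 * dv L g) ^ 8 := by
      rw [hD]; field_simp
    rw [← k6]
    linarith
  have s0 : Continuous fun U : Ed d (2 * (z.2 + 1)) → G =>
      8 * (n ^ 3 * (∑ c, (z.1 ^ 2 * cc L c (Gc U (zt _ (bs d κ₀ z.1)) j i)) ^ 4) +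
          CT ^ 4 / z.1 ^ 8 * (z.1 ^ 2 * dv L (Gc U (zt _ (bs d κ₀ z.1)) j i)) ^ 8) :=
    continuous_const.mul ((continuous_const.mul (continuous_finsetSum _ fun c _ =>
      (ccc c).pow 4)).add (continuous_const.mul (cdv.pow 8)))
  refine (EX_mono μ (L := L) (β := z.1 ^ 4) (cdv.pow 4) s0 key).trans ?_
  have s1 : Continuous fun U : Ed d (2 * (z.2 + 1)) → G =>
      (n:ℝ) ^ 3 * ∑ c, (z.1 ^ 2 * cc L c (Gc U (zt _ (bs d κ₀ z.1)) j i)) ^ 4 :=
    continuous_const.mul (continuous_finsetSum _ fun c _ => (ccc c).pow 4)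
  have s2 : Continuous fun U : Ed d (2 * (z.2 + 1)) → G =>
      CT ^ 4 / z.1 ^ 8 * (z.1 ^ 2 * dv L (Gc U (zt _ (bs d κ₀ z.1)) j i)) ^ 8 :=
    continuous_const.mul (cdv.pow 8)
  have ccc4 : ∀ c, Continuous fun U : Ed d (2 * (z.2 + 1)) → G =>
      (z.1 ^ 2 * cc L c (Gc U (zt _ (bs d κ₀ z.1)) j i)) ^ 4 := fun c => (ccc c).pow 4
  rw [EX_smul, EX_add μ s1 s2, EX_smul, EX_smul, EX_sum μ _ fun c _ => ccc4 c]
  have t1 : ∑ c, EX μ L (z.1 ^ 4) (fun U : Ed d (2 * (z.2 + 1)) → G =>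
      (z.1 ^ 2 * cc L c (Gc U (zt _ (bs d κ₀ z.1)) j i)) ^ 4) ≤ n * (C4 + B) := by
    calc _ ≤ ∑ _c : Fin n, (C4 + B) := Finset.sum_le_sum fun c _ => hc4 c
      _ = n * (C4 + B) := by
        rw [Finset.sum_const, Finset.card_univ, Fintype.card_fin, nsmul_eq_mul]
  have t2 : CT ^ 4 / z.1 ^ 8 * EX μ L (z.1 ^ 4) (fun U : Ed d (2 * (z.2 + 1)) → G =>
      (z.1 ^ 2 * dv L (Gc U (zt _ (bs d κ₀ z.1)) j i)) ^ 8) ≤ CT ^ 4 * C8 := by
    calc _ ≤ CT ^ 4 / z.1 ^ 8 * (C8 * z.1) := mul_le_mul_of_nonneg_left h9 (by positivity)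
      _ = CT ^ 4 * C8 / z.1 ^ 7 := by field_simp
      _ ≤ _ := div_le_self (by positivity) (one_le_pow₀ hz1)
  have t3 : (n:ℝ) ^ 3 * ∑ c, EX μ L (z.1 ^ 4) (fun U : Ed d (2 * (z.2 + 1)) → G =>
      (z.1 ^ 2 * cc L c (Gc U (zt _ (bs d κ₀ z.1)) j i)) ^ 4) ≤ n ^ 3 * (n * (C4 + B)) :=
    mul_le_mul_of_nonneg_left t1 (by positivity)
  linarith

end

end Pool.Agent.Y16.YM
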