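import Mathlib
import Pool.Agent.Y16.YM.Mom2

/-!
# Invariance under conjugations and the colour algebra
-/

open MeasureTheory Matrix Filter
open scoped Matrix.Norms.Frobenius Topology
open Pool.Agent.H906R3.YM Pool.Agent.W793.YM Pool.Agent.TH940.YM
open Pool.Agent.W793.SCH (haf Near pk gK DD mx el TK S_B1 S_B2 S_TR S_W1 S_HAF green plaq_moment2)

namespace Pool.Agent.Y16.YM

set_option linter.unusedSectionVars false
set_option linter.unusedVariables false

noncomputable section

variable {G : Type} [Group G] [TopologicalSpace G] [IsTopologicalGroup G] [CompactSpace G]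
  [SecondCountableTopology G] [MeasurableSpace G] [BorelSpace G]
  {N n : ℕ} {L : LD G N n} {d : ℕ}

/-- rotation of a vector of components -/
def rot (L : LD G N n) (h : G) (A : Fin n → ℝ) (c : Fin n) : ℝ := ∑ a, L.adm h c a * A a

lemma ip_rot (h : G) (c : Fin n) (M : Mat N) :
    ip (L.X c) (L.rho h * M * (L.rho h)ᴴ) = ∑ e, L.adm h c e * ip (L.X e) M := by
  have h1 := conj_eq (L := L) h⁻¹ c
  have h2 : L.rho h⁻¹ * L.X c * (L.rho h⁻¹)ᴴ = (L.rho h)ᴴ * L.X c * L.rho h := by
    rw [L.rho_inv, conjTranspose_conjTranspose]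
  rw [h2] at h1
  rw [ip_conj, h1, ip_comm, map_sum]
  refine Finset.sum_congr rfl fun e _ => ?_
  rw [map_smul, smul_eq_mul, adm_inv, ip_comm]

lemma cc_rot (h g : G) (c : Fin n) :
    cc L c (h * g * h⁻¹) = rot L h (fun a => cc L a g) c := by
  have e : L.rho (h * g * h⁻¹) = L.rho h * L.rho g * (L.rho h)ᴴ := by
    rw [L.rho.map_mul, L.rho.map_mul, L.rho_inv]
  unfold rot cc
  rw [e, ip_rot]

lemma sum_rot (h : G) (A : Fin n → ℝ) :
    ∑ c, rot L h A c • L.X c = L.rho h * (∑ a, A a • L.X a) * (L.rho h)ᴴ := by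
  rw [Finset.mul_sum, Finset.sum_mul]
  have h1 : ∀ a, L.rho h * A a • L.X a * (L.rho h)ᴴ = ∑ c, (L.adm h c a * A a) • L.X c := by
    intro a
    rw [mul_smul_comm, smul_mul_assoc, conj_eq, Finset.smul_sum]
    refine Finset.sum_congr rfl fun c _ => ?_
    rw [smul_smul, mul_comm]
  simp only [h1]
  rw [Finset.sum_comm]
  refine Finset.sum_congr rfl fun c _ => ?_
  unfold rot
  rw [Finset.sum_smul]

lemma rho_ct (h : G) : (L.rho h)ᴴ * L.rho h = 1 := by
  rw [← L.rho_inv, ← map_mul, inv_mul_cancel, map_one]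

lemma qd_rot (h : G) (A B : Fin n → ℝ) (c : Fin n) :
    qd L (rot L h A) (rot L h B) c = rot L h (qd L A B) c := by
  rw [← ip_sum2, sum_rot, sum_rot]
  have e : L.rho h * (∑ a, A a • L.X a) * (L.rho h)ᴴ * (L.rho h * (∑ a, B a • L.X a) *
      (L.rho h)ᴴ) = L.rho h * ((∑ a, A a • L.X a) * ∑ a, B a • L.X a) * (L.rho h)ᴴ := by
    calc _ = L.rho h * (∑ a, A a • L.X a) * ((L.rho h)ᴴ * L.rho h) * (∑ a, B a • L.X a) *
        (L.rho h)ᴴ := by noncomm_ring
      _ = _ := by rw [rho_ct, mul_one]; noncomm_ring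
  rw [e, ip_rot]
  unfold rot
  refine Finset.sum_congr rfl fun e _ => ?_
  rw [ip_sum2]

lemma adm_cols (h : G) (e e' : Fin n) :
    ∑ c, L.adm h c e * L.adm h c e' = if e = e' then 1 else 0 := by
  have h1 := sum_adm_adm (L := L) h⁻¹ e e'
  simp only [adm_inv] at h1
  exact h1

lemma rot_dot (h : G) (A B : Fin n → ℝ) : ∑ c, rot L h A c * rot L h B c = ∑ c, A c * B c := by
  unfold rot
  calc _ = ∑ c, ∑ e, ∑ e', (A e * B e') * (L.adm h c e * L.adm h c e') := by
        refine Finset.sum_congr rfl fun c _ => ?_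
        rw [Finset.sum_mul]
        refine Finset.sum_congr rfl fun e _ => ?_
        rw [Finset.mul_sum]
        exact Finset.sum_congr rfl fun e' _ => by ring
    _ = ∑ e, ∑ e', (A e * B e') * ∑ c, L.adm h c e * L.adm h c e' := by
        rw [Finset.sum_comm]
        refine Finset.sum_congr rfl fun e _ => ?_
        rw [Finset.sum_comm]
        exact Finset.sum_congr rfl fun e' _ => by rw [Finset.mul_sum]
    _ = _ := by
        refine Finset.sum_congr rfl fun e _ => ?_
        simp only [adm_cols]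
        rw [Finset.sum_eq_single e]
        · rw [if_pos rfl, mul_one]
        · intro e' _ he; rw [if_neg (Ne.symm he), mul_zero]
        · intro h; exact absurd (Finset.mem_univ _) h

/-- the invariant of degree four -/
def S4 (L : LD G N n) (A B C D : Fin n → ℝ) : ℝ := ∑ c, qd L A B c * qd L C D c

/-- the invariant of degree two -/
def T2 (L : LD G N n) (A B : Fin n → ℝ) : ℝ :=
  ∑ α, ∑ β, (∑ γ, hh L α β γ * A γ) * ∑ γ, hh L α β γ * B γ

lemma S4_rot (h : G) (A B C D : Fin n → ℝ) :
    S4 L (rot L h A) (rot L h B) (rot L h C) (rot L h D) = S4 L A B C D := by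
  unfold S4
  simp only [qd_rot]
  exact rot_dot h _ _

lemma hh_sum (α β : Fin n) (A : Fin n → ℝ) :
    ∑ γ, hh L α β γ * A γ = ip (L.X α) (L.X β * ∑ γ, A γ • L.X γ) := by
  rw [Finset.mul_sum, map_sum]
  refine Finset.sum_congr rfl fun γ _ => ?_
  rw [mul_smul_comm, map_smul, smul_eq_mul, mul_comm]
  rfl

lemma T2_rot (h : G) (A B : Fin n → ℝ) : T2 L (rot L h A) (rot L h B) = T2 L A B := by
  have key : ∀ (A : Fin n → ℝ) (α β : Fin n), ∑ γ, hh L α β γ * rot L h A γ =
      ∑ e, L.adm h α e * ∑ f, L.adm h β f * ∑ γ, hh L e f γ * A γ := by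
    intro A α β
    rw [hh_sum, sum_rot]
    have h1 := conj_eq (L := L) h⁻¹ β
    rw [L.rho_inv, conjTranspose_conjTranspose] at h1
    have h0 : L.rho h * (L.rho h)ᴴ = 1 := L.unit h
    have h2 : L.X β * (L.rho h * (∑ γ, A γ • L.X γ) * (L.rho h)ᴴ) =
        L.rho h * (((L.rho h)ᴴ * L.X β * L.rho h) * ∑ γ, A γ • L.X γ) * (L.rho h)ᴴ := by
      calc _ = (L.rho h * (L.rho h)ᴴ) * L.X β * (L.rho h * (∑ γ, A γ • L.X γ) * (L.rho h)ᴴ) := by
            rw [h0, one_mul]
        _ = _ := by noncomm_ring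
    rw [h2, ip_rot]
    refine Finset.sum_congr rfl fun e _ => ?_
    congr 1
    rw [h1, Finset.sum_mul, map_sum]
    refine Finset.sum_congr rfl fun f _ => ?_
    rw [hh_sum, smul_mul_assoc, map_smul, smul_eq_mul, adm_inv]
  unfold T2
  simp only [key]
  obtain ⟨a, ha⟩ : ∃ a : Fin n → Fin n → ℝ, a = fun e f => ∑ γ, hh L e f γ * A γ := ⟨_, rfl⟩
  obtain ⟨b, hb⟩ : ∃ b : Fin n → Fin n → ℝ, b = fun e f => ∑ γ, hh L e f γ * B γ := ⟨_, rfl⟩
  have ha' : ∀ e f, ∑ γ, hh L e f γ * A γ = a e f := fun e f => by rw [ha]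
  have hb' : ∀ e f, ∑ γ, hh L e f γ * B γ = b e f := fun e f => by rw [hb]
  simp only [ha', hb']
  -- the inner sums are rotations
  have e1 : ∀ (w : Fin n → Fin n → ℝ) (α β : Fin n), ∑ e, L.adm h α e * ∑ f, L.adm h β f * w e f =
      rot L h (fun e => rot L h (w e) β) α := fun w α β => rfl
  simp only [e1]
  rw [Finset.sum_comm]
  have e2 : ∀ β, ∑ α, rot L h (fun e => rot L h (a e) β) α * rot L h (fun e => rot L h (b e) β) α =
      ∑ e, rot L h (a e) β * rot L h (b e) β := fun β => rot_dot h _ _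
  simp only [e2]
  rw [Finset.sum_comm]
  exact Finset.sum_congr rfl fun e _ => rot_dot h _ _

lemma haf4 (A : Fin 4 → Fin 4 → ℝ) : haf A (List.finRange 4) =
    A 0 1 * A 2 3 + A 0 2 * A 1 3 + A 0 3 * A 1 2 := by
  have h : List.finRange 4 = [0, 1, 2, 3] := by decide
  rw [h]
  simp [haf, Fin.sum_univ_succ, List.eraseIdx]
  ring

lemma haf2 (A : Fin 4 → Fin 4 → ℝ) : haf A [0, 1] = A 0 1 := by
  simp [haf, List.eraseIdx]

lemma hh_diag (c a : Fin n) : hh L c a a = 0 := by
  have := hh_swap (L := L) c a a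
  linarith

lemma hh_diag' (c a : Fin n) : hh L c c a = 0 := by
  have := hh_swap' (L := L) c c a
  linarith

/-- the colour sum of the four point function -/
lemma colour4 (C : Fin 4 → Fin 4 → ℝ) : ∑ α, ∑ a, ∑ b, ∑ c, ∑ e, hh L α a b * hh L α c e *
    haf (fun u v => if (![a, b, c, e] : Fin 4 → Fin n) u = ![a, b, c, e] v then C u v else 0)
      (List.finRange 4) = cG L * (C 0 2 * C 1 3 - C 0 3 * C 1 2) := by
  unfold cG
  rw [Finset.sum_mul]
  refine Finset.sum_congr rfl fun α _ => ?_
  have h1 : ∀ a b c e : Fin n, hh L α a b * hh L α c e *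
      haf (fun u v => if (![a, b, c, e] : Fin 4 → Fin n) u = ![a, b, c, e] v then C u v else 0)
      (List.finRange 4) = (if a = b then hh L α a b else 0) * (if c = e then hh L α c e else 0) *
        (C 0 1 * C 2 3) + (if c = a then (if e = b then hh L α a b * hh L α c e else 0) else 0) *
        (C 0 2 * C 1 3) + (if e = a then (if c = b then hh L α a b * hh L α c e else 0) else 0) *
        (C 0 3 * C 1 2) := by
    intro a b c e
    rw [haf4]
    simp only [Matrix.cons_val_zero, Matrix.cons_val_one, Matrix.cons_val]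
    have q1 : (a = c) = (c = a) := propext eq_comm
    have q2 : (b = e) = (e = b) := propext eq_comm
    have q3 : (a = e) = (e = a) := propext eq_comm
    have q4 : (b = c) = (c = b) := propext eq_comm
    simp only [q1, q2, q3, q4]
    split_ifs <;> ring
  simp only [h1, Finset.sum_add_distrib, ← Finset.sum_mul]
  have z1 : ∀ a b : Fin n, (if a = b then hh L α a b else 0) = 0 := fun a b => by
    split_ifs with h
    · rw [h, hh_diag]
    · rfl
  simp only [z1, zero_mul, Finset.sum_const_zero, zero_add]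
  have z2 : ∑ a, ∑ b, ∑ c, ∑ e, (if e = a then if c = b then hh L α a b * hh L α c e else 0
      else 0) = -∑ a, ∑ b, hh L α a b ^ 2 := by
    rw [← Finset.sum_neg_distrib]
    refine Finset.sum_congr rfl fun a _ => ?_
    rw [← Finset.sum_neg_distrib]
    refine Finset.sum_congr rfl fun b _ => ?_
    rw [Finset.sum_eq_single b]
    · simp only [if_true, Finset.sum_ite_eq', Finset.mem_univ]
      rw [hh_swap α b a]; ring
    · intro c _ hc
      simp only [if_neg hc, ite_self, Finset.sum_const_zero]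
    · intro h; exact absurd (Finset.mem_univ _) h
  have z3 : ∑ a, ∑ b, ∑ c, ∑ e, (if c = a then if e = b then hh L α a b * hh L α c e else 0
      else 0) = ∑ a, ∑ b, hh L α a b ^ 2 := by
    refine Finset.sum_congr rfl fun a _ => Finset.sum_congr rfl fun b _ => ?_
    rw [Finset.sum_eq_single a]
    · simp only [if_true, Finset.sum_ite_eq', Finset.mem_univ]
      ring
    · intro c _ hc
      simp only [if_neg hc, Finset.sum_const_zero]
    · intro h; exact absurd (Finset.mem_univ _) h
  rw [z2, z3]; ring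

/-- the colour sum of the two point function -/
lemma colour2 (C : ℝ) : ∑ α, ∑ β, ∑ γ, ∑ γ', hh L α β γ * hh L α β γ' *
    (if γ = γ' then C else 0) = cG L * C := by
  unfold cG
  rw [Finset.sum_mul]
  refine Finset.sum_congr rfl fun α _ => ?_
  rw [Finset.sum_mul]
  refine Finset.sum_congr rfl fun β _ => ?_
  rw [Finset.sum_mul]
  refine Finset.sum_congr rfl fun γ _ => ?_
  rw [Finset.sum_eq_single γ]
  · rw [if_pos rfl]; ring
  · intro γ' _ h
    rw [if_neg (Ne.symm h), mul_zero]
  · intro h; exact absurd (Finset.mem_univ _) h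

end

end Pool.Agent.Y16.YM
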