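import Mathlib
import Pool.Agent.Y16.YM.Inv

/-!
# Uniform bounds
-/

open MeasureTheory Matrix Filter
open scoped Matrix.Norms.Frobenius Topology
open Pool.Agent.H906R3.YM Pool.Agent.W793.YM Pool.Agent.TH940.YM
open Pool.Agent.W793.SCH (haf Near pk gK DD mx el TK S_B1 S_B2 S_TR S_W1 S_HAF green plaq_moment2)

namespace Pool.Agent.Y16.YM

set_option linter.unusedSectionVars false
set_option linter.unusedVariables false

noncomputable section

section l1

variable {d : ℕ}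

lemma l1_succ_le (x : Zp d) (j : Fin d) : l1 (x + ez j) ≤ l1 x + 1 := by
  have h1 := l1_sum_ne x (x + ez j) j fun i hi => by rw [Pi.add_apply, ez_ne hi, add_zero]
  have h2 : (x + ez j) j = x j + 1 := by rw [Pi.add_apply, ez_same]
  rw [h2] at h1
  omega

lemma l1_pred_le (x : Zp d) (j : Fin d) : l1 (x - ez j) ≤ l1 x + 1 := by
  have h1 := l1_sum_ne x (x - ez j) j fun i hi => by rw [Pi.sub_apply, ez_ne hi, sub_zero]
  have h2 : (x - ez j) j = x j - 1 := by rw [Pi.sub_apply, ez_same]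
  rw [h2] at h1
  omega

end l1

variable {G : Type} [Group G] [TopologicalSpace G] [IsTopologicalGroup G] [CompactSpace G]
  [SecondCountableTopology G] [MeasurableSpace G] [BorelSpace G] (μ : Measure G)
  [IsProbabilityMeasure μ] [μ.IsMulLeftInvariant] [μ.IsMulRightInvariant] [μ.IsInvInvariant]
  {N n : ℕ} {L : LD G N n} {d : ℕ}

variable (L) in
/-- the scaled correlation with the observable -/
def pe (z : ℝ × ℕ) (q r : Fin d × Fin d) (A : (Zp d → Fin d → G) → Fin n → ℝ) : ℝ :=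
  z.1 ^ 8 * ee μ L z (fun u => ∑ α, A u α * Ph L q r u α)

section lin

variable {z : ℝ × ℕ} {q r : Fin d × Fin d} {A B : (Zp d → Fin d → G) → Fin n → ℝ}

lemma pr_cont (hA : ∀ α, Continuous fun u => A u α) :
    Continuous fun u : Zp d → Fin d → G => ∑ α, A u α * Ph L q r u α :=
  continuous_finsetSum _ fun α _ => (hA α).mul (Ph_cont q r α)

lemma pe_add (hA : ∀ α, Continuous fun u => A u α) (hB : ∀ α, Continuous fun u => B u α) :
    pe μ L z q r (fun u α => A u α + B u α) = pe μ L z q r A + pe μ L z q r B := by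
  unfold pe
  rw [← mul_add, ← ee_add μ (pr_cont hA) (pr_cont hB)]
  congr 2
  funext u
  rw [← Finset.sum_add_distrib]
  exact Finset.sum_congr rfl fun α _ => by ring

lemma pe_sub (hA : ∀ α, Continuous fun u => A u α) (hB : ∀ α, Continuous fun u => B u α) :
    pe μ L z q r (fun u α => A u α - B u α) = pe μ L z q r A - pe μ L z q r B := by
  unfold pe
  rw [← mul_sub, ← ee_sub μ (pr_cont hA) (pr_cont hB)]
  congr 2
  funext u
  rw [← Finset.sum_sub_distrib]
  exact Finset.sum_congr rfl fun α _ => by ring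

lemma pe_smul (c : ℝ) (A : (Zp d → Fin d → G) → Fin n → ℝ) :
    pe μ L z q r (fun u α => c * A u α) = c * pe μ L z q r A := by
  unfold pe
  have e : (fun u : Zp d → Fin d → G => ∑ α, c * A u α * Ph L q r u α) =
      fun u => c * ∑ α, A u α * Ph L q r u α := by
    funext u
    rw [Finset.mul_sum]
    exact Finset.sum_congr rfl fun α _ => by ring
  rw [e, ee_smul]; ring

lemma pe_zero : pe μ L z q r (fun _ _ => 0) = 0 := by
  unfold pe
  simp only [zero_mul, Finset.sum_const_zero]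
  rw [ee_const, mul_zero]

lemma pe_sum {ι : Type*} (s : Finset ι) {A : ι → (Zp d → Fin d → G) → Fin n → ℝ}
    (hA : ∀ i α, Continuous fun u => A i u α) :
    pe μ L z q r (fun u α => ∑ i ∈ s, A i u α) = ∑ i ∈ s, pe μ L z q r (A i) := by
  unfold pe
  rw [← Finset.mul_sum, ← ee_sum μ s fun i => pr_cont (hA i)]
  congr 2
  funext u
  rw [Finset.sum_comm]
  refine Finset.sum_congr rfl fun α _ => ?_
  rw [Finset.sum_mul]

end lin

lemma F0_le (q : Fin d × Fin d) (u : Zp d → Fin d → G) (β : Fin n) :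
    |F0 L q u β| ≤ dg L u q.1 q.2 0 := cc_le _ _

lemma Ph_le (q r : Fin d × Fin d) (u : Zp d → Fin d → G) (α : Fin n) :
    |Ph L q r u α| ≤ n ^ 2 * (dg L u q.1 q.2 0 * dg L u r.1 r.2 0) :=
  qd_le (fun a => F0_le q u a) (fun a => F0_le r u a) α

lemma pe_le {z : ℝ × ℕ} {q r : Fin d × Fin d} {A : (Zp d → Fin d → G) → Fin n → ℝ}
    {X : (Zp d → Fin d → G) → ℝ} (hA : ∀ α, Continuous fun u => A u α) (hX : Continuous X)
    (h : ∀ u α, |A u α| ≤ X u) :
    |pe μ L z q r A| ≤ n ^ 3 * ee μ L z (fun u => z.1 ^ 4 * X u *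
      (bd L z.1 u q.1 q.2 0 * bd L z.1 u r.1 r.2 0)) := by
  unfold pe
  rw [abs_mul, abs_of_nonneg (by positivity : (0:ℝ) ≤ z.1 ^ 8)]
  have hR : Continuous fun u : Zp d → Fin d → G => n ^ 3 * (X u *
      (dg L u q.1 q.2 0 * dg L u r.1 r.2 0)) := by
    have c1 : ∀ q : Fin d × Fin d, Continuous fun u : Zp d → Fin d → G => dg L u q.1 q.2 0 :=
      fun q => dv_cont.comp (Gz_cont _ _ _)
    exact continuous_const.mul (hX.mul ((c1 q).mul (c1 r)))
  have h1 : |ee μ L z (fun u => ∑ α, A u α * Ph L q r u α)| ≤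
      ee μ L z (fun u => n ^ 3 * (X u * (dg L u q.1 q.2 0 * dg L u r.1 r.2 0))) := by
    refine ee_abs_le μ (pr_cont hA) hR fun u => ?_
    refine (Finset.abs_sum_le_sum_abs _ _).trans ?_
    have h2 : ∀ α, |A u α * Ph L q r u α| ≤
        X u * (n ^ 2 * (dg L u q.1 q.2 0 * dg L u r.1 r.2 0)) := fun α => by
      rw [abs_mul]
      exact mul_le_mul (h u α) (Ph_le q r u α) (abs_nonneg _) ((abs_nonneg _).trans (h u α))
    calc ∑ α, |A u α * Ph L q r u α| ≤ ∑ _α : Fin n, X u *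
          (n ^ 2 * (dg L u q.1 q.2 0 * dg L u r.1 r.2 0)) := Finset.sum_le_sum fun α _ => h2 α
      _ = _ := by
        rw [Finset.sum_const, Finset.card_univ, Fintype.card_fin, nsmul_eq_mul]; ring
  calc z.1 ^ 8 * |ee μ L z (fun u => ∑ α, A u α * Ph L q r u α)| ≤
      z.1 ^ 8 * ee μ L z (fun u => n ^ 3 * (X u * (dg L u q.1 q.2 0 * dg L u r.1 r.2 0))) :=
        mul_le_mul_of_nonneg_left h1 (by positivity)
    _ = _ := by
      rw [← ee_smul, ← ee_smul]
      congr 1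
      funext u
      rw [bd_dg, bd_dg]; ring

lemma amgm4 {a b c e : ℝ} : a * b * (c * e) ≤ (a ^ 4 + b ^ 4 + c ^ 4 + e ^ 4) / 4 := by
  nlinarith [sq_nonneg (a * b - c * e), sq_nonneg (a ^ 2 - b ^ 2), sq_nonneg (c ^ 2 - e ^ 2)]

/-- the expectation of a product of four functions -/
lemma ee_four {z : ℝ × ℕ} {X1 X2 X3 X4 : (Zp d → Fin d → G) → ℝ} (h1 : Continuous X1)
    (h2 : Continuous X2) (h3 : Continuous X3) (h4 : Continuous X4) {C lam : ℝ} (hl : 1 ≤ lam)
    (e1 : ee μ L z (fun u => X1 u ^ 4) ≤ C * lam ^ 4)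
    (e2 : ee μ L z (fun u => X2 u ^ 4) ≤ C) (e3 : ee μ L z (fun u => X3 u ^ 4) ≤ C)
    (e4 : ee μ L z (fun u => X4 u ^ 4) ≤ C) :
    ee μ L z (fun u => X1 u * X2 u * (X3 u * X4 u)) ≤ C * lam := by
  have hl0 : 0 < lam := by linarith
  have c1 : Continuous fun u => lam / 4 * ((1 / lam ^ 4) * X1 u ^ 4 + (X2 u ^ 4 +
      (X3 u ^ 4 + X4 u ^ 4))) := by fun_prop
  have key : ∀ u, X1 u * X2 u * (X3 u * X4 u) ≤ lam / 4 * ((1 / lam ^ 4) * X1 u ^ 4 + (X2 u ^ 4 +
      (X3 u ^ 4 + X4 u ^ 4))) := by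
    intro u
    have h := amgm4 (a := X1 u / lam) (b := X2 u) (c := X3 u) (e := X4 u)
    have h5 : X1 u * X2 u * (X3 u * X4 u) = lam * (X1 u / lam * X2 u * (X3 u * X4 u)) := by
      field_simp
    rw [h5]
    calc lam * (X1 u / lam * X2 u * (X3 u * X4 u)) ≤
        lam * (((X1 u / lam) ^ 4 + X2 u ^ 4 + X3 u ^ 4 + X4 u ^ 4) / 4) :=
          mul_le_mul_of_nonneg_left h hl0.le
      _ = _ := by rw [div_pow]; ring
  have c0 : Continuous fun u => X1 u * X2 u * (X3 u * X4 u) := by fun_prop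
  refine (ee_mono μ c0 c1 key).trans ?_
  have d1 : Continuous fun u => (1 / lam ^ 4) * X1 u ^ 4 := by fun_prop
  have d2 : Continuous fun u => X2 u ^ 4 := by fun_prop
  have d3 : Continuous fun u => X3 u ^ 4 := by fun_prop
  have d4 : Continuous fun u => X4 u ^ 4 := by fun_prop
  have d5 : Continuous fun u => X3 u ^ 4 + X4 u ^ 4 := by fun_prop
  have d6 : Continuous fun u => X2 u ^ 4 + (X3 u ^ 4 + X4 u ^ 4) := by fun_prop
  rw [ee_smul, ee_add μ d1 d6, ee_smul, ee_add μ d2 d5, ee_add μ d3 d4]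
  have e1' : 1 / lam ^ 4 * ee μ L z (fun u => X1 u ^ 4) ≤ C := by
    calc _ ≤ 1 / lam ^ 4 * (C * lam ^ 4) := mul_le_mul_of_nonneg_left e1 (by positivity)
      _ = C := by field_simp
  calc _ ≤ lam / 4 * (C + (C + (C + C))) := by
        refine mul_le_mul_of_nonneg_left ?_ (by positivity)
        linarith
    _ = C * lam := by ring

/-- the scaled deviation of a link -/
def bp (L : LD G N n) (b : ℝ) (u : Zp d → Fin d → G) (i : Fin d) (x : Zp d) : ℝ :=
  b ^ 2 * poa (dg L u) i x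

lemma dg_cont (j i : Fin d) (x : Zp d) : Continuous fun u : Zp d → Fin d → G => dg L u j i x :=
  dv_cont.comp (Gz_cont _ _ _)

lemma poa_cont (i : Fin d) (x : Zp d) :
    Continuous fun u : Zp d → Fin d → G => poa (dg L u) i x := by
  simp only [poa_eq]
  exact continuous_finsetSum _ fun q _ => dg_cont _ _ _

lemma bp_cont (b : ℝ) (i : Fin d) (x : Zp d) :
    Continuous fun u : Zp d → Fin d → G => bp L b u i x := continuous_const.mul (poa_cont i x)

lemma bp_nonneg (b : ℝ) (u : Zp d → Fin d → G) (i : Fin d) (x : Zp d) : 0 ≤ bp L b u i x :=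
  mul_nonneg (sq_nonneg _) (poa_nonneg (fun _ _ _ => dg_nonneg _ _ _ _) _ _)

lemma bp_mom {C : ℝ} {z : ℝ × ℕ} (hC : 0 ≤ C)
    (h : ∀ (j i : Fin d) (y : Zp d), ee μ L z (fun u => bd L z.1 u j i y ^ 4) ≤ C)
    (i : Fin d) (x : Zp d) : ee μ L z (fun u => bp L z.1 u i x ^ 4) ≤ C * (l1 x : ℝ) ^ 4 := by
  have key : ∀ u : Zp d → Fin d → G, bp L z.1 u i x ^ 4 ≤
      (l1 x : ℝ) ^ 3 * ∑ q ∈ stp i x, bd L z.1 u q.1 i (cut x q.1 q.2) ^ 4 := by
    intro u
    have h1 := poa_pow (g := dg L u) (fun _ _ _ => dg_nonneg _ _ _ _) i x 3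
    rw [poa_eq (fun i j x => dg L u i j x ^ (3 + 1))] at h1
    unfold bp
    rw [mul_pow]
    calc (z.1 ^ 2) ^ 4 * poa (dg L u) i x ^ 4 ≤ (z.1 ^ 2) ^ 4 * ((l1 x : ℝ) ^ 3 *
          ∑ q ∈ stp i x, dg L u q.1 i (cut x q.1 q.2) ^ (3 + 1)) :=
          mul_le_mul_of_nonneg_left h1 (by positivity)
      _ = _ := by
          rw [mul_left_comm, Finset.mul_sum]
          congr 1
          refine Finset.sum_congr rfl fun q _ => ?_
          rw [bd_dg, mul_pow]
  have c1 : ∀ q : (_ : Fin d) × ℤ, Continuous fun u : Zp d → Fin d → G =>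
      bd L z.1 u q.1 i (cut x q.1 q.2) ^ 4 := fun q => (bd_cont _ _ _ _).pow 4
  have c2 : Continuous fun u : Zp d → Fin d → G =>
      (l1 x : ℝ) ^ 3 * ∑ q ∈ stp i x, bd L z.1 u q.1 i (cut x q.1 q.2) ^ 4 :=
    continuous_const.mul (continuous_finsetSum _ fun q _ => c1 q)
  refine (ee_mono μ ((bp_cont _ _ _).pow 4) c2 key).trans ?_
  rw [ee_smul, ee_sum μ _ c1]
  calc (l1 x : ℝ) ^ 3 * ∑ q ∈ stp i x, ee μ L z (fun u => bd L z.1 u q.1 i
        (cut x q.1 q.2) ^ 4) ≤ (l1 x : ℝ) ^ 3 * ∑ _q ∈ stp i x, C :=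
        mul_le_mul_of_nonneg_left (Finset.sum_le_sum fun q _ => h _ _ _) (by positivity)
    _ = (l1 x : ℝ) ^ 3 * ((stp i x).card * C) := by rw [Finset.sum_const, nsmul_eq_mul]
    _ ≤ (l1 x : ℝ) ^ 3 * (l1 x * C) := by
        refine mul_le_mul_of_nonneg_left (mul_le_mul_of_nonneg_right (stp_card i x) hC)
          (by positivity)
    _ = _ := by ring

end

end Pool.Agent.Y16.YM
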