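import Mathlib
import Pool.Agent.Y16.YM.Bnd

/-!
# The fields and their uniform bounds
-/

open MeasureTheory Matrix Filter
open scoped Matrix.Norms.Frobenius Topology
open Pool.Agent.H906R3.YM Pool.Agent.W793.YM Pool.Agent.TH940.YM
open Pool.Agent.W793.SCH (haf Near pk gK DD mx el TK S_B1 S_B2 S_TR S_W1 S_HAF green plaq_moment2)

namespace Pool.Agent.Y16.YM

set_option linter.unusedSectionVars false
set_option linter.unusedVariables false

noncomputable section

variable {G : Type} [Group G] [TopologicalSpace G] [IsTopologicalGroup G] [CompactSpace G]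
  [SecondCountableTopology G] [MeasurableSpace G] [BorelSpace G] (μ : Measure G)
  [IsProbabilityMeasure μ] [μ.IsMulLeftInvariant] [μ.IsMulRightInvariant] [μ.IsInvInvariant]
  {N n : ℕ} {L : LD G N n} {d : ℕ}

/-- the potential -/
def am (L : LD G N n) (i : Fin d) (x : Zp d) (u : Zp d → Fin d → G) (α : Fin n) : ℝ :=
  cc L α (Vz u x i)

/-- the field strength -/
def fF (L : LD G N n) (j k : Fin d) (x : Zp d) (u : Zp d → Fin d → G) (α : Fin n) : ℝ :=
  cg L u α j k x

/-- the second order part of the field strength -/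
def om (L : LD G N n) (j k : Fin d) (x : Zp d) (u : Zp d → Fin d → G) (α : Fin n) : ℝ :=
  fF L j k x u α - (am L j x u α + am L k (x + ez j) u α - am L j (x + ez k) u α - am L k x u α)

/-- the second order part of the current -/
def rh (L : LD G N n) (k : Fin d) (x : Zp d) (u : Zp d → Fin d → G) (α : Fin n) : ℝ :=
  DS L u α x k - ∑ j, (fF L k j x u α - fF L k j (x - ez j) u α)

lemma am_cont (i : Fin d) (x : Zp d) (α : Fin n) :
    Continuous fun u : Zp d → Fin d → G => am L i x u α := (cc_cont α).comp (Vz_cont _ _)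

lemma fF_cont (j k : Fin d) (x : Zp d) (α : Fin n) :
    Continuous fun u : Zp d → Fin d → G => fF L j k x u α := (cc_cont α).comp (Gz_cont _ _ _)

lemma om_cont (j k : Fin d) (x : Zp d) (α : Fin n) :
    Continuous fun u : Zp d → Fin d → G => om L j k x u α :=
  (fF_cont _ _ _ _).sub ((((am_cont _ _ _).add (am_cont _ _ _)).sub (am_cont _ _ _)).sub
    (am_cont _ _ _))

lemma rh_cont (k : Fin d) (x : Zp d) (α : Fin n) :
    Continuous fun u : Zp d → Fin d → G => rh L k x u α :=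
  (DS_cont _ _ _).sub (continuous_finsetSum _ fun j _ => (fF_cont _ _ _ _).sub (fF_cont _ _ _ _))

/-- the sum of the deviations around a plaquette -/
def s4 (L : LD G N n) (j k : Fin d) (x : Zp d) (u : Zp d → Fin d → G) : ℝ :=
  poa (dg L u) j x + poa (dg L u) k (x + ez j) + poa (dg L u) j (x + ez k) + poa (dg L u) k x

lemma poa_nn (u : Zp d → Fin d → G) (i : Fin d) (x : Zp d) : 0 ≤ poa (dg L u) i x :=
  poa_nonneg (fun _ _ _ => dg_nonneg _ _ _ _) _ _

lemma s4_links (j k : Fin d) (x : Zp d) (u : Zp d → Fin d → G) :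
    dv L (Vz u x j) ≤ s4 L j k x u ∧ dv L (Vz u (x + ez j) k) ≤ s4 L j k x u ∧
      dv L (Vz u (x + ez k) j) ≤ s4 L j k x u ∧ dv L (Vz u x k) ≤ s4 L j k x u := by
  have h1 := dv_Vz (L := L) u x j
  have h2 := dv_Vz (L := L) u (x + ez j) k
  have h3 := dv_Vz (L := L) u (x + ez k) j
  have h4 := dv_Vz (L := L) u x k
  have p1 := poa_nn (L := L) u j x
  have p2 := poa_nn (L := L) u k (x + ez j)
  have p3 := poa_nn (L := L) u j (x + ez k)
  have p4 := poa_nn (L := L) u k x
  unfold s4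
  refine ⟨by linarith, by linarith, by linarith, by linarith⟩

lemma s4_nonneg (j k : Fin d) (x : Zp d) (u : Zp d → Fin d → G) : 0 ≤ s4 L j k x u :=
  (dv_nonneg _).trans (s4_links j k x u).1

lemma om_le (j k : Fin d) (x : Zp d) (u : Zp d → Fin d → G) (α : Fin n) :
    |om L j k x u α| ≤ 6 * s4 L j k x u ^ 2 := by
  obtain ⟨h1, h2, h3, h4⟩ := s4_links (L := L) j k x u
  have h := plq1 α h1 h2 h3 h4
  rw [← Gz_eq] at h
  exact h

lemma s4_cont (j k : Fin d) (x : Zp d) : Continuous fun u : Zp d → Fin d → G => s4 L j k x u :=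
  (((poa_cont _ _).add (poa_cont _ _)).add (poa_cont _ _)).add (poa_cont _ _)

lemma rh_eq (k : Fin d) (x : Zp d) (u : Zp d → Fin d → G) (α : Fin n) :
    rh L k x u α = ∑ j, (fF L k j (x - ez j) u α - cc L α ((Vz u (x - ez j) j)⁻¹ *
      Gz u (x - ez j) k j * Vz u (x - ez j) j)) := by
  unfold rh DS
  rw [← Finset.sum_sub_distrib]
  refine Finset.sum_congr rfl fun j _ => ?_
  unfold fF cg
  ring

lemma rh_le (k : Fin d) (x : Zp d) (u : Zp d → Fin d → G) (α : Fin n) :
    |rh L k x u α| ≤ ∑ j, 2 * (poa (dg L u) j (x - ez j) * dg L u k j (x - ez j)) := by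
  rw [rh_eq]
  refine (Finset.abs_sum_le_sum_abs _ _).trans (Finset.sum_le_sum fun j _ => ?_)
  have h := conj1 (L := L) α (Vz u (x - ez j) j)⁻¹ (Gz u (x - ez j) k j)
  rw [inv_inv, dv_inv] at h
  have h2 := dv_Vz (L := L) u (x - ez j) j
  rw [abs_sub_comm]
  refine h.trans ?_
  rw [mul_assoc]
  exact mul_le_mul_of_nonneg_left (mul_le_mul_of_nonneg_right h2 (dv_nonneg _)) (by norm_num)

/-! ### the derivative of the observable -/

lemma sp_nonneg (q : Fin d × Fin d) (x : Zp d) (k : Fin d) : 0 ≤ sp q x k := by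
  unfold sp; split_ifs <;> norm_num

lemma sm_nonneg (q : Fin d × Fin d) (x : Zp d) (k : Fin d) : 0 ≤ sm q x k := by
  unfold sm; split_ifs <;> norm_num

lemma sp_le (q : Fin d × Fin d) (x : Zp d) (k : Fin d) : sp q x k ≤ 2 := by
  unfold sp; split_ifs <;> norm_num

lemma sm_le (q : Fin d × Fin d) (x : Zp d) (k : Fin d) : sm q x k ≤ 2 := by
  unfold sm; split_ifs <;> norm_num

/-- the first order of the derivative -/
def k1 (L : LD G N n) (q : Fin d × Fin d) (x : Zp d) (k : Fin d) (u : Zp d → Fin d → G)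
    (α β : Fin n) : ℝ := (sp q x k + sm q x k) * ∑ γ, hh L β α γ * F0 L q u γ

/-- the remainder of order zero -/
def k0 (L : LD G N n) (q : Fin d × Fin d) (x : Zp d) (k : Fin d) (u : Zp d → Fin d → G)
    (α β : Fin n) : ℝ := kd L q x k u α β - (sp q x k - sm q x k) * (if β = α then 1 else 0)

lemma k0_eq (q : Fin d × Fin d) (x : Zp d) (k : Fin d) (u : Zp d → Fin d → G) (α β : Fin n) :
    k0 L q x k u α β = sp q x k * ip (L.X β) (L.X α * (L.rho (Gz u 0 q.1 q.2) - 1)) -
      sm q x k * ip (L.X β) ((L.rho (Gz u 0 q.1 q.2) - 1) * L.X α) := by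
  unfold k0 kd
  rw [mul_sub (L.X α), sub_mul (L.rho (Gz u 0 q.1 q.2)), mul_one, one_mul, map_sub, map_sub, ip_X]
  ring

lemma k0_le (q : Fin d × Fin d) (x : Zp d) (k : Fin d) (u : Zp d → Fin d → G) (α β : Fin n) :
    |k0 L q x k u α β| ≤ 4 * dg L u q.1 q.2 0 := by
  rw [k0_eq]
  have h1 : |ip (L.X β) (L.X α * (L.rho (Gz u 0 q.1 q.2) - 1))| ≤ dg L u q.1 q.2 0 := by
    refine (ip_le β _).trans ((norm_mul_le _ _).trans ?_)
    rw [norm_X, one_mul]; exact le_rfl
  have h2 : |ip (L.X β) ((L.rho (Gz u 0 q.1 q.2) - 1) * L.X α)| ≤ dg L u q.1 q.2 0 := by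
    refine (ip_le β _).trans ((norm_mul_le _ _).trans ?_)
    rw [norm_X, mul_one]; exact le_rfl
  have p1 := sp_nonneg q x k
  have p2 := sm_nonneg q x k
  have p3 := sp_le q x k
  have p4 := sm_le q x k
  have hD := dg_nonneg (L := L) u q.1 q.2 0
  refine (abs_sub _ _).trans ?_
  rw [abs_mul, abs_mul, abs_of_nonneg p1, abs_of_nonneg p2]
  have q1 : sp q x k * |ip (L.X β) (L.X α * (L.rho (Gz u 0 q.1 q.2) - 1))| ≤
      2 * dg L u q.1 q.2 0 := mul_le_mul p3 h1 (abs_nonneg _) (by norm_num)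
  have q2 : sm q x k * |ip (L.X β) ((L.rho (Gz u 0 q.1 q.2) - 1) * L.X α)| ≤
      2 * dg L u q.1 q.2 0 := mul_le_mul p4 h2 (abs_nonneg _) (by norm_num)
  linarith

lemma k0_app {CT : ℝ} (hTg : Tg L CT) (q : Fin d × Fin d) (x : Zp d) (k : Fin d)
    (u : Zp d → Fin d → G) (α β : Fin n) :
    |k0 L q x k u α β - k1 L q x k u α β| ≤ 4 * CT * dg L u q.1 q.2 0 ^ 2 := by
  obtain ⟨W, hW⟩ : ∃ W, W = Gz u 0 q.1 q.2 := ⟨_, rfl⟩
  obtain ⟨M, hM⟩ : ∃ M, M = ∑ γ, cc L γ W • L.X γ := ⟨_, rfl⟩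
  have hT := hTg.2 W
  rw [← hM] at hT
  have hC := hTg.1
  have e1 : ∑ γ, hh L β α γ * F0 L q u γ = ip (L.X β) (L.X α * M) := by
    rw [hh_sum, hM, hW]; rfl
  have e2 : ip (L.X β) (M * L.X α) = -ip (L.X β) (L.X α * M) := by
    rw [hM, Finset.sum_mul, Finset.mul_sum, map_sum, map_sum, ← Finset.sum_neg_distrib]
    refine Finset.sum_congr rfl fun γ _ => ?_
    rw [smul_mul_assoc, mul_smul_comm, map_smul, map_smul]
    have := hh_swap (L := L) β γ α
    unfold hh at this
    rw [this, smul_neg]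
  have e3 : k0 L q x k u α β - k1 L q x k u α β =
      sp q x k * ip (L.X β) (L.X α * (L.rho W - 1 - M)) -
      sm q x k * ip (L.X β) ((L.rho W - 1 - M) * L.X α) := by
    rw [k0_eq]
    unfold k1
    rw [e1, ← hW, mul_sub (L.X α) (L.rho W - 1) M, sub_mul (L.rho W - 1) M (L.X α), map_sub,
      map_sub, e2]
    ring
  rw [e3]
  have hdW : dv L W = dg L u q.1 q.2 0 := by rw [hW]; rfl
  rw [hdW] at hT
  have h1 : |ip (L.X β) (L.X α * (L.rho W - 1 - M))| ≤ CT * dg L u q.1 q.2 0 ^ 2 := by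
    refine (ip_le β _).trans ((norm_mul_le _ _).trans ?_)
    rw [norm_X, one_mul]; exact hT
  have h2 : |ip (L.X β) ((L.rho W - 1 - M) * L.X α)| ≤ CT * dg L u q.1 q.2 0 ^ 2 := by
    refine (ip_le β _).trans ((norm_mul_le _ _).trans ?_)
    rw [norm_X, mul_one]; exact hT
  have p1 := sp_nonneg q x k
  have p2 := sm_nonneg q x k
  have p3 := sp_le q x k
  have p4 := sm_le q x k
  refine (abs_sub _ _).trans ?_
  rw [abs_mul, abs_mul, abs_of_nonneg p1, abs_of_nonneg p2]
  have q1 : sp q x k * |ip (L.X β) (L.X α * (L.rho W - 1 - M))| ≤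
      2 * (CT * dg L u q.1 q.2 0 ^ 2) := mul_le_mul p3 h1 (abs_nonneg _) (by norm_num)
  have q2 : sm q x k * |ip (L.X β) ((L.rho W - 1 - M) * L.X α)| ≤
      2 * (CT * dg L u q.1 q.2 0 ^ 2) := mul_le_mul p4 h2 (abs_nonneg _) (by norm_num)
  linarith

lemma qd_del_left (a : ℝ) (α : Fin n) (B : Fin n → ℝ) :
    qd L (fun β => a * (if β = α then 1 else 0)) B α = 0 := by
  unfold qd
  refine Finset.sum_eq_zero fun β _ => Finset.sum_eq_zero fun b _ => ?_
  simp only
  split_ifs with h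
  · rw [h, hh_diag']; ring
  · ring

lemma qd_del_right (a : ℝ) (α : Fin n) (B : Fin n → ℝ) :
    qd L B (fun β => a * (if β = α then 1 else 0)) α = 0 := by
  rw [qd_swap, qd_del_left, neg_zero]

lemma kap_eq (q r : Fin d × Fin d) (x : Zp d) (k : Fin d) (u : Zp d → Fin d → G) :
    kap L q r x k u =
      ∑ α, (qd L (k0 L q x k u α) (F0 L r u) α + qd L (F0 L q u) (k0 L r x k u α) α) := by
  unfold kap
  refine Finset.sum_congr rfl fun α _ => ?_
  have e1 : ∀ q : Fin d × Fin d, kd L q x k u α = fun β => k0 L q x k u α β +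
      (sp q x k - sm q x k) * (if β = α then 1 else 0) := fun q => by
    funext β; unfold k0; ring
  rw [e1 q, e1 r, qd_add_left, qd_add_right, qd_del_left, qd_del_right, add_zero, add_zero]

lemma kap_le (q r : Fin d × Fin d) (x : Zp d) (k : Fin d) (u : Zp d → Fin d → G) :
    |kap L q r x k u| ≤ 8 * n ^ 3 * (dg L u q.1 q.2 0 * dg L u r.1 r.2 0) := by
  rw [kap_eq]
  refine (Finset.abs_sum_le_sum_abs _ _).trans ?_
  have h1 : ∀ α, |qd L (k0 L q x k u α) (F0 L r u) α + qd L (F0 L q u) (k0 L r x k u α) α| ≤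
      8 * n ^ 2 * (dg L u q.1 q.2 0 * dg L u r.1 r.2 0) := fun α => by
    have h2 := qd_le (L := L) (fun a => k0_le (L := L) q x k u α a)
      (fun a => F0_le (L := L) r u a) α
    have h3 := qd_le (L := L) (fun a => F0_le (L := L) q u a)
      (fun a => k0_le (L := L) r x k u α a) α
    refine (abs_add_le _ _).trans ((add_le_add h2 h3).trans (le_of_eq ?_))
    ring
  calc _ ≤ ∑ _α : Fin n, 8 * n ^ 2 * (dg L u q.1 q.2 0 * dg L u r.1 r.2 0) :=
        Finset.sum_le_sum fun α _ => h1 α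
    _ = _ := by rw [Finset.sum_const, Finset.card_univ, Fintype.card_fin, nsmul_eq_mul]; ring

lemma kap1_eq (q r : Fin d × Fin d) (x : Zp d) (k : Fin d) (u : Zp d → Fin d → G) :
    ∑ α, (qd L (k1 L q x k u α) (F0 L r u) α + qd L (F0 L q u) (k1 L r x k u α) α) =
      ((sp r x k + sm r x k) - (sp q x k + sm q x k)) * T2 L (F0 L q u) (F0 L r u) := by
  rw [Finset.sum_add_distrib]
  have h1 : ∑ α, qd L (k1 L q x k u α) (F0 L r u) α =
      -((sp q x k + sm q x k) * T2 L (F0 L q u) (F0 L r u)) := by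
    unfold T2
    rw [Finset.mul_sum, ← Finset.sum_neg_distrib]
    refine Finset.sum_congr rfl fun α _ => ?_
    rw [Finset.mul_sum, ← Finset.sum_neg_distrib]
    unfold qd k1
    refine Finset.sum_congr rfl fun β _ => ?_
    have e : ∑ γ, hh L β α γ * F0 L q u γ = -∑ γ, hh L α β γ * F0 L q u γ := by
      rw [← Finset.sum_neg_distrib]
      refine Finset.sum_congr rfl fun γ _ => ?_
      rw [hh_swap' β α γ]; ring
    beta_reduce
    rw [e]
    obtain ⟨S, hS⟩ : ∃ S, S = ∑ γ, hh L α β γ * F0 L q u γ := ⟨_, rfl⟩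
    rw [← hS]
    have e2 : ∀ b, hh L α β b * ((sp q x k + sm q x k) * -S * F0 L r u b) =
        -((sp q x k + sm q x k) * S) * (hh L α β b * F0 L r u b) := fun b => by ring
    simp only [e2]
    rw [← Finset.mul_sum]; ring
  have h2 : ∑ α, qd L (F0 L q u) (k1 L r x k u α) α =
      (sp r x k + sm r x k) * T2 L (F0 L q u) (F0 L r u) := by
    unfold T2
    rw [Finset.mul_sum]
    refine Finset.sum_congr rfl fun α _ => ?_
    rw [Finset.mul_sum]
    unfold qd k1
    rw [Finset.sum_comm]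
    refine Finset.sum_congr rfl fun β _ => ?_
    have e : ∑ γ, hh L β α γ * F0 L r u γ = -∑ γ, hh L α β γ * F0 L r u γ := by
      rw [← Finset.sum_neg_distrib]
      refine Finset.sum_congr rfl fun γ _ => ?_
      rw [hh_swap' β α γ]; ring
    beta_reduce
    rw [e]
    obtain ⟨S, hS⟩ : ∃ S, S = ∑ γ, hh L α β γ * F0 L r u γ := ⟨_, rfl⟩
    rw [← hS]
    have e2 : ∀ a, hh L α a β * (F0 L q u a * ((sp r x k + sm r x k) * -S)) =
        ((sp r x k + sm r x k) * S) * (hh L α β a * F0 L q u a) := fun a => by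
      rw [hh_swap α a β]; ring
    simp only [e2]
    rw [← Finset.mul_sum]; ring
  rw [h1, h2]; ring

lemma kap_app {CT : ℝ} (hTg : Tg L CT) (q r : Fin d × Fin d) (x : Zp d) (k : Fin d)
    (u : Zp d → Fin d → G) : |kap L q r x k u -
      ((sp r x k + sm r x k) - (sp q x k + sm q x k)) * T2 L (F0 L q u) (F0 L r u)| ≤
      4 * CT * n ^ 3 * (dg L u q.1 q.2 0 ^ 2 * dg L u r.1 r.2 0 +
        dg L u q.1 q.2 0 * dg L u r.1 r.2 0 ^ 2) := by
  rw [← kap1_eq, kap_eq, ← Finset.sum_sub_distrib]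
  refine (Finset.abs_sum_le_sum_abs _ _).trans ?_
  have h1 : ∀ α, |qd L (k0 L q x k u α) (F0 L r u) α + qd L (F0 L q u) (k0 L r x k u α) α -
      (qd L (k1 L q x k u α) (F0 L r u) α + qd L (F0 L q u) (k1 L r x k u α) α)| ≤
      4 * CT * n ^ 2 * (dg L u q.1 q.2 0 ^ 2 * dg L u r.1 r.2 0 +
        dg L u q.1 q.2 0 * dg L u r.1 r.2 0 ^ 2) := fun α => by
    have e1 : qd L (k0 L q x k u α) (F0 L r u) α + qd L (F0 L q u) (k0 L r x k u α) α -
      (qd L (k1 L q x k u α) (F0 L r u) α + qd L (F0 L q u) (k1 L r x k u α) α) =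
      qd L (fun a => k0 L q x k u α a - k1 L q x k u α a) (F0 L r u) α +
      qd L (F0 L q u) (fun a => k0 L r x k u α a - k1 L r x k u α a) α := by
      rw [qd_sub_left, qd_swap (F0 L q u) (fun a => k0 L r x k u α a - k1 L r x k u α a),
        qd_sub_left, qd_swap (F0 L q u), qd_swap (F0 L q u)]
      ring
    rw [e1]
    have h2 := qd_le (L := L) (fun a => k0_app hTg q x k u α a)
      (fun a => F0_le (L := L) r u a) α
    have h3 := qd_le (L := L) (fun a => F0_le (L := L) q u a) (fun a => k0_app hTg r x k u α a) α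
    refine (abs_add_le _ _).trans ((add_le_add h2 h3).trans (le_of_eq ?_))
    ring
  calc _ ≤ ∑ _α : Fin n, 4 * CT * n ^ 2 * (dg L u q.1 q.2 0 ^ 2 * dg L u r.1 r.2 0 +
        dg L u q.1 q.2 0 * dg L u r.1 r.2 0 ^ 2) :=
        Finset.sum_le_sum fun α _ => h1 α
    _ = _ := by rw [Finset.sum_const, Finset.card_univ, Fintype.card_fin, nsmul_eq_mul]; ring

end

end Pool.Agent.Y16.YM
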