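import Mathlib
import Pool.Agent.Y16.YM.Bnd2

/-!
# Uniform bounds of the correlations
-/

open MeasureTheory Matrix Filter
open scoped Matrix.Norms.Frobenius Topology
open Pool.Agent.H906R3.YM Pool.Agent.W793.YM Pool.Agent.TH940.YM
open Pool.Agent.W793.SCH (haf Near pk gK DD mx el TK S_B1 S_B2 S_TR S_W1 S_HAF green plaq_moment2)

namespace Pool.Agent.Y16.YM

set_option linter.unusedSectionVars false
set_option linter.unusedVariables false

noncomputable section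

variable {G : Type} [Group G] [TopologicalSpace G] [IsTopologicalGroup G] [CompactSpace G]
  [SecondCountableTopology G] [MeasurableSpace G] [BorelSpace G] (μ : Measure G)
  [IsProbabilityMeasure μ] [μ.IsMulLeftInvariant] [μ.IsMulRightInvariant] [μ.IsInvInvariant]
  {N n : ℕ} {L : LD G N n} {d : ℕ}

section

variable {C : ℝ} {z : ℝ × ℕ}

lemma lam_pow (x : Zp d) {y : Zp d} (hC : 0 ≤ C) (h : l1 y ≤ l1 x + 1) :
    C * (l1 y : ℝ) ^ 4 ≤ C * ((l1 x : ℝ) + 1) ^ 4 := by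
  refine mul_le_mul_of_nonneg_left (pow_le_pow_left₀ (Nat.cast_nonneg _) ?_ 4) hC
  exact_mod_cast h

/-- the scaled sum of the deviations -/
def bs4 (L : LD G N n) (b : ℝ) (j k : Fin d) (x : Zp d) (u : Zp d → Fin d → G) : ℝ :=
  b ^ 2 * s4 L j k x u

lemma bs4_cont (b : ℝ) (j k : Fin d) (x : Zp d) :
    Continuous fun u : Zp d → Fin d → G => bs4 L b j k x u := continuous_const.mul (s4_cont _ _ _)

lemma pow4_sum (a b c e : ℝ) : (a + b + c + e) ^ 4 ≤ 64 * (a ^ 4 + b ^ 4 + c ^ 4 + e ^ 4) := by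
  have h1 : (a + b + c + e) ^ 2 ≤ 4 * (a ^ 2 + b ^ 2 + c ^ 2 + e ^ 2) := by
    nlinarith [sq_nonneg (a - b), sq_nonneg (a - c), sq_nonneg (a - e), sq_nonneg (b - c),
      sq_nonneg (b - e), sq_nonneg (c - e)]
  have h2 : (a ^ 2 + b ^ 2 + c ^ 2 + e ^ 2) ^ 2 ≤ 4 * (a ^ 4 + b ^ 4 + c ^ 4 + e ^ 4) := by
    nlinarith [sq_nonneg (a ^ 2 - b ^ 2), sq_nonneg (a ^ 2 - c ^ 2), sq_nonneg (a ^ 2 - e ^ 2),
      sq_nonneg (b ^ 2 - c ^ 2), sq_nonneg (b ^ 2 - e ^ 2), sq_nonneg (c ^ 2 - e ^ 2)]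
  have h3 : ((a + b + c + e) ^ 2) ^ 2 ≤ (4 * (a ^ 2 + b ^ 2 + c ^ 2 + e ^ 2)) ^ 2 :=
    pow_le_pow_left₀ (sq_nonneg _) h1 2
  nlinarith

lemma bs4_mom (hC : 0 ≤ C)
    (h : ∀ (j i : Fin d) (y : Zp d), ee μ L z (fun u => bd L z.1 u j i y ^ 4) ≤ C)
    (j k : Fin d) (x : Zp d) :
    ee μ L z (fun u => bs4 L z.1 j k x u ^ 4) ≤ 256 * C * ((l1 x : ℝ) + 1) ^ 4 := by
  have key : ∀ u : Zp d → Fin d → G, bs4 L z.1 j k x u ^ 4 ≤ 64 * (bp L z.1 u j x ^ 4 +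
      bp L z.1 u k (x + ez j) ^ 4 + bp L z.1 u j (x + ez k) ^ 4 + bp L z.1 u k x ^ 4) := by
    intro u
    refine le_trans (le_of_eq ?_) (pow4_sum _ _ _ _)
    unfold bs4 s4 bp
    ring
  have c : ∀ i y, Continuous fun u : Zp d → Fin d → G => bp L z.1 u i y ^ 4 := fun i y =>
    (bp_cont _ _ _).pow 4
  have c1 : Continuous fun u : Zp d → Fin d → G => bp L z.1 u j x ^ 4 +
      bp L z.1 u k (x + ez j) ^ 4 := (c _ _).add (c _ _)
  have c2 : Continuous fun u : Zp d → Fin d → G => bp L z.1 u j x ^ 4 +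
      bp L z.1 u k (x + ez j) ^ 4 + bp L z.1 u j (x + ez k) ^ 4 := c1.add (c _ _)
  have c3 : Continuous fun u : Zp d → Fin d → G => 64 * (bp L z.1 u j x ^ 4 +
      bp L z.1 u k (x + ez j) ^ 4 + bp L z.1 u j (x + ez k) ^ 4 + bp L z.1 u k x ^ 4) :=
    continuous_const.mul (c2.add (c _ _))
  refine (ee_mono μ ((bs4_cont _ _ _ _).pow 4) c3 key).trans ?_
  rw [ee_smul, ee_add μ c2 (c _ _), ee_add μ c1 (c _ _), ee_add μ (c _ _) (c _ _)]
  have m1 := (bp_mom μ hC h j x).trans (lam_pow x hC (Nat.le_succ _))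
  have m2 := (bp_mom μ hC h k (x + ez j)).trans (lam_pow x hC (l1_succ_le _ _))
  have m3 := (bp_mom μ hC h j (x + ez k)).trans (lam_pow x hC (l1_succ_le _ _))
  have m4 := (bp_mom μ hC h k x).trans (lam_pow x hC (Nat.le_succ _))
  linarith

lemma tau_bd (hC : 1 ≤ C)
    (h : ∀ (j i : Fin d) (y : Zp d), ee μ L z (fun u => bd L z.1 u j i y ^ 4) ≤ C)
    (q r : Fin d × Fin d) (j k : Fin d) (x : Zp d) :
    |pe μ L z q r (fun u α => fF L j k x u α)| ≤ n ^ 3 * C * z.1 ^ 2 := by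
  have h1 := pe_le μ (L := L) (z := z) (q := q) (r := r) (fun α => fF_cont (L := L) j k x α)
    (dg_cont j k x) (fun u α => cc_le _ _)
  refine h1.trans ?_
  have e1 : (fun u : Zp d → Fin d → G => z.1 ^ 4 * dg L u j k x *
      (bd L z.1 u q.1 q.2 0 * bd L z.1 u r.1 r.2 0)) = fun u => z.1 ^ 2 *
      (1 * bd L z.1 u j k x * (bd L z.1 u q.1 q.2 0 * bd L z.1 u r.1 r.2 0)) := by
    funext u
    rw [bd_dg z.1 u j k x]; ring
  rw [e1, ee_smul]
  have h2 := ee_four μ (L := L) (z := z) (X1 := fun _ => 1) (X2 := fun u => bd L z.1 u j k x)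
    (X3 := fun u => bd L z.1 u q.1 q.2 0) (X4 := fun u => bd L z.1 u r.1 r.2 0) continuous_const
    (bd_cont _ _ _ _) (bd_cont _ _ _ _) (bd_cont _ _ _ _) (C := C) (le_refl (1:ℝ))
    (by rw [ee_const]; simpa using hC) (h _ _ _) (h _ _ _) (h _ _ _)
  calc _ ≤ (n:ℝ) ^ 3 * (z.1 ^ 2 * (C * 1)) := mul_le_mul_of_nonneg_left
        (mul_le_mul_of_nonneg_left h2 (sq_nonneg _)) (by positivity)
    _ = _ := by ring

lemma om_bd (hC : 1 ≤ C)
    (h : ∀ (j i : Fin d) (y : Zp d), ee μ L z (fun u => bd L z.1 u j i y ^ 4) ≤ C)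
    (q r : Fin d × Fin d) (j k : Fin d) (x : Zp d) :
    |pe μ L z q r (fun u α => om L j k x u α)| ≤ n ^ 3 * (6 * (256 * C)) * ((l1 x : ℝ) + 1) ^ 2 := by
  have hC0 : 0 ≤ C := by linarith
  have h1 := pe_le μ (L := L) (z := z) (q := q) (r := r) (fun α => om_cont (L := L) j k x α)
    (X := fun u => 6 * s4 L j k x u ^ 2) (continuous_const.mul ((s4_cont _ _ _).pow 2))
    (fun u α => om_le _ _ _ _ _)
  refine h1.trans ?_
  obtain ⟨lam, hlam⟩ : ∃ lam : ℝ, lam = (l1 x : ℝ) + 1 := ⟨_, rfl⟩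
  have hl1 : 1 ≤ lam := by
    rw [hlam]; have : (0:ℝ) ≤ l1 x := Nat.cast_nonneg _
    linarith
  have hl0 : 0 < lam := by linarith
  have e1 : (fun u : Zp d → Fin d → G => z.1 ^ 4 * (6 * s4 L j k x u ^ 2) *
      (bd L z.1 u q.1 q.2 0 * bd L z.1 u r.1 r.2 0)) = fun u => (6 * lam) *
      (bs4 L z.1 j k x u * ((1 / lam) * bs4 L z.1 j k x u) *
        (bd L z.1 u q.1 q.2 0 * bd L z.1 u r.1 r.2 0)) := by
    funext u
    unfold bs4
    field_simp
  rw [e1, ee_smul]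
  have m1 := bs4_mom μ hC0 h j k x
  rw [← hlam] at m1
  have m2 : ee μ L z (fun u => ((1 / lam) * bs4 L z.1 j k x u) ^ 4) ≤ 256 * C := by
    have e2 : (fun u : Zp d → Fin d → G => ((1 / lam) * bs4 L z.1 j k x u) ^ 4) =
        fun u => (1 / lam ^ 4) * bs4 L z.1 j k x u ^ 4 := by
      funext u; rw [mul_pow, _root_.one_div_pow]
    rw [e2, ee_smul]
    calc _ ≤ 1 / lam ^ 4 * (256 * C * lam ^ 4) := mul_le_mul_of_nonneg_left m1 (by positivity)
      _ = _ := by field_simp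
  have hC' : C ≤ 256 * C := by linarith
  have h2 := ee_four μ (L := L) (z := z) (X1 := fun u => bs4 L z.1 j k x u)
    (X2 := fun u => (1 / lam) * bs4 L z.1 j k x u)
    (X3 := fun u => bd L z.1 u q.1 q.2 0) (X4 := fun u => bd L z.1 u r.1 r.2 0) (bs4_cont _ _ _ _)
    (continuous_const.mul (bs4_cont _ _ _ _)) (bd_cont _ _ _ _) (bd_cont _ _ _ _) (C := 256 * C)
    hl1 m1 m2 ((h _ _ _).trans hC') ((h _ _ _).trans hC')
  rw [← hlam]
  calc _ ≤ (n:ℝ) ^ 3 * (6 * lam * (256 * C * lam)) := mul_le_mul_of_nonneg_left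
        (mul_le_mul_of_nonneg_left h2 (by positivity)) (by positivity)
    _ = _ := by ring

lemma rh_bd (hC : 1 ≤ C)
    (h : ∀ (j i : Fin d) (y : Zp d), ee μ L z (fun u => bd L z.1 u j i y ^ 4) ≤ C)
    (q r : Fin d × Fin d) (k : Fin d) (x : Zp d) :
    |pe μ L z q r (fun u α => rh L k x u α)| ≤ n ^ 3 * (2 * d * C) * ((l1 x : ℝ) + 1) := by
  have hC0 : 0 ≤ C := by linarith
  have cX : Continuous fun u : Zp d → Fin d → G =>
      ∑ j, 2 * (poa (dg L u) j (x - ez j) * dg L u k j (x - ez j)) :=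
    continuous_finsetSum _ fun j _ => continuous_const.mul ((poa_cont _ _).mul (dg_cont _ _ _))
  have h1 := pe_le μ (L := L) (z := z) (q := q) (r := r) (fun α => rh_cont (L := L) k x α)
    (X := fun u => ∑ j, 2 * (poa (dg L u) j (x - ez j) * dg L u k j (x - ez j))) cX
    (fun u α => rh_le _ _ _ _)
  refine h1.trans ?_
  obtain ⟨lam, hlam⟩ : ∃ lam : ℝ, lam = (l1 x : ℝ) + 1 := ⟨_, rfl⟩
  have hl1 : 1 ≤ lam := by
    rw [hlam]; have : (0:ℝ) ≤ l1 x := Nat.cast_nonneg _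
    linarith
  have e1 : (fun u : Zp d → Fin d → G => z.1 ^ 4 *
      (∑ j, 2 * (poa (dg L u) j (x - ez j) * dg L u k j (x - ez j))) *
      (bd L z.1 u q.1 q.2 0 * bd L z.1 u r.1 r.2 0)) = fun u => ∑ j, 2 *
      (bp L z.1 u j (x - ez j) * bd L z.1 u k j (x - ez j) *
        (bd L z.1 u q.1 q.2 0 * bd L z.1 u r.1 r.2 0)) := by
    funext u
    rw [Finset.mul_sum, Finset.sum_mul]
    refine Finset.sum_congr rfl fun j _ => ?_
    rw [bd_dg z.1 u k j (x - ez j)]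
    unfold bp
    ring
  have c2 : ∀ j, Continuous fun u : Zp d → Fin d → G => 2 *
      (bp L z.1 u j (x - ez j) * bd L z.1 u k j (x - ez j) *
        (bd L z.1 u q.1 q.2 0 * bd L z.1 u r.1 r.2 0)) := fun j =>
    continuous_const.mul (((bp_cont _ _ _).mul (bd_cont _ _ _ _)).mul
      ((bd_cont _ _ _ _).mul (bd_cont _ _ _ _)))
  rw [e1, ee_sum μ _ c2]
  have h2 : ∀ j : Fin d, ee μ L z (fun u => 2 *
      (bp L z.1 u j (x - ez j) * bd L z.1 u k j (x - ez j) *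
        (bd L z.1 u q.1 q.2 0 * bd L z.1 u r.1 r.2 0))) ≤ 2 * (C * lam) := by
    intro j
    rw [ee_smul]
    refine mul_le_mul_of_nonneg_left ?_ (by norm_num)
    refine ee_four μ (L := L) (z := z) (X1 := fun u => bp L z.1 u j (x - ez j))
      (X2 := fun u => bd L z.1 u k j (x - ez j))
      (X3 := fun u => bd L z.1 u q.1 q.2 0) (X4 := fun u => bd L z.1 u r.1 r.2 0)
      (bp_cont _ _ _) (bd_cont _ _ _ _) (bd_cont _ _ _ _) (bd_cont _ _ _ _) hl1 ?_ (h _ _ _)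
      (h _ _ _) (h _ _ _)
    rw [hlam]
    exact (bp_mom μ hC0 h j (x - ez j)).trans (lam_pow x hC0 (l1_pred_le _ _))
  rw [← hlam]
  calc _ ≤ (n:ℝ) ^ 3 * ∑ _j : Fin d, 2 * (C * lam) := mul_le_mul_of_nonneg_left
        (Finset.sum_le_sum fun j _ => h2 j) (by positivity)
    _ = _ := by rw [Finset.sum_const, Finset.card_univ, Fintype.card_fin, nsmul_eq_mul]; ring

lemma kap_bd (hC : 1 ≤ C)
    (h : ∀ (j i : Fin d) (y : Zp d), ee μ L z (fun u => bd L z.1 u j i y ^ 4) ≤ C)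
    (q r : Fin d × Fin d) (k : Fin d) (x : Zp d) :
    |z.1 ^ 4 * ee μ L z (fun u => kap L q r x k u)| ≤ 8 * n ^ 3 * C := by
  have c1 : Continuous fun u : Zp d → Fin d → G =>
      8 * (n:ℝ) ^ 3 * (dg L u q.1 q.2 0 * dg L u r.1 r.2 0) :=
    continuous_const.mul ((dg_cont _ _ _).mul (dg_cont _ _ _))
  rw [abs_mul, abs_of_nonneg (by positivity : (0:ℝ) ≤ z.1 ^ 4)]
  have h1 := ee_abs_le μ (L := L) (x := z) (kap_cont q r x k) c1 (fun u => kap_le q r x k u)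
  rw [ee_smul] at h1
  have h2 := ee_four μ (L := L) (z := z) (X1 := fun _ => 1) (X2 := fun _ => 1)
    (X3 := fun u => bd L z.1 u q.1 q.2 0) (X4 := fun u => bd L z.1 u r.1 r.2 0) continuous_const
    continuous_const (bd_cont _ _ _ _) (bd_cont _ _ _ _) (C := C) (le_refl (1:ℝ))
    (by rw [ee_const]; simpa using hC) (by rw [ee_const]; simpa using hC) (h _ _ _) (h _ _ _)
  have e1 : (fun u : Zp d → Fin d → G => (1:ℝ) * 1 * (bd L z.1 u q.1 q.2 0 * bd L z.1 u r.1 r.2 0)) =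
      fun u => z.1 ^ 4 * (dg L u q.1 q.2 0 * dg L u r.1 r.2 0) := by
    funext u; rw [bd_dg, bd_dg]; ring
  rw [e1, ee_smul, mul_one] at h2
  calc _ ≤ z.1 ^ 4 * (8 * (n:ℝ) ^ 3 * ee μ L z (fun u => dg L u q.1 q.2 0 * dg L u r.1 r.2 0)) :=
        mul_le_mul_of_nonneg_left h1 (by positivity)
    _ = 8 * (n:ℝ) ^ 3 * (z.1 ^ 4 * ee μ L z (fun u => dg L u q.1 q.2 0 * dg L u r.1 r.2 0)) := by
        ring
    _ ≤ _ := mul_le_mul_of_nonneg_left h2 (by positivity)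

end

end

end Pool.Agent.Y16.YM
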