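import Mathlib
import Pool.Agent.Y16.YM.Bnd3

/-!
# Negligible terms, comparison with the corner frame
-/

open MeasureTheory Matrix Filter
open scoped Matrix.Norms.Frobenius Topology
open Pool.Agent.H906R3.YM Pool.Agent.W793.YM Pool.Agent.TH940.YM
open Pool.Agent.W793.SCH (haf Near pk gK DD mx el TK S_B1 S_B2 S_TR S_W1 S_HAF green plaq_moment2)

namespace Pool.Agent.Y16.YM

set_option linter.unusedSectionVars false
set_option linter.unusedVariables false

noncomputable section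

variable {G : Type} [Group G] [TopologicalSpace G] [IsTopologicalGroup G] [CompactSpace G]
  [SecondCountableTopology G] [MeasurableSpace G] [BorelSpace G] (μ : Measure G)
  [IsProbabilityMeasure μ] [μ.IsMulLeftInvariant] [μ.IsMulRightInvariant] [μ.IsInvInvariant]
  {N n : ℕ} {L : LD G N n} {d : ℕ}

/-- the sites of a ball and two directions -/
def bal (d R : ℕ) : Finset (Zp d × Fin d × Fin d) :=
  (Fintype.piFinset fun _ => Finset.Icc (-(R : ℤ)) R) ×ˢ Finset.univ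

/-- the sum of the deviations in a ball -/
def SR (L : LD G N n) (R : ℕ) (u : Zp d → Fin d → G) : ℝ :=
  ∑ q ∈ bal d R, dv L (plz u q.1 q.2.1 q.2.2)

lemma SR_cont (R : ℕ) : Continuous fun u : Zp d → Fin d → G => SR L R u :=
  continuous_finsetSum _ fun q _ => dv_cont.comp (plz_cont _ _ _)

lemma SR_nonneg (R : ℕ) (u : Zp d → Fin d → G) : 0 ≤ SR L R u :=
  Finset.sum_nonneg fun q _ => dv_nonneg _

lemma le_SR {R : ℕ} (u : Zp d → Fin d → G) (j i : Fin d) {x : Zp d} (hx : ∀ i, |x i| ≤ R) :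
    dg L u j i x ≤ SR L R u := by
  rw [dg_eq]
  unfold SR
  refine Finset.single_le_sum (f := fun q : Zp d × Fin d × Fin d =>
    dv L (plz u q.1 q.2.1 q.2.2)) (fun q _ => dv_nonneg _) (a := (x, j, i)) ?_
  unfold bal
  simp only [Finset.mem_product, Fintype.mem_piFinset, Finset.mem_Icc, Finset.mem_univ, and_true]
  intro i
  exact abs_le.1 (hx i)

lemma poa_SR {R : ℕ} (u : Zp d → Fin d → G) (i : Fin d) {x : Zp d} (hx : ∀ i, |x i| ≤ R) :
    poa (dg L u) i x ≤ l1 x * SR L R u := by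
  rw [poa_eq]
  calc _ ≤ ∑ q ∈ stp i x, SR L R u := Finset.sum_le_sum fun q hq =>
        le_SR u _ _ fun k => (stp_cut hq k).trans (hx k)
    _ = (stp i x).card * SR L R u := by rw [Finset.sum_const, nsmul_eq_mul]
    _ ≤ _ := mul_le_mul_of_nonneg_right (stp_card i x) (SR_nonneg _ _)

lemma SR_mom (R r : ℕ) : ∃ C : ℝ, 0 < C ∧ ∀ z : ℝ × ℕ, 1 ≤ z.1 → 1 ≤ z.2 →
    ee μ L z (fun u : Zp d → Fin d → G => (z.1 ^ 2 * SR L R u) ^ (2 * (r + 1))) ≤ C * z.1 := by
  obtain ⟨C, hC, h⟩ := mom_hi μ (L := L) (d := d) r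
  refine ⟨((bal d R).card : ℝ) ^ (2 * r + 2) * C + 1, by positivity, fun z hz1 hz2 => ?_⟩
  have key : ∀ u : Zp d → Fin d → G, (z.1 ^ 2 * SR L R u) ^ (2 * (r + 1)) ≤
      ((bal d R).card : ℝ) ^ (2 * r + 1) * ∑ q ∈ bal d R,
        bd L z.1 u q.2.1 q.2.2 q.1 ^ (2 * (r + 1)) := by
    intro u
    have e1 : z.1 ^ 2 * SR L R u = ∑ q ∈ bal d R, bd L z.1 u q.2.1 q.2.2 q.1 := by
      unfold SR bd
      rw [Finset.mul_sum]
    rw [e1]
    exact pow_sum_le_card_mul_sum_pow (s := bal d R)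
      (f := fun q => bd L z.1 u q.2.1 q.2.2 q.1) (fun q _ => bd_nonneg _ _ _ _ _) (2 * r + 1)
  have c1 : ∀ q : Zp d × Fin d × Fin d, Continuous fun u : Zp d → Fin d → G =>
      bd L z.1 u q.2.1 q.2.2 q.1 ^ (2 * (r + 1)) := fun q => (bd_cont _ _ _ _).pow _
  have c2 : Continuous fun u : Zp d → Fin d → G => ((bal d R).card : ℝ) ^ (2 * r + 1) *
      ∑ q ∈ bal d R, bd L z.1 u q.2.1 q.2.2 q.1 ^ (2 * (r + 1)) :=
    continuous_const.mul (continuous_finsetSum _ fun q _ => c1 q)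
  have c3 : Continuous fun u : Zp d → Fin d → G => (z.1 ^ 2 * SR L R u) ^ (2 * (r + 1)) :=
    (continuous_const.mul (SR_cont R)).pow _
  refine (ee_mono μ c3 c2 key).trans ?_
  rw [ee_smul, ee_sum μ _ c1]
  have hz0 : 0 ≤ z.1 := by linarith
  calc _ ≤ ((bal d R).card : ℝ) ^ (2 * r + 1) * ∑ _q ∈ bal d R, C * z.1 :=
        mul_le_mul_of_nonneg_left (Finset.sum_le_sum fun q _ => h z hz1 hz2 _ _ _) (by positivity)
    _ = ((bal d R).card : ℝ) ^ (2 * r + 2) * C * z.1 := by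
        rw [Finset.sum_const, nsmul_eq_mul]; ring
    _ ≤ _ := by nlinarith

lemma inv_tendsto (C : ℝ) : Tendsto (fun z : ℝ × ℕ => (1 + C * z.1) / z.1 ^ 2) FB (𝓝 0) := by
  have h1 : Tendsto (fun b : ℝ => (1 + C * b) / b ^ 2) atTop (𝓝 0) := by
    have h2 : Tendsto (fun b : ℝ => 1 / b ^ 2 + C / b) atTop (𝓝 (0 + 0)) := by
      refine Tendsto.add ?_ ?_
      · exact tendsto_const_nhds.div_atTop (tendsto_pow_atTop (by norm_num))
      · exact tendsto_const_nhds.div_atTop tendsto_id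
    rw [add_zero] at h2
    refine h2.congr' ?_
    filter_upwards [eventually_gt_atTop 0] with b hb
    field_simp
  exact h1.comp FB_fst

lemma err_lim (R k : ℕ) : Tendsto (fun z : ℝ × ℕ => z.1 ^ (2 * (k * 2 + 1)) / z.1 ^ 2 *
    ee μ L z (fun u : Zp d → Fin d → G => SR L R u ^ (k * 2 + 1))) FB (𝓝 0) := by
  obtain ⟨C, hC, h⟩ := SR_mom μ (L := L) (d := d) R k
  refine squeeze_zero' ?_ ?_ (inv_tendsto C)
  · filter_upwards [FB_two] with z hz
    have := ee_nonneg μ (L := L) (x := z) (F := fun u : Zp d → Fin d → G =>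
      SR L R u ^ (k * 2 + 1)) fun u => pow_nonneg (SR_nonneg _ _) _
    have hz0 : 0 < z.1 := by linarith [hz.1]
    positivity
  · filter_upwards [FB_two] with z hz
    have hz0 : 0 < z.1 := by linarith [hz.1]
    have e1 : z.1 ^ (2 * (k * 2 + 1)) / z.1 ^ 2 *
        ee μ L z (fun u : Zp d → Fin d → G => SR L R u ^ (k * 2 + 1)) =
        ee μ L z (fun u : Zp d → Fin d → G => (z.1 ^ 2 * SR L R u) ^ (k * 2 + 1)) / z.1 ^ 2 := by
      have e2 : (fun u : Zp d → Fin d → G => (z.1 ^ 2 * SR L R u) ^ (k * 2 + 1)) = fun u =>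
          z.1 ^ (2 * (k * 2 + 1)) * SR L R u ^ (k * 2 + 1) := by
        funext u; rw [mul_pow, ← pow_mul]
      rw [e2, ee_smul]; ring
    rw [e1]
    refine div_le_div_of_nonneg_right ?_ (by positivity)
    have c1 : Continuous fun u : Zp d → Fin d → G => (z.1 ^ 2 * SR L R u) ^ (k * 2 + 1) :=
      (continuous_const.mul (SR_cont R)).pow _
    have c2 : Continuous fun u : Zp d → Fin d → G => (z.1 ^ 2 * SR L R u) ^ (2 * (k + 1)) :=
      (continuous_const.mul (SR_cont R)).pow _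
    have c3 : Continuous fun u : Zp d → Fin d → G => 1 + (z.1 ^ 2 * SR L R u) ^ (2 * (k + 1)) :=
      continuous_const.add c2
    refine (ee_mono μ c1 c3 fun u => ?_).trans ?_
    · obtain ⟨t, ht⟩ : ∃ t, t = z.1 ^ 2 * SR L R u := ⟨_, rfl⟩
      have ht0 : 0 ≤ t := by rw [ht]; exact mul_nonneg (sq_nonneg _) (SR_nonneg _ _)
      rw [← ht]
      have e3 : 2 * (k + 1) = (k * 2 + 1) + 1 := by ring
      rcases le_total t 1 with h1 | h1
      · have h2 : t ^ (k * 2 + 1) ≤ 1 := pow_le_one₀ ht0 h1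
        have h3 : 0 ≤ t ^ (2 * (k + 1)) := by positivity
        linarith
      · have h2 : t ^ (k * 2 + 1) ≤ t ^ (2 * (k + 1)) := pow_le_pow_right₀ h1 (by omega)
        linarith
    · rw [ee_add μ (F := fun _ => 1) continuous_const c2, ee_const]
      have := h z hz.1 hz.2
      linarith

lemma err5 (R : ℕ) : Tendsto (fun z : ℝ × ℕ => z.1 ^ 8 *
    ee μ L z (fun u : Zp d → Fin d → G => SR L R u ^ 5)) FB (𝓝 0) := by
  refine (err_lim μ (L := L) (d := d) R 2).congr' ?_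
  filter_upwards [FB_two] with z hz
  have hz0 : 0 < z.1 := by linarith [hz.1]
  have e : z.1 ^ (2 * (2 * 2 + 1)) / z.1 ^ 2 = z.1 ^ 8 := by
    field_simp
  rw [e]

lemma err3 (R : ℕ) : Tendsto (fun z : ℝ × ℕ => z.1 ^ 4 *
    ee μ L z (fun u : Zp d → Fin d → G => SR L R u ^ 3)) FB (𝓝 0) := by
  refine (err_lim μ (L := L) (d := d) R 1).congr' ?_
  filter_upwards [FB_two] with z hz
  have hz0 : 0 < z.1 := by linarith [hz.1]
  have e : z.1 ^ (2 * (1 * 2 + 1)) / z.1 ^ 2 = z.1 ^ 4 := by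
    field_simp
  rw [e]

/-- terms of the third order are negligible -/
lemma pe_negl {q r : Fin d × Fin d} {A : (Zp d → Fin d → G) → Fin n → ℝ}
    (hA : ∀ α, Continuous fun u => A u α) (R : ℕ) (K : ℝ)
    (h : ∀ u α, |A u α| ≤ K * SR L R u ^ 3) :
    Tendsto (fun z => pe μ L z q r A) FB (𝓝 0) := by
  have h1 : ∀ z : ℝ × ℕ, ‖pe μ L z q r A‖ ≤ n ^ 3 * |K| * (z.1 ^ 8 *
      ee μ L z (fun u : Zp d → Fin d → G => SR L R u ^ 5)) := by
    intro z
    rw [Real.norm_eq_abs]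
    have c1 : Continuous fun u : Zp d → Fin d → G => |K| * SR L R u ^ 3 :=
      continuous_const.mul ((SR_cont R).pow 3)
    refine (pe_le μ (X := fun u => |K| * SR L R u ^ 3) hA c1 fun u α => (h u α).trans
      (mul_le_mul_of_nonneg_right (le_abs_self _) (pow_nonneg (SR_nonneg _ _) _))).trans ?_
    have c2 : Continuous fun u : Zp d → Fin d → G => z.1 ^ 4 * (|K| * SR L R u ^ 3) *
        (bd L z.1 u q.1 q.2 0 * bd L z.1 u r.1 r.2 0) :=
      (continuous_const.mul c1).mul ((bd_cont _ _ _ _).mul (bd_cont _ _ _ _))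
    have c3 : Continuous fun u : Zp d → Fin d → G => |K| * (z.1 ^ 8 * SR L R u ^ 5) :=
      continuous_const.mul (continuous_const.mul ((SR_cont R).pow 5))
    have h2 : ∀ u : Zp d → Fin d → G, z.1 ^ 4 * (|K| * SR L R u ^ 3) *
        (bd L z.1 u q.1 q.2 0 * bd L z.1 u r.1 r.2 0) ≤ |K| * (z.1 ^ 8 * SR L R u ^ 5) := by
      intro u
      have h3 : ∀ q : Fin d × Fin d, bd L z.1 u q.1 q.2 0 ≤ z.1 ^ 2 * SR L R u := fun q => by
        rw [bd_dg]
        exact mul_le_mul_of_nonneg_left (le_SR u _ _ fun i => by simp) (sq_nonneg _)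
      have hS := SR_nonneg (L := L) R u
      have hK := abs_nonneg K
      calc _ ≤ z.1 ^ 4 * (|K| * SR L R u ^ 3) * ((z.1 ^ 2 * SR L R u) * (z.1 ^ 2 * SR L R u)) := by
            refine mul_le_mul_of_nonneg_left (mul_le_mul (h3 q) (h3 r) (bd_nonneg _ _ _ _ _)
              (by positivity)) (by positivity)
        _ = _ := by ring
    calc _ ≤ (n:ℝ) ^ 3 * ee μ L z (fun u => |K| * (z.1 ^ 8 * SR L R u ^ 5)) :=
          mul_le_mul_of_nonneg_left (ee_mono μ c2 c3 h2) (by positivity)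
      _ = _ := by rw [ee_smul, ee_smul]; ring
  refine squeeze_zero_norm h1 ?_
  have h2 := (err5 μ (L := L) (d := d) R).const_mul (n ^ 3 * |K|)
  rw [mul_zero] at h2
  exact h2

/-! ### the corner frame -/

section corner

variable {κ₀ : ℕ}

/-- the configuration seen from the base point -/
def ub (d κ₀ : ℕ) {l : ℕ} (b : ℝ) (U : Ed d l → G) : Zp d → Fin d → G :=
  fun y => uz U (y + bs d κ₀ b)

/-- the corner frame seen from the base point -/
def Rb (d κ₀ : ℕ) {l : ℕ} [NeZero l] (b : ℝ) (U : Ed d l → G) : Zp d → G :=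
  fun y => Pc U (zt l (y + bs d κ₀ b))

/-- the comparison of the frames -/
def Hb (d κ₀ : ℕ) {l : ℕ} [NeZero l] (b : ℝ) (U : Ed d l → G) (x : Zp d) : G :=
  Rb d κ₀ b U 0 * Pz (ub d κ₀ b U) x * (Rb d κ₀ b U x)⁻¹

lemma ee_ub (z : ℝ × ℕ) (F : (Zp d → Fin d → G) → ℝ) : ee μ L z F =
    EX μ L (z.1 ^ 4) (fun U : Ed d (2 * (z.2 + 1)) → G => F (ub d κ₀ z.1 U)) := by
  rw [← ee_tr μ (bs d κ₀ z.1) F]
  rfl

lemma Gz_ub {l : ℕ} [NeZero l] (b : ℝ) (U : Ed d l → G) (x : Zp d) (i j : Fin d) :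
    Rb d κ₀ b U 0 * Gz (ub d κ₀ b U) x i j * (Rb d κ₀ b U 0)⁻¹ =
      Hb d κ₀ b U x * Gc U (zt l (bs d κ₀ b + x)) i j * (Hb d κ₀ b U x)⁻¹ := by
  unfold Hb Gz Gc ub Rb
  rw [plz_tr, plqT_uz, add_comm x (bs d κ₀ b)]
  group

lemma Hb_zero {l : ℕ} [NeZero l] (b : ℝ) (U : Ed d l → G) : Hb d κ₀ b U 0 = 1 := by
  unfold Hb; rw [Pz_zero, mul_one, mul_inv_cancel]

lemma l1_coord (x : Zp d) (i : Fin d) : |x i| ≤ l1 x := by
  have h : (x i).natAbs ≤ l1 x :=
    Finset.single_le_sum (f := fun i => (x i).natAbs) (fun _ _ => Nat.zero_le _)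
      (Finset.mem_univ i)
  rw [Int.abs_eq_natAbs]
  exact_mod_cast h

lemma Hb_le (hκ : 1 ≤ κ₀) {z : ℝ × ℕ} {R : ℕ} (h12 : 12 ≤ aof (ex d κ₀) z.1)
    (hR : R ≤ aof (ex d κ₀) z.1) (hm : 2 * Kb d κ₀ z.1 ≤ z.2 + 1)
    (U : Ed d (2 * (z.2 + 1)) → G) {x : Zp d} (hx : l1 x ≤ R) :
    dv L (Hb d κ₀ z.1 U x) ≤ R * (d * (2 * Kb d κ₀ z.1 + 2 : ℕ) *
      sB L (2 * Kb d κ₀ z.1 + 2) U) := by
  have hK := Kb_ge (d := d) hκ z.1 h12
  have hs : 0 ≤ (d : ℝ) * (2 * Kb d κ₀ z.1 + 2 : ℕ) * sB L (2 * Kb d κ₀ z.1 + 2) U :=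
    mul_nonneg (by positivity) (sB_nonneg _ _)
  have h := dv_frame (L := L) (ub d κ₀ z.1 U) (Rb d κ₀ z.1 U) hs (m := R) (fun y hy j hj => by
    have e1 : Rb d κ₀ z.1 U y * ub d κ₀ z.1 U y j * (Rb d κ₀ z.1 U (y + ez j))⁻¹ =
        tlT U (zt _ (y + bs d κ₀ z.1)) j := by
      unfold Rb ub tlT uz
      rw [add_right_comm y (ez j), zt_add]
    rw [e1]
    have hb : ∀ i, 0 ≤ (y + bs d κ₀ z.1) i ∧ (y + bs d κ₀ z.1) i < 2 * (Kb d κ₀ z.1 : ℤ) + 2 := by
      intro i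
      have h1 := l1_coord y i
      rw [abs_le] at h1
      rw [Pi.add_apply]
      unfold bs
      constructor <;> omega
    have hw : ∀ i, ((wv (zt (2 * (z.2 + 1)) (y + bs d κ₀ z.1)) i : ℕ) : ℤ) =
        (y + bs d κ₀ z.1) i := wv_zt fun i => ⟨(hb i).1, by
          have := (hb i).2
          push_cast
          omega⟩
    refine dv_tlT U (fun i => ?_) ?_
    · have h1 := hw i
      have h2 := (hb i).2
      omega
    · have h1 := hw j
      have h2 := (hb j).2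
      omega) x hx
  refine h.trans (mul_le_mul_of_nonneg_right ?_ hs)
  exact_mod_cast hx

end corner

end

end Pool.Agent.Y16.YM
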