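import Mathlib
import Pool.Agent.Y16.YM.Lead

/-!
# The four point function to leading order
-/

open MeasureTheory Matrix Filter
open scoped Matrix.Norms.Frobenius Topology
open Pool.Agent.H906R3.YM Pool.Agent.W793.YM Pool.Agent.TH940.YM
open Pool.Agent.W793.SCH (haf Near pk gK DD mx el TK S_B1 S_B2 S_TR S_W1 S_HAF green plaq_moment2)

namespace Pool.Agent.Y16.YM

set_option linter.unusedSectionVars false
set_option linter.unusedVariables false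
set_option maxHeartbeats 400000

noncomputable section

variable {G : Type} [Group G] [TopologicalSpace G] [IsTopologicalGroup G] [CompactSpace G]
  [SecondCountableTopology G] [MeasurableSpace G] [BorelSpace G] (μ : Measure G)
  [IsProbabilityMeasure μ] [μ.IsMulLeftInvariant] [μ.IsMulRightInvariant] [μ.IsInvInvariant]
  {N n : ℕ} {L : LD G N n} {d : ℕ}

/-- the two point function of the lattice Maxwell field -/
def lm (p q : Fin d × Fin d) (x : Zp d) : ℝ := mcD (green d) [] p [] q x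

lemma S4_le {A B C D : Fin n → ℝ} {s1 s2 s3 s4 : ℝ} (h1 : ∀ a, |A a| ≤ s1) (h2 : ∀ a, |B a| ≤ s2)
    (h3 : ∀ a, |C a| ≤ s3) (h4 : ∀ a, |D a| ≤ s4) (hs1 : 0 ≤ s1) (hs2 : 0 ≤ s2) :
    |S4 L A B C D| ≤ n ^ 5 * (s1 * s2 * (s3 * s4)) := by
  unfold S4
  refine (Finset.abs_sum_le_sum_abs _ _).trans ?_
  calc ∑ c, |qd L A B c * qd L C D c| ≤ ∑ _c : Fin n, (n ^ 2 * (s1 * s2)) * (n ^ 2 * (s3 * s4)) :=
        Finset.sum_le_sum fun c _ => by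
          rw [abs_mul]
          exact mul_le_mul (qd_le h1 h2 c) (qd_le h3 h4 c) (abs_nonneg _) (by positivity)
    _ = _ := by rw [Finset.sum_const, Finset.card_univ, Fintype.card_fin, nsmul_eq_mul]; ring

lemma qd_sub_right (A B B' : Fin n → ℝ) (c : Fin n) :
    qd L A (fun a => B a - B' a) c = qd L A B c - qd L A B' c := by
  rw [qd_swap, qd_sub_left, qd_swap B A, qd_swap B' A]; ring

lemma S4_sub {A B C D A' B' C' D' : Fin n → ℝ} {s1 s2 s3 s4 h : ℝ} (hh0 : 0 ≤ h)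
    (p1 : 0 ≤ s1) (p2 : 0 ≤ s2) (p3 : 0 ≤ s3) (p4 : 0 ≤ s4)
    (h1 : ∀ a, |A a| ≤ s1) (h2 : ∀ a, |B a| ≤ s2) (h3 : ∀ a, |C a| ≤ s3) (h4 : ∀ a, |D a| ≤ s4)
    (h1' : ∀ a, |A' a| ≤ s1) (h2' : ∀ a, |B' a| ≤ s2) (h3' : ∀ a, |C' a| ≤ s3)
    (h4' : ∀ a, |D' a| ≤ s4)
    (d1 : ∀ a, |A a - A' a| ≤ h * s1) (d2 : ∀ a, |B a - B' a| ≤ h * s2)
    (d3 : ∀ a, |C a - C' a| ≤ h * s3) (d4 : ∀ a, |D a - D' a| ≤ h * s4) :
    |S4 L A B C D - S4 L A' B' C' D'| ≤ 4 * n ^ 5 * h * (s1 * s2 * (s3 * s4)) := by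
  have e : S4 L A B C D - S4 L A' B' C' D' = S4 L (fun a => A a - A' a) B C D +
      S4 L A' (fun a => B a - B' a) C D + S4 L A' B' (fun a => C a - C' a) D +
      S4 L A' B' C' (fun a => D a - D' a) := by
    unfold S4
    rw [← Finset.sum_add_distrib, ← Finset.sum_add_distrib, ← Finset.sum_add_distrib,
      ← Finset.sum_sub_distrib]
    refine Finset.sum_congr rfl fun c _ => ?_
    rw [qd_sub_left, qd_sub_left, qd_sub_right, qd_sub_right]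
    ring
  rw [e]
  have q1 := S4_le (L := L) d1 h2 h3 h4 (by positivity) p2
  have q2 := S4_le (L := L) h1' d2 h3 h4 p1 (by positivity)
  have q3 := S4_le (L := L) h1' h2' d3 h4 p1 p2
  have q4 := S4_le (L := L) h1' h2' h3' d4 p1 p2
  refine (abs_add_le _ _).trans ?_
  refine (add_le_add ((abs_add_le _ _).trans (add_le_add ((abs_add_le _ _).trans
    (add_le_add q1 q2)) q3)) q4).trans (le_of_eq ?_)
  ring

/-- the components in the corner frame -/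
def cK (L : LD G N n) (κ₀ : ℕ) {l : ℕ} [NeZero l] (b : ℝ) (x : Zp d) (p : Fin d × Fin d)
    (U : Ed d l → G) (a : Fin n) : ℝ := cc L a (Gc U (zt l (bs d κ₀ b + x)) p.1 p.2)

/-- the scaled deviation in the corner frame -/
def bK (L : LD G N n) (κ₀ : ℕ) {l : ℕ} [NeZero l] (b : ℝ) (x : Zp d) (p : Fin d × Fin d)
    (U : Ed d l → G) : ℝ := b ^ 2 * dv L (Gc U (zt l (bs d κ₀ b + x)) p.1 p.2)

lemma cK_cont {κ₀ l : ℕ} [NeZero l] (b : ℝ) (x : Zp d) (p : Fin d × Fin d) (a : Fin n) :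
    Continuous fun U : Ed d l → G => cK L κ₀ b x p U a := (cc_cont a).comp (Gc_cont _ _ _)

lemma bK_cont {κ₀ l : ℕ} [NeZero l] (b : ℝ) (x : Zp d) (p : Fin d × Fin d) :
    Continuous fun U : Ed d l → G => bK L κ₀ b x p U :=
  continuous_const.mul (dv_cont.comp (Gc_cont _ _ _))

lemma S4_cont {X : Type*} [TopologicalSpace X] {A B C D : X → Fin n → ℝ}
    (hA : ∀ a, Continuous fun x => A x a) (hB : ∀ a, Continuous fun x => B x a)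
    (hC : ∀ a, Continuous fun x => C x a) (hD : ∀ a, Continuous fun x => D x a) :
    Continuous fun x => S4 L (A x) (B x) (C x) (D x) := by
  unfold S4
  exact continuous_finsetSum _ fun c _ => (qd_cont hA hB c).mul (qd_cont hC hD c)

/-- the comparison of the frames -/
lemma S4_frame {κ₀ : ℕ} (hκ : 1 ≤ κ₀) {z : ℝ × ℕ} {R : ℕ} (h12 : 12 ≤ aof (ex d κ₀) z.1)
    (hR : R ≤ aof (ex d κ₀) z.1) (hm : 2 * Kb d κ₀ z.1 ≤ z.2 + 1)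
    (U : Ed d (2 * (z.2 + 1)) → G) (x : Fin 4 → Zp d) (p : Fin 4 → Fin d × Fin d)
    (hx : ∀ u, l1 (x u) ≤ R) :
    z.1 ^ 8 * |S4 L (fF L (p 0).1 (p 0).2 (x 0) (ub d κ₀ z.1 U))
      (fF L (p 1).1 (p 1).2 (x 1) (ub d κ₀ z.1 U)) (fF L (p 2).1 (p 2).2 (x 2) (ub d κ₀ z.1 U))
      (fF L (p 3).1 (p 3).2 (x 3) (ub d κ₀ z.1 U)) -
      S4 L (cK L κ₀ z.1 (x 0) (p 0) U) (cK L κ₀ z.1 (x 1) (p 1) U) (cK L κ₀ z.1 (x 2) (p 2) U)
        (cK L κ₀ z.1 (x 3) (p 3) U)| ≤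
      8 * n ^ 5 * (R * (d * (2 * Kb d κ₀ z.1 + 2 : ℕ) * sB L (2 * Kb d κ₀ z.1 + 2) U)) *
        (bK L κ₀ z.1 (x 0) (p 0) U * bK L κ₀ z.1 (x 1) (p 1) U *
        (bK L κ₀ z.1 (x 2) (p 2) U * bK L κ₀ z.1 (x 3) (p 3) U)) := by
  obtain ⟨h, hh⟩ : ∃ h, h = R * (d * ((2 * Kb d κ₀ z.1 + 2 : ℕ) : ℝ) *
    sB L (2 * Kb d κ₀ z.1 + 2) U) := ⟨_, rfl⟩
  have hh0 : 0 ≤ h := by
    rw [hh]; exact mul_nonneg (by positivity) (mul_nonneg (by positivity) (sB_nonneg _ _))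
  obtain ⟨ρ, hρ⟩ : ∃ ρ, ρ = Rb d κ₀ z.1 U 0 := ⟨_, rfl⟩
  obtain ⟨u, hu⟩ : ∃ u, u = ub d κ₀ z.1 U := ⟨_, rfl⟩
  have e1 : ∀ v : Fin 4, rot L ρ (fF L (p v).1 (p v).2 (x v) u) = fun a =>
      cc L a (Hb d κ₀ z.1 U (x v) * Gc U (zt _ (bs d κ₀ z.1 + x v)) (p v).1 (p v).2 *
        (Hb d κ₀ z.1 U (x v))⁻¹) := by
    intro v
    funext a
    rw [← Gz_ub, cc_rot, hρ, hu]
    rfl
  have e2 := S4_rot (L := L) ρ (fF L (p 0).1 (p 0).2 (x 0) u) (fF L (p 1).1 (p 1).2 (x 1) u)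
    (fF L (p 2).1 (p 2).2 (x 2) u) (fF L (p 3).1 (p 3).2 (x 3) u)
  rw [← hu, ← e2, e1, e1, e1, e1]
  obtain ⟨s, hs⟩ : ∃ s : Fin 4 → ℝ, s = fun v => dv L (Gc U (zt _ (bs d κ₀ z.1 + x v))
    (p v).1 (p v).2) := ⟨_, rfl⟩
  have hs0 : ∀ v, 0 ≤ s v := fun v => by rw [hs]; exact dv_nonneg _
  have a1 : ∀ v a, |cc L a (Hb d κ₀ z.1 U (x v) * Gc U (zt _ (bs d κ₀ z.1 + x v)) (p v).1 (p v).2 *
        (Hb d κ₀ z.1 U (x v))⁻¹)| ≤ s v := fun v a => by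
    refine (cc_le a _).trans ?_
    rw [dv_conj, hs]
  have a2 : ∀ v a, |cK L κ₀ z.1 (x v) (p v) U a| ≤ s v := fun v a => by
    rw [hs]; exact cc_le a _
  have a3 : ∀ v a, |cc L a (Hb d κ₀ z.1 U (x v) * Gc U (zt _ (bs d κ₀ z.1 + x v)) (p v).1 (p v).2 *
        (Hb d κ₀ z.1 U (x v))⁻¹) - cK L κ₀ z.1 (x v) (p v) U a| ≤ (2 * h) * s v := fun v a => by
    refine (conj1 a _ _).trans ?_
    have h1 := Hb_le (L := L) hκ h12 hR hm U (hx v)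
    rw [← hh] at h1
    have h2 : dv L (Gc U (zt _ (bs d κ₀ z.1 + x v)) (p v).1 (p v).2) = s v := by rw [hs]
    rw [h2]
    exact mul_le_mul_of_nonneg_right (by linarith) (hs0 v)
  have h1 := S4_sub (L := L) (h := 2 * h) (by positivity) (hs0 0) (hs0 1) (hs0 2) (hs0 3)
    (a1 0) (a1 1) (a1 2) (a1 3) (a2 0) (a2 1) (a2 2) (a2 3) (a3 0) (a3 1) (a3 2) (a3 3)
  calc _ ≤ z.1 ^ 8 * (4 * n ^ 5 * (2 * h) * (s 0 * s 1 * (s 2 * s 3))) :=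
        mul_le_mul_of_nonneg_left h1 (by positivity)
    _ = _ := by
        rw [← hh]
        unfold bK
        rw [hs]
        ring

lemma bK_mom (κ₀ : ℕ) : ∃ C : ℝ, 0 < C ∧ ∀ z : ℝ × ℕ, 1 ≤ z.1 → 1 ≤ z.2 → ∀ (x : Zp d)
    (p : Fin d × Fin d), EX μ L (z.1 ^ 4) (fun U : Ed d (2 * (z.2 + 1)) → G =>
      bK L κ₀ z.1 x p U ^ 8) ≤ C * z.1 := by
  obtain ⟨C, hC, h⟩ := mom_hi μ (L := L) (d := d) 3
  refine ⟨C, hC, fun z hz1 hz2 x p => ?_⟩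
  have h1 := h z hz1 hz2 p.1 p.2 x
  rw [ee_ub μ (κ₀ := κ₀)] at h1
  refine le_trans (le_of_eq ?_) h1
  congr 1
  funext U
  unfold bK bd ub Gc
  rw [plz_tr, dv_conj, plqT_uz, add_comm x]

/-- the error of the comparison -/
lemma frame_err {κ₀ : ℕ} (hκ : 1 ≤ κ₀) (hd : 1 ≤ d) (x : Fin 4 → Zp d)
    (p : Fin 4 → Fin d × Fin d) :
    Tendsto (fun z : ℝ × ℕ => ((2 * Kb d κ₀ z.1 + 2 : ℕ) : ℝ) *
      EX μ L (z.1 ^ 4) (fun U : Ed d (2 * (z.2 + 1)) → G => sB L (2 * Kb d κ₀ z.1 + 2) U *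
        (bK L κ₀ z.1 (x 0) (p 0) U * bK L κ₀ z.1 (x 1) (p 1) U *
        (bK L κ₀ z.1 (x 2) (p 2) U * bK L κ₀ z.1 (x 3) (p 3) U)))) FB (𝓝 0) := by
  obtain ⟨C1, hC1, h1⟩ := sB_mom μ (L := L) 0 1
  obtain ⟨C8, hC8, h8⟩ := bK_mom μ (L := L) (d := d) κ₀
  obtain ⟨K1, hK1⟩ : ∃ K1 : ℝ, K1 = (C1 * (d ^ 2) ^ 2 + C8) * (4 * 3 ^ (4 * κ₀)) ^ (d + 1) :=
    ⟨_, rfl⟩
  have he : 1 ≤ ex d κ₀ := by unfold ex; omega
  have hlim : Tendsto (fun z : ℝ × ℕ => K1 / (aof (ex d κ₀) z.1 : ℝ)) FB (𝓝 0) :=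
    tendsto_const_nhds.div_atTop (tendsto_natCast_atTop_atTop.comp
      ((aof_tendsto he).comp FB_fst))
  refine squeeze_zero' ?_ ?_ hlim
  · filter_upwards [FB_two] with z hz
    refine mul_nonneg (Nat.cast_nonneg _) (EX_nonneg μ fun U => ?_)
    have hb : ∀ v, 0 ≤ bK L κ₀ z.1 (x v) (p v) U := fun v =>
      mul_nonneg (sq_nonneg _) (dv_nonneg _)
    exact mul_nonneg (sB_nonneg _ _) (mul_nonneg (mul_nonneg (hb 0) (hb 1))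
      (mul_nonneg (hb 2) (hb 3)))
  · filter_upwards [FB_two, params (d := d) hκ 0] with z hz2 hz
    obtain ⟨hz1, h12, -, hab, hba, hm⟩ := hz
    have hz0 : 0 < z.1 := by linarith
    obtain ⟨M, hM⟩ : ∃ M, M = 2 * Kb d κ₀ z.1 + 2 := ⟨_, rfl⟩
    obtain ⟨q, hq⟩ : ∃ q : ℝ, q = (M : ℝ) ^ d := ⟨_, rfl⟩
    have hM1 : (1:ℝ) ≤ M := by
      have : 1 ≤ M := by omega
      exact_mod_cast this
    have hM0 : (0:ℝ) < M := by linarith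
    have hq0 : 0 < q := by rw [hq]; positivity
    rw [← hM]
    -- the pointwise bound
    have key : ∀ U : Ed d (2 * (z.2 + 1)) → G, sB L M U *
        (bK L κ₀ z.1 (x 0) (p 0) U * bK L κ₀ z.1 (x 1) (p 1) U *
        (bK L κ₀ z.1 (x 2) (p 2) U * bK L κ₀ z.1 (x 3) (p 3) U)) ≤
        (1 / z.1 ^ 2) * (1 / q * (z.1 ^ 2 * sB L M U) ^ (2 * (0 + 1)) +
          q * (bK L κ₀ z.1 (x 0) (p 0) U ^ 8 + (bK L κ₀ z.1 (x 1) (p 1) U ^ 8 +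
            (bK L κ₀ z.1 (x 2) (p 2) U ^ 8 + bK L κ₀ z.1 (x 3) (p 3) U ^ 8))) / 4) := by
      intro U
      obtain ⟨a0, ha0⟩ : ∃ a, a = bK L κ₀ z.1 (x 0) (p 0) U := ⟨_, rfl⟩
      obtain ⟨a1, ha1⟩ : ∃ a, a = bK L κ₀ z.1 (x 1) (p 1) U := ⟨_, rfl⟩
      obtain ⟨a2, ha2⟩ : ∃ a, a = bK L κ₀ z.1 (x 2) (p 2) U := ⟨_, rfl⟩
      obtain ⟨a3, ha3⟩ : ∃ a, a = bK L κ₀ z.1 (x 3) (p 3) U := ⟨_, rfl⟩
      obtain ⟨t, ht⟩ : ∃ t, t = z.1 ^ 2 * sB L M U := ⟨_, rfl⟩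
      obtain ⟨P, hP⟩ : ∃ P, P = a0 * a1 * (a2 * a3) := ⟨_, rfl⟩
      rw [← ha0, ← ha1, ← ha2, ← ha3, ← ht, ← hP]
      have e1 : sB L M U = t / z.1 ^ 2 := by rw [ht]; field_simp
      have e2 : P ^ 2 ≤ (a0 ^ 8 + (a1 ^ 8 + (a2 ^ 8 + a3 ^ 8))) / 4 := by
        have := amgm4 (a := a0 ^ 2) (b := a1 ^ 2) (c := a2 ^ 2) (e := a3 ^ 2)
        calc P ^ 2 = a0 ^ 2 * a1 ^ 2 * (a2 ^ 2 * a3 ^ 2) := by rw [hP]; ring
          _ ≤ _ := this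
          _ = _ := by ring
      have e3 : t * P ≤ 1 / q * t ^ 2 + q * P ^ 2 := by
        have h3 : 0 ≤ (t / q - P) ^ 2 := sq_nonneg _
        have h4 : 0 ≤ (t / q) ^ 2 + P ^ 2 := by positivity
        have h5 : t * P = q * (t / q * P) := by field_simp
        have h6 : 1 / q * t ^ 2 = q * (t / q) ^ 2 := by field_simp
        rw [h5, h6]
        nlinarith
      rw [e1]
      have e4 : t / z.1 ^ 2 * P = 1 / z.1 ^ 2 * (t * P) := by ring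
      rw [e4]
      refine mul_le_mul_of_nonneg_left ?_ (by positivity)
      have e5 : q * P ^ 2 ≤ q * (a0 ^ 8 + (a1 ^ 8 + (a2 ^ 8 + a3 ^ 8))) / 4 := by
        rw [mul_div_assoc]
        exact mul_le_mul_of_nonneg_left e2 hq0.le
      simp only [zero_add, mul_one]
      linarith
    have cs : Continuous fun U : Ed d (2 * (z.2 + 1)) → G => sB L M U := sB_cont M
    have cb : ∀ v : Fin 4, Continuous fun U : Ed d (2 * (z.2 + 1)) → G =>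
        bK L κ₀ z.1 (x v) (p v) U := fun v => bK_cont _ _ _
    have cb8 : ∀ v : Fin 4, Continuous fun U : Ed d (2 * (z.2 + 1)) → G =>
        bK L κ₀ z.1 (x v) (p v) U ^ 8 := fun v => (cb v).pow 8
    have cl : Continuous fun U : Ed d (2 * (z.2 + 1)) → G => sB L M U *
        (bK L κ₀ z.1 (x 0) (p 0) U * bK L κ₀ z.1 (x 1) (p 1) U *
        (bK L κ₀ z.1 (x 2) (p 2) U * bK L κ₀ z.1 (x 3) (p 3) U)) :=
      cs.mul (((cb 0).mul (cb 1)).mul ((cb 2).mul (cb 3)))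
    have c1 : Continuous fun U : Ed d (2 * (z.2 + 1)) → G =>
        1 / q * (z.1 ^ 2 * sB L M U) ^ (2 * (0 + 1)) :=
      continuous_const.mul ((continuous_const.mul cs).pow _)
    have c2 : Continuous fun U : Ed d (2 * (z.2 + 1)) → G =>
        bK L κ₀ z.1 (x 2) (p 2) U ^ 8 + bK L κ₀ z.1 (x 3) (p 3) U ^ 8 := (cb8 2).add (cb8 3)
    have c3 : Continuous fun U : Ed d (2 * (z.2 + 1)) → G => bK L κ₀ z.1 (x 1) (p 1) U ^ 8 +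
        (bK L κ₀ z.1 (x 2) (p 2) U ^ 8 + bK L κ₀ z.1 (x 3) (p 3) U ^ 8) := (cb8 1).add c2
    have c4 : Continuous fun U : Ed d (2 * (z.2 + 1)) → G => bK L κ₀ z.1 (x 0) (p 0) U ^ 8 +
        (bK L κ₀ z.1 (x 1) (p 1) U ^ 8 +
        (bK L κ₀ z.1 (x 2) (p 2) U ^ 8 + bK L κ₀ z.1 (x 3) (p 3) U ^ 8)) := (cb8 0).add c3
    have c5 : Continuous fun U : Ed d (2 * (z.2 + 1)) → G => q * (bK L κ₀ z.1 (x 0) (p 0) U ^ 8 +
        (bK L κ₀ z.1 (x 1) (p 1) U ^ 8 +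
        (bK L κ₀ z.1 (x 2) (p 2) U ^ 8 + bK L κ₀ z.1 (x 3) (p 3) U ^ 8))) / 4 :=
      (continuous_const.mul c4).div_const _
    have c6 : Continuous fun U : Ed d (2 * (z.2 + 1)) → G =>
        (1 / z.1 ^ 2) * (1 / q * (z.1 ^ 2 * sB L M U) ^ (2 * (0 + 1)) +
          q * (bK L κ₀ z.1 (x 0) (p 0) U ^ 8 + (bK L κ₀ z.1 (x 1) (p 1) U ^ 8 +
            (bK L κ₀ z.1 (x 2) (p 2) U ^ 8 + bK L κ₀ z.1 (x 3) (p 3) U ^ 8))) / 4) :=
      continuous_const.mul (c1.add c5)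
    have m1 := EX_mono μ (L := L) (β := z.1 ^ 4) cl c6 key
    have e6 : (fun U : Ed d (2 * (z.2 + 1)) → G => q * (bK L κ₀ z.1 (x 0) (p 0) U ^ 8 +
        (bK L κ₀ z.1 (x 1) (p 1) U ^ 8 +
        (bK L κ₀ z.1 (x 2) (p 2) U ^ 8 + bK L κ₀ z.1 (x 3) (p 3) U ^ 8))) / 4) = fun U =>
        (q / 4) * (bK L κ₀ z.1 (x 0) (p 0) U ^ 8 +
        (bK L κ₀ z.1 (x 1) (p 1) U ^ 8 +
        (bK L κ₀ z.1 (x 2) (p 2) U ^ 8 + bK L κ₀ z.1 (x 3) (p 3) U ^ 8))) := by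
      funext U; ring
    rw [EX_smul, EX_add μ c1 c5, EX_smul, e6, EX_smul, EX_add μ (cb8 0) c3, EX_add μ (cb8 1) c2,
      EX_add μ (cb8 2) (cb8 3)] at m1
    have k1 := h1 z.1 hz1 z.1 hz1 (by rw [pow_one]; linarith) d (z.2 + 1) (by omega) M
    have k0 := h8 z hz1 hz2.2 (x 0) (p 0)
    have k2 := h8 z hz1 hz2.2 (x 1) (p 1)
    have k3 := h8 z hz1 hz2.2 (x 2) (p 2)
    have k4 := h8 z hz1 hz2.2 (x 3) (p 3)
    have k5 : 1 / q * EX μ L (z.1 ^ 4) (fun U : Ed d (2 * (z.2 + 1)) → G =>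
        (z.1 ^ 2 * sB L M U) ^ (2 * (0 + 1))) ≤ C1 * (d ^ 2) ^ 2 * q * z.1 := by
      calc _ ≤ 1 / q * (C1 * ((M : ℝ) ^ d * d ^ 2) ^ (2 * (0 + 1)) * z.1) :=
            mul_le_mul_of_nonneg_left k1 (by positivity)
        _ = _ := by
          rw [← hq]
          field_simp
          ring
    have k6 : q / 4 * (EX μ L (z.1 ^ 4) (fun U : Ed d (2 * (z.2 + 1)) → G =>
        bK L κ₀ z.1 (x 0) (p 0) U ^ 8) + (EX μ L (z.1 ^ 4) (fun U : Ed d (2 * (z.2 + 1)) → G =>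
        bK L κ₀ z.1 (x 1) (p 1) U ^ 8) + (EX μ L (z.1 ^ 4) (fun U : Ed d (2 * (z.2 + 1)) → G =>
        bK L κ₀ z.1 (x 2) (p 2) U ^ 8) + EX μ L (z.1 ^ 4) (fun U : Ed d (2 * (z.2 + 1)) → G =>
        bK L κ₀ z.1 (x 3) (p 3) U ^ 8)))) ≤ q * (C8 * z.1) := by
      calc _ ≤ q / 4 * (C8 * z.1 + (C8 * z.1 + (C8 * z.1 + C8 * z.1))) :=
            mul_le_mul_of_nonneg_left (by linarith) (by positivity)
        _ = _ := by ring
    have k7 : EX μ L (z.1 ^ 4) (fun U : Ed d (2 * (z.2 + 1)) → G => sB L M U *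
        (bK L κ₀ z.1 (x 0) (p 0) U * bK L κ₀ z.1 (x 1) (p 1) U *
        (bK L κ₀ z.1 (x 2) (p 2) U * bK L κ₀ z.1 (x 3) (p 3) U))) ≤
        (C1 * (d ^ 2) ^ 2 + C8) * q / z.1 := by
      refine m1.trans ?_
      calc _ ≤ 1 / z.1 ^ 2 * (C1 * (d ^ 2) ^ 2 * q * z.1 + q * (C8 * z.1)) :=
            mul_le_mul_of_nonneg_left (add_le_add k5 k6) (by positivity)
        _ = _ := by field_simp
    -- the size of the box
    obtain ⟨a, ha⟩ : ∃ a, a = aof (ex d κ₀) z.1 := ⟨_, rfl⟩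
    have hK := Kb_ge (d := d) hκ z.1 h12
    rw [← ha] at hab h12 hK ⊢
    have ha1 : (1:ℝ) ≤ a := by
      have : 1 ≤ a := by omega
      exact_mod_cast this
    have hM4 : (M:ℝ) ≤ 4 * 3 ^ (4 * κ₀) * a ^ (4 * κ₀) := by
      have e1 : M ≤ 4 * Kb d κ₀ z.1 := by omega
      have e2 : ((Kb d κ₀ z.1 : ℕ) : ℝ) = 3 ^ (4 * κ₀) * a ^ (4 * κ₀) := by
        unfold Kb
        rw [← ha]; push_cast; rw [mul_pow]
      calc (M:ℝ) ≤ ((4 * Kb d κ₀ z.1 : ℕ) : ℝ) := by exact_mod_cast e1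
        _ = _ := by push_cast; rw [e2]; ring
    have hMd : (M:ℝ) * q ≤ (4 * 3 ^ (4 * κ₀)) ^ (d + 1) * a ^ (4 * κ₀ * (d + 1)) := by
      calc (M:ℝ) * q = (M:ℝ) ^ (d + 1) := by rw [hq, pow_succ]; ring
        _ ≤ (4 * 3 ^ (4 * κ₀) * (a:ℝ) ^ (4 * κ₀)) ^ (d + 1) :=
            pow_le_pow_left₀ (by positivity) hM4 _
        _ = _ := by rw [mul_pow, ← pow_mul (a:ℝ)]
    have hab' : (a:ℝ) ^ (4 * κ₀ * (d + 1)) * a ≤ z.1 := by
      refine le_trans ?_ hab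
      rw [← pow_succ]
      refine pow_le_pow_right₀ ha1 ?_
      unfold ex
      have : 4 * κ₀ * (d + 1) ≤ 4 * κ₀ * (2 * d + 3) := Nat.mul_le_mul_left _ (by omega)
      omega
    calc (M:ℝ) * EX μ L (z.1 ^ 4) (fun U : Ed d (2 * (z.2 + 1)) → G => sB L M U *
        (bK L κ₀ z.1 (x 0) (p 0) U * bK L κ₀ z.1 (x 1) (p 1) U *
        (bK L κ₀ z.1 (x 2) (p 2) U * bK L κ₀ z.1 (x 3) (p 3) U))) ≤
        M * ((C1 * (d ^ 2) ^ 2 + C8) * q / z.1) := mul_le_mul_of_nonneg_left k7 hM0.le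
      _ = (C1 * (d ^ 2) ^ 2 + C8) * (M * q) / z.1 := by ring
      _ ≤ (C1 * (d ^ 2) ^ 2 + C8) * ((4 * 3 ^ (4 * κ₀)) ^ (d + 1) * a ^ (4 * κ₀ * (d + 1))) /
          z.1 := by gcongr
      _ = K1 * a ^ (4 * κ₀ * (d + 1)) / z.1 := by rw [hK1]; ring
      _ ≤ K1 / a := by
          rw [div_le_div_iff₀ hz0 (by linarith)]
          have hK10 : 0 ≤ K1 := by rw [hK1]; positivity
          calc K1 * (a:ℝ) ^ (4 * κ₀ * (d + 1)) * a = K1 * ((a:ℝ) ^ (4 * κ₀ * (d + 1)) * a) := by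
                ring
            _ ≤ K1 * z.1 := mul_le_mul_of_nonneg_left hab' hK10

end

end Pool.Agent.Y16.YM
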