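import Mathlib
import Pool.Agent.Y16.YM.Lead2

/-!
# The limits of the invariants
-/

open MeasureTheory Matrix Filter
open scoped Matrix.Norms.Frobenius Topology
open Pool.Agent.H906R3.YM Pool.Agent.W793.YM Pool.Agent.TH940.YM
open Pool.Agent.W793.SCH (haf Near pk gK DD mx el TK S_B1 S_B2 S_TR S_W1 S_HAF green plaq_moment2)

namespace Pool.Agent.Y16.YM

set_option linter.unusedSectionVars false
set_option linter.unusedVariables false
set_option maxHeartbeats 400000

noncomputable section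

variable {G : Type} [Group G] [TopologicalSpace G] [IsTopologicalGroup G] [CompactSpace G]
  [SecondCountableTopology G] [MeasurableSpace G] [BorelSpace G] (μ : Measure G)
  [IsProbabilityMeasure μ] [μ.IsMulLeftInvariant] [μ.IsMulRightInvariant] [μ.IsInvInvariant]
  {N n : ℕ} {L : LD G N n} {d : ℕ}

/-- the invariant of the components in the corner frame -/
def SK (L : LD G N n) (κ₀ : ℕ) {l : ℕ} [NeZero l] (b : ℝ) (x : Fin 4 → Zp d)
    (p : Fin 4 → Fin d × Fin d) (U : Ed d l → G) : ℝ :=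
  S4 L (cK L κ₀ b (x 0) (p 0) U) (cK L κ₀ b (x 1) (p 1) U) (cK L κ₀ b (x 2) (p 2) U)
        (cK L κ₀ b (x 3) (p 3) U)

/-- the invariant of the field strengths -/
def SF (L : LD G N n) (x : Fin 4 → Zp d) (p : Fin 4 → Fin d × Fin d) (u : Zp d → Fin d → G) : ℝ :=
  S4 L (fF L (p 0).1 (p 0).2 (x 0) u) (fF L (p 1).1 (p 1).2 (x 1) u)
    (fF L (p 2).1 (p 2).2 (x 2) u) (fF L (p 3).1 (p 3).2 (x 3) u)

lemma SK_cont {κ₀ l : ℕ} [NeZero l] (b : ℝ) (x : Fin 4 → Zp d) (p : Fin 4 → Fin d × Fin d) :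
    Continuous fun U : Ed d l → G => SK L κ₀ b x p U :=
  S4_cont (fun a => cK_cont _ _ _ _) (fun a => cK_cont _ _ _ _) (fun a => cK_cont _ _ _ _)
    (fun a => cK_cont _ _ _ _)

lemma SF_cont (x : Fin 4 → Zp d) (p : Fin 4 → Fin d × Fin d) :
    Continuous fun u : Zp d → Fin d → G => SF L x p u :=
  S4_cont (fun a => fF_cont _ _ _ _) (fun a => fF_cont _ _ _ _) (fun a => fF_cont _ _ _ _)
    (fun a => fF_cont _ _ _ _)

lemma S4_expand (A B C D : Fin n → ℝ) : S4 L A B C D =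
    ∑ α, ∑ a, ∑ b, ∑ c, ∑ e, hh L α a b * hh L α c e * (A a * B b * (C c * D e)) := by
  unfold S4 qd
  refine Finset.sum_congr rfl fun α _ => ?_
  rw [Finset.sum_mul]
  refine Finset.sum_congr rfl fun a _ => ?_
  rw [Finset.sum_mul]
  refine Finset.sum_congr rfl fun b _ => ?_
  rw [Finset.mul_sum]
  refine Finset.sum_congr rfl fun c _ => ?_
  rw [Finset.mul_sum]
  exact Finset.sum_congr rfl fun e _ => by ring

lemma P4_four (κ₀ : ℕ) (z : ℝ × ℕ) (x : Fin 4 → Zp d) (p : Fin 4 → Fin d × Fin d)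
    (a b c e : Fin n) (U : Ed d (2 * (z.2 + 1)) → G) :
    P4 L κ₀ z x p ![a, b, c, e] (List.finRange 4) U = z.1 ^ 8 *
      (cK L κ₀ z.1 (x 0) (p 0) U a * cK L κ₀ z.1 (x 1) (p 1) U b *
        (cK L κ₀ z.1 (x 2) (p 2) U c * cK L κ₀ z.1 (x 3) (p 3) U e)) := by
  have h : List.finRange 4 = [0, 1, 2, 3] := by decide
  unfold P4 cK
  rw [h]
  simp only [List.map_cons, List.map_nil, List.prod_cons, List.prod_nil]
  simp only [Matrix.cons_val_zero, Matrix.cons_val_one, Matrix.cons_val]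
  ring

lemma P4_two (κ₀ : ℕ) (z : ℝ × ℕ) (x : Fin 4 → Zp d) (p : Fin 4 → Fin d × Fin d)
    (a b : Fin n) (U : Ed d (2 * (z.2 + 1)) → G) :
    P4 L κ₀ z x p ![a, b, a, b] [0, 1] U = z.1 ^ 4 *
      (cK L κ₀ z.1 (x 0) (p 0) U a * cK L κ₀ z.1 (x 1) (p 1) U b) := by
  unfold P4 cK
  simp only [List.map_cons, List.map_nil, List.prod_cons, List.prod_nil]
  simp only [Matrix.cons_val_zero, Matrix.cons_val_one, Matrix.cons_val]
  ring

lemma P4_cont (κ₀ : ℕ) (z : ℝ × ℕ) (x : Fin 4 → Zp d) (p : Fin 4 → Fin d × Fin d)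
    (c : Fin 4 → Fin n) (l : List (Fin 4)) :
    Continuous fun U : Ed d (2 * (z.2 + 1)) → G => P4 L κ₀ z x p c l U := by
  unfold P4
  induction l with
  | nil => simp only [List.map_nil, List.prod_nil]; exact continuous_const
  | cons a l ih =>
    simp only [List.map_cons, List.prod_cons]
    exact (continuous_const.mul ((cc_cont _).comp (Gc_cont _ _ _))).mul ih

/-- the moments in the corner frame -/
theorem corner_lim (hd : 3 ≤ d) (hB : S_B2) (hT : S_TR) (hW : S_W1) (hH : S_HAF) :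
    ∃ κ₀ : ℕ, 1 ≤ κ₀ ∧ ∀ (x : Fin 4 → Zp d) (p : Fin 4 → Fin d × Fin d),
      (∀ u, (p u).1 ≠ (p u).2) → ∀ (c : Fin 4 → Fin n) (l : List (Fin 4)), l.Nodup →
      Tendsto (fun z => EX μ L (z.1 ^ 4) (P4 L κ₀ z x p c l)) FB
        (𝓝 (haf (fun u v => if c u = c v then lm (p u) (p v) (x u - x v) else 0) l)) := by
  obtain ⟨κ₀, C, B, hκ, hC, hB', h⟩ := fourL μ (L := L) hd hB hT hW hH
  refine ⟨κ₀, hκ, fun x p hp c l hl => ?_⟩
  have he : 1 ≤ ex d κ₀ := by unfold ex; omega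
  have hlim : Tendsto (fun z : ℝ × ℕ => C / (aof (ex d κ₀) z.1 : ℝ)) FB (𝓝 0) :=
    tendsto_const_nhds.div_atTop (tendsto_natCast_atTop_atTop.comp
      ((aof_tendsto he).comp FB_fst))
  rw [tendsto_iff_norm_sub_tendsto_zero]
  refine squeeze_zero' (Filter.Eventually.of_forall fun z => norm_nonneg _) ?_ hlim
  filter_upwards [h (∑ u, l1 (x u))] with z hz
  have h1 := (hz x (fun u i => (l1_coord (x u) i).trans (by
    have := Finset.single_le_sum (f := fun u => l1 (x u)) (fun _ _ => Nat.zero_le _)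
      (Finset.mem_univ u)
    exact_mod_cast this)) p hp c l hl).1
  rw [Real.norm_eq_abs]
  exact h1

/-- **The four point invariant to leading order.** -/
theorem s4_lim (hd : 3 ≤ d) (hB : S_B2) (hT : S_TR) (hW : S_W1) (hH : S_HAF)
    (x : Fin 4 → Zp d) (p : Fin 4 → Fin d × Fin d) (hp : ∀ u, (p u).1 ≠ (p u).2) :
    Tendsto (fun z => z.1 ^ 8 * ee μ L z (fun u : Zp d → Fin d → G => SF L x p u)) FB
      (𝓝 (cG L * (lm (p 0) (p 2) (x 0 - x 2) * lm (p 1) (p 3) (x 1 - x 3) -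
        lm (p 0) (p 3) (x 0 - x 3) * lm (p 1) (p 2) (x 1 - x 2)))) := by
  obtain ⟨κ₀, hκ, h⟩ := corner_lim μ (L := L) hd hB hT hW hH
  obtain ⟨R, hR⟩ : ∃ R, R = ∑ u, l1 (x u) := ⟨_, rfl⟩
  have hx : ∀ u, l1 (x u) ≤ R := fun u => by
    rw [hR]
    exact Finset.single_le_sum (f := fun u => l1 (x u)) (fun _ _ => Nat.zero_le _)
      (Finset.mem_univ u)
  -- the limit in the corner frame
  have hK : Tendsto (fun z => z.1 ^ 8 * EX μ L (z.1 ^ 4) (fun U : Ed d (2 * (z.2 + 1)) → G =>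
      SK L κ₀ z.1 x p U)) FB (𝓝 (cG L * (lm (p 0) (p 2) (x 0 - x 2) * lm (p 1) (p 3) (x 1 - x 3) -
        lm (p 0) (p 3) (x 0 - x 3) * lm (p 1) (p 2) (x 1 - x 2)))) := by
    have e0 := colour4 (L := L) (fun u v => lm (p u) (p v) (x u - x v))
    rw [← e0]
    have e1 : (fun z : ℝ × ℕ => z.1 ^ 8 * EX μ L (z.1 ^ 4)
        (fun U : Ed d (2 * (z.2 + 1)) → G => SK L κ₀ z.1 x p U)) = fun z =>
        ∑ α, ∑ a, ∑ b, ∑ c, ∑ e, hh L α a b * hh L α c e *
          EX μ L (z.1 ^ 4) (P4 L κ₀ z x p ![a, b, c, e] (List.finRange 4)) := by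
      funext z
      have e2 : (fun U : Ed d (2 * (z.2 + 1)) → G => z.1 ^ 8 * SK L κ₀ z.1 x p U) = fun U =>
          ∑ α, ∑ a, ∑ b, ∑ c, ∑ e, hh L α a b * hh L α c e *
            P4 L κ₀ z x p ![a, b, c, e] (List.finRange 4) U := by
        funext U
        unfold SK
        rw [S4_expand, Finset.mul_sum]
        refine Finset.sum_congr rfl fun α _ => ?_
        rw [Finset.mul_sum]
        refine Finset.sum_congr rfl fun a _ => ?_
        rw [Finset.mul_sum]
        refine Finset.sum_congr rfl fun b _ => ?_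
        rw [Finset.mul_sum]
        refine Finset.sum_congr rfl fun c _ => ?_
        rw [Finset.mul_sum]
        refine Finset.sum_congr rfl fun e _ => ?_
        rw [P4_four]; ring
      rw [← EX_smul, e2]
      have c5 : ∀ α a b c e : Fin n, Continuous fun U : Ed d (2 * (z.2 + 1)) → G =>
          hh L α a b * hh L α c e * P4 L κ₀ z x p ![a, b, c, e] (List.finRange 4) U :=
        fun α a b c e => continuous_const.mul (P4_cont _ _ _ _ _ _)
      have c4 : ∀ α a b c : Fin n, Continuous fun U : Ed d (2 * (z.2 + 1)) → G =>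
          ∑ e, hh L α a b * hh L α c e * P4 L κ₀ z x p ![a, b, c, e] (List.finRange 4) U :=
        fun α a b c => continuous_finsetSum _ fun e _ => c5 α a b c e
      have c3 : ∀ α a b : Fin n, Continuous fun U : Ed d (2 * (z.2 + 1)) → G =>
          ∑ c, ∑ e, hh L α a b * hh L α c e *
            P4 L κ₀ z x p ![a, b, c, e] (List.finRange 4) U :=
        fun α a b => continuous_finsetSum _ fun c _ => c4 α a b c
      have c2 : ∀ α a : Fin n, Continuous fun U : Ed d (2 * (z.2 + 1)) → G =>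
          ∑ b, ∑ c, ∑ e, hh L α a b * hh L α c e *
            P4 L κ₀ z x p ![a, b, c, e] (List.finRange 4) U :=
        fun α a => continuous_finsetSum _ fun b _ => c3 α a b
      have c1 : ∀ α : Fin n, Continuous fun U : Ed d (2 * (z.2 + 1)) → G =>
          ∑ a, ∑ b, ∑ c, ∑ e, hh L α a b * hh L α c e *
            P4 L κ₀ z x p ![a, b, c, e] (List.finRange 4) U :=
        fun α => continuous_finsetSum _ fun a _ => c2 α a
      rw [EX_sum μ _ fun α _ => c1 α]
      refine Finset.sum_congr rfl fun α _ => ?_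
      rw [EX_sum μ _ fun a _ => c2 α a]
      refine Finset.sum_congr rfl fun a _ => ?_
      rw [EX_sum μ _ fun b _ => c3 α a b]
      refine Finset.sum_congr rfl fun b _ => ?_
      rw [EX_sum μ _ fun c _ => c4 α a b c]
      refine Finset.sum_congr rfl fun c _ => ?_
      rw [EX_sum μ _ fun e _ => c5 α a b c e]
      refine Finset.sum_congr rfl fun e _ => ?_
      rw [EX_smul]
    rw [e1]
    exact tendsto_finsetSum _ fun α _ => tendsto_finsetSum _ fun a _ =>
      tendsto_finsetSum _ fun b _ => tendsto_finsetSum _ fun c _ =>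
      tendsto_finsetSum _ fun e _ => (h x p hp _ _ (List.nodup_finRange 4)).const_mul _
  -- the difference
  have hD : Tendsto (fun z => z.1 ^ 8 * ee μ L z (fun u : Zp d → Fin d → G => SF L x p u) -
      z.1 ^ 8 * EX μ L (z.1 ^ 4) (fun U : Ed d (2 * (z.2 + 1)) → G =>
      SK L κ₀ z.1 x p U)) FB (𝓝 0) := by
    have hE := (frame_err μ (L := L) hκ (by omega) x p).const_mul (8 * (n:ℝ) ^ 5 * (R * d))
    rw [mul_zero] at hE
    refine squeeze_zero_norm' ?_ hE
    filter_upwards [params (d := d) hκ R] with z hz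
    obtain ⟨hz1, h12, hRa, hab, hba, hm⟩ := hz
    rw [ee_ub μ (κ₀ := κ₀), ← EX_smul, ← EX_smul]
    have cU : Continuous fun U : Ed d (2 * (z.2 + 1)) → G => ub d κ₀ z.1 U :=
      continuous_pi fun y => (continuous_apply _).comp uz_cont
    have c1 : Continuous fun U : Ed d (2 * (z.2 + 1)) → G => z.1 ^ 8 * SF L x p (ub d κ₀ z.1 U) :=
      continuous_const.mul ((SF_cont x p).comp cU)
    have c2 : Continuous fun U : Ed d (2 * (z.2 + 1)) → G => z.1 ^ 8 * SK L κ₀ z.1 x p U :=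
      continuous_const.mul (SK_cont _ _ _)
    rw [Real.norm_eq_abs]
    refine (EX_close μ c1 c2).trans ?_
    have c3 : Continuous fun U : Ed d (2 * (z.2 + 1)) → G =>
        (8 * (n:ℝ) ^ 5 * (R * d) * ((2 * Kb d κ₀ z.1 + 2 : ℕ) : ℝ)) *
          (sB L (2 * Kb d κ₀ z.1 + 2) U *
          (bK L κ₀ z.1 (x 0) (p 0) U * bK L κ₀ z.1 (x 1) (p 1) U *
          (bK L κ₀ z.1 (x 2) (p 2) U * bK L κ₀ z.1 (x 3) (p 3) U))) :=
      continuous_const.mul ((sB_cont _).mul (((bK_cont _ _ _).mul (bK_cont _ _ _)).mul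
        ((bK_cont _ _ _).mul (bK_cont _ _ _))))
    refine (EX_mono μ (c1.sub c2).abs c3 fun U => ?_).trans (le_of_eq ?_)
    · have h1 := S4_frame (L := L) hκ h12 hRa hm U x p hx
      have e3 : |z.1 ^ 8 * SF L x p (ub d κ₀ z.1 U) - z.1 ^ 8 * SK L κ₀ z.1 x p U| =
          z.1 ^ 8 * |SF L x p (ub d κ₀ z.1 U) - SK L κ₀ z.1 x p U| := by
        rw [← mul_sub, abs_mul, abs_of_nonneg (by positivity : (0:ℝ) ≤ z.1 ^ 8)]
      show |z.1 ^ 8 * SF L x p (ub d κ₀ z.1 U) - z.1 ^ 8 * SK L κ₀ z.1 x p U| ≤ _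
      rw [e3]
      refine h1.trans (le_of_eq ?_)
      ring
    · rw [EX_smul]; ring
  have := hK.add hD
  rw [add_zero] at this
  refine this.congr fun z => ?_
  ring

lemma T2_expand (A B : Fin n → ℝ) : T2 L A B =
    ∑ α, ∑ β, ∑ γ, ∑ γ', hh L α β γ * hh L α β γ' * (A γ * B γ') := by
  unfold T2
  refine Finset.sum_congr rfl fun α _ => Finset.sum_congr rfl fun β _ => ?_
  rw [Finset.sum_mul]
  refine Finset.sum_congr rfl fun γ _ => ?_
  rw [Finset.mul_sum]
  exact Finset.sum_congr rfl fun γ' _ => by ring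

lemma T2_cont {X : Type*} [TopologicalSpace X] {A B : X → Fin n → ℝ}
    (hA : ∀ a, Continuous fun x => A x a) (hB : ∀ a, Continuous fun x => B x a) :
    Continuous fun x => T2 L (A x) (B x) := by
  unfold T2
  exact continuous_finsetSum _ fun α _ => continuous_finsetSum _ fun β _ =>
    (continuous_finsetSum _ fun γ _ => continuous_const.mul (hA γ)).mul
      (continuous_finsetSum _ fun γ _ => continuous_const.mul (hB γ))

/-- **The two point invariant to leading order.** -/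
theorem t2_lim (hd : 3 ≤ d) (hB : S_B2) (hT : S_TR) (hW : S_W1) (hH : S_HAF)
    {q r : Fin d × Fin d} (hq : q.1 ≠ q.2) (hr : r.1 ≠ r.2) :
    Tendsto (fun z => z.1 ^ 4 * ee μ L z (fun u : Zp d → Fin d → G =>
      T2 L (F0 L q u) (F0 L r u))) FB (𝓝 (cG L * lm q r 0)) := by
  obtain ⟨κ₀, hκ, h⟩ := corner_lim μ (L := L) hd hB hT hW hH
  have hp : ∀ u, ((![q, r, q, r] : Fin 4 → Fin d × Fin d) u).1 ≠
      ((![q, r, q, r] : Fin 4 → Fin d × Fin d) u).2 := by
    intro u
    fin_cases u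
    · exact hq
    · exact hr
    · exact hq
    · exact hr
  have e0 := colour2 (L := L) (lm q r 0)
  rw [← e0]
  have e1 : (fun z : ℝ × ℕ => z.1 ^ 4 * ee μ L z (fun u : Zp d → Fin d → G =>
      T2 L (F0 L q u) (F0 L r u))) = fun z => ∑ α, ∑ β, ∑ γ, ∑ γ', hh L α β γ * hh L α β γ' *
        EX μ L (z.1 ^ 4) (P4 L κ₀ z (fun _ => 0) ![q, r, q, r] ![γ, γ', γ, γ'] [0, 1]) := by
    funext z
    rw [ee_ub μ (κ₀ := κ₀), ← EX_smul]
    have e2 : (fun U : Ed d (2 * (z.2 + 1)) → G => z.1 ^ 4 *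
        T2 L (F0 L q (ub d κ₀ z.1 U)) (F0 L r (ub d κ₀ z.1 U))) = fun U =>
        ∑ α, ∑ β, ∑ γ, ∑ γ', hh L α β γ * hh L α β γ' *
          P4 L κ₀ z (fun _ => 0) ![q, r, q, r] ![γ, γ', γ, γ'] [0, 1] U := by
      funext U
      obtain ⟨ρ, hρ⟩ : ∃ ρ, ρ = Rb d κ₀ z.1 U 0 := ⟨_, rfl⟩
      have e3 : ∀ q : Fin d × Fin d, rot L ρ (F0 L q (ub d κ₀ z.1 U)) =
          cK L κ₀ z.1 0 q U := by
        intro q
        funext a
        have e4 := Gz_ub (d := d) (κ₀ := κ₀) z.1 U 0 q.1 q.2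
        rw [Hb_zero, one_mul, inv_one, mul_one] at e4
        unfold cK
        rw [← e4, cc_rot, hρ]
        rfl
      rw [← T2_rot (L := L) ρ, e3, e3, T2_expand, Finset.mul_sum]
      refine Finset.sum_congr rfl fun α _ => ?_
      rw [Finset.mul_sum]
      refine Finset.sum_congr rfl fun β _ => ?_
      rw [Finset.mul_sum]
      refine Finset.sum_congr rfl fun γ _ => ?_
      rw [Finset.mul_sum]
      refine Finset.sum_congr rfl fun γ' _ => ?_
      rw [P4_two]
      simp only [Matrix.cons_val_zero, Matrix.cons_val_one]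
      ring
    rw [e2]
    have c4 : ∀ α β γ γ' : Fin n, Continuous fun U : Ed d (2 * (z.2 + 1)) → G =>
        hh L α β γ * hh L α β γ' *
          P4 L κ₀ z (fun _ => 0) ![q, r, q, r] ![γ, γ', γ, γ'] [0, 1] U :=
      fun α β γ γ' => continuous_const.mul (P4_cont _ _ _ _ _ _)
    have c3 : ∀ α β γ : Fin n, Continuous fun U : Ed d (2 * (z.2 + 1)) → G =>
        ∑ γ', hh L α β γ * hh L α β γ' *
          P4 L κ₀ z (fun _ => 0) ![q, r, q, r] ![γ, γ', γ, γ'] [0, 1] U :=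
      fun α β γ => continuous_finsetSum _ fun γ' _ => c4 α β γ γ'
    have c2 : ∀ α β : Fin n, Continuous fun U : Ed d (2 * (z.2 + 1)) → G =>
        ∑ γ, ∑ γ', hh L α β γ * hh L α β γ' *
          P4 L κ₀ z (fun _ => 0) ![q, r, q, r] ![γ, γ', γ, γ'] [0, 1] U :=
      fun α β => continuous_finsetSum _ fun γ _ => c3 α β γ
    have c1 : ∀ α : Fin n, Continuous fun U : Ed d (2 * (z.2 + 1)) → G =>
        ∑ β, ∑ γ, ∑ γ', hh L α β γ * hh L α β γ' *
          P4 L κ₀ z (fun _ => 0) ![q, r, q, r] ![γ, γ', γ, γ'] [0, 1] U :=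
      fun α => continuous_finsetSum _ fun β _ => c2 α β
    rw [EX_sum μ _ fun α _ => c1 α]
    refine Finset.sum_congr rfl fun α _ => ?_
    rw [EX_sum μ _ fun β _ => c2 α β]
    refine Finset.sum_congr rfl fun β _ => ?_
    rw [EX_sum μ _ fun γ _ => c3 α β γ]
    refine Finset.sum_congr rfl fun γ _ => ?_
    rw [EX_sum μ _ fun γ' _ => c4 α β γ γ']
    refine Finset.sum_congr rfl fun γ' _ => ?_
    rw [EX_smul]
  rw [e1]
  refine tendsto_finsetSum _ fun α _ => tendsto_finsetSum _ fun β _ =>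
      tendsto_finsetSum _ fun γ _ => tendsto_finsetSum _ fun γ' _ => Tendsto.const_mul _ ?_
  have h1 := h (fun _ => 0) ![q, r, q, r] hp ![γ, γ', γ, γ'] [0, 1] (by decide)
  rw [haf2] at h1
  simp only [Matrix.cons_val_zero, Matrix.cons_val_one, sub_zero] at h1
  exact h1

end

end Pool.Agent.Y16.YM
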