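import Mathlib
import Pool.Agent.Y16.YM.Lead3

/-!
# The limits of the second order terms
-/

open MeasureTheory Matrix Filter
open scoped Matrix.Norms.Frobenius Topology
open Pool.Agent.H906R3.YM Pool.Agent.W793.YM Pool.Agent.TH940.YM
open Pool.Agent.W793.SCH (haf Near pk gK DD mx el TK S_B1 S_B2 S_TR S_W1 S_HAF green plaq_moment2)

namespace Pool.Agent.Y16.YM

set_option linter.unusedSectionVars false
set_option linter.unusedVariables false
set_option maxHeartbeats 400000

noncomputable section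

variable {G : Type} [Group G] [TopologicalSpace G] [IsTopologicalGroup G] [CompactSpace G]
  [SecondCountableTopology G] [MeasurableSpace G] [BorelSpace G] (μ : Measure G)
  [IsProbabilityMeasure μ] [μ.IsMulLeftInvariant] [μ.IsMulRightInvariant] [μ.IsInvInvariant]
  {N n : ℕ} {L : LD G N n} {d : ℕ}

/-- linear combinations of the field strengths and their covariances with the field strength at the
origin -/
inductive LF (L : LD G N n) (d : ℕ) :
    ((Zp d → Fin d → G) → Fin n → ℝ) → (Fin d × Fin d → ℝ) → Prop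
  | base (j i : Fin d) (x : Zp d) (h : j ≠ i) : LF L d (fun u => fF L j i x u)
      (fun q => lm (j, i) q x)
  | zero : LF L d (fun _ _ => 0) (fun _ => 0)
  | add {A B : (Zp d → Fin d → G) → Fin n → ℝ} {a b : Fin d × Fin d → ℝ} (hA : LF L d A a)
      (hB : LF L d B b) : LF L d (fun u α => A u α + B u α) (fun q => a q + b q)
  | smul (c : ℝ) {A : (Zp d → Fin d → G) → Fin n → ℝ} {a : Fin d × Fin d → ℝ} (hA : LF L d A a) :
      LF L d (fun u α => c * A u α) (fun q => c * a q)

lemma LF.cont {A : (Zp d → Fin d → G) → Fin n → ℝ} {a : Fin d × Fin d → ℝ} (h : LF L d A a) :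
    ∀ α, Continuous fun u => A u α := by
  induction h with
  | base j i x h => exact fun α => fF_cont _ _ _ _
  | zero => exact fun α => continuous_const
  | add hA hB ihA ihB => exact fun α => (ihA α).add (ihB α)
  | smul c hA ih => exact fun α => continuous_const.mul (ih α)

lemma LF.sum {ι : Type*} (s : Finset ι) {A : ι → (Zp d → Fin d → G) → Fin n → ℝ}
    {a : ι → Fin d × Fin d → ℝ} (h : ∀ i ∈ s, LF L d (A i) (a i)) :
    LF L d (fun u α => ∑ i ∈ s, A i u α) (fun q => ∑ i ∈ s, a i q) := by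
  classical
  induction s using Finset.induction_on with
  | empty => simp only [Finset.sum_empty]; exact LF.zero
  | insert i s hi ih =>
    simp only [Finset.sum_insert hi]
    exact (h i (Finset.mem_insert_self _ _)).add (ih fun j hj => h j (Finset.mem_insert_of_mem hj))

/-- the covariance determinant -/
def dt (a b : Fin d × Fin d → ℝ) (q r : Fin d × Fin d) : ℝ := a q * b r - a r * b q

lemma pe_base (hd : 3 ≤ d) (hB : S_B2) (hT : S_TR) (hW : S_W1) (hH : S_HAF)
    {q r : Fin d × Fin d} (hq : q.1 ≠ q.2) (hr : r.1 ≠ r.2) {j i j' i' : Fin d} (h : j ≠ i)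
    (h' : j' ≠ i') (x x' : Zp d) :
    Tendsto (fun z => pe μ L z q r (fun u => qd L (fF L j i x u) (fF L j' i' x' u))) FB
      (𝓝 (cG L * dt (fun q => lm (j, i) q x) (fun q => lm (j', i') q x') q r)) := by
  have h1 := s4_lim μ (L := L) hd hB hT hW hH ![x, x', 0, 0] ![(j, i), (j', i'), q, r] (by
    intro u
    fin_cases u
    · exact h
    · exact h'
    · exact hq
    · exact hr)
  have e2 : cG L * (lm ((![(j, i), (j', i'), q, r] : Fin 4 → Fin d × Fin d) 0)
      ((![(j, i), (j', i'), q, r] : Fin 4 → Fin d × Fin d) 2)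
      ((![x, x', 0, 0] : Fin 4 → Zp d) 0 - (![x, x', 0, 0] : Fin 4 → Zp d) 2) *
      lm ((![(j, i), (j', i'), q, r] : Fin 4 → Fin d × Fin d) 1)
      ((![(j, i), (j', i'), q, r] : Fin 4 → Fin d × Fin d) 3)
      ((![x, x', 0, 0] : Fin 4 → Zp d) 1 - (![x, x', 0, 0] : Fin 4 → Zp d) 3) -
      lm ((![(j, i), (j', i'), q, r] : Fin 4 → Fin d × Fin d) 0)
      ((![(j, i), (j', i'), q, r] : Fin 4 → Fin d × Fin d) 3)
      ((![x, x', 0, 0] : Fin 4 → Zp d) 0 - (![x, x', 0, 0] : Fin 4 → Zp d) 3) *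
      lm ((![(j, i), (j', i'), q, r] : Fin 4 → Fin d × Fin d) 1)
      ((![(j, i), (j', i'), q, r] : Fin 4 → Fin d × Fin d) 2)
      ((![x, x', 0, 0] : Fin 4 → Zp d) 1 - (![x, x', 0, 0] : Fin 4 → Zp d) 2)) =
      cG L * dt (fun q => lm (j, i) q x) (fun q => lm (j', i') q x') q r := by
    show cG L * (lm (j, i) q (x - 0) * lm (j', i') r (x' - 0) - lm (j, i) r (x - 0) *
      lm (j', i') q (x' - 0)) = _
    rw [sub_zero, sub_zero]
    rfl
  rw [e2] at h1
  exact h1

theorem pe_LF (hd : 3 ≤ d) (hB : S_B2) (hT : S_TR) (hW : S_W1) (hH : S_HAF)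
    {q r : Fin d × Fin d} (hq : q.1 ≠ q.2) (hr : r.1 ≠ r.2)
    {A B : (Zp d → Fin d → G) → Fin n → ℝ} {a b : Fin d × Fin d → ℝ} (hA : LF L d A a)
    (hB' : LF L d B b) :
    Tendsto (fun z => pe μ L z q r (fun u => qd L (A u) (B u))) FB
      (𝓝 (cG L * dt a b q r)) := by
  induction hA with
  | zero =>
    have e : ∀ z, pe μ L z q r (fun u => qd L (fun _ => 0) (B u)) = 0 := by
      intro z
      have : (fun u : Zp d → Fin d → G => qd L (fun _ => 0) (B u)) = fun _ _ => 0 := by
        funext u α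
        unfold qd; simp
      rw [this]
      exact pe_zero μ
    simp only [e]
    have e2 : dt (fun _ => 0) b q r = 0 := by unfold dt; ring
    rw [e2, mul_zero]
    exact tendsto_const_nhds
  | add hA hA' ih ih' =>
    rename_i A A' a a'
    have e : ∀ z, pe μ L z q r (fun u => qd L (fun α => A u α + A' u α) (B u)) =
        pe μ L z q r (fun u => qd L (A u) (B u)) + pe μ L z q r (fun u => qd L (A' u) (B u)) := by
      intro z
      have : (fun u : Zp d → Fin d → G => qd L (fun α => A u α + A' u α) (B u)) =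
          fun u α => qd L (A u) (B u) α + qd L (A' u) (B u) α := by
        funext u α
        exact qd_add_left _ _ _ _
      rw [this]
      exact pe_add μ (fun α => qd_cont hA.cont hB'.cont α) (fun α => qd_cont hA'.cont hB'.cont α)
    simp only [e]
    have e2 : cG L * dt (fun q => a q + a' q) b q r = cG L * dt a b q r + cG L * dt a' b q r := by
      unfold dt; ring
    rw [e2]
    exact ih.add ih'
  | smul c hA ih =>
    rename_i A a
    have e : ∀ z, pe μ L z q r (fun u => qd L (fun α => c * A u α) (B u)) =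
        c * pe μ L z q r (fun u => qd L (A u) (B u)) := by
      intro z
      have : (fun u : Zp d → Fin d → G => qd L (fun α => c * A u α) (B u)) =
          fun u α => c * qd L (A u) (B u) α := by
        funext u α
        exact qd_smul_left _ _ _ _
      rw [this]
      exact pe_smul μ c _
    simp only [e]
    have e2 : cG L * dt (fun q => c * a q) b q r = c * (cG L * dt a b q r) := by
      unfold dt; ring
    rw [e2]
    exact ih.const_mul c
  | base j i x h =>
    induction hB' with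
    | base j' i' x' h' => exact pe_base μ hd hB hT hW hH hq hr h h' x x'
    | zero =>
      have e : ∀ z, pe μ L z q r (fun u => qd L (fF L j i x u) (fun _ => 0)) = 0 := by
        intro z
        have : (fun u : Zp d → Fin d → G => qd L (fF L j i x u) (fun _ => 0)) = fun _ _ => 0 := by
          funext u α
          unfold qd; simp
        rw [this]
        exact pe_zero μ
      simp only [e]
      have e2 : dt (fun q => lm (j, i) q x) (fun _ => 0) q r = 0 := by unfold dt; ring
      rw [e2, mul_zero]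
      exact tendsto_const_nhds
    | add hA hA' ih ih' =>
      rename_i A A' a a'
      have e : ∀ z, pe μ L z q r (fun u => qd L (fF L j i x u) (fun α => A u α + A' u α)) =
          pe μ L z q r (fun u => qd L (fF L j i x u) (A u)) +
            pe μ L z q r (fun u => qd L (fF L j i x u) (A' u)) := by
        intro z
        have : (fun u : Zp d → Fin d → G => qd L (fF L j i x u) (fun α => A u α + A' u α)) =
            fun u α => qd L (fF L j i x u) (A u) α + qd L (fF L j i x u) (A' u) α := by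
          funext u α
          exact qd_add_right _ _ _ _
        rw [this]
        exact pe_add μ (fun α => qd_cont (fun α => fF_cont _ _ _ _) hA.cont α)
          (fun α => qd_cont (fun α => fF_cont _ _ _ _) hA'.cont α)
      simp only [e]
      have e2 : cG L * dt (fun q => lm (j, i) q x) (fun q => a q + a' q) q r =
          cG L * dt (fun q => lm (j, i) q x) a q r + cG L * dt (fun q => lm (j, i) q x) a' q r := by
        unfold dt; ring
      rw [e2]
      exact ih.add ih'
    | smul c hA ih =>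
      rename_i A a
      have e : ∀ z, pe μ L z q r (fun u => qd L (fF L j i x u) (fun α => c * A u α)) =
          c * pe μ L z q r (fun u => qd L (fF L j i x u) (A u)) := by
        intro z
        have : (fun u : Zp d → Fin d → G => qd L (fF L j i x u) (fun α => c * A u α)) =
            fun u α => c * qd L (fF L j i x u) (A u) α := by
          funext u α
          exact qd_smul_right _ _ _ _
        rw [this]
        exact pe_smul μ c _
      simp only [e]
      have e2 : cG L * dt (fun q => lm (j, i) q x) (fun q => c * a q) q r =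
          c * (cG L * dt (fun q => lm (j, i) q x) a q r) := by
        unfold dt; ring
      rw [e2]
      exact ih.const_mul c

/-- the potential to first order -/
def pm (L : LD G N n) (i : Fin d) (x : Zp d) (u : Zp d → Fin d → G) (α : Fin n) : ℝ :=
  pot (cg L u α) i x

/-- the potential of the covariance -/
def pl (i : Fin d) (x : Zp d) (q : Fin d × Fin d) : ℝ := pot (fun j i y => lm (j, i) q y) i x

lemma pm_LF (i : Fin d) (x : Zp d) : LF L d (pm L i x) (pl i x) := by
  have e1 : pm L i x = fun (u : Zp d → Fin d → G) α => ∑ q ∈ stp i x,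
      (if 0 ≤ q.2 then (1:ℝ) else -1) * fF L q.1 i (cut x q.1 q.2) u α := by
    funext u α
    unfold pm
    rw [pot_eq]
    rfl
  have e2 : pl i x = fun q' => ∑ q ∈ stp i x,
      (if 0 ≤ q.2 then (1:ℝ) else -1) * lm (q.1, i) q' (cut x q.1 q.2) := by
    funext q'
    unfold pl
    rw [pot_eq]
  rw [e1, e2]
  exact LF.sum (stp i x) fun q hq => LF.smul _ (LF.base q.1 i _ (stp_l1 hq).1.ne')

lemma pm_cont (i : Fin d) (x : Zp d) (α : Fin n) :
    Continuous fun u : Zp d → Fin d → G => pm L i x u α := (pm_LF i x).cont α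

section bounds

variable {Q : ℕ} {x : Zp d}

lemma l1_le_coord (h : l1 x ≤ Q) (i : Fin d) : |x i| ≤ Q := (l1_coord x i).trans (by exact_mod_cast h)

lemma poa_Q (h : l1 x ≤ Q) (u : Zp d → Fin d → G) (i : Fin d) :
    poa (dg L u) i x ≤ Q * SR L Q u := by
  refine (poa_SR u i fun k => l1_le_coord h k).trans ?_
  exact mul_le_mul_of_nonneg_right (by exact_mod_cast h) (SR_nonneg _ _)

lemma am_Q (h : l1 x ≤ Q) (u : Zp d → Fin d → G) (i : Fin d) (α : Fin n) :
    |am L i x u α| ≤ Q * SR L Q u :=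
  (cc_le _ _).trans ((dv_Vz u x i).trans (poa_Q h u i))

lemma pm_Q (h : l1 x ≤ Q) (u : Zp d → Fin d → G) (i : Fin d) (α : Fin n) :
    |pm L i x u α| ≤ Q * SR L Q u := by
  unfold pm
  refine (pot_le (SR_nonneg Q u) i x fun j z hj hz => ?_).trans
    (mul_le_mul_of_nonneg_right (by exact_mod_cast h) (SR_nonneg _ _))
  exact (cc_le _ _).trans (le_SR u j i fun k => l1_le_coord (hz.trans h) k)

lemma am_pm (h : l1 x ≤ Q) (u : Zp d → Fin d → G) (i : Fin d) (α : Fin n) :
    |am L i x u α - pm L i x u α| ≤ (Q * SR L Q u) ^ 2 := by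
  refine (cc_Vz u α x i).trans ?_
  exact pow_le_pow_left₀ (poa_nonneg (fun _ _ _ => dg_nonneg _ _ _ _) _ _) (poa_Q h u i) 2

lemma qd_err {A A' B B' : Fin n → ℝ} {s e f : ℝ} (hA : ∀ a, |A a| ≤ s) (hB' : ∀ a, |B' a| ≤ s)
    (h1 : ∀ a, |A a - A' a| ≤ e) (h2 : ∀ a, |B a - B' a| ≤ f) (c : Fin n) :
    |qd L A B c - qd L A' B' c| ≤ n ^ 2 * (s * f) + n ^ 2 * (e * s) := by
  have e1 : qd L A B c - qd L A' B' c = qd L A (fun a => B a - B' a) c +
      qd L (fun a => A a - A' a) B' c := by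
    rw [qd_sub_right, qd_sub_left]; ring
  rw [e1]
  exact (abs_add_le _ _).trans (add_le_add (qd_le hA h2 c) (qd_le h1 hB' c))

lemma qd_am_pm {y : Zp d} (hx : l1 x ≤ Q) (hy : l1 y ≤ Q) (u : Zp d → Fin d → G) (i i' : Fin d)
    (α : Fin n) : |qd L (am L i x u) (am L i' y u) α - qd L (pm L i x u) (pm L i' y u) α| ≤
      2 * n ^ 2 * (Q * SR L Q u) ^ 3 := by
  refine (qd_err (am_Q hx u i) (pm_Q hy u i') (am_pm hx u i) (am_pm hy u i') α).trans
    (le_of_eq ?_)
  ring

end bounds

/-- the products of the components around a plaquette -/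
def w4t (a1 a2 a3 a4 : Fin d × Fin d → ℝ) (q r : Fin d × Fin d) : ℝ :=
  dt a1 a2 q r - dt a1 a3 q r - dt a1 a4 q r - dt a2 a3 q r - dt a2 a4 q r + dt a3 a4 q r

/-- the limit of the second order part of the field strength -/
def omL (j k : Fin d) (x : Zp d) (q r : Fin d × Fin d) : ℝ :=
  w4t (pl j x) (pl k (x + ez j)) (pl j (x + ez k)) (pl k x) q r

/-- the limit of the second order part of the current -/
def rhL (k : Fin d) (x : Zp d) (q r : Fin d × Fin d) : ℝ :=
  ∑ j, 2 * dt (pl j (x - ez j)) (fun q => lm (k, j) q (x - ez j)) q r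

/-- the limit of the contact term -/
def kaL (k : Fin d) (x : Zp d) (q r : Fin d × Fin d) : ℝ :=
  ((sp r x k + sm r x k) - (sp q x k + sm q x k)) * lm q r 0

lemma pe_split {q r : Fin d × Fin d} {A B : (Zp d → Fin d → G) → Fin n → ℝ}
    (hA : ∀ α, Continuous fun u => A u α) (hB : ∀ α, Continuous fun u => B u α) (R : ℕ) (K : ℝ)
    (h : ∀ u α, |A u α - B u α| ≤ K * SR L R u ^ 3) {y : ℝ}
    (hlim : Tendsto (fun z => pe μ L z q r B) FB (𝓝 y)) :
    Tendsto (fun z => pe μ L z q r A) FB (𝓝 y) := by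
  have h1 := pe_negl μ (q := q) (r := r) (A := fun u α => A u α - B u α)
    (fun α => (hA α).sub (hB α)) R K h
  have h2 := h1.add hlim
  rw [zero_add] at h2
  refine h2.congr fun z => ?_
  rw [pe_sub μ hA hB]; ring

theorem om_lim {CT : ℝ} (hTg : Tg L CT) (hd : 3 ≤ d) (hB : S_B2) (hT : S_TR) (hW : S_W1)
    (hH : S_HAF) {q r : Fin d × Fin d} (hq : q.1 ≠ q.2) (hr : r.1 ≠ r.2) (j k : Fin d)
    (x : Zp d) : Tendsto (fun z => pe μ L z q r (om L j k x)) FB
      (𝓝 (cG L * omL j k x q r)) := by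
  have hCT := hTg.1
  obtain ⟨Q, hQ⟩ : ∃ Q : ℕ, Q = l1 x + 1 := ⟨_, rfl⟩
  have q1 : l1 x ≤ Q := by omega
  have q2 : l1 (x + ez j) ≤ Q := by have := l1_succ_le x j; omega
  have q3 : l1 (x + ez k) ≤ Q := by have := l1_succ_le x k; omega
  have hc : ∀ (i i' : Fin d) (y y' : Zp d) (α : Fin n), Continuous fun u : Zp d → Fin d → G =>
      qd L (pm L i y u) (pm L i' y' u) α := fun i i' y y' α =>
    qd_cont (fun a => pm_cont i y a) (fun a => pm_cont i' y' a) α
  refine pe_split μ (om_cont j k x) (B := fun u α => w4 L (pm L j x u) (pm L k (x + ez j) u)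
    (pm L j (x + ez k) u) (pm L k x u) α) (fun α => ?_) Q
    (((4 + 12 * ((n + 1) * CT)) * (4 * Q) ^ 3 + 12 * n ^ 2 * Q ^ 3)) (fun u α => ?_) ?_
  · unfold w4
    exact (((((hc _ _ _ _ _).sub (hc _ _ _ _ _)).sub (hc _ _ _ _ _)).sub (hc _ _ _ _ _)).sub
      (hc _ _ _ _ _)).add (hc _ _ _ _ _)
  · obtain ⟨h1, h2, h3, h4⟩ := s4_links (L := L) j k x u
    have h := plq2 hTg α h1 h2 h3 h4
    rw [← Gz_eq] at h
    have hS := SR_nonneg (L := L) Q u
    have hs4 : s4 L j k x u ≤ 4 * Q * SR L Q u := by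
      unfold s4
      have p1 := poa_Q (L := L) q1 u j
      have p2 := poa_Q (L := L) q2 u k
      have p3 := poa_Q (L := L) q3 u j
      have p4 := poa_Q (L := L) q1 u k
      linarith
    have hs3 : s4 L j k x u ^ 3 ≤ (4 * Q * SR L Q u) ^ 3 :=
      pow_le_pow_left₀ (s4_nonneg _ _ _ _) hs4 3
    have e12 := qd_am_pm (L := L) q1 q2 u j k α
    have e13 := qd_am_pm (L := L) q1 q3 u j j α
    have e14 := qd_am_pm (L := L) q1 q1 u j k α
    have e23 := qd_am_pm (L := L) q2 q3 u k j α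
    have e24 := qd_am_pm (L := L) q2 q1 u k k α
    have e34 := qd_am_pm (L := L) q3 q1 u j k α
    have hK : (4 + 12 * ((n + 1) * CT)) * s4 L j k x u ^ 3 ≤ (4 + 12 * ((n + 1) * CT)) *
        (4 * Q * SR L Q u) ^ 3 := mul_le_mul_of_nonneg_left hs3 (by positivity)
    have hom : om L j k x u α = cc L α (Gz u x j k) - (cc L α (Vz u x j) +
      cc L α (Vz u (x + ez j) k) - cc L α (Vz u (x + ez k) j) - cc L α (Vz u x k)) := rfl
    rw [hom]
    have h' : |cc L α (Gz u x j k) - (cc L α (Vz u x j) + cc L α (Vz u (x + ez j) k) -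
      cc L α (Vz u (x + ez k) j) - cc L α (Vz u x k)) -
      w4 L (am L j x u) (am L k (x + ez j) u) (am L j (x + ez k) u) (am L k x u) α| ≤
      (4 + 12 * ((n + 1) * CT)) * s4 L j k x u ^ 3 := h
    obtain ⟨X, hX⟩ : ∃ X, X = cc L α (Gz u x j k) - (cc L α (Vz u x j) +
      cc L α (Vz u (x + ez j) k) - cc L α (Vz u (x + ez k) j) - cc L α (Vz u x k)) := ⟨_, rfl⟩
    rw [← hX] at h' ⊢
    unfold w4 at h' ⊢
    have e0 : ((4 + 12 * ((n + 1) * CT)) * (4 * Q) ^ 3 + 12 * n ^ 2 * Q ^ 3) * SR L Q u ^ 3 =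
        (4 + 12 * ((n + 1) * CT)) * (4 * Q * SR L Q u) ^ 3 + 6 * (2 * n ^ 2 * (Q * SR L Q u) ^ 3) := by
      ring
    rw [e0]
    obtain ⟨E, hE⟩ : ∃ E, E = 2 * (n:ℝ) ^ 2 * (Q * SR L Q u) ^ 3 := ⟨_, rfl⟩
    rw [← hE] at e12 e13 e14 e23 e24 e34 ⊢
    rw [abs_le] at *
    constructor <;> linarith [e12.1, e12.2, e13.1, e13.2, e14.1, e14.2, e23.1, e23.2, e24.1,
      e24.2, e34.1, e34.2, h'.1, h'.2]
  · have hl : ∀ (i i' : Fin d) (y y' : Zp d), Tendsto (fun z => pe μ L z q r
        (fun u => qd L (pm L i y u) (pm L i' y' u))) FB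
        (𝓝 (cG L * dt (pl i y) (pl i' y') q r)) := fun i i' y y' =>
      pe_LF μ hd hB hT hW hH hq hr (pm_LF i y) (pm_LF i' y')
    have h := (((((hl j k x (x + ez j)).sub (hl j j x (x + ez k))).sub (hl j k x x)).sub
      (hl k j (x + ez j) (x + ez k))).sub (hl k k (x + ez j) x)).add (hl j k (x + ez k) x)
    have e : cG L * omL j k x q r = cG L * dt (pl j x) (pl k (x + ez j)) q r -
        cG L * dt (pl j x) (pl j (x + ez k)) q r - cG L * dt (pl j x) (pl k x) q r -
        cG L * dt (pl k (x + ez j)) (pl j (x + ez k)) q r -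
        cG L * dt (pl k (x + ez j)) (pl k x) q r + cG L * dt (pl j (x + ez k)) (pl k x) q r := by
      unfold omL w4t; ring
    rw [e]
    refine h.congr fun z => ?_
    unfold w4
    have c1 : ∀ α, Continuous fun u : Zp d → Fin d → G => qd L (pm L j x u)
        (pm L k (x + ez j) u) α - qd L (pm L j x u) (pm L j (x + ez k) u) α := fun α =>
      (hc _ _ _ _ _).sub (hc _ _ _ _ _)
    have c2 : ∀ α, Continuous fun u : Zp d → Fin d → G => qd L (pm L j x u)
        (pm L k (x + ez j) u) α - qd L (pm L j x u) (pm L j (x + ez k) u) α -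
        qd L (pm L j x u) (pm L k x u) α := fun α => (c1 α).sub (hc _ _ _ _ _)
    have c3 : ∀ α, Continuous fun u : Zp d → Fin d → G => qd L (pm L j x u)
        (pm L k (x + ez j) u) α - qd L (pm L j x u) (pm L j (x + ez k) u) α -
        qd L (pm L j x u) (pm L k x u) α - qd L (pm L k (x + ez j) u) (pm L j (x + ez k) u) α :=
      fun α => (c2 α).sub (hc _ _ _ _ _)
    have c4 : ∀ α, Continuous fun u : Zp d → Fin d → G => qd L (pm L j x u)
        (pm L k (x + ez j) u) α - qd L (pm L j x u) (pm L j (x + ez k) u) α -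
        qd L (pm L j x u) (pm L k x u) α - qd L (pm L k (x + ez j) u) (pm L j (x + ez k) u) α -
        qd L (pm L k (x + ez j) u) (pm L k x u) α := fun α => (c3 α).sub (hc _ _ _ _ _)
    rw [pe_add μ c4 (hc _ _ _ _), pe_sub μ c3 (hc _ _ _ _), pe_sub μ c2 (hc _ _ _ _),
      pe_sub μ c1 (hc _ _ _ _), pe_sub μ (hc _ _ _ _) (hc _ _ _ _)]

lemma lm_self (k : Fin d) (q : Fin d × Fin d) (x : Zp d) : lm (k, k) q x = 0 := by
  show mx (fun a b => DD a b (green d) x) k k q.1 q.2 = 0
  unfold mx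
  ring

lemma fF_LF (k j : Fin d) (x : Zp d) : LF L d (fun u => fF L k j x u) (fun q => lm (k, j) q x) := by
  by_cases h : k = j
  · subst h
    have e1 : (fun (u : Zp d → Fin d → G) => fF L k k x u) = fun _ _ => 0 := by
      funext u α
      unfold fF cg
      rw [Gz_self, cc_one]
    have e2 : (fun q => lm (k, k) q x) = fun _ => 0 := funext fun q => lm_self k q x
    rw [e1, e2]
    exact LF.zero
  · exact LF.base k j x h

theorem rh_lim {CT : ℝ} (hTg : Tg L CT) (hd : 3 ≤ d) (hB : S_B2) (hT : S_TR) (hW : S_W1)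
    (hH : S_HAF) {q r : Fin d × Fin d} (hq : q.1 ≠ q.2) (hr : r.1 ≠ r.2) (k : Fin d)
    (x : Zp d) : Tendsto (fun z => pe μ L z q r (rh L k x)) FB
      (𝓝 (cG L * rhL k x q r)) := by
  have hCT := hTg.1
  obtain ⟨Q, hQ⟩ : ∃ Q : ℕ, Q = l1 x + 1 := ⟨_, rfl⟩
  have qj : ∀ j, l1 (x - ez j) ≤ Q := fun j => by have := l1_pred_le x j; omega
  have hc : ∀ (j : Fin d) (α : Fin n), Continuous fun u : Zp d → Fin d → G =>
      2 * qd L (pm L j (x - ez j) u) (fF L k j (x - ez j) u) α := fun j α =>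
    continuous_const.mul (qd_cont (fun a => pm_cont _ _ a) (fun a => fF_cont _ _ _ a) α)
  refine pe_split μ (rh_cont k x) (B := fun u α => ∑ j, 2 * qd L (pm L j (x - ez j) u)
    (fF L k j (x - ez j) u) α) (fun α => continuous_finsetSum _ fun j _ => hc j α) Q
    (d * ((1 + 2 * ((n + 1) * CT)) * (Q * (Q + 1)) + 2 * (n ^ 2 * Q ^ 2))) (fun u α => ?_) ?_
  · have hS := SR_nonneg (L := L) Q u
    rw [rh_eq, ← Finset.sum_sub_distrib]
    refine (Finset.abs_sum_le_sum_abs _ _).trans ?_
    have h1 : ∀ j, |fF L k j (x - ez j) u α - cc L α ((Vz u (x - ez j) j)⁻¹ *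
        Gz u (x - ez j) k j * Vz u (x - ez j) j) - 2 * qd L (pm L j (x - ez j) u)
        (fF L k j (x - ez j) u) α| ≤ ((1 + 2 * ((n + 1) * CT)) * (Q * (Q + 1)) +
          2 * (n ^ 2 * Q ^ 2)) * SR L Q u ^ 3 := by
      intro j
      have h := conj2 hTg α (Vz u (x - ez j) j)⁻¹ (Gz u (x - ez j) k j)
      simp only [inv_inv, cc_inv, dv_inv] at h
      rw [qd_neg_left] at h
      have hV := (dv_Vz (L := L) u (x - ez j) j).trans (poa_Q (qj j) u j)
      have hG : dv L (Gz u (x - ez j) k j) ≤ SR L Q u :=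
        le_SR u k j fun i => l1_le_coord (qj j) i
      have hV0 := dv_nonneg (L := L) (Vz u (x - ez j) j)
      have hG0 := dv_nonneg (L := L) (Gz u (x - ez j) k j)
      have hm : dv L (Vz u (x - ez j) j) * dv L (Gz u (x - ez j) k j) *
          (dv L (Vz u (x - ez j) j) + dv L (Gz u (x - ez j) k j)) ≤
          (Q * SR L Q u) * SR L Q u * (Q * SR L Q u + SR L Q u) := by gcongr
      have hm2 : (1 + 2 * ((n + 1) * CT)) * (dv L (Vz u (x - ez j) j) *
          dv L (Gz u (x - ez j) k j) * (dv L (Vz u (x - ez j) j) +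
            dv L (Gz u (x - ez j) k j))) ≤ (1 + 2 * ((n + 1) * CT)) *
          ((Q * SR L Q u) * SR L Q u * (Q * SR L Q u + SR L Q u)) :=
        mul_le_mul_of_nonneg_left hm (by positivity)
      have h2 : |qd L (am L j (x - ez j) u) (fF L k j (x - ez j) u) α -
          qd L (pm L j (x - ez j) u) (fF L k j (x - ez j) u) α| ≤
          n ^ 2 * ((Q * SR L Q u) ^ 2 * SR L Q u) := by
        rw [← qd_sub_left]
        exact qd_le (am_pm (qj j) u j) (fun a => (cc_le _ _).trans hG) α
      have e1 : ((1 + 2 * ((n + 1) * CT)) * (Q * (Q + 1)) + 2 * (n ^ 2 * Q ^ 2)) *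
          SR L Q u ^ 3 = (1 + 2 * ((n + 1) * CT)) *
          ((Q * SR L Q u) * SR L Q u * (Q * SR L Q u + SR L Q u)) +
          2 * (n ^ 2 * ((Q * SR L Q u) ^ 2 * SR L Q u)) := by ring
      rw [e1]
      have h' : |cc L α ((Vz u (x - ez j) j)⁻¹ * Gz u (x - ez j) k j * Vz u (x - ez j) j) -
          fF L k j (x - ez j) u α - 2 * -qd L (am L j (x - ez j) u)
            (fF L k j (x - ez j) u) α| ≤ (1 + 2 * ((n + 1) * CT)) *
          (dv L (Vz u (x - ez j) j) * dv L (Gz u (x - ez j) k j) *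
          (dv L (Vz u (x - ez j) j) + dv L (Gz u (x - ez j) k j))) := h
      obtain ⟨X, hX⟩ : ∃ X, X = cc L α ((Vz u (x - ez j) j)⁻¹ * Gz u (x - ez j) k j *
        Vz u (x - ez j) j) := ⟨_, rfl⟩
      rw [← hX] at h' ⊢
      rw [abs_le] at *
      constructor <;> linarith [h'.1, h'.2, h2.1, h2.2]
    calc _ ≤ ∑ _j : Fin d, ((1 + 2 * ((n + 1) * CT)) * (Q * (Q + 1)) +
          2 * (n ^ 2 * Q ^ 2)) * SR L Q u ^ 3 := Finset.sum_le_sum fun j _ => h1 j
      _ = _ := by rw [Finset.sum_const, Finset.card_univ, Fintype.card_fin, nsmul_eq_mul]; ring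
  · have hl : ∀ j : Fin d, Tendsto (fun z => pe μ L z q r
        (fun u => qd L (pm L j (x - ez j) u) (fF L k j (x - ez j) u))) FB
        (𝓝 (cG L * dt (pl j (x - ez j)) (fun q => lm (k, j) q (x - ez j)) q r)) := fun j =>
      pe_LF μ hd hB hT hW hH hq hr (pm_LF j _) (fF_LF k j _)
    have h := tendsto_finsetSum Finset.univ fun j _ => (hl j).const_mul 2
    have e : cG L * rhL k x q r = ∑ j, 2 * (cG L * dt (pl j (x - ez j))
        (fun q => lm (k, j) q (x - ez j)) q r) := by
      unfold rhL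
      rw [Finset.mul_sum]
      exact Finset.sum_congr rfl fun j _ => by ring
    rw [e]
    refine h.congr fun z => ?_
    rw [pe_sum μ _ hc]
    refine Finset.sum_congr rfl fun j _ => ?_
    rw [pe_smul]

theorem kap_lim {CT : ℝ} (hTg : Tg L CT) (hd : 3 ≤ d) (hB : S_B2) (hT : S_TR) (hW : S_W1)
    (hH : S_HAF) {q r : Fin d × Fin d} (hq : q.1 ≠ q.2) (hr : r.1 ≠ r.2) (k : Fin d)
    (x : Zp d) : Tendsto (fun z => z.1 ^ 4 * ee μ L z (fun u => kap L q r x k u)) FB
      (𝓝 (cG L * kaL k x q r)) := by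
  have hCT := hTg.1
  obtain ⟨c, hc⟩ : ∃ c, c = (sp r x k + sm r x k) - (sp q x k + sm q x k) := ⟨_, rfl⟩
  have h1 := (t2_lim μ (L := L) hd hB hT hW hH hq hr).const_mul c
  have h2 := (err3 μ (L := L) (d := d) 0).const_mul (8 * CT * n ^ 3)
  rw [mul_zero] at h2
  have e1 : cG L * kaL k x q r = c * (cG L * lm q r 0) := by unfold kaL; rw [hc]; ring
  rw [e1]
  have hTc : Continuous fun u : Zp d → Fin d → G => T2 L (F0 L q u) (F0 L r u) :=
    T2_cont (fun a => (cc_cont a).comp (Gz_cont _ _ _)) (fun a => (cc_cont a).comp (Gz_cont _ _ _))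
  have hclose : ∀ z : ℝ × ℕ, ‖z.1 ^ 4 * ee μ L z (fun u => kap L q r x k u) -
      c * (z.1 ^ 4 * ee μ L z (fun u => T2 L (F0 L q u) (F0 L r u)))‖ ≤ 8 * CT * n ^ 3 *
      (z.1 ^ 4 * ee μ L z (fun u : Zp d → Fin d → G => SR L 0 u ^ 3)) := by
    intro z
    have e2 : z.1 ^ 4 * ee μ L z (fun u => kap L q r x k u) -
      c * (z.1 ^ 4 * ee μ L z (fun u => T2 L (F0 L q u) (F0 L r u))) = z.1 ^ 4 *
      (ee μ L z (fun u => kap L q r x k u) - ee μ L z (fun u => c * T2 L (F0 L q u) (F0 L r u))) := by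
      rw [ee_smul]; ring
    rw [e2, Real.norm_eq_abs, abs_mul, abs_of_nonneg (by positivity : (0:ℝ) ≤ z.1 ^ 4)]
    have h3 : |ee μ L z (fun u => kap L q r x k u) -
        ee μ L z (fun u => c * T2 L (F0 L q u) (F0 L r u))| ≤
        ee μ L z (fun u : Zp d → Fin d → G => 8 * CT * n ^ 3 * SR L 0 u ^ 3) := by
      refine ee_close μ (kap_cont q r x k) (continuous_const.mul hTc)
        (continuous_const.mul ((SR_cont 0).pow 3)) fun u => ?_
      have h4 := kap_app hTg q r x k u
      rw [← hc] at h4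
      refine h4.trans ?_
      have g1 : dg L u q.1 q.2 0 ≤ SR L 0 u := le_SR u _ _ fun i => by simp
      have g2 : dg L u r.1 r.2 0 ≤ SR L 0 u := le_SR u _ _ fun i => by simp
      have g3 := dg_nonneg (L := L) u q.1 q.2 0
      have g4 := dg_nonneg (L := L) u r.1 r.2 0
      have g5 : dg L u q.1 q.2 0 ^ 2 * dg L u r.1 r.2 0 + dg L u q.1 q.2 0 *
          dg L u r.1 r.2 0 ^ 2 ≤ SR L 0 u ^ 2 * SR L 0 u + SR L 0 u * SR L 0 u ^ 2 :=
        add_le_add (mul_le_mul (pow_le_pow_left₀ g3 g1 2) g2 g4 (sq_nonneg _))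
          (mul_le_mul g1 (pow_le_pow_left₀ g4 g2 2) (sq_nonneg _) (g3.trans g1))
      calc _ ≤ 4 * CT * n ^ 3 * (SR L 0 u ^ 2 * SR L 0 u + SR L 0 u * SR L 0 u ^ 2) :=
            mul_le_mul_of_nonneg_left g5 (by positivity)
        _ = _ := by ring
    calc _ ≤ z.1 ^ 4 * ee μ L z (fun u : Zp d → Fin d → G => 8 * CT * n ^ 3 * SR L 0 u ^ 3) :=
          mul_le_mul_of_nonneg_left h3 (by positivity)
      _ = _ := by rw [ee_smul]; ring
  have h5 := squeeze_zero_norm hclose h2
  have h6 := h5.add h1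
  rw [zero_add] at h6
  refine h6.congr fun z => ?_
  ring

end

end Pool.Agent.Y16.YM
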