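import Mathlib
import Pool.Agent.Y16.YM.Lim
import Pool.Agent.Y16.YM.Ker2

/-!
# The limit of the three field strength function
-/

open MeasureTheory Matrix Filter
open scoped Matrix.Norms.Frobenius Topology
open Pool.Agent.H906R3.YM Pool.Agent.W793.YM Pool.Agent.TH940.YM
open Pool.Agent.W793.SCH (haf Near pk gK DD mx el TK S_B1 S_B2 S_TR S_W1 S_HAF green plaq_moment2)

namespace Pool.Agent.Y16.YM

set_option linter.unusedSectionVars false
set_option linter.unusedVariables false
set_option maxHeartbeats 400000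

noncomputable section

variable {G : Type} [Group G] [TopologicalSpace G] [IsTopologicalGroup G] [CompactSpace G]
  [SecondCountableTopology G] [MeasurableSpace G] [BorelSpace G] (μ : Measure G)
  [IsProbabilityMeasure μ] [μ.IsMulLeftInvariant] [μ.IsMulRightInvariant] [μ.IsInvInvariant]
  {N n : ℕ} {L : LD G N n} {d : ℕ}

/-- the two forms of the limit -/
def omF (q r : Fin d × Fin d) : Fin d → Fin d → Fz' d := fun j k x => omL j k x q r

/-- the current of the limit -/
def siF (q r : Fin d × Fin d) : Fin d → Fz' d := fun k x => rhL k x q r - kaL k x q r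

/-- the limit of the three field strength function -/
def three (J : List (Fin d)) (p q r : Fin d × Fin d) : ℝ :=
  -(1 / (4 * d : ℝ) * ∑' t, WJ J t (Lf (omF q r) (siF q r) p.1 p.2))

lemma ll_l1 (x : Zp d) : ll x = l1 x := by
  unfold ll l1
  push_cast
  refine Finset.sum_congr rfl fun i _ => ?_
  rw [Nat.cast_natAbs, Int.cast_abs]

lemma WJ_smul (J : List (Fin d)) (t : ℕ) (c : ℝ) (g : Fz' d) :
    WJ J t (fun x => c * g x) = c * WJ J t g := pa_smul _ _ _

lemma Lf_smul (c : ℝ) (w : Fin d → Fin d → Fz' d) (s : Fin d → Fz' d) (j k : Fin d) :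
    Lf (fun j k x => c * w j k x) (fun k x => c * s k x) j k = fun x => c * Lf w s j k x := by
  funext x
  unfold Lf ns nb dT nb
  beta_reduce
  rw [mul_sub, mul_add, Finset.mul_sum]
  congr 2
  · refine Finset.sum_congr rfl fun i _ => ?_
    ring
  · ring
  · ring

variable (L) in
/-- the correlation of the field strength -/
def ta (z : ℝ × ℕ) (q r : Fin d × Fin d) : Fin d → Fin d → Fz' d := fun j k x =>
  pe μ L z q r (fF L j k x)

variable (L) in
/-- its current -/
def si (z : ℝ × ℕ) (q r : Fin d × Fin d) : Fin d → Fz' d := fun k x =>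
  pe μ L z q r (rh L k x) - z.1 ^ 4 * ee μ L z (fun u => kap L q r x k u)

lemma ta_anti (z : ℝ × ℕ) (q r : Fin d × Fin d) (j k : Fin d) (x : Zp d) :
    ta μ L z q r k j x = -ta μ L z q r j k x := by
  unfold ta
  have e : fF L k j x = fun (u : Zp d → Fin d → G) α => (-1 : ℝ) * fF L j k x u α := by
    funext u α
    unfold fF cg
    rw [Gz_swap, cc_inv]; ring
  rw [e, pe_smul]; ring

lemma ta_exact (z : ℝ × ℕ) (q r : Fin d × Fin d) (j k : Fin d) (x : Zp d) :
    ta μ L z q r j k x = pe μ L z q r (om L j k x) +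
      (nb j (fun x => pe μ L z q r (am L k x)) x - nb k (fun x => pe μ L z q r (am L j x)) x) := by
  unfold ta nb
  have h := pe_add μ (L := L) (z := z) (q := q) (r := r) (A := om L j k x)
    (B := fun u α => ((am L k (x + ez j) u α - am L k x u α) -
      (am L j (x + ez k) u α - am L j x u α))) (om_cont j k x)
    (fun α => ((am_cont _ _ α).sub (am_cont _ _ α)).sub ((am_cont _ _ α).sub (am_cont _ _ α)))
  have e : fF L j k x = fun (u : Zp d → Fin d → G) α => om L j k x u α +
      ((am L k (x + ez j) u α - am L k x u α) - (am L j (x + ez k) u α - am L j x u α)) := by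
    funext u α
    unfold om; ring
  rw [e, h, pe_sub μ (A := fun u α => am L k (x + ez j) u α - am L k x u α)
    (B := fun u α => am L j (x + ez k) u α - am L j x u α)
    (fun α => (am_cont _ _ α).sub (am_cont _ _ α)) (fun α => (am_cont _ _ α).sub (am_cont _ _ α)),
    pe_sub μ (am_cont k (x + ez j)) (am_cont k x), pe_sub μ (am_cont j (x + ez k)) (am_cont j x)]

lemma ta_div {z : ℝ × ℕ} (q r : Fin d × Fin d) (k : Fin d) {x : Zp d}
    (hx : ∀ i, 2 * (|x i| + 1) < ((2 * (z.2 + 1) : ℕ) : ℤ)) :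
    dvg (ta μ L z q r) k x = si μ L z q r k x := by
  have h1 := sd_eq μ (L := L) hx k q r (z.1 ^ 4)
  have h2 : z.1 ^ 4 * ee μ L z (fun u => kap L q r x k u) =
      pe μ L z q r (fun u α => DS L u α x k) := by
    unfold ee pe ee
    rw [h1]; ring
  have e : (fun (u : Zp d → Fin d → G) α => DS L u α x k) = fun u α =>
      (∑ j, (fF L k j x u α - fF L k j (x - ez j) u α)) + rh L k x u α := by
    funext u α
    unfold rh; ring
  have h3 : pe μ L z q r (fun u α => DS L u α x k) =
      ∑ j, (ta μ L z q r k j x - ta μ L z q r k j (x - ez j)) + pe μ L z q r (rh L k x) := by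
    have c1 : ∀ (j : Fin d) (α : Fin n), Continuous fun u : Zp d → Fin d → G =>
        fF L k j x u α - fF L k j (x - ez j) u α := fun j α =>
      (fF_cont k j x α).sub (fF_cont k j (x - ez j) α)
    rw [e, pe_add μ (A := fun u α => ∑ j, (fF L k j x u α - fF L k j (x - ez j) u α))
      (B := rh L k x) (fun α => continuous_finsetSum _ fun j _ => c1 j α) (rh_cont k x),
      pe_sum μ Finset.univ (A := fun j u α => fF L k j x u α - fF L k j (x - ez j) u α) c1]
    congr 1
    refine Finset.sum_congr rfl fun j _ => ?_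
    exact pe_sub μ (fF_cont k j x) (fF_cont k j (x - ez j))
  unfold si dvg ns
  rw [h2, h3]
  have h4 : ∀ j, ta μ L z q r j k x - ta μ L z q r j k (x - Pi.single j 1) =
      -(ta μ L z q r k j x - ta μ L z q r k j (x - ez j)) := by
    intro j
    rw [ta_anti μ z q r k j x, ta_anti μ z q r k j (x - Pi.single j 1)]; ring
  rw [Finset.sum_congr rfl fun j _ => h4 j, Finset.sum_neg_distrib]
  ring

/-- the number of steps -/
def Tn (z : ℝ × ℕ) : ℕ := ⌈z.1 ^ 2⌉₊

lemma Tn_ev (m : ℕ) : ∀ᶠ z in FB, (Tn z : ℝ) + m + 1 < z.2 := by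
  filter_upwards [FB_le, FB_ge (m + 4)] with z h1 h2
  unfold Tn
  have h3 : (⌈z.1 ^ 2⌉₊ : ℝ) < z.1 ^ 2 + 1 := Nat.ceil_lt_add_one (sq_nonneg _)
  have hm : (0:ℝ) ≤ m := Nat.cast_nonneg _
  nlinarith [sq_nonneg (z.1 ^ 2 - 4)]

lemma Tn_tendsto : Tendsto Tn FB atTop := by
  unfold Tn
  exact tendsto_nat_ceil_atTop.comp ((tendsto_pow_atTop (by norm_num)).comp FB_fst)

lemma Tn_bd (K : ℝ) (hK : 0 ≤ K) :
    Tendsto (fun z : ℝ × ℕ => K * z.1 ^ 2 / Real.sqrt (Tn z) ^ 3) FB (𝓝 0) := by
  have h1 : Tendsto (fun z : ℝ × ℕ => K / z.1) FB (𝓝 0) := tendsto_const_nhds.div_atTop FB_fst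
  refine squeeze_zero' ?_ ?_ h1
  · exact Eventually.of_forall fun z => by positivity
  · filter_upwards [FB_ge 1] with z hz
    have h0 : 0 < z.1 := by linarith
    have h2 : z.1 ≤ Real.sqrt (Tn z) := by
      refine Real.le_sqrt_of_sq_le ?_
      exact Nat.le_ceil _
    calc K * z.1 ^ 2 / Real.sqrt (Tn z) ^ 3 ≤ K * z.1 ^ 2 / z.1 ^ 3 :=
          div_le_div_of_nonneg_left (by positivity) (by positivity)
            (pow_le_pow_left₀ h0.le h2 3)
      _ = K / z.1 := by field_simp

/-- **The limit of the three field strength function.** -/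
theorem main_lim {CT : ℝ} (hTg : Tg L CT) (hd : 3 ≤ d) (hB : S_B2) (hT : S_TR) (hW : S_W1)
    (hH : S_HAF) {q r : Fin d × Fin d} (hq : q.1 ≠ q.2) (hr : r.1 ≠ r.2) (p : Fin d × Fin d)
    (J : List (Fin d)) (hJ : 3 ≤ J.length) :
    Tendsto (fun z => dF J (ta μ L z q r p.1 p.2) 0) FB (𝓝 (cG L * three J p q r)) := by
  obtain ⟨C, hC, hmom⟩ := mom4 μ (L := L) hd hB hT hW hH hTg
  have hC0 : 0 ≤ C := by linarith
  have h := ker_main (F := FB) (by omega : 1 ≤ d) J hJ (fun z => ta μ L z q r)
    (fun z j k x => pe μ L z q r (om L j k x)) (fun z i x => pe μ L z q r (am L i x))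
    (fun z => si μ L z q r) (fun j k x => cG L * omF q r j k x)
    (fun k x => cG L * siF q r k x) Tn (fun z => n ^ 3 * C * z.1 ^ 2)
    (n ^ 3 * (6 * (256 * C)) + n ^ 3 * (2 * d * C) + 8 * n ^ 3 * C) (by positivity)
    (fun z j k x => ta_exact μ z q r j k x) (fun z j k x => ta_anti μ z q r j k x) ?_ ?_ ?_ ?_
    Tn_tendsto (Tn_bd _ (by positivity))
    (fun j k x => om_lim μ hTg hd hB hT hW hH hq hr j k x) ?_ p.1 p.2
  · rw [Lf_smul] at h
    have e : -(1 / (4 * d : ℝ) * ∑' t, WJ J t (fun x => cG L *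
        Lf (omF q r) (siF q r) p.1 p.2 x)) = cG L * three J p q r := by
      simp only [WJ_smul]
      rw [tsum_mul_left]
      unfold three; ring
    rw [e] at h
    exact h
  · filter_upwards [Tn_ev J.length] with z hz k x hx
    refine ta_div μ q r k fun i => ?_
    rw [ll_l1] at hx
    have h1 : (l1 x : ℝ) < z.2 := by linarith
    have h2 : l1 x < z.2 := by exact_mod_cast h1
    have h3 := l1_coord x i
    push_cast
    omega
  · filter_upwards [hmom] with z hz j k x
    have h1 := om_bd μ hC hz q r j k x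
    rw [← ll_l1] at h1
    refine h1.trans (mul_le_mul_of_nonneg_right ?_ (sq_nonneg _))
    have : 0 ≤ (n:ℝ) ^ 3 * (2 * d * C) + 8 * n ^ 3 * C := by positivity
    linarith
  · filter_upwards [hmom] with z hz k x
    have h1 := rh_bd μ hC hz q r k x
    have h2 := kap_bd μ hC hz q r k x
    rw [← ll_l1] at h1
    have hl := ll_nonneg x
    unfold si
    refine (abs_sub _ _).trans ((add_le_add h1 h2).trans ?_)
    have p1 : 0 ≤ (n:ℝ) ^ 3 * (6 * (256 * C)) := by positivity
    have p2 : 0 ≤ 8 * (n:ℝ) ^ 3 * C := by positivity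
    nlinarith
  · filter_upwards [hmom] with z hz j k x
    exact tau_bd μ hC hz q r j k x
  · intro k x
    have h1 := (rh_lim μ hTg hd hB hT hW hH hq hr k x).sub
      (kap_lim μ hTg hd hB hT hW hH hq hr k x)
    rw [← mul_sub] at h1
    exact h1

end

end Pool.Agent.Y16.YM
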