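import Mathlib
import Pool.Agent.Y16.YM.Main

/-!
# Covariant derivatives and the comb gauge
-/

open MeasureTheory Matrix Filter
open scoped Matrix.Norms.Frobenius Topology
open Pool.Agent.H906R3.YM Pool.Agent.W793.YM Pool.Agent.TH940.YM
open Pool.Agent.W793.SCH (haf Near pk gK DD mx el TK S_B1 S_B2 S_TR S_W1 S_HAF green plaq_moment2)

namespace Pool.Agent.Y16.YM

set_option linter.unusedSectionVars false
set_option linter.unusedVariables false
set_option maxHeartbeats 400000

noncomputable section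

section cov

variable {G : Type} [Group G] [TopologicalSpace G] [IsTopologicalGroup G] [CompactSpace G]
  [SecondCountableTopology G] [MeasurableSpace G] [BorelSpace G] {N n : ℕ} (L : LD G N n) {d : ℕ}

/-- the components of the covariant derivatives of a plaquette -/
def cv (u : Zp d → Fin d → G) (p : Fin d × Fin d) : List (Fin d) → Zp d → Fin n → ℝ
  | [] => fun x a => cc L a (plz u x p.1 p.2)
  | i :: J => fun x a => rot L (u x i) (cv u p J (x + ez i)) a - cv u p J x a

variable {L}

lemma rot_mul (g h : G) (A : Fin n → ℝ) : rot L (g * h) A = rot L g (rot L h A) := by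
  funext c
  unfold rot
  simp only [adm_mul, Finset.sum_mul, Finset.mul_sum]
  rw [Finset.sum_comm]
  exact Finset.sum_congr rfl fun b _ => Finset.sum_congr rfl fun a _ => by ring

lemma rot_one (A : Fin n → ℝ) : rot L (1 : G) A = A := by
  funext c
  unfold rot
  have h : ∀ a, L.adm (1 : G) c a = if c = a then 1 else 0 := by
    intro a
    show ip (L.X c) (L.rho 1 * L.X a * (L.rho 1)ᴴ) = _
    rw [map_one, one_mul, conjTranspose_one, mul_one, ip_X]
  simp only [h, ite_mul, one_mul, zero_mul]
  rw [Finset.sum_ite_eq, if_pos (Finset.mem_univ _)]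

lemma rot_sub (g : G) (A B : Fin n → ℝ) : rot L g (fun a => A a - B a) =
    fun a => rot L g A a - rot L g B a := by
  funext c
  unfold rot
  rw [← Finset.sum_sub_distrib]
  exact Finset.sum_congr rfl fun a _ => by ring

lemma cv_gauge (γ : Zp d → G) (u : Zp d → Fin d → G) (p : Fin d × Fin d) (J : List (Fin d))
    (x : Zp d) : cv L (fun x i => γ x * u x i * (γ (x + ez i))⁻¹) p J x =
      rot L (γ x) (cv L u p J x) := by
  induction J generalizing x with
  | nil =>
    funext a
    have h1 : plz (fun x i => γ x * u x i * (γ (x + ez i))⁻¹) x p.1 p.2 =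
        γ x * plz u x p.1 p.2 * (γ x)⁻¹ := by
      unfold plz
      simp only
      rw [add_right_comm x (ez p.2) (ez p.1)]
      group
    show cc L a (plz (fun x i => γ x * u x i * (γ (x + ez i))⁻¹) x p.1 p.2) = _
    rw [h1, cc_rot]
    rfl
  | cons i J ih =>
    funext a
    show rot L (γ x * u x i * (γ (x + ez i))⁻¹)
        (cv L (fun x i => γ x * u x i * (γ (x + ez i))⁻¹) p J (x + ez i)) a -
      cv L (fun x i => γ x * u x i * (γ (x + ez i))⁻¹) p J x a =
      rot L (γ x) (fun a => rot L (u x i) (cv L u p J (x + ez i)) a - cv L u p J x a) a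
    rw [ih, ih, rot_sub, ← rot_mul, ← rot_mul, inv_mul_cancel_right]

lemma cv_comb (u : Zp d → Fin d → G) (p : Fin d × Fin d) (J : List (Fin d))
    (hJ : J.Pairwise (· ≤ ·)) (x : Zp d) (hx : ∀ i ∈ J, ∀ k, i < k → x k = 0) (a : Fin n) :
    cv L (Vz u) p J x a = dF J (fun x => fF L p.1 p.2 x u a) x := by
  induction J generalizing x with
  | nil =>
    show cc L a (plz (Vz u) x p.1 p.2) = cc L a (Gz u x p.1 p.2)
    rw [Gz_eq]; rfl
  | cons i J ih =>
    rw [List.pairwise_cons] at hJ
    have h1 : Vz u x i = 1 := Vz_tree u x i (hx i List.mem_cons_self)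
    show rot L (Vz u x i) (cv L (Vz u) p J (x + ez i)) a - cv L (Vz u) p J x a = _
    rw [h1, rot_one, ih hJ.2 (x + ez i) (fun i' hi' k hk => ?_),
      ih hJ.2 x fun i' hi' => hx i' (List.mem_cons_of_mem _ hi')]
    · rfl
    · have h2 : i < k := lt_of_le_of_lt (hJ.1 i' hi') hk
      rw [Pi.add_apply, hx i' (List.mem_cons_of_mem _ hi') k hk, ez_ne h2.ne', add_zero]

/-- the covariant derivatives at the origin -/
theorem cv_zero (u : Zp d → Fin d → G) (p : Fin d × Fin d) (J : List (Fin d))
    (hJ : J.Pairwise (· ≤ ·)) (a : Fin n) :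
    cv L u p J 0 a = dF J (fun x => fF L p.1 p.2 x u a) 0 := by
  rw [← cv_comb u p J hJ 0 (fun _ _ _ _ => rfl)]
  have h1 := cv_gauge (L := L) (Pz u) u p J 0
  have h2 : (fun x i => Pz u x * u x i * (Pz u (x + ez i))⁻¹) = Vz u := rfl
  rw [h2, Pz_zero, rot_one] at h1
  rw [h1]

end cov

variable {G : Type} [Group G] [TopologicalSpace G] [IsTopologicalGroup G] [CompactSpace G]
  [SecondCountableTopology G] [MeasurableSpace G] [BorelSpace G] (μ : Measure G)
  [IsProbabilityMeasure μ] [μ.IsMulLeftInvariant] [μ.IsMulRightInvariant] [μ.IsInvInvariant]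
  {N n : ℕ} {L : LD G N n} {d : ℕ}

/-- the observable -/
def ob (L : LD G N n) (J : List (Fin d)) (p q r : Fin d × Fin d) (u : Zp d → Fin d → G) : ℝ :=
  ∑ α, cv L u p J 0 α * Ph L q r u α

lemma dF_fF_cont (J : List (Fin d)) (p : Fin d × Fin d) (x : Zp d) (α : Fin n) :
    Continuous fun u : Zp d → Fin d → G => dF J (fun x => fF L p.1 p.2 x u α) x := by
  induction J generalizing x with
  | nil => exact fF_cont _ _ _ _
  | cons i J ih => exact (ih _).sub (ih _)

lemma dF_ta (z : ℝ × ℕ) (J : List (Fin d)) (p q r : Fin d × Fin d) (x : Zp d) :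
    dF J (ta μ L z q r p.1 p.2) x =
      pe μ L z q r (fun u α => dF J (fun x => fF L p.1 p.2 x u α) x) := by
  induction J generalizing x with
  | nil => rfl
  | cons i J ih =>
    show dF J (ta μ L z q r p.1 p.2) (x + Pi.single i 1) - dF J (ta μ L z q r p.1 p.2) x = _
    rw [ih, ih]
    exact (pe_sub μ (A := fun u α => dF J (fun x => fF L p.1 p.2 x u α) (x + Pi.single i 1))
      (B := fun u α => dF J (fun x => fF L p.1 p.2 x u α) x)
      (fun α => dF_fF_cont J p _ α) (fun α => dF_fF_cont J p _ α)).symm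

/-- **The limit in terms of the covariant derivatives.** -/
theorem ob_lim {CT : ℝ} (hTg : Tg L CT) (hd : 3 ≤ d) (hB : S_B2) (hT : S_TR) (hW : S_W1)
    (hH : S_HAF) {q r : Fin d × Fin d} (hq : q.1 ≠ q.2) (hr : r.1 ≠ r.2) (p : Fin d × Fin d)
    (J : List (Fin d)) (hJ : 3 ≤ J.length) (hs : J.Pairwise (· ≤ ·)) :
    Tendsto (fun z => z.1 ^ 8 * ee μ L z (ob L J p q r)) FB (𝓝 (cG L * three J p q r)) := by
  refine (main_lim μ hTg hd hB hT hW hH hq hr p J hJ).congr fun z => ?_
  rw [dF_ta]
  unfold pe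
  congr 2
  funext u
  unfold ob
  exact Finset.sum_congr rfl fun α _ => by rw [cv_zero u p J hs]

end

end Pool.Agent.Y16.YM
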