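import Mathlib
import Pool.Agent.Y16.YM.Ker2
import Pool.Agent.W793.SCH.All

/-!
# Symmetry, monotonicity and decay of the Green function
-/

open Filter
open scoped Topology
open Pool.Agent.W793.SCH (pk green DD mx S_SUP S_TR a_SUP a_TR)
open Pool.Agent.TH940.YM (dF dB mcD)

namespace Pool.Agent.Y16.YM

set_option linter.unusedSectionVars false
set_option linter.unusedVariables false
set_option maxHeartbeats 400000

noncomputable section

variable {d : ℕ}

lemma pk_succ (t : ℕ) (z : Fin d → ℤ) : pk d (t + 1) z = 1 / 2 * pk d t z + 1 / (4 * d : ℝ) *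
    ∑ i, (pk d t (z + Pi.single i 1) + pk d t (z - Pi.single i 1)) := rfl

lemma single_comp (σ : Equiv.Perm (Fin d)) (i : Fin d) :
    (Pi.single (σ i) 1 : Fin d → ℤ) ∘ σ = Pi.single i 1 := by
  funext k
  rw [Function.comp_apply]
  by_cases h : k = i
  · subst h; simp
  · rw [Pi.single_eq_of_ne h, Pi.single_eq_of_ne fun h' => h (σ.injective h')]

lemma pk_perm (σ : Equiv.Perm (Fin d)) (t : ℕ) (z : Fin d → ℤ) : pk d t (z ∘ σ) = pk d t z := by
  induction t generalizing z with
  | zero =>
    show (if z ∘ σ = 0 then (1:ℝ) else 0) = if z = 0 then 1 else 0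
    have : z ∘ σ = 0 ↔ z = 0 := by
      constructor
      · intro h
        funext k
        have := congrFun h (σ.symm k)
        simpa using this
      · rintro rfl; rfl
    simp only [this]
  | succ t ih =>
    rw [pk_succ, pk_succ, ih]
    congr 2
    have h1 : ∀ i, z ∘ σ + Pi.single i 1 = (z + Pi.single (σ i) 1) ∘ σ := fun i => by
      rw [← single_comp σ i]; rfl
    have h2 : ∀ i, z ∘ σ - Pi.single i 1 = (z - Pi.single (σ i) 1) ∘ σ := fun i => by
      rw [← single_comp σ i]; rfl
    simp only [h1, h2, ih]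
    exact Equiv.sum_comp σ fun i => pk d t (z + Pi.single i 1) + pk d t (z - Pi.single i 1)

/-- reflection of a coordinate -/
def rfz (j : Fin d) (z : Fin d → ℤ) : Fin d → ℤ := fun k => if k = j then -z k else z k

lemma rfz_rfz (j : Fin d) (z : Fin d → ℤ) : rfz j (rfz j z) = z := by
  funext k
  unfold rfz
  split_ifs <;> simp

lemma pk_rfz (j : Fin d) (t : ℕ) (z : Fin d → ℤ) : pk d t (rfz j z) = pk d t z := by
  induction t generalizing z with
  | zero =>
    show (if rfz j z = 0 then (1:ℝ) else 0) = if z = 0 then 1 else 0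
    have h0 : rfz j (0 : Fin d → ℤ) = 0 := by
      funext k; unfold rfz; split_ifs <;> simp
    have : rfz j z = 0 ↔ z = 0 := by
      constructor
      · intro h
        rw [← rfz_rfz j z, h, h0]
      · rintro rfl; exact h0
    simp only [this]
  | succ t ih =>
    rw [pk_succ, pk_succ, ih]
    congr 2
    refine Finset.sum_congr rfl fun i _ => ?_
    by_cases hi : i = j
    · subst hi
      have h1 : rfz i z + Pi.single i 1 = rfz i (z - Pi.single i 1) := by
        funext k
        unfold rfz
        rw [Pi.add_apply, Pi.sub_apply]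
        by_cases hk : k = i
        · subst hk; simp only [if_true, Pi.single_eq_same]; ring
        · simp only [if_neg hk, Pi.single_eq_of_ne hk]; ring
      have h2 : rfz i z - Pi.single i 1 = rfz i (z + Pi.single i 1) := by
        funext k
        unfold rfz
        rw [Pi.add_apply, Pi.sub_apply]
        by_cases hk : k = i
        · subst hk; simp only [if_true, Pi.single_eq_same]; ring
        · simp only [if_neg hk, Pi.single_eq_of_ne hk]; ring
      rw [h1, h2, ih, ih, add_comm]
    · have h1 : rfz j z + Pi.single i 1 = rfz j (z + Pi.single i 1) := by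
        funext k
        unfold rfz
        rw [Pi.add_apply, Pi.add_apply]
        by_cases hk : k = j
        · subst hk; simp only [if_true, Pi.single_eq_of_ne (Ne.symm hi)]; ring
        · simp only [if_neg hk]
      have h2 : rfz j z - Pi.single i 1 = rfz j (z - Pi.single i 1) := by
        funext k
        unfold rfz
        rw [Pi.sub_apply, Pi.sub_apply]
        by_cases hk : k = j
        · subst hk; simp only [if_true, Pi.single_eq_of_ne (Ne.symm hi)]; ring
        · simp only [if_neg hk]
      rw [h1, h2, ih, ih]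

lemma pk_refl0 (j : Fin d) (t : ℕ) {z : Fin d → ℤ} (hz : z j = 0) :
    pk d t (z - Pi.single j 1) = pk d t (z + Pi.single j 1) := by
  rw [← pk_rfz j t (z + Pi.single j 1)]
  congr 1
  funext k
  unfold rfz
  rw [Pi.add_apply, Pi.sub_apply]
  by_cases hk : k = j
  · subst hk; simp [hz]
  · simp [hk]

/-- the walk is unimodal -/
lemma pk_mono (hd : 1 ≤ d) (j : Fin d) (t : ℕ) (z : Fin d → ℤ) (hz : 0 ≤ z j) :
    pk d t (z + Pi.single j 1) ≤ pk d t z := by
  induction t generalizing z with
  | zero =>
    show (if z + Pi.single j 1 = 0 then (1:ℝ) else 0) ≤ if z = 0 then 1 else 0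
    rw [if_neg]
    · split_ifs <;> norm_num
    · intro h
      have := congrFun h j
      rw [Pi.add_apply, Pi.single_eq_same, Pi.zero_apply] at this
      omega
  | succ t ih =>
    rw [pk_succ, pk_succ, ← sub_nonneg]
    have hd0 : (1:ℝ) ≤ d := by exact_mod_cast hd
    have e1 : 1 / 2 * pk d t z + 1 / (4 * d : ℝ) *
        ∑ i, (pk d t (z + Pi.single i 1) + pk d t (z - Pi.single i 1)) -
        (1 / 2 * pk d t (z + Pi.single j 1) + 1 / (4 * d : ℝ) *
        ∑ i, (pk d t (z + Pi.single j 1 + Pi.single i 1) +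
          pk d t (z + Pi.single j 1 - Pi.single i 1))) =
        1 / 2 * (pk d t z - pk d t (z + Pi.single j 1)) + 1 / (4 * d : ℝ) *
        ∑ i, ((pk d t (z + Pi.single i 1) - pk d t (z + Pi.single i 1 + Pi.single j 1)) +
          (pk d t (z - Pi.single i 1) - pk d t (z - Pi.single i 1 + Pi.single j 1))) := by
      have a1 : ∀ i, z + Pi.single i 1 + Pi.single j 1 = z + Pi.single j 1 + Pi.single i 1 :=
        fun i => by abel
      have a2 : ∀ i, z - Pi.single i 1 + Pi.single j 1 = z + Pi.single j 1 - Pi.single i 1 :=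
        fun i => by abel
      simp only [a1, a2]
      rw [Finset.sum_add_distrib, Finset.sum_add_distrib, Finset.sum_add_distrib,
        Finset.sum_sub_distrib, Finset.sum_sub_distrib]
      ring
    rw [e1]
    have hD : 0 ≤ pk d t z - pk d t (z + Pi.single j 1) := sub_nonneg.2 (ih z hz)
    rw [← Finset.add_sum_erase Finset.univ _ (Finset.mem_univ j)]
    have hrest : 0 ≤ ∑ i ∈ Finset.univ.erase j,
        ((pk d t (z + Pi.single i 1) - pk d t (z + Pi.single i 1 + Pi.single j 1)) +
          (pk d t (z - Pi.single i 1) - pk d t (z - Pi.single i 1 + Pi.single j 1))) := by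
      refine Finset.sum_nonneg fun i hi => ?_
      have hij : j ≠ i := (Finset.ne_of_mem_erase hi).symm
      refine add_nonneg (sub_nonneg.2 (ih _ ?_)) (sub_nonneg.2 (ih _ ?_))
      · rw [Pi.add_apply, Pi.single_eq_of_ne hij]; omega
      · rw [Pi.sub_apply, Pi.single_eq_of_ne hij]; omega
    have hj1 : 0 ≤ pk d t (z + Pi.single j 1) - pk d t (z + Pi.single j 1 + Pi.single j 1) := by
      refine sub_nonneg.2 (ih _ ?_)
      rw [Pi.add_apply, Pi.single_eq_same]; omega
    have hj2 : -(pk d t z - pk d t (z + Pi.single j 1)) ≤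
        pk d t (z - Pi.single j 1) - pk d t (z - Pi.single j 1 + Pi.single j 1) := by
      rw [sub_add_cancel]
      rcases hz.lt_or_eq with h | h
      · have := ih (z - Pi.single j 1) (by rw [Pi.sub_apply, Pi.single_eq_same]; omega)
        rw [sub_add_cancel] at this
        linarith
      · rw [pk_refl0 j t h.symm]; linarith
    obtain ⟨D, hDe⟩ : ∃ D, D = pk d t z - pk d t (z + Pi.single j 1) := ⟨_, rfl⟩
    rw [← hDe] at hD hj2 ⊢
    have hc : 0 < 1 / (4 * d : ℝ) := by positivity
    have hc2 : 1 / (4 * d : ℝ) ≤ 1 / 2 := by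
      rw [div_le_div_iff₀ (by positivity) (by norm_num)]; linarith
    have h5 : 1 / (4 * d : ℝ) * (-D) ≤ 1 / (4 * d : ℝ) *
        ((pk d t (z + Pi.single j 1) - pk d t (z + Pi.single j 1 + Pi.single j 1)) +
          (pk d t (z - Pi.single j 1) - pk d t (z - Pi.single j 1 + Pi.single j 1)) +
          ∑ i ∈ Finset.univ.erase j,
        ((pk d t (z + Pi.single i 1) - pk d t (z + Pi.single i 1 + Pi.single j 1)) +
          (pk d t (z - Pi.single i 1) - pk d t (z - Pi.single i 1 + Pi.single j 1)))) :=
      mul_le_mul_of_nonneg_left (by linarith) hc.le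
    nlinarith

/-! ### the Green function -/

lemma green_def (z : Fin d → ℤ) : green d z = 1 / (4 * d : ℝ) * ∑' k, pk d k z := rfl

lemma pk_summable (hd : 3 ≤ d) (z : Fin d → ℤ) : Summable fun k => pk d k z := by
  obtain ⟨C, hC, h, -⟩ := a_TR d hd
  exact h z

lemma green_perm (σ : Equiv.Perm (Fin d)) (z : Fin d → ℤ) : green d (z ∘ σ) = green d z := by
  rw [green_def, green_def]
  simp only [pk_perm]

lemma green_rfz (j : Fin d) (z : Fin d → ℤ) : green d (rfz j z) = green d z := by
  rw [green_def, green_def]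
  simp only [pk_rfz]

lemma green_neg (z : Fin d → ℤ) : green d (-z) = green d z := by
  rw [green_def, green_def]
  simp only [pk_even]

lemma green_mono (hd : 3 ≤ d) (j : Fin d) (z : Fin d → ℤ) (hz : 0 ≤ z j) :
    green d (z + Pi.single j 1) ≤ green d z := by
  rw [green_def, green_def]
  refine mul_le_mul_of_nonneg_left ?_ (by positivity)
  exact (pk_summable hd _).tsum_le_tsum (fun k => pk_mono (by omega) j k z hz) (pk_summable hd _)

lemma green_lt (hd : 3 ≤ d) (j : Fin d) : green d (Pi.single j 1) < green d 0 := by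
  rw [green_def, green_def]
  have hd0 : (0:ℝ) < d := by exact_mod_cast (by omega : 0 < d)
  refine mul_lt_mul_of_pos_left ?_ (by positivity)
  refine Summable.tsum_lt_tsum (i := 0) (fun k => ?_) ?_ (pk_summable hd _) (pk_summable hd _)
  · have := pk_mono (by omega : 1 ≤ d) j k 0 le_rfl
    rwa [zero_add] at this
  · show (if (Pi.single j 1 : Fin d → ℤ) = 0 then (1:ℝ) else 0) <
      if (0 : Fin d → ℤ) = 0 then 1 else 0
    rw [if_neg, if_pos rfl]
    · norm_num
    · intro h
      have := congrFun h j
      simp at this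

lemma green_single (i j : Fin d) : green d (Pi.single i 1) = green d (Pi.single j 1) := by
  rw [← green_perm (Equiv.swap i j) (Pi.single i 1)]
  congr 1
  have h := single_comp (Equiv.swap i j) j
  rw [Equiv.swap_apply_right] at h
  exact h

lemma green_pair {i j i' j' : Fin d} (h : i ≠ j) (h' : i' ≠ j') :
    green d (Pi.single i 1 + Pi.single j 1) = green d (Pi.single i' 1 + Pi.single j' 1) := by
  obtain ⟨σ, h1, h2⟩ : ∃ σ : Equiv.Perm (Fin d), σ i' = i ∧ σ j' = j := by
    obtain ⟨c, hc⟩ : ∃ c, c = Equiv.swap i i' j' := ⟨_, rfl⟩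
    have h3 : c ≠ i := by
      intro h4
      rw [hc] at h4
      have h5 : Equiv.swap i i' j' = Equiv.swap i i' i' := by
        rw [h4, Equiv.swap_apply_right]
      exact h' ((Equiv.swap i i').injective h5).symm
    refine ⟨Equiv.swap c j * Equiv.swap i i', ?_, ?_⟩
    · rw [Equiv.Perm.mul_apply, Equiv.swap_apply_right, Equiv.swap_apply_of_ne_of_ne h3.symm h]
    · rw [Equiv.Perm.mul_apply, ← hc, Equiv.swap_apply_left]
  rw [← green_perm σ (Pi.single i 1 + Pi.single j 1)]
  congr 1
  rw [← h1, ← h2]
  show (Pi.single (σ i') 1 : Fin d → ℤ) ∘ σ + (Pi.single (σ j') 1 : Fin d → ℤ) ∘ σ = _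
  rw [single_comp, single_comp]

lemma green_pair' {i j : Fin d} (h : i ≠ j) :
    green d (Pi.single i 1 - Pi.single j 1) = green d (Pi.single i 1 + Pi.single j 1) := by
  rw [← green_rfz j]
  congr 1
  funext k
  unfold rfz
  rw [Pi.add_apply, Pi.sub_apply]
  by_cases hk : k = j
  · subst hk; rw [if_pos rfl, Pi.single_eq_of_ne (Ne.symm h), Pi.single_eq_same]; norm_num
  · rw [if_neg hk, Pi.single_eq_of_ne hk]; norm_num

lemma ll_single (i : Fin d) (s : ℤ) : ll (Pi.single i s : Fin d → ℤ) = |(s : ℝ)| := by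
  unfold ll
  rw [Finset.sum_eq_single i]
  · rw [Pi.single_eq_same]
  · intro j _ hj
    rw [Pi.single_eq_of_ne hj]; simp
  · intro h; exact absurd (Finset.mem_univ _) h

lemma ll_tri (x y : Fin d → ℤ) : ll x ≤ ll (x + y) + ll y := by
  unfold ll
  rw [← Finset.sum_add_distrib]
  refine Finset.sum_le_sum fun i _ => ?_
  rw [Pi.add_apply]
  push_cast
  have := abs_sub ((x i : ℝ) + y i) (y i)
  rw [add_sub_cancel_right] at this
  exact this

/-- the decay of the Green function -/
lemma green_decay (hd : 3 ≤ d) (i : Fin d) (y : Fin d → ℤ) :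
    Tendsto (fun s : ℕ => green d (Pi.single i (s : ℤ) + y)) atTop (𝓝 0) := by
  obtain ⟨C, hC, hsup⟩ := a_SUP d (by omega)
  have h1 : Tendsto (fun s : ℕ => ∑' k, pk d k (Pi.single i (s : ℤ) + y)) atTop
      (𝓝 (∑' k : ℕ, (0:ℝ))) := by
    have hbs : Summable fun k : ℕ => (if k = 0 then (1:ℝ) else C / Real.sqrt k ^ d) := by
      rw [← summable_nat_add_iff 1]
      have h2 : Summable fun k : ℕ => C * (1 / Real.sqrt ((k + 1 : ℕ) : ℝ) ^ 3) :=
        ((summable_nat_add_iff 1).2 summable_sqrt3).mul_left C
      refine Summable.of_nonneg_of_le (fun k => ?_) (fun k => ?_) h2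
      · rw [if_neg (by omega)]; positivity
      · rw [if_neg (by omega), mul_one_div]
        have h3 : (1:ℝ) ≤ Real.sqrt ((k + 1 : ℕ) : ℝ) := Real.one_le_sqrt.2 (by
          exact_mod_cast Nat.le_add_left 1 k)
        exact div_le_div_of_nonneg_left hC.le (by positivity) (pow_le_pow_right₀ h3 hd)
    refine tendsto_tsum_of_dominated_convergence hbs (fun k => ?_) ?_
    · refine tendsto_const_nhds.congr' ?_
      obtain ⟨M, hM⟩ := exists_nat_gt ((k : ℝ) + ll y)
      filter_upwards [eventually_ge_atTop M] with s hs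
      have hs' : (M : ℝ) ≤ s := by exact_mod_cast hs
      rw [pk_supp]
      have h3 := ll_tri (Pi.single i (s : ℤ)) y
      rw [ll_single] at h3
      have h4 : |((s : ℤ) : ℝ)| = s := by rw [Int.cast_natCast, Nat.abs_cast]
      rw [h4] at h3
      linarith
    · refine Eventually.of_forall fun s k => ?_
      obtain ⟨h3, h4⟩ := hsup k (Pi.single i (s : ℤ) + y)
      rw [Real.norm_eq_abs, abs_of_nonneg h3]
      split_ifs with hk
      · subst hk
        show (if (Pi.single i (s : ℤ) + y : Fin d → ℤ) = 0 then (1:ℝ) else 0) ≤ 1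
        split_ifs <;> norm_num
      · exact h4 (by omega)
  rw [tsum_zero] at h1
  have h2 := h1.const_mul (1 / (4 * d : ℝ))
  rw [mul_zero] at h2
  exact h2

end

end Pool.Agent.Y16.YM
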