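import Mathlib
import Pool.Agent.Y16.YM.Cov
import Pool.Agent.Y16.YM.Grn

/-!
# The limit does not vanish
-/

open MeasureTheory Matrix Filter
open scoped Matrix.Norms.Frobenius Topology
open Pool.Agent.H906R3.YM Pool.Agent.W793.YM Pool.Agent.TH940.YM
open Pool.Agent.W793.SCH (haf Near pk gK DD mx el TK S_B1 S_B2 S_TR S_W1 S_HAF green plaq_moment2)

namespace Pool.Agent.Y16.YM

set_option linter.unusedSectionVars false
set_option linter.unusedVariables false
set_option maxHeartbeats 400000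

noncomputable section

variable {d : ℕ}

/-! ### the value at the origin -/

lemma lm_val (p q : Fin d × Fin d) (x : Zp d) : lm p q x =
    -(if p.2 = q.2 then DD p.1 q.1 (green d) x else 0) +
      (if p.2 = q.1 then DD p.1 q.2 (green d) x else 0) +
      (if p.1 = q.2 then DD p.2 q.1 (green d) x else 0) -
      (if p.1 = q.1 then DD p.2 q.2 (green d) x else 0) := rfl

lemma DD_val (j l : Fin d) (z : Zp d) : DD j l (green d) z = green d (z + Pi.single j 1) -
    green d z - green d (z + Pi.single j 1 - Pi.single l 1) + green d (z - Pi.single l 1) := rfl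

section val

variable {i0 i1 i2 : Fin d}

/-- the first difference of the Green function -/
def ga (i0 : Fin d) : ℝ := green d 0 - green d (Pi.single i0 1)

/-- the second difference of the Green function -/
def gm (i0 i1 : Fin d) : ℝ := green d (Pi.single i0 1) - green d (Pi.single i0 1 + Pi.single i1 1)

lemma DD0 (h01 : i0 ≠ i1) {j l : Fin d} (h : j ≠ l) :
    DD j l (green d) 0 = -(ga i0 - gm i0 i1) := by
  rw [DD_val, zero_add, zero_sub, green_neg, green_pair' h, green_pair h h01, green_single j i0,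
    green_single l i0]
  unfold ga gm; ring

lemma DD0' (j : Fin d) : DD j j (green d) 0 = -(2 * ga i0) := by
  rw [DD_val, zero_add, zero_sub, green_neg, sub_self, green_single j i0]
  unfold ga; ring

lemma DD1 (h01 : i0 ≠ i1) {j l : Fin d} (h : j ≠ l) :
    DD j l (green d) (Pi.single l 1) = ga i0 - gm i0 i1 := by
  rw [DD_val, sub_self, add_sub_cancel_left, green_pair h.symm h01, green_single j i0,
    green_single l i0]
  unfold ga gm; ring

lemma DD2 (h01 : i0 ≠ i1) {j i : Fin d} (h : i ≠ j) :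
    DD j j (green d) (Pi.single i 1) = -(2 * gm i0 i1) := by
  rw [DD_val, add_sub_cancel_right, green_pair' h, green_pair h h01, green_single i i0]
  unfold gm; ring

lemma pl_tree {i : Fin d} {x : Zp d} (h : ∀ k, i < k → x k = 0) (q : Fin d × Fin d) :
    pl i x q = 0 := pot_tree _ h

lemma pl_step {i j : Fin d} (hij : i < j) {x : Zp d} (h : ∀ k, j < k → x k = 0)
    (q : Fin d × Fin d) : pl i (x + ez j) q = pl i x q + lm (j, i) q x := pot_step _ hij h

lemma dT_val (h01 : i0 < i1) (h12 : i1 < i2) :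
    dT (omF (i0, i1) (i1, i2)) i0 i1 i2 0 =
      2 * ga i0 ^ 2 + 28 * ga i0 * gm i0 i1 + 2 * gm i0 i1 ^ 2 := by
  have h02 : i0 < i2 := h01.trans h12
  have z0 : ∀ (i : Fin d) q, pl i 0 q = 0 := fun i q => pl_tree (fun _ _ => rfl) q
  have t0 : ∀ k, i1 < k → (ez i0 : Zp d) k = 0 := fun k hk => ez_ne (h01.trans hk).ne'
  have t0' : ∀ k, i2 < k → (ez i0 : Zp d) k = 0 := fun k hk => ez_ne (h02.trans hk).ne'
  have t1 : ∀ k, i1 < k → (ez i1 : Zp d) k = 0 := fun k hk => ez_ne hk.ne'
  have t1' : ∀ k, i2 < k → (ez i1 : Zp d) k = 0 := fun k hk => ez_ne (h12.trans hk).ne'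
  have t2 : ∀ k, i2 < k → (ez i2 : Zp d) k = 0 := fun k hk => ez_ne hk.ne'
  -- the potentials
  have a1 : ∀ q, pl i1 (ez i0) q = 0 := fun q => pl_tree t0 q
  have a2 : ∀ q, pl i2 (ez i0 + ez i1) q = 0 := fun q => pl_tree (fun k hk => by
    rw [Pi.add_apply, t0' k hk, t1' k hk, add_zero]) q
  have a3 : ∀ q, pl i1 (ez i0 + ez i2) q = lm (i2, i1) q (ez i0) := fun q => by
    rw [pl_step h12 t0', a1, zero_add]
  have a4 : ∀ q, pl i2 (ez i0) q = 0 := fun q => pl_tree t0' q
  have a5 : ∀ q, pl i2 (ez i1) q = 0 := fun q => pl_tree t1' q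
  have b1 : ∀ q, pl i1 (ez i2) q = lm (i2, i1) q 0 := fun q => by
    have := pl_step h12 (x := 0) (fun _ _ => rfl) q
    rwa [z0, zero_add, zero_add] at this
  have b2 : ∀ q, pl i0 (ez i2) q = lm (i2, i0) q 0 := fun q => by
    have := pl_step h02 (x := 0) (fun _ _ => rfl) q
    rwa [z0, zero_add, zero_add] at this
  have b3 : ∀ q, pl i0 (ez i1) q = lm (i1, i0) q 0 := fun q => by
    have := pl_step h01 (x := 0) (fun _ _ => rfl) q
    rwa [z0, zero_add, zero_add] at this
  have b4 : ∀ q, pl i0 (ez i1 + ez i2) q = lm (i1, i0) q 0 + lm (i2, i0) q (ez i1) := fun q => by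
    rw [pl_step h02 t1', b3]
  have c1 : (ez i1 + ez i0 : Zp d) = ez i0 + ez i1 := add_comm _ _
  have c2 : (ez i2 + ez i0 : Zp d) = ez i0 + ez i2 := add_comm _ _
  have c3 : (ez i2 + ez i1 : Zp d) = ez i1 + ez i2 := add_comm _ _
  -- the values of the covariances
  have n1 := h01.ne
  have n2 := h12.ne
  have n3 := h02.ne
  have n1' := h01.ne'
  have n2' := h12.ne'
  have n3' := h02.ne'
  have Pq : lm (i1, i0) (i0, i1) 0 = -(4 * ga i0) := by
    rw [lm_val]
    simp only [n1, n1', if_true, if_false, DD0' (i0 := i0)]; ring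
  have Pr : lm (i1, i0) (i1, i2) 0 = ga i0 - gm i0 i1 := by
    rw [lm_val]
    simp only [n1, n2, n3, if_true, if_false, DD0 n1 n3]; ring
  have QA : lm (i2, i0) (i0, i1) 0 = -(ga i0 - gm i0 i1) := by
    rw [lm_val]
    simp only [n1, n2', n3', if_true, if_false, DD0 n1 n2']; ring
  have QB : lm (i2, i0) (i1, i2) 0 = -(ga i0 - gm i0 i1) := by
    rw [lm_val]
    simp only [n1, n2', n3, if_true, if_false, DD0 n1 n1]; ring
  have Rq : lm (i2, i1) (i0, i1) 0 = ga i0 - gm i0 i1 := by
    rw [lm_val]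
    simp only [n1', n2', n3', if_true, if_false, DD0 n1 n3']; ring
  have Rr : lm (i2, i1) (i1, i2) 0 = -(4 * ga i0) := by
    rw [lm_val]
    simp only [n2, n2', if_true, if_false, DD0' (i0 := i0)]; ring
  have Sq : lm (i2, i0) (i0, i1) (ez i1) = ga i0 - gm i0 i1 := by
    rw [lm_val]
    simp only [n1, n2', n3', if_true, if_false, DD1 n1 n2']; ring
  have Sr : lm (i2, i0) (i1, i2) (ez i1) = ga i0 - gm i0 i1 := by
    rw [lm_val]
    simp only [n1, n2', n3, if_true, if_false, DD1 n1 n1]; ring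
  have Tq : lm (i2, i1) (i0, i1) (ez i0) = -(ga i0 - gm i0 i1) := by
    rw [lm_val]
    simp only [n1', n2', n3', if_true, if_false, DD1 n1 n3']; ring
  have Tr : lm (i2, i1) (i1, i2) (ez i0) = -(4 * gm i0 i1) := by
    rw [lm_val]
    simp only [n2, n2', if_true, if_false, DD2 n1 n3, DD2 n1 n1]; ring
  unfold dT nb omF omL w4t dt
  simp only [zero_add, z0, c1, c2, c3, a1, a2, a3, a4, a5, b1, b2, b3, b4, Pq, Pr, QA, QB, Rq, Rr,
    Sq, Sr, Tq, Tr]
  ring

lemma dT_pos (hd : 3 ≤ d) (h01 : i0 < i1) (h12 : i1 < i2) :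
    0 < dT (omF (i0, i1) (i1, i2)) i0 i1 i2 0 := by
  rw [dT_val h01 h12]
  have h1 : 0 < ga i0 := sub_pos.2 (green_lt hd i0)
  have h2 : 0 ≤ gm i0 i1 := sub_nonneg.2 (green_mono hd i1 _ (by
    rw [Pi.single_eq_of_ne h01.ne']))
  positivity

end val

/-! ### the decay -/

section decay

lemma ite_lim {c : Prop} [Decidable c] {f : ℕ → ℝ} (h : Tendsto f atTop (𝓝 0)) :
    Tendsto (fun s => if c then f s else 0) atTop (𝓝 0) := by
  by_cases hc : c
  · simp only [if_pos hc]; exact h
  · simp only [if_neg hc]; exact tendsto_const_nhds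

lemma DD_decay (hd : 3 ≤ d) (i j l : Fin d) (y : Zp d) :
    Tendsto (fun s : ℕ => DD j l (green d) (Pi.single i (s : ℤ) + y)) atTop (𝓝 0) := by
  have h1 := green_decay hd i (y + Pi.single j 1)
  have h2 := green_decay hd i y
  have h3 := green_decay hd i (y + Pi.single j 1 - Pi.single l 1)
  have h4 := green_decay hd i (y - Pi.single l 1)
  have h := ((h1.sub h2).sub h3).add h4
  have e : (0:ℝ) - 0 - 0 + 0 = 0 := by ring
  rw [e] at h
  refine h.congr fun s => ?_
  rw [DD_val]
  simp only [add_assoc, add_sub_assoc]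

lemma lm_decay (hd : 3 ≤ d) (i : Fin d) (p q : Fin d × Fin d) (y : Zp d) :
    Tendsto (fun s : ℕ => lm p q (Pi.single i (s : ℤ) + y)) atTop (𝓝 0) := by
  simp only [lm_val]
  have h := (((ite_lim (c := p.2 = q.2) (DD_decay hd i p.1 q.1 y)).neg.add
    (ite_lim (c := p.2 = q.1) (DD_decay hd i p.1 q.2 y))).add
    (ite_lim (c := p.1 = q.2) (DD_decay hd i p.2 q.1 y))).sub
    (ite_lim (c := p.1 = q.1) (DD_decay hd i p.2 q.2 y))
  have e : -(0:ℝ) + 0 + 0 - 0 = 0 := by ring
  rw [e] at h
  exact h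

lemma pl_decay (hd : 3 ≤ d) {i0 i : Fin d} (hi : i0 ≤ i) (q : Fin d × Fin d) (y : Zp d) :
    Tendsto (fun s : ℕ => pl i (Pi.single i0 (s : ℤ) + y) q) atTop (𝓝 0) := by
  have e : ∀ s : ℕ, pl i (Pi.single i0 (s : ℤ) + y) q = ∑ j, if i < j then
      (∑ t ∈ Finset.Ico 0 (y j), lm (j, i) q (Pi.single i0 (s : ℤ) + cut y j t)) -
      ∑ t ∈ Finset.Ico (y j) 0, lm (j, i) q (Pi.single i0 (s : ℤ) + cut y j t) else 0 := by
    intro s
    unfold pl pot
    refine Finset.sum_congr rfl fun j _ => ?_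
    by_cases hj : i < j
    · have h0 : i0 < j := lt_of_le_of_lt hi hj
      have e1 : (Pi.single i0 (s : ℤ) + y : Zp d) j = y j := by
        rw [Pi.add_apply, Pi.single_eq_of_ne h0.ne', zero_add]
      have e2 : ∀ t, cut (Pi.single i0 (s : ℤ) + y : Zp d) j t =
          Pi.single i0 (s : ℤ) + cut y j t := by
        intro t
        funext k
        rw [Pi.add_apply]
        unfold cut
        split_ifs with h1 h2
        · rfl
        · rw [Pi.single_eq_of_ne (by rw [h2]; exact h0.ne'), zero_add]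
        · have h3 : i0 < k := lt_of_lt_of_le h0 (not_lt.1 h1)
          rw [Pi.single_eq_of_ne h3.ne', zero_add]
      rw [if_pos hj, if_pos hj, e1]
      simp only [e2]
    · rw [if_neg hj, if_neg hj]
  simp only [e]
  have h : Tendsto (fun s : ℕ => ∑ j, if i < j then
      (∑ t ∈ Finset.Ico 0 (y j), lm (j, i) q (Pi.single i0 (s : ℤ) + cut y j t)) -
      ∑ t ∈ Finset.Ico (y j) 0, lm (j, i) q (Pi.single i0 (s : ℤ) + cut y j t) else 0) atTop
      (𝓝 (∑ j : Fin d, (0:ℝ))) := by
    refine tendsto_finsetSum _ fun j _ => ite_lim ?_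
    have h1 : ∀ S : Finset ℤ, Tendsto (fun s : ℕ => ∑ t ∈ S, lm (j, i) q
        (Pi.single i0 (s : ℤ) + cut y j t)) atTop (𝓝 (∑ t ∈ S, (0:ℝ))) := fun S =>
      tendsto_finsetSum _ fun t _ => lm_decay hd i0 _ _ _
    have h2 := (h1 (Finset.Ico 0 (y j))).sub (h1 (Finset.Ico (y j) 0))
    rw [Finset.sum_const_zero, Finset.sum_const_zero, sub_zero] at h2
    exact h2
  rw [Finset.sum_const_zero] at h
  exact h

lemma dt_decay {a b : ℕ → Fin d × Fin d → ℝ}
    (ha : ∀ q, Tendsto (fun s => a s q) atTop (𝓝 0))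
    (hb : ∀ q, Tendsto (fun s => b s q) atTop (𝓝 0)) (q r : Fin d × Fin d) :
    Tendsto (fun s => dt (a s) (b s) q r) atTop (𝓝 0) := by
  have h := ((ha q).mul (hb r)).sub ((ha r).mul (hb q))
  rw [mul_zero, sub_zero] at h
  exact h

lemma omL_decay (hd : 3 ≤ d) {i0 j k : Fin d} (hj : i0 ≤ j) (hk : i0 ≤ k) (q r : Fin d × Fin d)
    (y : Zp d) :
    Tendsto (fun s : ℕ => omL j k (Pi.single i0 (s : ℤ) + y) q r) atTop (𝓝 0) := by
  have h1 : ∀ q, Tendsto (fun s : ℕ => pl j (Pi.single i0 (s : ℤ) + y) q) atTop (𝓝 0) :=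
    fun q => pl_decay hd hj q y
  have h2 : ∀ q, Tendsto (fun s : ℕ => pl k (Pi.single i0 (s : ℤ) + y + ez j) q) atTop (𝓝 0) :=
    fun q => by
      have := pl_decay hd hk q (y + ez j)
      simpa only [← add_assoc] using this
  have h3 : ∀ q, Tendsto (fun s : ℕ => pl j (Pi.single i0 (s : ℤ) + y + ez k) q) atTop (𝓝 0) :=
    fun q => by
      have := pl_decay hd hj q (y + ez k)
      simpa only [← add_assoc] using this
  have h4 : ∀ q, Tendsto (fun s : ℕ => pl k (Pi.single i0 (s : ℤ) + y) q) atTop (𝓝 0) :=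
    fun q => pl_decay hd hk q y
  have h := (((((dt_decay h1 h2 q r).sub (dt_decay h1 h3 q r)).sub (dt_decay h1 h4 q r)).sub
    (dt_decay h2 h3 q r)).sub (dt_decay h2 h4 q r)).add (dt_decay h3 h4 q r)
  have e : (0:ℝ) - 0 - 0 - 0 - 0 + 0 = 0 := by ring
  rw [e] at h
  exact h

lemma dT_decay (hd : 3 ≤ d) {i0 i1 i2 : Fin d} (h01 : i0 < i1) (h12 : i1 < i2)
    (q r : Fin d × Fin d) :
    Tendsto (fun s : ℕ => dT (omF q r) i0 i1 i2 (Pi.single i0 (s : ℤ))) atTop (𝓝 0) := by
  have h02 := h01.trans h12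
  have hl : ∀ (i j k : Fin d), i0 ≤ j → i0 ≤ k → Tendsto (fun s : ℕ =>
      nb i (omF q r j k) (Pi.single i0 (s : ℤ))) atTop (𝓝 0) := by
    intro i j k hj hk
    have h1 := (omL_decay hd hj hk q r (Pi.single i 1)).sub (omL_decay hd hj hk q r 0)
    rw [sub_zero] at h1
    simp only [add_zero] at h1
    exact h1
  have h := ((hl i0 i1 i2 h01.le h02.le).add (hl i1 i2 i0 h02.le le_rfl)).add
    (hl i2 i0 i1 le_rfl h01.le)
  have e : (0:ℝ) + 0 + 0 = 0 := by ring
  rw [e] at h
  exact h

end decay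

/-! ### vanishing differences -/

/-- the difference of a sequence -/
def Df (f : ℕ → ℝ) : ℕ → ℝ := fun s => f (s + 1) - f s

lemma seq_zero {f : ℕ → ℝ} (h : ∀ k, (Df^[k] f) 0 = 0) (s : ℕ) : f s = 0 := by
  induction s generalizing f with
  | zero => exact h 0
  | succ s ih =>
    have h1 : Df f s = 0 := ih fun k => by
      rw [← Function.iterate_succ_apply]; exact h (k + 1)
    have h2 := ih h
    unfold Df at h1
    linarith

lemma poly_zero (m : ℕ) {f : ℕ → ℝ} (h : ∀ k, m ≤ k → (Df^[k] f) 0 = 0)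
    (hlim : Tendsto f atTop (𝓝 0)) (s : ℕ) : f s = 0 := by
  induction m generalizing f s with
  | zero => exact seq_zero (fun k => h k (Nat.zero_le k)) s
  | succ m ih =>
    have h1 : ∀ s, Df f s = 0 := by
      refine fun s => ih (fun k hk => ?_) ?_ s
      · rw [← Function.iterate_succ_apply]
        exact h (k + 1) (by omega)
      · have := (hlim.comp (tendsto_add_atTop_nat 1)).sub hlim
        rw [sub_zero] at this
        exact this
    have h2 : ∀ s, f s = f 0 := by
      intro s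
      induction s with
      | zero => rfl
      | succ s ih2 =>
        have := h1 s
        unfold Df at this
        linarith
    have h3 : Tendsto f atTop (𝓝 (f 0)) :=
      tendsto_const_nhds.congr fun s => (h2 s).symm
    rw [h2 s]
    exact tendsto_nhds_unique h3 hlim

lemma dF_rep (i : Fin d) (k : ℕ) (F : Fz' d) (s : ℕ) :
    dF (List.replicate k i) F (Pi.single i (s : ℤ)) =
      (Df^[k] fun s : ℕ => F (Pi.single i (s : ℤ))) s := by
  induction k generalizing s with
  | zero => rfl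
  | succ k ih =>
    rw [Function.iterate_succ_apply']
    show dF (List.replicate k i) F (Pi.single i (s : ℤ) + Pi.single i 1) -
      dF (List.replicate k i) F (Pi.single i (s : ℤ)) = _
    have e : (Pi.single i (s : ℤ) + Pi.single i 1 : Fin d → ℤ) = Pi.single i ((s + 1 : ℕ) : ℤ) := by
      rw [← Pi.single_add]; push_cast; rfl
    rw [e, ih, ih]
    rfl

lemma dF_perm {J J' : List (Fin d)} (h : J.Perm J') (g : Fz' d) : dF J g = dF J' g := by
  induction h with
  | nil => rfl
  | cons i h ih => rw [dF_cons, dF_cons, ih]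
  | swap i j J =>
    rw [dF_cons, dF_cons, dF_cons, dF_cons]
    funext z
    unfold nb
    rw [add_right_comm z]
    ring
  | trans h1 h2 ih1 ih2 => rw [ih1, ih2]

lemma dF_add (J : List (Fin d)) (g g' : Fz' d) (x : Zp d) :
    dF J (fun z => g z + g' z) x = dF J g x + dF J g' x := by
  induction J generalizing x with
  | nil => rfl
  | cons i J ih =>
    show dF J (fun z => g z + g' z) (x + Pi.single i 1) - dF J (fun z => g z + g' z) x = _
    rw [ih, ih, dF_cons, dF_cons]
    unfold nb; ring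

lemma dF_smul (J : List (Fin d)) (c : ℝ) (g : Fz' d) (x : Zp d) :
    dF J (fun z => c * g z) x = c * dF J g x := by
  induction J generalizing x with
  | nil => rfl
  | cons i J ih =>
    show dF J (fun z => c * g z) (x + Pi.single i 1) - dF J (fun z => c * g z) x = _
    rw [ih, ih, dF_cons]
    unfold nb; ring

lemma dF_tendsto {X : Type*} {F : Filter X} (J : List (Fin d)) {g : X → Fz' d} {g' : Fz' d}
    (h : ∀ z, Tendsto (fun x => g x z) F (𝓝 (g' z))) (z : Zp d) :
    Tendsto (fun x => dF J (g x) z) F (𝓝 (dF J g' z)) := by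
  induction J generalizing z with
  | nil => exact h z
  | cons i J ih => exact (ih _).sub (ih _)

section model

variable {G : Type} [Group G] [TopologicalSpace G] [IsTopologicalGroup G] [CompactSpace G]
  [SecondCountableTopology G] [MeasurableSpace G] [BorelSpace G] (μ : Measure G)
  [IsProbabilityMeasure μ] [μ.IsMulLeftInvariant] [μ.IsMulRightInvariant] [μ.IsInvInvariant]
  {N n : ℕ} {L : LD G N n}

include μ in
/-- the differential of the limit -/
lemma three_dT {CT : ℝ} (hTg : Tg L CT) (hd : 3 ≤ d) (hB : S_B2) (hT : S_TR) (hW : S_W1)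
    (hH : S_HAF) (hcG : cG L ≠ 0) {q r : Fin d × Fin d} (hq : q.1 ≠ q.2) (hr : r.1 ≠ r.2)
    (i j k : Fin d) (J : List (Fin d)) (hJ : 2 ≤ J.length) :
    three (i :: J) (j, k) q r + three (j :: J) (k, i) q r + three (k :: J) (i, j) q r =
      dF J (dT (omF q r) i j k) 0 := by
  have hl : ∀ a b c : Fin d, Tendsto (fun z => dF (a :: J) (ta μ L z q r b c) 0) FB
      (𝓝 (cG L * three (a :: J) (b, c) q r)) := fun a b c =>
    main_lim μ hTg hd hB hT hW hH hq hr (b, c) (a :: J) (by rw [List.length_cons]; omega)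
  have h1 := ((hl i j k).add (hl j k i)).add (hl k i j)
  have h2 : Tendsto (fun z => dF J (dT (fun j k x => pe μ L z q r (om L j k x)) i j k) 0) FB
      (𝓝 (dF J (fun x => cG L * dT (omF q r) i j k x) 0)) := by
    refine dF_tendsto J (fun x => ?_) 0
    have ho : ∀ (j k : Fin d) (x : Zp d), Tendsto (fun z => pe μ L z q r (om L j k x)) FB
        (𝓝 (cG L * omF q r j k x)) := fun j k x => om_lim μ hTg hd hB hT hW hH hq hr j k x
    have e : cG L * dT (omF q r) i j k x = (cG L * omF q r j k (x + Pi.single i 1) -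
        cG L * omF q r j k x) + (cG L * omF q r k i (x + Pi.single j 1) -
        cG L * omF q r k i x) + (cG L * omF q r i j (x + Pi.single k 1) -
        cG L * omF q r i j x) := by
      unfold dT nb; ring
    rw [e]
    exact (((ho j k _).sub (ho j k _)).add ((ho k i _).sub (ho k i _))).add
      ((ho i j _).sub (ho i j _))
  rw [dF_smul] at h2
  have h3 : ∀ z, dF (i :: J) (ta μ L z q r j k) 0 + dF (j :: J) (ta μ L z q r k i) 0 +
      dF (k :: J) (ta μ L z q r i j) 0 =
      dF J (dT (fun j k x => pe μ L z q r (om L j k x)) i j k) 0 := by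
    intro z
    have e1 : dT (fun j k x => pe μ L z q r (om L j k x)) i j k = dT (ta μ L z q r) i j k := by
      funext x
      exact (dT_exact (fun j k x => pe μ L z q r (om L j k x))
        (fun i x => pe μ L z q r (am L i x)) (fun j k x => ta_exact μ z q r j k x) i j k x).symm
    have e2 : dT (ta μ L z q r) i j k = fun x => (nb i (ta μ L z q r j k) x +
        nb j (ta μ L z q r k i) x) + nb k (ta μ L z q r i j) x := rfl
    rw [e1, e2, dF_add, dF_add, dF_nb, dF_nb, dF_nb]
    rfl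
  have h4 : Tendsto (fun z => dF (i :: J) (ta μ L z q r j k) 0 +
      dF (j :: J) (ta μ L z q r k i) 0 + dF (k :: J) (ta μ L z q r i j) 0) FB
      (𝓝 (cG L * dF J (dT (omF q r) i j k) 0)) := h2.congr fun z => (h3 z).symm
  have h5 := tendsto_nhds_unique h1 h4
  have h6 : cG L * (three (i :: J) (j, k) q r + three (j :: J) (k, i) q r +
      three (k :: J) (i, j) q r) = cG L * dF J (dT (omF q r) i j k) 0 := by
    rw [← h5]; ring
  exact mul_left_cancel₀ hcG h6

include μ in
/-- the limit is symmetric in the directions of the derivatives -/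
lemma three_perm {CT : ℝ} (hTg : Tg L CT) (hd : 3 ≤ d) (hB : S_B2) (hT : S_TR) (hW : S_W1)
    (hH : S_HAF) (hcG : cG L ≠ 0) {q r : Fin d × Fin d} (hq : q.1 ≠ q.2) (hr : r.1 ≠ r.2)
    (p : Fin d × Fin d) {J J' : List (Fin d)} (hJ : 3 ≤ J.length) (hp : J.Perm J') :
    three J p q r = three J' p q r := by
  have h1 := main_lim μ hTg hd hB hT hW hH hq hr p J hJ
  have h2 := main_lim μ hTg hd hB hT hW hH hq hr p J' (hp.length_eq ▸ hJ)
  have h3 : Tendsto (fun z => dF J (ta μ L z q r p.1 p.2) 0) FB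
      (𝓝 (cG L * three J' p q r)) := h2.congr fun z => by rw [dF_perm hp]
  exact mul_left_cancel₀ hcG (tendsto_nhds_unique h1 h3)

include μ in
/-- **The limit does not vanish.** -/
theorem three_ne {CT : ℝ} (hTg : Tg L CT) (hd : 3 ≤ d) (hB : S_B2) (hT : S_TR) (hW : S_W1)
    (hH : S_HAF) (hcG : cG L ≠ 0) {i0 i1 i2 : Fin d} (h01 : i0 < i1) (h12 : i1 < i2) (m : ℕ) :
    ∃ (J : List (Fin d)) (p : Fin d × Fin d), J.Pairwise (· ≤ ·) ∧ m ≤ J.length ∧
      p.1 ≠ p.2 ∧ three J p (i0, i1) (i1, i2) ≠ 0 := by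
  by_contra hc
  push Not at hc
  have h02 := h01.trans h12
  have hsort : ∀ (a : Fin d) (k : ℕ), i0 ≤ a →
      (List.replicate k i0 ++ [a]).Pairwise (· ≤ ·) := by
    intro a k ha
    rw [List.pairwise_append]
    refine ⟨List.pairwise_replicate.2 (Or.inr le_rfl), List.pairwise_singleton _ _,
      fun x hx y hy => ?_⟩
    rw [List.eq_of_mem_replicate hx, List.mem_singleton.1 hy]
    exact ha
  have hz : ∀ (a : Fin d) (k : ℕ) (p : Fin d × Fin d), i0 ≤ a → m ≤ k → 2 ≤ k → p.1 ≠ p.2 →
      three (a :: List.replicate k i0) p (i0, i1) (i1, i2) = 0 := by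
    intro a k p ha hk hk2 hp
    rw [three_perm μ hTg hd hB hT hW hH hcG (q := (i0, i1)) (r := (i1, i2)) h01.ne h12.ne p
      (J' := List.replicate k i0 ++ [a]) (by rw [List.length_cons, List.length_replicate]; omega)
      (by
        have : (List.replicate k i0 ++ [a]).Perm ([a] ++ List.replicate k i0) :=
          List.perm_append_comm
        exact this.symm)]
    exact hc _ p (hsort a k ha) (by
      rw [List.length_append, List.length_replicate]; exact hk.trans (Nat.le_add_right _ _)) hp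
  have hv : ∀ k, max m 2 ≤ k → (Df^[k] fun s : ℕ =>
      dT (omF (i0, i1) (i1, i2)) i0 i1 i2 (Pi.single i0 (s : ℤ))) 0 = 0 := by
    intro k hk
    have hk1 : m ≤ k := (le_max_left _ _).trans hk
    have hk2 : 2 ≤ k := (le_max_right _ _).trans hk
    rw [← dF_rep]
    have e : (Pi.single i0 ((0 : ℕ) : ℤ) : Fin d → ℤ) = 0 := by
      rw [Nat.cast_zero, Pi.single_zero]
    rw [e, ← three_dT μ hTg hd hB hT hW hH hcG (q := (i0, i1)) (r := (i1, i2)) h01.ne h12.ne
      i0 i1 i2 (List.replicate k i0) (by rw [List.length_replicate]; exact hk2),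
      hz i0 k _ le_rfl hk1 hk2 h12.ne, hz i1 k _ h01.le hk1 hk2 h02.ne',
      hz i2 k _ h02.le hk1 hk2 h01.ne]
    ring
  have h0 := poly_zero (max m 2) hv (dT_decay hd h01 h12 _ _) 0
  have e : (Pi.single i0 ((0 : ℕ) : ℤ) : Fin d → ℤ) = 0 := by
    rw [Nat.cast_zero, Pi.single_zero]
  rw [e] at h0
  exact (dT_pos hd h01 h12).ne' h0

end model

/-- the structure constants of a non abelian Lie algebra -/
lemma cG_pos {G : Type} [Group G] [TopologicalSpace G] [IsTopologicalGroup G] [CompactSpace G]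
    [SecondCountableTopology G] [MeasurableSpace G] [BorelSpace G] {N n : ℕ} {L : LD G N n}
    {a b : Fin n} (h : L.X a * L.X b ≠ L.X b * L.X a) : 0 < cG L := by
  have h0 : ∀ c, 0 ≤ ∑ a, ∑ b, hh L c a b ^ 2 := fun c =>
    Finset.sum_nonneg fun a _ => Finset.sum_nonneg fun b _ => sq_nonneg _
  by_contra hc
  have h1 : cG L = 0 := le_antisymm (not_lt.1 hc) (Finset.sum_nonneg fun c _ => h0 c)
  unfold cG at h1
  rw [Finset.sum_eq_zero_iff_of_nonneg fun c _ => h0 c] at h1
  have h2 : ∀ c a b, hh L c a b = 0 := by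
    intro c a b
    have h3 := h1 c (Finset.mem_univ _)
    rw [Finset.sum_eq_zero_iff_of_nonneg fun a _ => Finset.sum_nonneg fun b _ => sq_nonneg _] at h3
    have h4 := h3 a (Finset.mem_univ _)
    rw [Finset.sum_eq_zero_iff_of_nonneg fun b _ => sq_nonneg _] at h4
    exact pow_eq_zero_iff (two_ne_zero) |>.1 (h4 b (Finset.mem_univ _))
  obtain ⟨c, hcx⟩ := (Submodule.mem_span_range_iff_exists_fun ℝ).1 (L.brk_mem a b)
  have h5 : ∀ e, c e = 0 := by
    intro e
    have h6 : ip (L.X e) (∑ i, c i • L.X i) = c e := by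
      rw [map_sum]
      simp only [map_smul, ip_X, smul_eq_mul, mul_ite, mul_one, mul_zero]
      rw [Finset.sum_ite_eq, if_pos (Finset.mem_univ _)]
    have h7 : ip (L.X e) (L.X a * L.X b - L.X b * L.X a) = 0 := by
      rw [map_sub]
      have h8 := h2 e a b
      have h9 := h2 e b a
      unfold hh at h8 h9
      rw [h8, h9, sub_zero]
    rw [← h6, hcx, h7]
  apply h
  rw [← sub_eq_zero, ← hcx]
  exact Finset.sum_eq_zero fun i _ => by rw [h5 i, zero_smul]

end

end Pool.Agent.Y16.YM
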