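import Mathlib
import Pool.Agent.Y16.YM.Nonv

/-!
# The series of the limit converges
-/

open MeasureTheory Matrix Filter
open scoped Matrix.Norms.Frobenius Topology
open Pool.Agent.H906R3.YM Pool.Agent.W793.YM Pool.Agent.TH940.YM
open Pool.Agent.W793.SCH (haf Near pk gK DD mx el TK S_B1 S_B2 S_TR S_W1 S_HAF green plaq_moment2
  a_TR)

namespace Pool.Agent.Y16.YM

set_option linter.unusedSectionVars false
set_option linter.unusedVariables false
set_option maxHeartbeats 400000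

noncomputable section

variable {d : ℕ}

lemma lm_bd (hd : 3 ≤ d) : ∃ K : ℝ, 0 < K ∧ ∀ (p q : Fin d × Fin d) (x : Zp d),
    |lm p q x| ≤ K := by
  obtain ⟨C, hC, -, h, -⟩ := a_TR d hd
  refine ⟨16 * C, by positivity, fun p q x => ?_⟩
  have h1 : ∀ j l : Fin d, |DD j l (green d) x| ≤ 4 * C := by
    intro j l
    rw [DD_val]
    have a1 := h (x + Pi.single j 1)
    have a2 := h x
    have a3 := h (x + Pi.single j 1 - Pi.single l 1)
    have a4 := h (x - Pi.single l 1)
    rw [abs_le] at *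
    constructor <;> linarith [a1.1, a1.2, a2.1, a2.2, a3.1, a3.2, a4.1, a4.2]
  have h2 : ∀ (c : Prop) [Decidable c] (j l : Fin d),
      |if c then DD j l (green d) x else 0| ≤ 4 * C := by
    intro c _ j l
    split_ifs
    · exact h1 j l
    · rw [abs_zero]; positivity
  rw [lm_val]
  have b1 := h2 (p.2 = q.2) p.1 q.1
  have b2 := h2 (p.2 = q.1) p.1 q.2
  have b3 := h2 (p.1 = q.2) p.2 q.1
  have b4 := h2 (p.1 = q.1) p.2 q.2
  rw [abs_le] at *
  constructor <;> linarith [b1.1, b1.2, b2.1, b2.2, b3.1, b3.2, b4.1, b4.2]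

lemma pl_bd {K : ℝ} (hK : 0 ≤ K) (h : ∀ (p q : Fin d × Fin d) (x : Zp d), |lm p q x| ≤ K)
    (i : Fin d) (x : Zp d) (q : Fin d × Fin d) : |pl i x q| ≤ l1 x * K :=
  pot_le hK i x fun j z _ _ => h _ _ _

lemma dt_bd {a b : Fin d × Fin d → ℝ} {s t : ℝ} (ha : ∀ q, |a q| ≤ s) (hb : ∀ q, |b q| ≤ t)
    (q r : Fin d × Fin d) : |dt a b q r| ≤ 2 * (s * t) := by
  have hs : 0 ≤ s := (abs_nonneg _).trans (ha q)
  unfold dt
  refine (abs_sub _ _).trans ?_
  rw [abs_mul, abs_mul]
  have h1 := mul_le_mul (ha q) (hb r) (abs_nonneg _) hs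
  have h2 := mul_le_mul (ha r) (hb q) (abs_nonneg _) hs
  linarith

lemma F_bd (hd : 3 ≤ d) (q r : Fin d × Fin d) : ∃ M : ℝ, 0 ≤ M ∧
    (∀ j k x, |omF q r j k x| ≤ M * (ll x + 1) ^ 2) ∧ ∀ k x, |siF q r k x| ≤ M * (ll x + 1) := by
  obtain ⟨K, hK, h⟩ := lm_bd hd
  have hd0 : (0:ℝ) ≤ d := Nat.cast_nonneg _
  refine ⟨12 * K ^ 2 + 4 * d * K ^ 2 + 8 * K, by positivity, fun j k x => ?_, fun k x => ?_⟩
  · have hl := ll_nonneg x
    rw [ll_l1] at hl ⊢
    have g0 : ∀ (i : Fin d) q, |pl i x q| ≤ ((l1 x : ℝ) + 1) * K := fun i q =>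
      (pl_bd hK.le h i x q).trans (mul_le_mul_of_nonneg_right (by linarith) hK.le)
    have g1 : ∀ (i j : Fin d) q, |pl i (x + ez j) q| ≤ ((l1 x : ℝ) + 1) * K := fun i j q => by
      refine (pl_bd hK.le h i _ q).trans (mul_le_mul_of_nonneg_right ?_ hK.le)
      have := l1_succ_le x j
      exact_mod_cast this
    have d12 := dt_bd (g0 j) (g1 k j) q r
    have d13 := dt_bd (g0 j) (g1 j k) q r
    have d14 := dt_bd (g0 j) (g0 k) q r
    have d23 := dt_bd (g1 k j) (g1 j k) q r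
    have d24 := dt_bd (g1 k j) (g0 k) q r
    have d34 := dt_bd (g1 j k) (g0 k) q r
    have e : |omF q r j k x| ≤ 6 * (2 * (((l1 x : ℝ) + 1) * K * (((l1 x : ℝ) + 1) * K))) := by
      unfold omF omL w4t
      rw [abs_le] at *
      constructor <;> linarith [d12.1, d12.2, d13.1, d13.2, d14.1, d14.2, d23.1, d23.2, d24.1,
        d24.2, d34.1, d34.2]
    refine e.trans ?_
    have p : 0 ≤ (4 * d * K ^ 2 + 8 * K) * ((l1 x : ℝ) + 1) ^ 2 := by positivity
    linarith
  · have hl := ll_nonneg x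
    rw [ll_l1] at hl ⊢
    have g1 : ∀ (j : Fin d) q, |pl j (x - ez j) q| ≤ ((l1 x : ℝ) + 1) * K := fun j q => by
      refine (pl_bd hK.le h j _ q).trans (mul_le_mul_of_nonneg_right ?_ hK.le)
      have := l1_pred_le x j
      exact_mod_cast this
    have h1 : |rhL k x q r| ≤ d * (2 * (2 * (((l1 x : ℝ) + 1) * K * K))) := by
      unfold rhL
      refine (Finset.abs_sum_le_sum_abs _ _).trans ?_
      calc _ ≤ ∑ _j : Fin d, 2 * (2 * (((l1 x : ℝ) + 1) * K * K)) := by
            refine Finset.sum_le_sum fun j _ => ?_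
            rw [abs_mul, abs_of_nonneg (by norm_num : (0:ℝ) ≤ 2)]
            exact mul_le_mul_of_nonneg_left (dt_bd (g1 j) (fun q => h _ _ _) q r) (by norm_num)
        _ = _ := by rw [Finset.sum_const, Finset.card_univ, Fintype.card_fin, nsmul_eq_mul]
    have h2 : |kaL k x q r| ≤ 8 * K := by
      unfold kaL
      rw [abs_mul]
      have s1 := sp_nonneg q x k
      have s2 := sp_nonneg r x k
      have s3 := sm_nonneg q x k
      have s4 := sm_nonneg r x k
      have s5 := sp_le q x k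
      have s6 := sp_le r x k
      have s7 := sm_le q x k
      have s8 := sm_le r x k
      refine mul_le_mul ?_ (h _ _ _) (abs_nonneg _) (by norm_num)
      rw [abs_le]
      constructor <;> linarith
    unfold siF
    refine (abs_sub _ _).trans ((add_le_add h1 h2).trans ?_)
    have p1 : 0 ≤ 12 * K ^ 2 * ((l1 x : ℝ) + 1) := by positivity
    have p2 : 0 ≤ 8 * K * (l1 x : ℝ) := by positivity
    linarith

/-- the series of the limit converges -/
theorem three_summable (hd : 3 ≤ d) {J : List (Fin d)} (hJ : 3 ≤ J.length)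
    (p q r : Fin d × Fin d) :
    Summable fun t => WJ J t (Lf (omF q r) (siF q r) p.1 p.2) := by
  obtain ⟨M, hM, h1, h2⟩ := F_bd hd q r
  refine Summable.of_norm_bounded ((BB_summable (by omega) hJ p.1 p.2).mul_left M) fun t => ?_
  rw [Real.norm_eq_abs]
  exact WJ_Lf_le J t hM h1 h2 p.1 p.2

end

end Pool.Agent.Y16.YM
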